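import Pool.Agent.RMK.S.SDefs

/-!
RMK FDEFS: definitions used in the final statement only.
-/

namespace RMK

open Set PU

/-- `δ` is an inaccessible cardinal of the inner model `W`: it is uncountable, every function of `W`
defined on some `γ < δ` is bounded below `δ`, and for every `α < δ` some function of `W` defined on an
ordinal `β < δ` has all subsets of `α` in `W` among its values. -/
structure InaccIn (W : Set ZFSet.{0}) (δ : Ordinal.{0}) : Prop where
  unc : Ordinal.omega0 < δ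
  reg : ∀ γ < δ, ∀ f ∈ W, (∀ ξ < γ, ∃! z, ZFSet.pair ξ.toZFSet z ∈ f) →
    ∃ η < δ, ∀ ξ < γ, ∀ ζ < δ, ZFSet.pair ξ.toZFSet ζ.toZFSet ∈ f → ζ < η
  str : ∀ α < δ, ∃ β < δ, ∃ f ∈ W,
    (∀ z ∈ W, z ⊆ α.toZFSet → ∃ ξ < β, ZFSet.pair ξ.toZFSet z ∈ f) ∧
      ∀ ξ < β, ∃! z, ZFSet.pair ξ.toZFSet z ∈ f

/-- The universe is Solovay's model `W[G]`: `W` is an inner model of ZFC, `κ = ω₁` is inaccessible in
`W`, `G` is a filter on the Levy collapse `Col(ω, < κ)` generic over `W`, and the universe is the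
generic extension `W[G]`, i.e. every subset of an element of `W` has a name in `W`. -/
structure SolovayModel (W G : Set ZFSet.{0}) : Prop where
  zfc : InnerZFC W
  inacc : InaccIn W (Ordinal.omega 1)
  gen : IsGeneric W (Col (Ordinal.omega 1)) (ColR (Ordinal.omega 1)) G
  names : ∀ a ∈ W, ∀ z, z ⊆ a → ∃ σ ∈ W, ∀ x, x ∈ z ↔ x ∈ a ∧ ∃ p ∈ G, ZFSet.pair x p ∈ σ

theorem SolovayModel.solovay {W G : Set ZFSet.{0}} (h : SolovayModel W G) : Solovay W G where
  zfc := h.zfc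
  inacc α := by
    obtain ⟨β, hβ, f, hf, h1, h2⟩ := h.inacc.str α.1 α.2
    refine ⟨⟨β, hβ⟩, f, hf, fun z hz hzα => ?_, fun ξ hξ => h2 ξ.1 hξ⟩
    obtain ⟨ξ, hξ, h3⟩ := h1 z hz hzα
    exact ⟨⟨ξ, hξ.trans hβ⟩, hξ, h3⟩
  gen := h.gen
  names := h.names

end RMK
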