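import Pool.Agent.RMK.S.ZSat

/-!
RMK TRA: translation of Mathlib's first-order definability over a class `M` into the formulas `Fml`.

PROOFS.
`ren`: renaming of variables of `Fml` by an injective map; `sat_ren`: `Sat E A (ren f φ) s ↔ Sat E A φ (s ∘ f)` for
injective `f` (induction; `update s (f i) a ∘ f = update (s ∘ f) i a`).
`md_fml`: by definition `MD M P` gives a Mathlib formula `φ` over `LSet[[univ]]` with free variables in `ℕ`
(`Ctx.ι M (ℕ → M) = ℕ`).  Prove for all `n` and `ψ : LSet[[univ]].BoundedFormula ℕ n`: there are `θ : Fml` and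
`s : ℕ → M` such that for all `v : ℕ → M`, `xs : Fin n → M`: `ψ.Realize v xs ↔ Sat (relE A) M θ w`, where
`w (3 i) = v i`, `w (3 i + 1) = xs i` for `i < n` (anything else, say `s 0`, for `i ≥ n`), `w (3 i + 2) = s i`.
Terms are variables (`Sum.inl`, `Sum.inr`) or constants `c ∈ M` (the language `LSet` has no functions; a
constant of `constantsOn univ`); `equal`: `Fml.eq`; `rel` with `MemSym.mem`: `x ∈ y` is equivalent to
`relE A x y ∧ x ≠ y` (a set is not an element of itself), so `and (mem i j) (neg (eq i j))`; constants are put into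
`s 0`, `s 1`.  `falsum`: `and (eq 2 2) (neg (eq 2 2))`.  `imp`: given `θ₁, s₁` and `θ₂, s₂`, let `s (2 i) = s₁ i`, `s (2 i + 1) =
s₂ i` and rename (`ren`): `3 i + 2 ↦ 3 (2 i) + 2` resp. `3 (2 i + 1) + 2`, the other variables unchanged; for the
junk values at `3 i + 1`, `i ≥ n`, note that the truth does not depend on them if the statement is proved for ALL
values of the junk (state the induction for arbitrary `w` with `w (3 i) = v i`, `w (3 i + 1) = xs i` for `i < n`,
`w (3 i + 2) = s i`, all values in `M`).  `all`: the new variable is `xs n`, i.e. variable `3 n + 1`: `Fml.all (3 n + 1) θ`.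
For `n = 0` rename `3 i ↦ 2 i`, `3 i + 2 ↦ 2 (2 i) + 1`, `3 i + 1 ↦ 2 (2 i + 1) + 1` with junk `s`.
`md_fml1`: apply `md_fml` to `v ↦ P (v 0)` (`MD.comp`), then rename `0 ↦ 0`, and `n ↦ n + 1` for `n > 0`, with the values
of the even variables `2 i`, `i > 0`, fixed to be an element of `M` (e.g. `s 0`).
`md_fml4`: apply `md_fml` to `v ↦ P (v 0, v 1, v 2, v 3)`, rename `0, 2, 4, 6 ↦ 0, 1, 2, 3`, `n ↦ n + 4` otherwise.
-/

namespace RMK

open Set PU FirstOrder FirstOrder.Language

variable {M : Set ZFSet.{0}}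

/-- renaming of variables -/
def ren (f : ℕ → ℕ) : Fml → Fml
  | .mem i j => .mem (f i) (f j)
  | .eq i j => .eq (f i) (f j)
  | .neg φ => .neg (ren f φ)
  | .and φ ψ => .and (ren f φ) (ren f ψ)
  | .all i φ => .all (f i) (ren f φ)

theorem sat_ren {U : Type*} {E : U → U → Prop} {A : Set U} {f : ℕ → ℕ}
    (hf : Function.Injective f) (φ : Fml) (s : ℕ → U) :
    Sat E A (ren f φ) s ↔ Sat E A φ (s ∘ f) := by
  induction φ generalizing s with
  | mem i j => exact Iff.rfl
  | eq i j => exact Iff.rfl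
  | neg φ ih => exact not_congr (ih s)
  | and φ ψ ih1 ih2 => exact and_congr (ih1 s) (ih2 s)
  | all i φ ih =>
    refine forall_congr' fun a => forall_congr' fun _ => ?_
    rw [ih]
    have e : Function.update s (f i) a ∘ f = Function.update (s ∘ f) i a := by
      funext k
      by_cases hk : k = i
      · subst hk
        simp
      · rw [Function.update_of_ne hk, Function.comp_apply, Function.update_of_ne (hf.ne hk)]
        rfl
    rw [e]

private theorem tm {n : ℕ} (t : LSet[[(Set.univ : Set M)]].Term (ℕ ⊕ Fin n)) :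
    ∃ l : List M, ∀ s : ℕ → M, (∀ c ∈ l, ∃ i, s i = c) → ∃ k : ℕ, ∀ w : ℕ → M,
      (∀ i, w (4 * i + 1) = s i) →
      t.realize (Sum.elim (fun i => w (2 * i)) (fun i : Fin n => w (4 * i.1 + 3))) = w k := by
  cases t with
  | var x =>
    refine ⟨[], fun s _ => ?_⟩
    rcases x with i | i
    · exact ⟨2 * i, fun w _ => rfl⟩
    · exact ⟨4 * i.1 + 3, fun w _ => rfl⟩
  | @func m f ts =>
    rcases f with f | f
    · exact f.elim
    · cases m with
      | zero =>
        let c : (Set.univ : Set M) := f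
        refine ⟨[c.1], fun s hs => ?_⟩
        obtain ⟨i, hi⟩ := hs c.1 (List.mem_singleton.2 rfl)
        refine ⟨4 * i + 1, fun w hw => ?_⟩
        rw [hw i, hi]
        rfl
      | succ m => exact f.elim

private theorem bfml (A : Set ZFSet.{0}) {n : ℕ}
    (ψ : LSet[[(Set.univ : Set M)]].BoundedFormula ℕ n) :
    ∃ l : List M, ∀ s : ℕ → M, (∀ c ∈ l, ∃ i, s i = c) → ∃ θ : Fml, ∀ w : ℕ → M,
      (∀ i, w (4 * i + 1) = s i) →
      (ψ.Realize (fun i => w (2 * i)) (fun i : Fin n => w (4 * i.1 + 3)) ↔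
        Sat (relE A) M θ (fun k => (w k).1)) := by
  induction ψ with
  | falsum =>
    refine ⟨[], fun s _ => ⟨.and (.eq 0 0) (.neg (.eq 0 0)), fun w _ => ?_⟩⟩
    constructor
    · intro h
      exact h.elim
    · intro h
      exact h.2 h.1
  | @equal n t₁ t₂ =>
    obtain ⟨l₁, h₁⟩ := tm t₁
    obtain ⟨l₂, h₂⟩ := tm t₂
    refine ⟨l₁ ++ l₂, fun s hs => ?_⟩
    obtain ⟨k₁, hk₁⟩ := h₁ s fun c hc => hs c (List.mem_append_left _ hc)
    obtain ⟨k₂, hk₂⟩ := h₂ s fun c hc => hs c (List.mem_append_right _ hc)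
    refine ⟨.eq k₁ k₂, fun w hw => ?_⟩
    have e₁ := hk₁ w hw
    have e₂ := hk₂ w hw
    have h3 : (BoundedFormula.equal t₁ t₂).Realize (fun i => w (2 * i))
        (fun i : Fin n => w (4 * i.1 + 3)) ↔ w k₁ = w k₂ := by
      rw [← e₁, ← e₂]
      exact Iff.rfl
    rw [h3]
    exact Subtype.ext_iff
  | @rel n m R ts =>
    rcases R with R | R
    · cases R with
      | mem =>
        obtain ⟨l₁, h₁⟩ := tm (ts 0)
        obtain ⟨l₂, h₂⟩ := tm (ts 1)
        refine ⟨l₁ ++ l₂, fun s hs => ?_⟩
        obtain ⟨k₁, hk₁⟩ := h₁ s fun c hc => hs c (List.mem_append_left _ hc)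
        obtain ⟨k₂, hk₂⟩ := h₂ s fun c hc => hs c (List.mem_append_right _ hc)
        refine ⟨.and (.mem k₁ k₂) (.neg (.eq k₁ k₂)), fun w hw => ?_⟩
        have e₁ := hk₁ w hw
        have e₂ := hk₂ w hw
        have h3 : (BoundedFormula.rel (L := LSet[[(Set.univ : Set M)]])
            (Sum.inl MemSym.mem) ts).Realize (fun i => w (2 * i))
            (fun i : Fin n => w (4 * i.1 + 3)) ↔ (w k₁).1 ∈ (w k₂).1 := by
          rw [← e₁, ← e₂]
          exact Iff.rfl
        rw [h3]
        constructor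
        · intro h
          refine ⟨Or.inl h, fun he => ?_⟩
          have he' : (w k₁).1 = (w k₂).1 := he
          rw [he'] at h
          exact ZFSet.mem_irrefl _ h
        · rintro ⟨h | h, hne⟩
          · exact h
          · exact (hne h.1).elim
    · exact isEmptyElim R
  | @imp n ψ₁ ψ₂ ih₁ ih₂ =>
    obtain ⟨l₁, h₁⟩ := ih₁
    obtain ⟨l₂, h₂⟩ := ih₂
    refine ⟨l₁ ++ l₂, fun s hs => ?_⟩
    obtain ⟨θ₁, hk₁⟩ := h₁ s fun c hc => hs c (List.mem_append_left _ hc)
    obtain ⟨θ₂, hk₂⟩ := h₂ s fun c hc => hs c (List.mem_append_right _ hc)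
    refine ⟨.neg (.and θ₁ (.neg θ₂)), fun w hw => ?_⟩
    rw [BoundedFormula.realize_imp, hk₁ w hw, hk₂ w hw]
    show _ ↔ ¬ (_ ∧ ¬ _)
    exact not_and_not_right.symm
  | @all n ψ ih =>
    obtain ⟨l, h⟩ := ih
    refine ⟨l, fun s hs => ?_⟩
    obtain ⟨θ, hθ⟩ := h s hs
    refine ⟨.all (4 * n + 3) θ, fun w hw => ?_⟩
    rw [BoundedFormula.realize_all]
    have key : ∀ a : M, (ψ.Realize (fun i => w (2 * i))
        (Fin.snoc (fun i : Fin n => w (4 * i.1 + 3)) a) ↔
        Sat (relE A) M θ (Function.update (fun k => (w k).1) (4 * n + 3) a.1)) := by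
      intro a
      have h1 := hθ (Function.update w (4 * n + 3) a) (fun i => by
        rw [Function.update_of_ne (by omega), hw i])
      have e1 : (fun i => Function.update w (4 * n + 3) a (2 * i)) = fun i => w (2 * i) := by
        funext i
        rw [Function.update_of_ne (by omega)]
      have e2 : (fun i : Fin (n + 1) => Function.update w (4 * n + 3) a (4 * i.1 + 3)) =
          Fin.snoc (fun i : Fin n => w (4 * i.1 + 3)) a := by
        funext i
        refine Fin.lastCases ?_ (fun j => ?_) i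
        · rw [Fin.snoc_last, Fin.val_last, Function.update_self]
        · rw [Fin.snoc_castSucc, Fin.val_castSucc, Function.update_of_ne (by
            have := j.2
            omega)]
      have e3 : (fun k => (Function.update w (4 * n + 3) a k).1) =
          Function.update (fun k => (w k).1) (4 * n + 3) a.1 := by
        funext k
        by_cases hk : k = 4 * n + 3
        · subst hk
          rw [Function.update_self, Function.update_self]
        · rw [Function.update_of_ne hk, Function.update_of_ne hk]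
      rw [e1, e2, e3] at h1
      exact h1
    constructor
    · intro h1 a ha
      exact (key ⟨a, ha⟩).1 (h1 ⟨a, ha⟩)
    · intro h1 a
      exact (key a).2 (h1 a.1 a.2)

theorem md_fml (A : Set ZFSet.{0}) {P : (ℕ → M) → Prop} (hP : MD M P) (hne : M.Nonempty) :
    ∃ (φ : Fml) (s : ℕ → M), ∀ v : ℕ → M, P v ↔
      Sat (relE A) M φ fun n => if n % 2 = 0 then (v (n / 2)).1 else (s (n / 2)).1 := by
  obtain ⟨ψ, hψ⟩ := hP
  have hψ' : ∀ v : ℕ → M, P v ↔ Formula.Realize (α := ℕ) ψ v := fun v => by
    have h1 : v ∈ {v : ℕ → M | P v} ↔ v ∈ Set.ofPred (Formula.Realize (α := ℕ) ψ) := by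
      exact iff_of_eq (congrArg (fun S : Set (ℕ → M) => v ∈ S) hψ)
    exact h1
  obtain ⟨l, hl⟩ := bfml A (n := 0) (M := M) ψ
  obtain ⟨x0, hx0⟩ := hne
  let s : ℕ → M := fun i => l.getD i ⟨x0, hx0⟩
  have hs : ∀ c ∈ l, ∃ i, s i = c := by
    intro c hc
    obtain ⟨i, hi, rfl⟩ := List.mem_iff_getElem.1 hc
    exact ⟨i, List.getD_eq_getElem _ _ hi⟩
  obtain ⟨θ, hθ⟩ := hl s hs
  refine ⟨θ, fun i => s (i / 2), fun v => ?_⟩
  have h1 := hθ (fun n => if n % 2 = 0 then v (n / 2) else s (n / 2 / 2)) (fun i => by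
    show (if (4 * i + 1) % 2 = 0 then v ((4 * i + 1) / 2) else s ((4 * i + 1) / 2 / 2)) = s i
    rw [if_neg (by omega)]
    congr 1
    omega)
  have e1 : (fun i => (fun n => if n % 2 = 0 then v (n / 2) else s (n / 2 / 2)) (2 * i)) = v := by
    funext i
    show (if (2 * i) % 2 = 0 then v ((2 * i) / 2) else s ((2 * i) / 2 / 2)) = v i
    rw [if_pos (by omega)]
    congr 1
    omega
  have e3 : (fun k => ((fun n => if n % 2 = 0 then v (n / 2) else s (n / 2 / 2)) k).1) =
      fun n => if n % 2 = 0 then (v (n / 2)).1 else (s (n / 2 / 2)).1 := by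
    funext k
    show (if k % 2 = 0 then v (k / 2) else s (k / 2 / 2)).1 = _
    split_ifs <;> rfl
  rw [e1, e3] at h1
  rw [hψ' v, ← h1]
  unfold Formula.Realize
  rw [Subsingleton.elim (fun i : Fin 0 => _) (default : Fin 0 → M)]

theorem md_fml1 (A : Set ZFSet.{0}) {P : M → Prop} (hP : MD M P) (hne : M.Nonempty) :
    ∃ (φ : Fml) (s : ℕ → ZFSet.{0}), (∀ i, s i ∈ M) ∧
      ∀ z : M, P z ↔ Sat (relE A) M φ (Function.update s 0 z.1) := by
  obtain ⟨φ, s, h⟩ := md_fml A (P := fun v : ℕ → M => P (v 0))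
    (MD.comp hP (DFc.app DFc.id 0)) hne
  refine ⟨φ, fun n => if n % 2 = 0 then (s 0).1 else (s (n / 2)).1, fun i => ?_, fun z => ?_⟩
  · show (if i % 2 = 0 then (s 0).1 else (s (i / 2)).1) ∈ M
    split_ifs
    · exact (s 0).2
    · exact (s (i / 2)).2
  · have h1 := h (fun i => if i = 0 then z else s 0)
    have e1 : (fun n => if n % 2 = 0 then ((fun i => if i = 0 then z else s 0) (n / 2)).1
        else (s (n / 2)).1) = Function.update
        (fun n => if n % 2 = 0 then (s 0).1 else (s (n / 2)).1) 0 z.1 := by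
      funext n
      by_cases hn : n = 0
      · subst hn
        rw [Function.update_self]
        rfl
      · rw [Function.update_of_ne hn]
        by_cases h2 : n % 2 = 0
        · rw [if_pos h2, if_pos h2]
          show (if n / 2 = 0 then z else s 0).1 = (s 0).1
          rw [if_neg (by omega)]
        · rw [if_neg h2, if_neg h2]
    rw [e1] at h1
    exact h1

theorem md_fml4 (A : Set ZFSet.{0}) {P : M × M × M × M → Prop} (hP : MD M P)
    (hne : M.Nonempty) :
    ∃ (φ : Fml) (s : ℕ → ZFSet.{0}), (∀ i, s i ∈ M) ∧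
      ∀ x0 x1 x2 x3 : M, P (x0, x1, x2, x3) ↔ Sat (relE A) M φ fun i =>
        if i = 0 then x0.1 else if i = 1 then x1.1 else if i = 2 then x2.1
        else if i = 3 then x3.1 else s i := by
  obtain ⟨φ, s, h⟩ := md_fml A (P := fun v : ℕ → M => P (v 0, v 1, v 2, v 3))
    (MD.comp hP (DFc.mk (DFc.app DFc.id 0) (DFc.mk (DFc.app DFc.id 1)
      (DFc.mk (DFc.app DFc.id 2) (DFc.app DFc.id 3))))) hne
  let f : ℕ → ℕ := fun n => if n = 0 then 0 else if n = 2 then 1 else if n = 4 then 2
    else if n = 6 then 3 else n + 4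
  have hf : Function.Injective f := by
    intro a b hab
    simp only [f] at hab
    split_ifs at hab <;> omega
  let B : ℕ → ZFSet.{0} := fun n => if n % 2 = 0 then (s 0).1 else (s (n / 2)).1
  have hB : ∀ n, B n ∈ M := by
    intro n
    show (if n % 2 = 0 then (s 0).1 else (s (n / 2)).1) ∈ M
    split_ifs
    · exact (s 0).2
    · exact (s (n / 2)).2
  refine ⟨ren f φ, fun i => B (i - 4), fun i => hB _, fun x0 x1 x2 x3 => ?_⟩
  rw [sat_ren hf]
  have h1 := h (fun i => if i = 0 then x0 else if i = 1 then x1 else if i = 2 then x2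
    else if i = 3 then x3 else s 0)
  have e1 : (fun n => if n % 2 = 0 then ((fun i => if i = 0 then x0 else if i = 1 then x1
      else if i = 2 then x2 else if i = 3 then x3 else s 0) (n / 2)).1 else (s (n / 2)).1) =
      (fun i => if i = 0 then x0.1 else if i = 1 then x1.1 else if i = 2 then x2.1
        else if i = 3 then x3.1 else B (i - 4)) ∘ f := by
    funext n
    show (if n % 2 = 0 then (if n / 2 = 0 then x0 else if n / 2 = 1 then x1
      else if n / 2 = 2 then x2 else if n / 2 = 3 then x3 else s 0).1 else (s (n / 2)).1) =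
      (if f n = 0 then x0.1 else if f n = 1 then x1.1 else if f n = 2 then x2.1
        else if f n = 3 then x3.1 else B (f n - 4))
    by_cases c0 : n = 0
    · subst c0
      rfl
    by_cases c2 : n = 2
    · subst c2
      rfl
    by_cases c4 : n = 4
    · subst c4
      rfl
    by_cases c6 : n = 6
    · subst c6
      rfl
    have hfn : f n = n + 4 := by
      show (if n = 0 then 0 else if n = 2 then 1 else if n = 4 then 2
        else if n = 6 then 3 else n + 4) = n + 4
      rw [if_neg c0, if_neg c2, if_neg c4, if_neg c6]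
    rw [hfn, if_neg (show ¬ n + 4 = 0 by omega), if_neg (show ¬ n + 4 = 1 by omega),
      if_neg (show ¬ n + 4 = 2 by omega), if_neg (show ¬ n + 4 = 3 by omega),
      Nat.add_sub_cancel]
    show _ = (if n % 2 = 0 then (s 0).1 else (s (n / 2)).1)
    by_cases h2 : n % 2 = 0
    · rw [if_pos h2, if_pos h2, if_neg (show ¬ n / 2 = 0 by omega),
        if_neg (show ¬ n / 2 = 1 by omega), if_neg (show ¬ n / 2 = 2 by omega),
        if_neg (show ¬ n / 2 = 3 by omega)]
    · rw [if_neg h2, if_neg h2]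
  rw [e1] at h1
  exact h1

theorem definable₁_md {S : Set M} (h : (Set.univ : Set M).Definable₁ LSet S) :
    MD M fun x => x ∈ S := by
  exact Definable.preimage_comp (fun _ : Fin 1 => ()) h

end RMK
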