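import Pool.Agent.RMK.S.ZRec
import Pool.Agent.RMK.S.Tra

/-!
RMK WZF: an inner model `W` of ZFC is a model as in `ZF0`; the sets `V_α ∩ W`.

PROOFS.
`InnerZFC.zf0`: `om`: `ord`.  `sep`: `MD.definable₁` and `sep`.  `repl`: the graph of `F` is `MD` on the context
`W × W`, reindex the variables `Unit ⊕ Unit ≃ Fin 2` (`Set.Definable.preimage_comp` or `image_comp_equiv`) to get
`Definable₂ LSet {p | p.2 = F p.1}`.
`exists_powF`: the power set in `W` as a definable function (graph: `∀ z : W, z ∈ y ↔ ∀ w : W, w ∈ z → w ∈ x`).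
`exists_vw`: `recOrd` in `W` with `F α h = ⋃_{ξ ∈ α} Pow (apZ h ξ)` (`unionF`), so `H (α) = V_α ∩ W` by induction on `α`:
`z ∈ V_ α ↔ ∃ β < α, z ⊆ V_ β` (`mem_vonNeumann'`), and for `z ∈ W`: `z ⊆ V_ β ↔ z ⊆ V_β ∩ W` (transitivity of `W`).
`inter_W`: for `x, y ∈ W`: `x ∩ y ∈ W` etc., by separation.
`power_countable`: let `x ∈ W` be countable.  `choice` gives `α` and `f ∈ W`, a function on `α` onto `x`.  Let `R ⊆ α` be the
set of the least indices of the elements of `x` (in `W` by separation); it is countable.  The collapse `c` of `R`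
(`exists_colM`) is a function in `W` from `R` onto an ordinal `β` (`apZ c ξ = {apZ c η | η ∈ ξ ∩ R}`, an order isomorphism
onto an ordinal, by induction), countable since `R` is, so `β < ω₁` (`lt_omega1_iff`).  So there is `g ∈ W`, `g : β → x`
a bijection (`g = {pair (apZ c ξ) (apZ f ξ) | ξ ∈ R}`).  `z ↦ {ξ < β | g ξ ∈ z}` is an injection from `{y ∈ W | y ⊆ x}` into
`{z ∈ W | z ⊆ toZ β}`; the latter is countable by `inacc`: it is covered by the values of a function on a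
countable ordinal.
`vw_countable`: induction on `α`: `V_α ∩ W = ⋃_{β < α} {y ∈ W | y ⊆ V_β ∩ W}`, and the set `V_β ∩ W` (`exists_vw`) is
countable by induction; `power_countable`; countably many `β`.
-/

namespace RMK

open Set PU
open scoped ZFSet

variable {W G : Set ZFSet.{0}}

private theorem wkv {X Y : Type 1} [Ctx W X] [Ctx W Y] {f : X → Y} (h : DFc W f) :
    DFc W fun p : X × W => f p.1 := h.comp (DFc.fst DFc.id)

private theorem lvv {X : Type 1} [Ctx W X] : DFc W fun p : X × W => p.2 := DFc.snd DFc.id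

private theorem pmem (hz : ZF0 W) {X : Type 1} [Ctx W X] {f g h : X → W} (hf : DFc W f)
    (hg : DFc W g) (hh : DFc W h) : MD W fun x => ZFSet.pair (f x).1 (g x).1 ∈ (h x).1 :=
  (MD.mem (DFc.zpr hz hf hg) hh :)

theorem InnerZFC.zf0 (h : InnerZFC W) : ZF0 W := by
  refine ⟨h.trans, h.pair, h.union, h.ord _, ?_, ?_⟩
  · intro P hP a
    obtain ⟨b, hb, h1⟩ := h.sep {x | P x} (MD.definable₁ hP) a.1 a.2
    exact ⟨⟨b, hb⟩, h1⟩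
  · intro F hF a
    have hg : (Set.univ : Set W).Definable₂ LSet {p : W × W | p.2 = F p.1} :=
      Definable.preimage_comp (Sum.elim (fun _ : Unit => (0 : Fin 2)) fun _ : Unit => 1)
        (DFc.graph hF)
    obtain ⟨b, hb, h1⟩ := h.repl _ hg (fun x y y' h1 h2 => h1.trans h2.symm) a.1 a.2
    exact ⟨⟨b, hb⟩, fun z => h1 z⟩

theorem InnerZFC.inter (h : InnerZFC W) {x y : ZFSet.{0}} (hx : x ∈ W) (hy : y ∈ W) :
    x ∩ y ∈ W := by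
  have hz := h.zf0
  obtain ⟨b, hb⟩ := hz.sep (fun z : W => z.1 ∈ (⟨y, hy⟩ : W).1)
    (MD.mem DFc.id (DFc.const _)) ⟨x, hx⟩
  have e : x ∩ y = b.1 := by
    ext z
    rw [ZFSet.mem_inter]
    constructor
    · rintro ⟨h1, h2⟩
      exact (hb ⟨z, h.trans x hx z h1⟩).2 ⟨h1, h2⟩
    · intro h1
      exact (hb ⟨z, h.trans _ b.2 z h1⟩).1 h1
  rw [e]
  exact b.2

theorem exists_powF (h : InnerZFC W) : ∃ F : W → W, DFc W F ∧
    ∀ x z : W, z.1 ∈ (F x).1 ↔ z.1 ⊆ x.1 := by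
  have h1 : ∀ x : W, ∃ y : W, ∀ z : W, z.1 ∈ y.1 ↔ z.1 ⊆ x.1 := by
    intro x
    obtain ⟨y, hy, h2⟩ := h.power x.1 x.2
    refine ⟨⟨y, hy⟩, fun z => ?_⟩
    exact (h2 z.1).trans ⟨fun h3 => h3.2, fun h3 => ⟨z.2, h3⟩⟩
  choose F hF using h1
  refine ⟨F, ?_, hF⟩
  refine DFc.of_graph ?_
  refine MD.congr (P := fun p : W × W => ∀ z : W, z.1 ∈ p.2.1 ↔
    ∀ w : W, w.1 ∈ z.1 → w.1 ∈ p.1.1) ?_ ?_
  · intro p
    have hs : ∀ z : W, (∀ w : W, w.1 ∈ z.1 → w.1 ∈ p.1.1) ↔ z.1 ⊆ p.1.1 := by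
      intro z
      constructor
      · intro h3 w hw
        exact h3 ⟨w, h.trans _ z.2 w hw⟩ hw
      · intro h3 w hw
        exact h3 hw
    constructor
    · intro h2
      refine h.zf0.ext fun z => ?_
      rw [h2 z, hs, hF]
    · intro h2 z
      rw [h2, hF, hs]
  · have e1 : DFc W fun q : (W × W) × W => q.1.1 := DFc.fst (DFc.fst DFc.id)
    have e2 : DFc W fun q : (W × W) × W => q.1.2 := DFc.snd (DFc.fst DFc.id)
    have e3 : DFc W fun q : (W × W) × W => q.2 := DFc.snd DFc.id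
    exact MD.all (MD.iff (MD.mem e3 e2) (MD.all (MD.imp (MD.mem lvv (wkv e3)) (MD.mem lvv (wkv e1)))))

theorem exists_vw (h : InnerZFC W) (α : Ordinal.{0}) : ∃ v ∈ W, ∀ z, z ∈ v ↔ z ∈ W ∧ z ∈ V_ α := by
  have hz := h.zf0
  obtain ⟨P, hP, hP'⟩ := exists_powF h
  obtain ⟨f, hf, hf'⟩ := hz.unionF (X := W × W × W) (a := fun p => p.2.1)
    (DFc.fst (DFc.snd DFc.id)) (F := fun p ξ => P (zap hz p.2.2 ξ))
    (DFc.comp hP (DFc.zap hz (DFc.snd (DFc.snd (DFc.fst DFc.id))) (DFc.snd DFc.id)))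
  obtain ⟨H, -, hH⟩ := recOrd hz (X := W) (F := fun x γ k => f (x, γ, k)) hf
  obtain ⟨O, hO⟩ : ∃ O : Ordinal.{0} → W, ∀ β, (O β).1 = β.toZFSet :=
    ⟨fun β => ⟨β.toZFSet, h.ord β⟩, fun _ => rfl⟩
  have key : ∀ β : Ordinal.{0}, ∀ z : W, z.1 ∈ (H (O 0) (O β)).1 ↔ z.1 ∈ V_ β := by
    intro β
    induction β using WellFoundedLT.induction with
    | ind β ih =>
    intro z
    obtain ⟨k, hk1, hk2, hk3⟩ := hH (O 0) (O β) ⟨β, hO β⟩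
    rw [hk3, hf', ZFSet.mem_vonNeumann']
    constructor
    · rintro ⟨ξ, hξ, h1⟩
      rw [hP'] at h1
      have hξ' : ξ.1 ∈ (O β).1 := hξ
      have hξ2 := hξ'
      rw [hO] at hξ2
      obtain ⟨γ, hγ, e⟩ := Ordinal.mem_toZFSet_iff.1 hξ2
      have e' : ξ = O γ := Subtype.ext (by rw [hO]; exact e.symm)
      refine ⟨γ, hγ, ?_⟩
      have h2 : z.1 ⊆ (zap hz k ξ).1 := h1
      rw [hk2 ξ hξ', e'] at h2
      intro w hw
      exact (ih γ hγ ⟨w, h.trans _ z.2 _ hw⟩).1 (h2 hw)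
    · rintro ⟨γ, hγ, h1⟩
      have hξ : (O γ).1 ∈ (O β).1 := by
        rw [hO, hO]
        exact Ordinal.toZFSet_mem_toZFSet_iff.2 hγ
      refine ⟨O γ, hξ, ?_⟩
      rw [hP']
      have h2 : z.1 ⊆ (zap hz k (O γ)).1 := by
        rw [hk2 _ hξ]
        intro w hw
        exact (ih γ hγ ⟨w, h.trans _ z.2 _ hw⟩).2 (h1 hw)
      exact h2
  refine ⟨(H (O 0) (O α)).1, (H (O 0) (O α)).2, fun z => ?_⟩
  constructor
  · intro h1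
    have hzW := h.trans _ (H (O 0) (O α)).2 z h1
    exact ⟨hzW, (key α ⟨z, hzW⟩).1 h1⟩
  · rintro ⟨h1, h2⟩
    exact (key α ⟨z, h1⟩).2 h2

theorem power_countable (h : Solovay W G) {x : ZFSet.{0}} (hx : x ∈ W)
    (hc : {z : ZFSet.{0} | z ∈ x}.Countable) : {y : ZFSet.{0} | y ∈ W ∧ y ⊆ x}.Countable := by
  classical
  have hz := h.zfc.zf0
  have htr := h.zfc.trans
  obtain ⟨α, f, hf, hf1, hf2⟩ := h.zfc.choice x hx
  have huniq : ∀ ξ z z', ξ ∈ α.toZFSet → ZFSet.pair ξ z ∈ f → ZFSet.pair ξ z' ∈ f → z = z' := by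
    intro ξ z z' hξ h1 h2
    obtain ⟨β, hβ, rfl⟩ := Ordinal.mem_toZFSet_iff.1 hξ
    exact (hf2 β hβ).unique h1 h2
  obtain ⟨R, hR⟩ := hz.sep (fun ξ : W => ∃ z : W, z.1 ∈ (⟨x, hx⟩ : W).1 ∧
      ZFSet.pair ξ.1 z.1 ∈ (⟨f, hf⟩ : W).1 ∧
        ∀ η : W, η.1 ∈ ξ.1 → ¬ ZFSet.pair η.1 z.1 ∈ (⟨f, hf⟩ : W).1)
    (MD.ex (MD.and (MD.mem lvv (DFc.const _)) (MD.and (pmem hz (wkv DFc.id) lvv (DFc.const _))
      (MD.all (MD.imp (MD.mem lvv (wkv (wkv DFc.id)))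
        (MD.not (pmem hz lvv (wkv lvv) (DFc.const _)))))))) ⟨α.toZFSet, h.zfc.ord α⟩
  have hR1 : ∀ ξ ∈ R.1, ξ ∈ α.toZFSet := fun ξ hξ => ((hR ⟨ξ, htr _ R.2 ξ hξ⟩).1 hξ).1
  have hRc : {ξ : ZFSet.{0} | ξ ∈ R.1}.Countable := by
    refine (hc.biUnion (t := fun z _ => {ξ : ZFSet.{0} | ξ ∈ α.toZFSet ∧ ZFSet.pair ξ z ∈ f ∧
      ∀ η ∈ ξ, ZFSet.pair η z ∉ f}) fun z _ => Set.Subsingleton.countable ?_).mono ?_
    · rintro ξ ⟨h1, h2, h3⟩ ξ' ⟨h1', h2', h3'⟩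
      obtain ⟨β, hβ, rfl⟩ := Ordinal.mem_toZFSet_iff.1 h1
      obtain ⟨β', hβ', rfl⟩ := Ordinal.mem_toZFSet_iff.1 h1'
      rcases lt_trichotomy β β' with h4 | h4 | h4
      · exact absurd h2 (h3' _ (Ordinal.toZFSet_mem_toZFSet_iff.2 h4))
      · rw [h4]
      · exact absurd h2' (h3 _ (Ordinal.toZFSet_mem_toZFSet_iff.2 h4))
    · intro ξ hξ
      have hξW : ξ ∈ W := htr _ R.2 ξ hξ
      obtain ⟨h1, z, h2, h3, h4⟩ := (hR ⟨ξ, hξW⟩).1 hξ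
      exact Set.mem_biUnion (show z.1 ∈ {z : ZFSet.{0} | z ∈ x} from h2)
        ⟨h1, h3, fun η hη => h4 ⟨η, htr _ hξW η hη⟩ hη⟩
  obtain ⟨c, hc1, hc2⟩ := exists_colM hz R
  have hord : ∀ β : Ordinal.{0}, β.toZFSet ∈ R.1 → (apZ c.1 β.toZFSet).IsOrdinal := by
    intro β
    induction β using WellFoundedLT.induction with
    | ind β ih =>
    intro hβ
    rw [ZFSet.isOrdinal_iff_forall_mem_isOrdinal]
    constructor
    · intro w hw v hv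
      obtain ⟨z, hz1, hz2, rfl⟩ := (hc2 _ hβ w).1 hw
      obtain ⟨u, hu1, hu2, rfl⟩ := (hc2 _ hz2 v).1 hv
      exact (hc2 _ hβ _).2 ⟨u, (ZFSet.isOrdinal_toZFSet β).mem_trans hu1 hz1, hu2, rfl⟩
    · intro w hw
      obtain ⟨z, hz1, hz2, rfl⟩ := (hc2 _ hβ w).1 hw
      obtain ⟨γ, hγ, rfl⟩ := Ordinal.mem_toZFSet_iff.1 hz1
      exact ih γ hγ hz2
  have hord' : ∀ ξ ∈ R.1, (apZ c.1 ξ).IsOrdinal := by
    intro ξ hξ
    obtain ⟨β, hβ, rfl⟩ := Ordinal.mem_toZFSet_iff.1 (hR1 ξ hξ)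
    exact hord β hξ
  obtain ⟨ran, -, hran⟩ := hz.exists_ran
  obtain ⟨B, hBW, hB⟩ : ∃ B ∈ W, ∀ w, w ∈ B ↔ ∃ ξ ∈ R.1, w = apZ c.1 ξ := by
    refine ⟨(ran c).1, (ran c).2, fun w => ?_⟩
    constructor
    · intro hw
      have hwW : w ∈ W := htr _ (ran c).2 w hw
      obtain ⟨y, hy⟩ := (hran c ⟨w, hwW⟩).1 hw
      obtain ⟨d, hd, y', e⟩ := hc1.1 _ hy
      obtain ⟨e1, e2⟩ := ZFSet.pair_inj.1 e
      have hd' : y.1 ∈ R.1 := by rw [e1]; exact hd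
      exact ⟨y.1, hd', ((apZ_eq hc1 hd').2 hy).symm⟩
    · rintro ⟨ξ, hξ, rfl⟩
      have hξW : ξ ∈ W := htr _ R.2 ξ hξ
      have h1 : ZFSet.pair ξ (apZ c.1 ξ) ∈ c.1 := (apZ_eq hc1 hξ).1 rfl
      exact (hran c ⟨apZ c.1 ξ, hz.apZ_mem c.2⟩).2 ⟨⟨ξ, hξW⟩, h1⟩
  have hBo : B.IsOrdinal := by
    rw [ZFSet.isOrdinal_iff_forall_mem_isOrdinal]
    constructor
    · intro w hw v hv
      obtain ⟨ξ, hξ, rfl⟩ := (hB w).1 hw
      obtain ⟨u, hu1, hu2, rfl⟩ := (hc2 _ hξ v).1 hv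
      exact (hB _).2 ⟨u, hu2, rfl⟩
    · intro w hw
      obtain ⟨ξ, hξ, rfl⟩ := (hB w).1 hw
      exact hord' ξ hξ
  obtain ⟨β, hβ⟩ := ZFSet.isOrdinal_iff_mem_range_toZFSet.1 hBo
  have hβc : β < Ordinal.omega 1 := by
    rw [lt_omega1_iff]
    refine Set.countable_of_injective_of_countable_image (f := Ordinal.toZFSet)
      Ordinal.toZFSet_injective.injOn ?_
    refine (hRc.image (apZ c.1)).mono ?_
    rintro w ⟨γ, hγ, rfl⟩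
    have h1 : γ.toZFSet ∈ B := by
      rw [← hβ]
      exact Ordinal.toZFSet_mem_toZFSet_iff.2 hγ
    obtain ⟨ξ, hξ, e⟩ := (hB _).1 h1
    exact ⟨ξ, hξ, e.symm⟩
  have hlt : ∀ γ γ' : Ordinal.{0}, γ < γ' → γ.toZFSet ∈ R.1 → γ'.toZFSet ∈ R.1 →
      apZ c.1 γ.toZFSet ∈ apZ c.1 γ'.toZFSet := fun γ γ' h1 h2 h3 =>
    (hc2 _ h3 _).2 ⟨γ.toZFSet, Ordinal.toZFSet_mem_toZFSet_iff.2 h1, h2, rfl⟩
  have hinj : ∀ ξ ∈ R.1, ∀ ξ' ∈ R.1, apZ c.1 ξ = apZ c.1 ξ' → ξ = ξ' := by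
    intro ξ hξ ξ' hξ' e
    obtain ⟨γ, -, rfl⟩ := Ordinal.mem_toZFSet_iff.1 (hR1 ξ hξ)
    obtain ⟨γ', -, rfl⟩ := Ordinal.mem_toZFSet_iff.1 (hR1 ξ' hξ')
    rcases lt_trichotomy γ γ' with h4 | h4 | h4
    · have := hlt γ γ' h4 hξ hξ'
      rw [e] at this
      exact absurd this (ZFSet.mem_irrefl _)
    · rw [h4]
    · have := hlt γ' γ h4 hξ' hξ
      rw [e] at this
      exact absurd this (ZFSet.mem_irrefl _)
  obtain ⟨δ, k, hk, hk1, hk2⟩ := h.inacc ⟨β, hβc⟩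
  have hPc : {z : ZFSet.{0} | z ∈ W ∧ z ⊆ B}.Countable := by
    refine ((Om.countable_Iio δ).biUnion (t := fun ξ _ => {z : ZFSet.{0} | ZFSet.pair (toZ ξ) z ∈ k})
      fun ξ hξ => Set.Subsingleton.countable ?_).mono ?_
    · intro z hz z' hz'
      exact (hk2 ξ hξ).unique hz hz'
    · rintro z ⟨h1, h2⟩
      rw [← hβ] at h2
      obtain ⟨ξ, h3, h4⟩ := hk1 z h1 h2
      exact Set.mem_biUnion (show ξ ∈ {ξ : Om | ξ < δ} from h3) h4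
  obtain ⟨Ψ, hΨ⟩ : ∃ Ψ : ZFSet.{0} → ZFSet.{0}, ∀ y w, w ∈ Ψ y ↔ w ∈ B ∧
      ∃ ξ ∈ R.1, ∃ z ∈ y, w = apZ c.1 ξ ∧ ZFSet.pair ξ z ∈ f :=
    ⟨fun y => ZFSet.sep (fun w => ∃ ξ ∈ R.1, ∃ z ∈ y, w = apZ c.1 ξ ∧ ZFSet.pair ξ z ∈ f) B,
      fun y w => ZFSet.mem_sep⟩
  have hΨW : ∀ y ∈ W, Ψ y ∈ W := by
    intro y hy
    obtain ⟨b, hb⟩ := hz.sep (fun w : W => ∃ ξ z : W, ξ.1 ∈ R.1 ∧ z.1 ∈ (⟨y, hy⟩ : W).1 ∧
        w = zap hz c ξ ∧ ZFSet.pair ξ.1 z.1 ∈ (⟨f, hf⟩ : W).1)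
      (MD.ex (MD.ex (MD.and (MD.mem (wkv lvv) (DFc.const _)) (MD.and (MD.mem lvv (DFc.const _))
        (MD.and (MD.eq (wkv (wkv DFc.id)) (DFc.zap hz (DFc.const _) (wkv lvv)))
          (pmem hz (wkv lvv) lvv (DFc.const _))))))) ⟨B, hBW⟩
    have e : Ψ y = b.1 := by
      ext w
      rw [hΨ]
      constructor
      · rintro ⟨h1, ξ, hξ, z, hzy, h2, h3⟩
        refine (hb ⟨w, htr _ hBW w h1⟩).2 ⟨h1, ⟨ξ, htr _ R.2 ξ hξ⟩, ⟨z, htr _ hy z hzy⟩, hξ, hzy,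
          Subtype.ext h2, h3⟩
      · intro h1
        obtain ⟨h2, ξ, z, h3, h4, h5, h6⟩ := (hb ⟨w, htr _ b.2 w h1⟩).1 h1
        exact ⟨h2, ξ.1, h3, z.1, h4, congrArg Subtype.val h5, h6⟩
    rw [e]
    exact b.2
  have hsub : ∀ y y', y ⊆ x → Ψ y = Ψ y' → y ⊆ y' := by
    intro y y' hyx e a ha
    have hax : a ∈ x := hyx ha
    have haW : a ∈ W := htr _ hx a hax
    obtain ⟨ξ, hξα, hξa, hξmin⟩ : ∃ ξ : Ordinal.{0}, ξ < α ∧ ZFSet.pair ξ.toZFSet a ∈ f ∧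
        ∀ η < ξ, ZFSet.pair η.toZFSet a ∉ f := by
      obtain ⟨ξ0, h1, h2⟩ := hf1 a hax
      obtain ⟨S, hS⟩ : ∃ S : Set Ordinal.{0}, S = {ξ : Ordinal.{0} | ZFSet.pair ξ.toZFSet a ∈ f} :=
        ⟨_, rfl⟩
      have hne : S.Nonempty := ⟨ξ0, by rw [hS]; exact h2⟩
      have hmem : ∀ η, η ∈ S ↔ ZFSet.pair η.toZFSet a ∈ f := fun η => by rw [hS]; exact Iff.rfl
      refine ⟨sInf S, lt_of_le_of_lt (csInf_le' ((hmem _).2 h2)) h1, (hmem _).1 (csInf_mem hne),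
        fun η hη h3 => notMem_of_lt_csInf' hη ((hmem _).2 h3)⟩
    have hξR : ξ.toZFSet ∈ R.1 := by
      refine (hR ⟨ξ.toZFSet, h.zfc.ord ξ⟩).2 ⟨Ordinal.toZFSet_mem_toZFSet_iff.2 hξα, ⟨a, haW⟩, hax,
        hξa, ?_⟩
      intro η hη
      obtain ⟨γ, hγ, e2⟩ := Ordinal.mem_toZFSet_iff.1 hη
      have h3 := hξmin γ hγ
      rw [e2] at h3
      exact h3
    have h1 : apZ c.1 ξ.toZFSet ∈ Ψ y :=
      (hΨ y _).2 ⟨(hB _).2 ⟨_, hξR, rfl⟩, _, hξR, a, ha, rfl, hξa⟩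
    rw [e, hΨ] at h1
    obtain ⟨-, ξ', hξ', z, hz', h2, h3⟩ := h1
    have h4 := hinj _ hξR _ hξ' h2
    rw [← h4] at h3
    rw [huniq _ _ _ (hR1 _ hξR) hξa h3]
    exact hz'
  refine Set.countable_of_injective_of_countable_image (f := Ψ) ?_ (hPc.mono ?_)
  · rintro y ⟨-, hy⟩ y' ⟨-, hy'⟩ e
    ext a
    exact ⟨fun ha => hsub y y' hy e ha, fun ha => hsub y' y hy' e.symm ha⟩
  · rintro w ⟨y, ⟨hyW, -⟩, rfl⟩
    exact ⟨hΨW y hyW, fun w hw => ((hΨ y w).1 hw).1⟩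

theorem vw_countable (h : Solovay W G) (α : Om) :
    {z : ZFSet.{0} | z ∈ W ∧ z ∈ V_ α.1}.Countable := by
  have key : ∀ α : Ordinal.{0}, α < Ordinal.omega 1 →
      {z : ZFSet.{0} | z ∈ W ∧ z ∈ V_ α}.Countable := by
    intro α
    induction α using WellFoundedLT.induction with
    | ind α ih =>
    intro hα
    refine ((lt_omega1_iff.1 hα).biUnion (t := fun β _ => {z : ZFSet.{0} | z ∈ W ∧ z ⊆ V_ β})
      fun β hβ => ?_).mono ?_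
    · obtain ⟨v, hv, hv1⟩ := exists_vw h.zfc β
      refine (power_countable h hv ((ih β hβ (lt_trans hβ hα)).mono
        fun z hz => (hv1 z).1 hz)).mono ?_
      rintro z ⟨h1, h2⟩
      exact ⟨h1, fun w hw => (hv1 w).2 ⟨h.zfc.trans z h1 w hw, h2 hw⟩⟩
    · rintro z ⟨h1, h2⟩
      obtain ⟨β, hβ, h3⟩ := ZFSet.mem_vonNeumann'.1 h2
      exact Set.mem_biUnion (show β ∈ Set.Iio α from hβ) ⟨h1, h3⟩
  exact key α.1 α.2

end RMK
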