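import Pool.Agent.RMK.S.FDefs
import Pool.Agent.RMK.Club
import Pool.Agent.RMK.S.WZf

/-!
RMK INAC: if `κ = ω₁` is remarkable in `W` then some `δ < κ` is inaccessible in `W`.

PROOF.  `V_ ω₁` contains all ordinals `< ω₁` and all pairs of them.  Apply `Rem W` (`StatMany`) intersected
(`StatMany.and_club`) with the following club properties of countable `N ⊆ VK W` (write `α ∈ N` if some `x ∈ N` has
`x.1 = toZ α`; functions on `VK W` with arbitrary values elsewhere, `club_mem`, `club_map`, `club_map2`,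
`club_forall`; `VK W` is nonempty):
(a) `nOm k ∈ N` for all `k`, and `ω ∈ N` (as a countable ordinal);
(b) `α ∈ N → β α ∈ N`, where for `α : Om` the ordinal `β α : Om` is given by `h.inacc` (a function of `W` on `β α` has all
subsets of `α` in `W` among its values);
(c) `x ∈ N`, `γ ∈ N` imply `s x γ ∈ N`, where `s x γ : Om` is a strict upper bound of the ordinals `g x ξ`, `ξ < γ`, where
`g x ξ` is the least `η : Om` with `pair (toZ ξ) (toZ η) ∈ x` (if there is one; countably many ordinals: `Om.bdd`,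
`Om.countable_Iio`).
Let `N` be such a set and `δ` given by `Rem`: `α ∈ N ↔ α < δ`, and every `y ∈ W`, `y ⊆ V_ δ` is `x ∩ V_ δ` for some `x ∈ N`.
`unc`: `ω ∈ N` so `ω < δ`.  `str`: (b) (`β α < δ`).  `δ` is a limit ordinal: for `α < δ`, let `y = {pair 0 α}`, more simply: for
`α ∈ N` also `α + 1 ∈ N` (add this to the closure properties).
`reg`: let `γ < δ`, `f ∈ W`, with `∃! z, pair ξ z ∈ f` for all `ξ < γ`.  Let `y` be the set of the `w ∈ f` of the form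
`pair ξ ζ` with ordinals `ξ < γ`, `ζ < δ`.  `y = f ∩ (γ × δ) ∈ W` (`InnerZFC`: separation; or use `ZF0` facts: it is
simplest to apply `h.zfc.sep` to `f` with the predicate `w ∈ c`, `c = γ × δ ∈ W`; the product is in `W`, see `ZOps.lean`
`ZF0.prodZ` and `WZf.lean` `InnerZFC.zf0`, `InnerZFC.inter`) and `y ⊆ V_ δ` (`δ` limit; ranks of pairs).  Let `x ∈ N` with
`z ∈ y ↔ z ∈ x ∧ z ∈ V_ δ`.  Let `η = s x γ < δ` by (c).  If `ξ < γ`, `ζ < δ` and `pair ξ ζ ∈ f` then `pair ξ ζ ∈ y ⊆ x`, so `g x ξ ≤ ζ`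
exists, `pair ξ (g x ξ) ∈ x ∩ V_ δ = y ⊆ f`, so `g x ξ = ζ` by uniqueness, and `ζ < η`.
-/

namespace RMK

open Set PU
open scoped ZFSet

private theorem toZ_inj' {α β : Om} (h : toZ α = toZ β) : α = β :=
  Subtype.ext (Ordinal.toZFSet_injective h)

/-- the element of `VK W` of an ordinal -/
private noncomputable def oVK {W : Set ZFSet.{0}} (h : InnerZFC W) (α : Om) : VK W :=
  ⟨toZ α, h.ord α.1, fun _ hz => ZFSet.vonNeumann_subset_of_le α.2.le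
    (Ordinal.toZFSet_subset_vonNeumann α.1 hz)⟩

open Classical in
private noncomputable def liftV {W : Set ZFSet.{0}} (h : InnerZFC W) (g : VK W → Om → Om)
    (x y : VK W) : VK W :=
  if hy : ∃ α : Om, y.1 = toZ α then oVK h (g x hy.choose) else y

private theorem liftV_eq {W : Set ZFSet.{0}} (h : InnerZFC W) (g : VK W → Om → Om)
    (x y : VK W) {α : Om} (hy : y.1 = toZ α) : liftV h g x y = oVK h (g x α) := by
  have h1 : ∃ α : Om, y.1 = toZ α := ⟨α, hy⟩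
  unfold liftV
  rw [dif_pos h1]
  have h2 : h1.choose = α := toZ_inj' (h1.choose_spec.symm.trans hy)
  rw [h2]

private theorem exists_bd {W : Set ZFSet.{0}} (x : VK W) (γ : Om) : ∃ s : Om, ∀ ξ : Om, ξ < γ →
    ∀ η : Om, ZFSet.pair (toZ ξ) (toZ η) ∈ x.1 →
      ∃ η' : Om, η' ≤ η ∧ ZFSet.pair (toZ ξ) (toZ η') ∈ x.1 ∧ η' < s := by
  classical
  have h1 : ∀ ξ : Om, ∃ m : Om, (∃ η : Om, ZFSet.pair (toZ ξ) (toZ η) ∈ x.1) →
      ZFSet.pair (toZ ξ) (toZ m) ∈ x.1 ∧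
        ∀ η : Om, ZFSet.pair (toZ ξ) (toZ η) ∈ x.1 → m ≤ η := by
    intro ξ
    by_cases hne : ∃ η : Om, ZFSet.pair (toZ ξ) (toZ η) ∈ x.1
    · obtain ⟨m, hm, hm'⟩ := WellFounded.has_min (wellFounded_lt (α := Om))
        {η : Om | ZFSet.pair (toZ ξ) (toZ η) ∈ x.1} hne
      exact ⟨m, fun _ => ⟨hm, fun η hη => not_lt.1 (hm' η hη)⟩⟩
    · exact ⟨γ, fun h => absurd h hne⟩
  choose g hg using h1
  obtain ⟨s, hs⟩ := Om.bdd ((Om.countable_Iio γ).image g)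
  refine ⟨s, fun ξ hξ η hη => ?_⟩
  obtain ⟨h2, h3⟩ := hg ξ ⟨η, hη⟩
  exact ⟨g ξ, h3 η hη, h2, hs _ ⟨ξ, hξ, rfl⟩⟩

theorem inacc_of_rem {W G : Set ZFSet.{0}} (h : Solovay W G) (hR : Rem W) :
    ∃ δ : Om, InaccIn W δ.1 := by
  classical
  have hz := h.zfc
  have hω : Ordinal.omega0 < Ordinal.omega 1 := Ordinal.omega0_lt_omega_one
  have hne : Nonempty (VK W) := ⟨oVK hz ⟨_, hω⟩⟩
  have hs0 : ∀ α : Om, ∃ β : Om, α < β := by
    intro α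
    obtain ⟨β, hβ⟩ := Om.bdd (Set.countable_singleton α)
    exact ⟨β, hβ α rfl⟩
  choose s0 hs0 using hs0
  choose b hb using h.inacc
  choose s hs using (fun (x : VK W) (γ : Om) => exists_bd x γ)
  have hclub := ((club_mem (oVK hz ⟨_, hω⟩)).and (club_map2 (liftV hz fun _ => s0))).and
    ((club_map2 (liftV hz fun _ => b)).and (club_map2 (liftV hz s)))
  obtain ⟨N, -, -, ⟨δ, hδ, hrem⟩, ⟨hN1, hN2⟩, hN3, hN4⟩ :=
    (StatMany.and_club hR hclub) (fun _ => oVK hz ⟨_, hω⟩)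
  have hlift : ∀ g : VK W → Om → Om, (∀ x ∈ N, ∀ y ∈ N, liftV hz g x y ∈ N) →
      ∀ x ∈ N, ∀ α : Om, α < δ → g x α < δ := by
    intro g hg x hx α hα
    obtain ⟨y, hy, hyα⟩ := (hδ α).2 hα
    have h1 := hg x hx y hy
    rw [liftV_eq hz g x y hyα] at h1
    exact (hδ _).1 ⟨_, h1, rfl⟩
  have hsδ : ∀ α : Om, α < δ → s0 α < δ := fun α hα => hlift _ hN2 _ hN1 α hα
  have hbδ : ∀ α : Om, α < δ → b α < δ := fun α hα => hlift _ hN3 _ hN1 α hα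
  have hωδ : (⟨_, hω⟩ : Om) < δ := (hδ _).1 ⟨_, hN1, rfl⟩
  have hpair : ∀ ξ ζ : Om, ξ < δ → ζ < δ → ZFSet.pair (toZ ξ) (toZ ζ) ∈ V_ δ.1 := by
    intro ξ ζ hξ hζ
    obtain ⟨a, ha⟩ : ∃ a, a = max ξ ζ := ⟨_, rfl⟩
    have haδ : a < δ := by rw [ha]; exact max_lt hξ hζ
    have h1 : ∀ x : Om, x ≤ a → toZ x ∈ V_ (s0 a).1 := by
      intro x hx
      rw [ZFSet.mem_vonNeumann']
      refine ⟨a.1, hs0 a, fun _ hz => ?_⟩
      exact ZFSet.vonNeumann_subset_of_le (show x.1 ≤ a.1 from hx)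
        (Ordinal.toZFSet_subset_vonNeumann x.1 hz)
    have h2 : ∀ u v : ZFSet.{0}, u ∈ V_ (s0 a).1 → v ∈ V_ (s0 a).1 →
        ({u, v} : ZFSet.{0}) ∈ V_ (s0 (s0 a)).1 := by
      intro u v hu hv
      rw [ZFSet.mem_vonNeumann']
      refine ⟨(s0 a).1, hs0 (s0 a), fun w hw => ?_⟩
      rcases ZFSet.mem_pair.1 hw with rfl | rfl
      · exact hu
      · exact hv
    have h3 := h1 ξ (by rw [ha]; exact le_max_left _ _)
    have h4 := h1 ζ (by rw [ha]; exact le_max_right _ _)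
    rw [ZFSet.mem_vonNeumann']
    refine ⟨(s0 (s0 a)).1, hsδ _ (hsδ _ haδ), fun w hw => ?_⟩
    have hw' : w = {toZ ξ} ∨ w = {toZ ξ, toZ ζ} := by
      unfold ZFSet.pair at hw
      exact ZFSet.mem_pair.1 hw
    rcases hw' with rfl | rfl
    · have h5 := h2 _ _ h3 h3
      have h6 : ({toZ ξ, toZ ξ} : ZFSet.{0}) = {toZ ξ} := by
        ext w
        simp
      rwa [h6] at h5
    · exact h2 _ _ h3 h4
  refine ⟨δ, ?_, ?_, ?_⟩
  · exact hωδ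
  · intro γ hγ f hf hfu
    have hγ' : γ < Ordinal.omega 1 := hγ.trans δ.2
    obtain ⟨y, hy⟩ : ∃ y, y = f ∩ (γ.toZFSet.prod δ.1.toZFSet) := ⟨_, rfl⟩
    have hyW : y ∈ W := by
      rw [hy]
      exact hz.inter hf (hz.zf0.prodZ (hz.ord γ) (hz.ord δ.1))
    have hymem : ∀ w, w ∈ y ↔ w ∈ f ∧ ∃ ξ ζ : Om, ξ.1 < γ ∧ ζ < δ ∧
        w = ZFSet.pair (toZ ξ) (toZ ζ) := by
      intro w
      rw [hy, ZFSet.mem_inter, ZFSet.mem_prod]
      constructor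
      · rintro ⟨h1, a, ha, c, hc, rfl⟩
        obtain ⟨ξ, hξ, rfl⟩ := Ordinal.mem_toZFSet_iff.1 ha
        obtain ⟨ζ, hζ, rfl⟩ := Ordinal.mem_toZFSet_iff.1 hc
        exact ⟨h1, ⟨ξ, hξ.trans hγ'⟩, ⟨ζ, hζ.trans δ.2⟩, hξ, hζ, rfl⟩
      · rintro ⟨h1, ξ, ζ, hξ, hζ, rfl⟩
        exact ⟨h1, _, Ordinal.mem_toZFSet_iff.2 ⟨ξ.1, hξ, rfl⟩, _,
          Ordinal.mem_toZFSet_iff.2 ⟨ζ.1, hζ, rfl⟩, rfl⟩
    have hyV : y ⊆ V_ δ.1 := by
      intro w hw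
      obtain ⟨-, ξ, ζ, hξ, hζ, rfl⟩ := (hymem w).1 hw
      exact hpair ξ ζ (show ξ.1 < δ.1 from hξ.trans hγ) hζ
    obtain ⟨x, hxN, hx⟩ := hrem y hyW hyV
    have hsx : s x ⟨γ, hγ'⟩ < δ := hlift s hN4 x hxN _ (show γ < δ.1 from hγ)
    refine ⟨(s x ⟨γ, hγ'⟩).1, hsx, ?_⟩
    intro ξ hξ ζ hζ hm
    have h1 : ZFSet.pair (toZ ⟨ξ, hξ.trans hγ'⟩) (toZ ⟨ζ, hζ.trans δ.2⟩) ∈ y :=
      (hymem _).2 ⟨hm, _, _, hξ, hζ, rfl⟩
    obtain ⟨η', h2, h3, h4⟩ := hs x ⟨γ, hγ'⟩ ⟨ξ, hξ.trans hγ'⟩ hξ ⟨ζ, hζ.trans δ.2⟩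
      ((hx _).1 h1).1
    have h5 : η' < δ := lt_of_le_of_lt h2 hζ
    have h6 := (hx _).2 ⟨h3, hpair _ _ (show ξ < δ.1 from hξ.trans hγ) h5⟩
    have h7 := ((hymem _).1 h6).1
    obtain ⟨z, -, hz'⟩ := hfu ξ hξ
    have h8 : toZ η' = Ordinal.toZFSet ζ := (hz' _ h7).trans (hz' _ hm).symm
    have h9 : η'.1 = ζ := Ordinal.toZFSet_injective h8
    rw [← h9]
    exact h4
  · intro α hα
    obtain ⟨f, hf, h1, h2⟩ := hb ⟨α, hα.trans δ.2⟩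
    refine ⟨(b ⟨α, hα.trans δ.2⟩).1, hbδ _ hα, f, hf, ?_, ?_⟩
    · intro z hzW hzα
      obtain ⟨ξ, hξ, h3⟩ := h1 z hzW hzα
      exact ⟨ξ.1, hξ, h3⟩
    · intro ξ hξ
      exact h2 ⟨ξ, hξ.trans (b ⟨α, hα.trans δ.2⟩).2⟩ hξ

end RMK
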