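import Pool.Agent.RMK.S.SDefs
import Pool.Agent.RMK.LevDefs
import Pool.Agent.RMK.LevOrd
import Pool.Agent.RMK.LevEx

/-!
RMK LBAS: basic facts on the constructible hierarchy `PU.L`.

PROOFS.
`L_eq_LR`: induction on `α`; `relE ∅ x y ↔ x ∈ y` (so `Sat (relE ∅) = Sat (· ∈ ·)`, `DefSetsR ∅ = DefSets`).
Hence `L_mono`, `L_transitive`, `toZFSet_mem_L`, `L_countable` from `LR_mono`, `LR_transitive`, `toZFSet_mem_LR`,
`LR_countable`.  (`L_zero`, `L_mono` etc. may also exist in `PU/LDefs.lean`.)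
`rank_lt_of_mem_L`: induction on `β`: an element of `DefSets (L γ)` is a subset of `L γ`, whose elements have rank
`< γ`, so it has rank `≤ γ`.  `toZFSet_mem_L_iff`: `Ordinal.rank_toZFSet`.
`mem_L_succ`: `L (γ + 1) = ⋃_{β ≤ γ} DefSets (L β)`, and for `β < γ`, `x ∈ DefSets (L β) ⊆ L γ` is in
`DefSets (L γ)`: `x = {z ∈ L γ | z ∈ x}` with parameter `x` (formula `mem 0 1`) by transitivity.
`exists_succ_level`: `x ∈ L Θ` is in `DefSets (L γ)` for some `γ < Θ`.
`exists_L_set`: `L γ` is a set: for ordinals `γ` by induction, or as a subset of `V_ γ` (separation from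
`V_ γ` with the predicate `z ∈ L γ`, `rank_lt_of_mem_L`).  `L_mem_succ`: the set of all `z ∈ L γ` is defined over
`L γ` by `eq 1 1` (no parameters needed; if `L γ` is empty use any assignment).
`pair_mem_L`: `{x, y}` is defined over `L γ` by `eq 0 1 ∨ eq 0 2` (`or` through `neg` and `and`).
`union_mem_L`: `⋃₀ x` is defined over `L γ` by `∃ w, w ∈ x ∧ z ∈ w`.
`mk_L_le`: transfinite induction on `α < ω₂`: `DefSets (L γ)` is the image of `Fml × (finite sequences of
elements of L γ)` (finitely many values of `s` matter), which has cardinality at most `ℵ₁` if `#(L γ) ≤ ℵ₁`; and a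
union of at most `ℵ₁` sets of size at most `ℵ₁` (`α.card ≤ ℵ₁` as `α < ω₂ = (ℵ₂).ord`).
-/

namespace RMK

open Set PU
open scoped ZFSet

private theorem relE_empty : relE ∅ = fun a b : ZFSet.{0} => a ∈ b := by
  funext a b
  apply propext
  constructor
  · rintro (h | ⟨-, h⟩)
    · exact h
    · exact absurd h (Set.notMem_empty _)
  · exact Or.inl

private theorem defSets_eq (M : Set ZFSet.{0}) : DefSets M = DefSetsR ∅ M := by
  unfold DefSets DefSetsR
  rw [relE_empty]

theorem L_eq_LR (α : Ordinal.{0}) : L α = LR ∅ α := by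
  induction α using WellFoundedLT.induction with
  | ind α ih =>
    ext x
    rw [mem_L_iff, mem_LR_iff]
    refine exists_congr fun γ => and_congr_right fun hγ => ?_
    rw [ih γ hγ, defSets_eq]

theorem L_zero : L 0 = ∅ := by
  ext x
  rw [mem_L_iff]
  constructor
  · rintro ⟨γ, hγ, -⟩
    exact absurd hγ not_lt_zero
  · intro h
    exact absurd h (Set.notMem_empty _)

theorem empty_mem_L {γ : Ordinal.{0}} (h : 0 < γ) : (∅ : ZFSet.{0}) ∈ L γ := by
  rw [L_eq_LR]
  have h1 := toZFSet_mem_LR ∅ h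
  rwa [Ordinal.toZFSet_zero] at h1

theorem L_mono {α β : Ordinal.{0}} (h : α ≤ β) : L α ⊆ L β := by
  rw [L_eq_LR, L_eq_LR]
  exact LR_mono h

theorem L_transitive {α : Ordinal.{0}} {x y : ZFSet.{0}} (hx : x ∈ L α) (hy : y ∈ x) :
    y ∈ L α := by
  rw [L_eq_LR] at hx ⊢
  exact LR_transitive hx hy

theorem toZFSet_mem_L {α β : Ordinal.{0}} (h : α < β) : α.toZFSet ∈ L β := by
  rw [L_eq_LR]
  exact toZFSet_mem_LR ∅ h

theorem rank_lt_of_mem_L {x : ZFSet.{0}} {β : Ordinal.{0}} (h : x ∈ L β) : x.rank < β := by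
  induction β using WellFoundedLT.induction generalizing x with
  | ind β ih =>
    obtain ⟨γ, hγ, φ, s, -, h2⟩ := mem_L_iff.1 h
    refine lt_of_le_of_lt ?_ hγ
    rw [ZFSet.rank_le_iff]
    intro y hy
    exact ih γ hγ ((h2 y).1 hy).1

theorem toZFSet_mem_L_iff {α β : Ordinal.{0}} : α.toZFSet ∈ L β ↔ α < β := by
  constructor
  · intro h
    have h1 := rank_lt_of_mem_L h
    rwa [Ordinal.rank_toZFSet] at h1
  · exact toZFSet_mem_L

theorem L_countable (β : Om) : (L β.1).Countable := by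
  rw [L_eq_LR]
  exact LR_countable ∅ β

private theorem self_mem {x : ZFSet.{0}} {γ : Ordinal.{0}} (hx : x ∈ L γ) :
    x ∈ DefSets (L γ) := by
  refine ⟨.mem 0 1, fun _ => x, fun _ _ => hx, fun z => ?_⟩
  show z ∈ x ↔ z ∈ L γ ∧ (Function.update (fun _ => x) 0 z 0 : ZFSet.{0}) ∈
    (Function.update (fun _ => x) 0 z 1 : ZFSet.{0})
  rw [Function.update_self, Function.update_of_ne (by decide)]
  exact ⟨fun h => ⟨L_transitive hx h, h⟩, fun h => h.2⟩

theorem mem_L_succ {x : ZFSet.{0}} {γ : Ordinal.{0}} : x ∈ L (γ + 1) ↔ x ∈ DefSets (L γ) := by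
  constructor
  · intro h
    obtain ⟨β, hβ, h1⟩ := mem_L_iff.1 h
    rcases eq_or_lt_of_le (Order.lt_add_one_iff.1 hβ) with h2 | h2
    · rwa [h2] at h1
    · have hx : x ∈ L γ := mem_L_iff.2 ⟨β, h2, h1⟩
      exact self_mem hx
  · intro h
    exact mem_L_iff.2 ⟨γ, Order.lt_add_one_iff.2 le_rfl, h⟩

theorem exists_succ_level {x : ZFSet.{0}} {Θ : Ordinal.{0}} (h : x ∈ L Θ) :
    ∃ γ < Θ, x ∈ L (γ + 1) := by
  obtain ⟨γ, hγ, h1⟩ := mem_L_iff.1 h
  exact ⟨γ, hγ, mem_L_succ.2 h1⟩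

theorem exists_L_set (γ : Ordinal.{0}) : ∃ l ∈ L (γ + 1), ∀ z, z ∈ l ↔ z ∈ L γ := by
  have hl : ∀ z, z ∈ ZFSet.sep (fun z => z ∈ L γ) (V_ γ) ↔ z ∈ L γ := by
    intro z
    rw [ZFSet.mem_sep, ZFSet.mem_vonNeumann]
    exact ⟨fun h => h.2, fun h => ⟨rank_lt_of_mem_L h, h⟩⟩
  refine ⟨_, mem_L_succ.2 ?_, hl⟩
  obtain ⟨c, hc⟩ : ∃ c : ZFSet.{0}, (L γ).Nonempty → c ∈ L γ := by
    by_cases h : (L γ).Nonempty
    · obtain ⟨c, hc⟩ := h
      exact ⟨c, fun _ => hc⟩
    · exact ⟨∅, fun h' => absurd h' h⟩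
  refine ⟨.eq 1 1, fun _ => c, fun h _ => hc h, fun z => ?_⟩
  rw [hl z]
  exact ⟨fun h => ⟨h, rfl⟩, fun h => h.1⟩

theorem pair_mem_L {x y : ZFSet.{0}} {γ : Ordinal.{0}} (hx : x ∈ L γ) (hy : y ∈ L γ) :
    ({x, y} : ZFSet.{0}) ∈ L (γ + 1) := by
  refine mem_L_succ.2 ⟨.neg (.and (.neg (.eq 0 1)) (.neg (.eq 0 2))),
    fun i => if i = 1 then x else y, fun _ i => ?_, fun z => ?_⟩
  · dsimp only
    split_ifs
    · exact hx
    · exact hy
  · rw [ZFSet.mem_pair]
    simp only [Sat, Function.update_self]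
    rw [Function.update_of_ne (by decide), Function.update_of_ne (by decide)]
    rw [if_pos rfl, if_neg (by decide)]
    constructor
    · rintro (h | h)
      · rw [h]
        exact ⟨hx, fun h1 => h1.1 rfl⟩
      · rw [h]
        exact ⟨hy, fun h1 => h1.2 rfl⟩
    · rintro ⟨-, h⟩
      by_contra hn
      rw [not_or] at hn
      exact h hn

theorem union_mem_L {x : ZFSet.{0}} {γ : Ordinal.{0}} (hx : x ∈ L γ) :
    ZFSet.sUnion x ∈ L (γ + 1) := by
  refine mem_L_succ.2 ⟨.neg (.all 2 (.neg (.and (.mem 2 1) (.mem 0 2)))),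
    fun _ => x, fun _ _ => hx, fun z => ?_⟩
  rw [ZFSet.mem_sUnion]
  have h1 : Sat (fun a b : ZFSet.{0} => a ∈ b) (L γ) (.neg (.all 2 (.neg (.and (.mem 2 1)
      (.mem 0 2))))) (Function.update (fun _ => x) 0 z) ↔ ¬ ∀ w ∈ L γ, ¬ (w ∈ x ∧ z ∈ w) := by
    simp only [Sat]
    refine not_congr (forall_congr' fun w => forall_congr' fun _ => not_congr ?_)
    rw [Function.update_self, Function.update_of_ne (by decide), Function.update_of_ne (by decide),
      Function.update_of_ne (by decide), Function.update_self]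
  rw [h1]
  constructor
  · rintro ⟨w, hw, hz⟩
    have hwL := L_transitive hx hw
    exact ⟨L_transitive hwL hz, fun h => h w hwL ⟨hw, hz⟩⟩
  · rintro ⟨-, h⟩
    by_contra hn
    exact h fun w _ h2 => hn ⟨w, h2.1, h2.2⟩

private theorem mk_defSets_le {M : Set ZFSet.{0}} {c : Cardinal.{1}} (hc : Cardinal.aleph0 ≤ c)
    (hM : Cardinal.mk M ≤ c) : Cardinal.mk (DefSets M) ≤ c := by
  classical
  rcases M.eq_empty_or_nonempty with hE | hne
  · have h1 : (DefSets M).Countable := by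
      refine (Set.countable_singleton (∅ : ZFSet.{0})).mono ?_
      rintro x ⟨φ, s, -, h⟩
      rw [Set.mem_singleton_iff, ZFSet.eq_empty]
      intro z hz
      have h1 := ((h z).1 hz).1
      rw [hE] at h1
      exact h1
    exact (Cardinal.mk_le_aleph0_iff.2 h1.to_subtype).trans hc
  have hF := fml_countable
  have key : ∀ x : DefSets M, ∃ p : Fml × List M, ∃ s : ℕ → M,
      p.2 = (List.range (sat_congr (fun a b : ZFSet.{0} => a ∈ b) M p.1).choose).map s ∧
      ∀ z, z ∈ x.1 ↔ z ∈ M ∧ Sat (fun a b => a ∈ b) M p.1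
        (Function.update (fun i => (s i : ZFSet.{0})) 0 z) := by
    rintro ⟨x, φ, s, h1, h2⟩
    exact ⟨(φ, (List.range (sat_congr (fun a b : ZFSet.{0} => a ∈ b) M φ).choose).map
      fun i => ⟨s i, h1 hne i⟩), fun i => ⟨s i, h1 hne i⟩, rfl, h2⟩
  choose f s hf1 hf2 using key
  have hinj : Function.Injective f := by
    intro x y hxy
    apply Subtype.ext
    have h3 : ∀ z, Sat (fun a b => a ∈ b) M (f x).1
        (Function.update (fun i => (s x i : ZFSet.{0})) 0 z) ↔
        Sat (fun a b => a ∈ b) M (f y).1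
        (Function.update (fun i => (s y i : ZFSet.{0})) 0 z) := by
      intro z
      rw [← hxy]
      refine (sat_congr (fun a b : ZFSet.{0} => a ∈ b) M (f x).1).choose_spec _ _ fun i hi => ?_
      by_cases hi0 : i = 0
      · subst hi0
        simp
      · rw [Function.update_of_ne hi0, Function.update_of_ne hi0]
        have h4 := hf1 x
        have h5 := hf1 y
        rw [← hxy] at h5
        have h6 := h4.symm.trans h5
        have h7 := List.map_eq_map_iff.1 h6 i (List.mem_range.2 hi)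
        rw [h7]
    apply ZFSet.ext
    intro z
    rw [hf2 x z, hf2 y z, h3 z]
  refine (Cardinal.mk_le_of_injective hinj).trans ?_
  rw [Cardinal.mk_prod]
  refine Cardinal.mul_le_of_le hc ?_ ?_
  · exact (Cardinal.lift_le_aleph0.2 (Cardinal.mk_le_aleph0_iff.2 hF)).trans hc
  · rw [Cardinal.lift_id'.{0, 1}]
    exact (Cardinal.mk_list_le_max M).trans (max_le hc hM)

theorem mk_L_le {α : Ordinal.{0}} (h : α < Ordinal.omega 2) :
    Cardinal.mk (L α) ≤ Cardinal.aleph 1 := by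
  have hc : Cardinal.aleph0.{1} ≤ Cardinal.aleph 1 := Cardinal.aleph0_le_aleph 1
  induction α using WellFoundedLT.induction with
  | ind α ih =>
    have h1 : L α = ⋃ γ : Set.Iio α, DefSets (L γ.1) := by
      ext x
      rw [mem_L_iff, Set.mem_iUnion]
      constructor
      · rintro ⟨γ, hγ, hx⟩
        exact ⟨⟨γ, hγ⟩, hx⟩
      · rintro ⟨γ, hx⟩
        exact ⟨γ.1, γ.2, hx⟩
    rw [h1]
    refine (Cardinal.mk_iUnion_le _).trans (Cardinal.mul_le_of_le hc ?_ ?_)
    · rw [Cardinal.mk_Iio_ordinal]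
      have h2 : α.card ≤ Cardinal.aleph 1 := by
        have h3 : (2 : Ordinal.{0}) = Order.succ 1 := by
          rw [← one_add_one_eq_two, Ordinal.add_one_eq_succ]
        rw [h3, ← Cardinal.ord_aleph, Cardinal.lt_ord, Cardinal.aleph_succ, Order.lt_succ_iff] at h
        exact h
      have h4 := Cardinal.lift_le.{1}.2 h2
      rwa [Cardinal.lift_aleph, Ordinal.lift_one] at h4
    · refine ciSup_le' fun γ => mk_defSets_le hc (ih γ.1 γ.2 (lt_trans γ.2 h))

end RMK
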