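import Pool.Agent.RMK.S.ZRec

/-!
RMK ZCODE: the set of codes of formulas in a model of ZF without power set.

PROOFS.
`code_inj`: the first coordinates `natZ 0, ..., natZ 4` distinguish the cases (`natZ_inj`, `ZFSet.pair_inj`);
induction on `φ`.
`code_closed`: induction on `φ` (`trip a b c = pair a (pair b c)`, `pair a b = {{a}, {a, b}}`, `{a} = {a, a}`).
`code_mem`: `code_closed` for `R = M`.
`exists_codes`: `recNat` without parameters (take `X = M` and ignore it): stage `0` is the set of the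
`trip (natZ e) i j`, `e ∈ {0, 1}`, `i, j ∈ ω`; stage `m + 1` is stage `m` together with the `trip (natZ 2) c (natZ 0)`,
`trip (natZ 3) c d`, `trip (natZ 4) i c` for `c, d` in stage `m`, `i ∈ ω` (`replF`, `unionF`, `zpd`).  The union over
`ω` (`unionF`) is the set of all codes: stage `m` is the set of the codes of formulas of depth `≤ m`.
`exists_subE`: separation in `zpd C C`: `pair a b` with: `∃ c d : M, (b = trip 2 a 0) ∨ (b = trip 3 a c) ∨
(b = trip 3 c a) ∨ (b = trip 4 c a)`, in accordance with `SubF`.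
`wf_subE`: the relation is contained in the inverse image of the well-founded immediate subformula
relation on `Fml` under the inverse of `code` (depth decreases).
-/

namespace RMK

open Set PU

variable {M : Set ZFSet.{0}}

/-- immediate subformulas -/
inductive SubF : Fml → Fml → Prop
  | neg (φ : Fml) : SubF φ (.neg φ)
  | andl (φ ψ : Fml) : SubF φ (.and φ ψ)
  | andr (φ ψ : Fml) : SubF ψ (.and φ ψ)
  | all (i : ℕ) (φ : Fml) : SubF φ (.all i φ)

private theorem tinj {a b c a' b' c' : ZFSet.{0}} : trip a b c = trip a' b' c' ↔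
    a = a' ∧ b = b' ∧ c = c' := by
  unfold trip
  rw [ZFSet.pair_inj, ZFSet.pair_inj]

theorem code_inj {φ ψ : Fml} : code φ = code ψ ↔ φ = ψ := by
  refine ⟨fun h => ?_, fun h => by rw [h]⟩
  induction φ generalizing ψ with
  | mem i j =>
    cases ψ <;> simp only [code, tinj, natZ_inj] at h <;> simp_all
  | eq i j =>
    cases ψ <;> simp only [code, tinj, natZ_inj] at h <;> simp_all
  | neg φ ih =>
    cases ψ with
    | neg ψ =>
      simp only [code, tinj] at h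
      rw [ih h.2.1]
    | _ =>
      simp only [code, tinj, natZ_inj] at h
      exact absurd h.1 (by norm_num)
  | and φ χ ih1 ih2 =>
    cases ψ with
    | and ψ1 ψ2 =>
      simp only [code, tinj] at h
      rw [ih1 h.2.1, ih2 h.2.2]
    | _ =>
      simp only [code, tinj, natZ_inj] at h
      exact absurd h.1 (by norm_num)
  | all i φ ih =>
    cases ψ with
    | all j ψ =>
      simp only [code, tinj, natZ_inj] at h
      rw [ih h.2.2, h.2.1]
    | _ =>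
      simp only [code, tinj, natZ_inj] at h
      exact absurd h.1 (by norm_num)

private theorem trip_closed {R : Set ZFSet.{0}}
    (hp : ∀ a ∈ R, ∀ b ∈ R, ({a, b} : ZFSet.{0}) ∈ R) {a b c : ZFSet.{0}} (ha : a ∈ R) (hb : b ∈ R)
    (hc : c ∈ R) : trip a b c ∈ R := by
  have hpair : ∀ {x y : ZFSet.{0}}, x ∈ R → y ∈ R → ZFSet.pair x y ∈ R := by
    intro x y hx hy
    have h1 := hp x hx x hx
    have h2 := hp x hx y hy
    have h3 : ({x, x} : ZFSet.{0}) = {x} := by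
      ext z
      simp
    rw [h3] at h1
    exact hp _ h1 _ h2
  exact hpair ha (hpair hb hc)

theorem code_closed (φ : Fml) {R : Set ZFSet.{0}} (hn : ∀ i, natZ i ∈ R)
    (hp : ∀ a ∈ R, ∀ b ∈ R, ({a, b} : ZFSet.{0}) ∈ R) : code φ ∈ R := by
  induction φ with
  | mem i j => exact trip_closed hp (hn _) (hn _) (hn _)
  | eq i j => exact trip_closed hp (hn _) (hn _) (hn _)
  | neg φ ih => exact trip_closed hp (hn _) ih (hn _)
  | and φ χ ih1 ih2 => exact trip_closed hp (hn _) ih1 ih2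
  | all i φ ih => exact trip_closed hp (hn _) (hn _) ih

theorem ZF0.code_mem (hM : ZF0 M) (φ : Fml) : code φ ∈ M := by
  exact code_closed φ hM.natZ_mem fun a ha b hb => hM.pair a ha b hb

private theorem img2 {X : Type 1} [Ctx M X] (hM : ZF0 M) {a b : X → M} (ha : DFc M a)
    (hb : DFc M b) {F : M → M → M} (hF : DFc M fun p : M × M => F p.1 p.2) :
    ∃ f : X → M, DFc M f ∧ ∀ x (z : M), z.1 ∈ (f x).1 ↔
      ∃ u : M, u.1 ∈ (a x).1 ∧ ∃ v : M, v.1 ∈ (b x).1 ∧ z = F u v := by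
  have hb1 : DFc M fun p : X × M => b p.1 := DFc.comp hb (DFc.fst DFc.id)
  have hF1 : DFc M fun p : (X × M) × M => F p.1.2 p.2 :=
    DFc.comp (g := fun p : M × M => F p.1 p.2) hF
      (DFc.mk (DFc.snd (DFc.fst DFc.id)) (DFc.snd DFc.id))
  obtain ⟨g, hg, hg'⟩ := hM.replF (X := X × M) (a := fun p => b p.1) hb1
    (F := fun p v => F p.2 v) hF1
  obtain ⟨f, hf, hf'⟩ := hM.unionF (X := X) (a := a) ha (F := fun x u => g (x, u)) hg
  refine ⟨f, hf, ?_⟩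
  intro x z
  rw [hf']
  constructor
  · rintro ⟨u, hu, hz⟩
    exact ⟨u, hu, (hg' (x, u) z).1 hz⟩
  · rintro ⟨u, hu, hz⟩
    exact ⟨u, hu, (hg' (x, u) z).2 hz⟩

private theorem dtr (hM : ZF0 M) (k : ℕ) : DFc M fun p : M × M => ztr hM (znat hM k) p.1 p.2 :=
  DFc.ztr hM (DFc.const (znat hM k)) (DFc.fst DFc.id) (DFc.snd DFc.id)

private theorem exists_step (hM : ZF0 M) : ∃ G : M → M, DFc M G ∧ ∀ c z : M, z.1 ∈ (G c).1 ↔
    z.1 ∈ c.1 ∨ (∃ u : M, u.1 ∈ c.1 ∧ z.1 = trip (natZ 2) u.1 (natZ 0)) ∨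
      (∃ u : M, u.1 ∈ c.1 ∧ ∃ v : M, v.1 ∈ c.1 ∧ z.1 = trip (natZ 3) u.1 v.1) ∨
      ∃ u : M, u.1 ∈ omZ ∧ ∃ v : M, v.1 ∈ c.1 ∧ z.1 = trip (natZ 4) u.1 v.1 := by
  have hid : DFc M fun c : M => c := DFc.id
  obtain ⟨f1, hf1, hf1'⟩ := hM.replF (X := M) (a := fun c => c) hid
    (F := fun _ u => ztr hM (znat hM 2) u (znat hM 0))
    (DFc.ztr hM (DFc.const (znat hM 2)) (DFc.snd DFc.id) (DFc.const (znat hM 0)))
  obtain ⟨f2, hf2, hf2'⟩ := img2 (X := M) hM hid hid (dtr hM 3)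
  obtain ⟨f3, hf3, hf3'⟩ := img2 (X := M) hM (a := fun _ => zom hM) (DFc.const (zom hM)) hid
    (dtr hM 4)
  refine ⟨fun c => zun hM c (zun hM (f1 c) (zun hM (f2 c) (f3 c))),
    DFc.zun hM hid (DFc.zun hM hf1 (DFc.zun hM hf2 hf3)), ?_⟩
  intro c z
  have h1 : z.1 ∈ (zun hM c (zun hM (f1 c) (zun hM (f2 c) (f3 c)))).1 ↔
      z.1 ∈ c.1 ∨ z.1 ∈ (f1 c).1 ∨ z.1 ∈ (f2 c).1 ∨ z.1 ∈ (f3 c).1 := by
    simp only [zun, ZFSet.mem_union]
  rw [h1, hf1', hf2', hf3']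
  simp only [Subtype.ext_iff, ztr, znat, zom]

private theorem exists_base (hM : ZF0 M) : ∃ A : M, ∀ z : M, z.1 ∈ A.1 ↔
    ∃ e : ℕ, e < 2 ∧ ∃ i j : ℕ, z.1 = trip (natZ e) (natZ i) (natZ j) := by
  obtain ⟨f, hf, hf'⟩ := img2 (X := M) hM (a := fun _ => zom hM) (DFc.const (zom hM))
    (b := fun _ => zom hM) (DFc.const (zom hM)) (dtr hM 0)
  obtain ⟨g, hg, hg'⟩ := img2 (X := M) hM (a := fun _ => zom hM) (DFc.const (zom hM))
    (b := fun _ => zom hM) (DFc.const (zom hM)) (dtr hM 1)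
  refine ⟨zun hM (f (zom hM)) (g (zom hM)), ?_⟩
  intro z
  have h1 : z.1 ∈ (zun hM (f (zom hM)) (g (zom hM))).1 ↔
      z.1 ∈ (f (zom hM)).1 ∨ z.1 ∈ (g (zom hM)).1 := by
    simp only [zun, ZFSet.mem_union]
  rw [h1, hf', hg']
  constructor
  · rintro (⟨u, hu, v, hv, rfl⟩ | ⟨u, hu, v, hv, rfl⟩)
    · obtain ⟨i, hi⟩ := mem_omZ.1 hu
      obtain ⟨j, hj⟩ := mem_omZ.1 hv
      refine ⟨0, by norm_num, i, j, ?_⟩
      rw [← hi, ← hj]
      rfl
    · obtain ⟨i, hi⟩ := mem_omZ.1 hu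
      obtain ⟨j, hj⟩ := mem_omZ.1 hv
      refine ⟨1, by norm_num, i, j, ?_⟩
      rw [← hi, ← hj]
      rfl
  · rintro ⟨e, he, i, j, hz⟩
    have he' : e = 0 ∨ e = 1 := by omega
    rcases he' with rfl | rfl
    · exact Or.inl ⟨znat hM i, natZ_mem_omZ i, znat hM j, natZ_mem_omZ j, Subtype.ext hz⟩
    · exact Or.inr ⟨znat hM i, natZ_mem_omZ i, znat hM j, natZ_mem_omZ j, Subtype.ext hz⟩

theorem exists_codes (hM : ZF0 M) : ∃ C : M, ∀ z, z ∈ C.1 ↔ ∃ φ, z = code φ := by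
  obtain ⟨G, hG, hG'⟩ := exists_step hM
  obtain ⟨A, hA⟩ := exists_base hM
  obtain ⟨H, hH, hH'⟩ := recNat (X := M) hM (a := fun _ => A) (DFc.const A)
    (F := fun _ _ c => G c) (DFc.comp hG (DFc.snd (DFc.snd DFc.id)))
  obtain ⟨f, hf, hf'⟩ := hM.unionF (X := M) (a := fun _ => zom hM) (DFc.const (zom hM))
    (F := fun x n => H x n) hH
  have h0 := (hH' A).1
  have hs := (hH' A).2
  have key : ∀ z : M, z.1 ∈ (f A).1 ↔ ∃ k, z.1 ∈ (H A (znat hM k)).1 := by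
    intro z
    rw [hf']
    constructor
    · rintro ⟨y, hy, hz⟩
      obtain ⟨k, hk⟩ := mem_omZ.1 hy
      have : y = znat hM k := Subtype.ext hk
      exact ⟨k, this ▸ hz⟩
    · rintro ⟨k, hk⟩
      exact ⟨znat hM k, natZ_mem_omZ k, hk⟩
  have hsound : ∀ k, ∀ z : M, z.1 ∈ (H A (znat hM k)).1 → ∃ φ, z.1 = code φ := by
    intro k
    induction k with
    | zero =>
      intro z hz
      rw [h0] at hz
      obtain ⟨e, he, i, j, h⟩ := (hA z).1 hz
      have he' : e = 0 ∨ e = 1 := by omega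
      rcases he' with rfl | rfl
      · exact ⟨.mem i j, h⟩
      · exact ⟨.eq i j, h⟩
    | succ k ih =>
      intro z hz
      rw [hs k] at hz
      rcases (hG' _ z).1 hz with h | ⟨u, hu, h⟩ | ⟨u, hu, v, hv, h⟩ | ⟨u, hu, v, hv, h⟩
      · exact ih z h
      · obtain ⟨φ, hφ⟩ := ih u hu
        exact ⟨.neg φ, by rw [h, hφ]; rfl⟩
      · obtain ⟨φ, hφ⟩ := ih u hu
        obtain ⟨ψ, hψ⟩ := ih v hv
        exact ⟨.and φ ψ, by rw [h, hφ, hψ]; rfl⟩
      · obtain ⟨i, hi⟩ := mem_omZ.1 hu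
        obtain ⟨ψ, hψ⟩ := ih v hv
        exact ⟨.all i ψ, by rw [h, hi, hψ]; rfl⟩
  have hmono1 : ∀ k, ∀ z : M, z.1 ∈ (H A (znat hM k)).1 → z.1 ∈ (H A (znat hM (k + 1))).1 := by
    intro k z hz
    rw [hs k]
    exact (hG' _ z).2 (Or.inl hz)
  have hmono : ∀ k l, k ≤ l → ∀ z : M, z.1 ∈ (H A (znat hM k)).1 →
      z.1 ∈ (H A (znat hM l)).1 := by
    intro k l hkl z hz
    induction l, hkl using Nat.le_induction with
    | base => exact hz
    | succ l _ ih => exact hmono1 l z ih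
  have hcomp : ∀ φ : Fml, ∃ k, code φ ∈ (H A (znat hM k)).1 := by
    intro φ
    induction φ with
    | mem i j =>
      refine ⟨0, ?_⟩
      rw [h0]
      exact (hA ⟨code (.mem i j), hM.code_mem _⟩).2 ⟨0, by norm_num, i, j, rfl⟩
    | eq i j =>
      refine ⟨0, ?_⟩
      rw [h0]
      exact (hA ⟨code (.eq i j), hM.code_mem _⟩).2 ⟨1, by norm_num, i, j, rfl⟩
    | neg φ ih =>
      obtain ⟨k, hk⟩ := ih
      refine ⟨k + 1, ?_⟩
      rw [hs k]
      exact (hG' _ ⟨code (.neg φ), hM.code_mem _⟩).2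
        (Or.inr (Or.inl ⟨⟨code φ, hM.code_mem φ⟩, hk, rfl⟩))
    | and φ ψ ih1 ih2 =>
      obtain ⟨k, hk⟩ := ih1
      obtain ⟨l, hl⟩ := ih2
      refine ⟨max k l + 1, ?_⟩
      rw [hs (max k l)]
      exact (hG' _ ⟨code (.and φ ψ), hM.code_mem _⟩).2
        (Or.inr (Or.inr (Or.inl ⟨⟨code φ, hM.code_mem φ⟩,
          hmono k _ (le_max_left _ _) ⟨code φ, hM.code_mem φ⟩ hk,
          ⟨code ψ, hM.code_mem ψ⟩, hmono l _ (le_max_right _ _) ⟨code ψ, hM.code_mem ψ⟩ hl, rfl⟩)))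
    | all i φ ih =>
      obtain ⟨k, hk⟩ := ih
      refine ⟨k + 1, ?_⟩
      rw [hs k]
      exact (hG' _ ⟨code (.all i φ), hM.code_mem _⟩).2
        (Or.inr (Or.inr (Or.inr ⟨znat hM i, natZ_mem_omZ i, ⟨code φ, hM.code_mem φ⟩, hk, rfl⟩)))
  refine ⟨f A, ?_⟩
  intro z
  constructor
  · intro hz
    have hzM : z ∈ M := hM.trans _ (f A).2 _ hz
    obtain ⟨k, hk⟩ := (key ⟨z, hzM⟩).1 hz
    exact hsound k ⟨z, hzM⟩ hk
  · rintro ⟨φ, rfl⟩
    exact (key ⟨code φ, hM.code_mem φ⟩).2 (hcomp φ)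

private theorem code_tr {ψ : Fml} {k : ℕ} {x y : ZFSet.{0}} (h : code ψ = trip (natZ k) x y) :
    (k = 2 → ∃ φ, ψ = .neg φ ∧ x = code φ) ∧
      (k = 3 → ∃ φ χ, ψ = .and φ χ ∧ x = code φ ∧ y = code χ) ∧
      (k = 4 → ∃ i φ, ψ = .all i φ ∧ x = natZ i ∧ y = code φ) := by
  cases ψ <;> simp only [code, tinj, natZ_inj] at h <;> obtain ⟨rfl, rfl, rfl⟩ := h <;>
    refine ⟨fun hk => ?_, fun hk => ?_, fun hk => ?_⟩ <;> first
      | (exfalso; omega)
      | exact ⟨_, rfl, rfl⟩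
      | exact ⟨_, _, rfl, rfl, rfl⟩

theorem exists_subE (hM : ZF0 M) : ∃ E : M, ∀ z, z ∈ E.1 ↔
    ∃ φ ψ, SubF φ ψ ∧ z = ZFSet.pair (code φ) (code ψ) := by
  obtain ⟨C, hC⟩ := exists_codes hM
  have hd : MD M fun w : M => ∃ a b c : M, w = zpr hM a b ∧
      (b = ztr hM (znat hM 2) a (znat hM 0) ∨ b = ztr hM (znat hM 3) a c ∨
        b = ztr hM (znat hM 3) c a ∨ b = ztr hM (znat hM 4) c a) := by
    apply MD.ex (P := fun (w a : M) => ∃ b c : M, w = zpr hM a b ∧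
      (b = ztr hM (znat hM 2) a (znat hM 0) ∨ b = ztr hM (znat hM 3) a c ∨
        b = ztr hM (znat hM 3) c a ∨ b = ztr hM (znat hM 4) c a))
    apply MD.ex (P := fun (q : M × M) (b : M) => ∃ c : M, q.1 = zpr hM q.2 b ∧
      (b = ztr hM (znat hM 2) q.2 (znat hM 0) ∨ b = ztr hM (znat hM 3) q.2 c ∨
        b = ztr hM (znat hM 3) c q.2 ∨ b = ztr hM (znat hM 4) c q.2))
    apply MD.ex (P := fun (q : (M × M) × M) (c : M) => q.1.1 = zpr hM q.1.2 q.2 ∧
      (q.2 = ztr hM (znat hM 2) q.1.2 (znat hM 0) ∨ q.2 = ztr hM (znat hM 3) q.1.2 c ∨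
        q.2 = ztr hM (znat hM 3) c q.1.2 ∨ q.2 = ztr hM (znat hM 4) c q.1.2))
    have ew : DFc M fun q : ((M × M) × M) × M => q.1.1.1 :=
      DFc.fst (DFc.fst (DFc.fst DFc.id))
    have ea : DFc M fun q : ((M × M) × M) × M => q.1.1.2 := DFc.snd (DFc.fst (DFc.fst DFc.id))
    have eb : DFc M fun q : ((M × M) × M) × M => q.1.2 := DFc.snd (DFc.fst DFc.id)
    have ec : DFc M fun q : ((M × M) × M) × M => q.2 := DFc.snd DFc.id
    have e0 : DFc M fun _ : ((M × M) × M) × M => znat hM 0 := DFc.const _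
    have e2 : DFc M fun _ : ((M × M) × M) × M => znat hM 2 := DFc.const _
    have e3 : DFc M fun _ : ((M × M) × M) × M => znat hM 3 := DFc.const _
    have e4 : DFc M fun _ : ((M × M) × M) × M => znat hM 4 := DFc.const _
    have p1 := (MD.eq ew (DFc.zpr hM ea eb) :)
    have p2 := (MD.eq eb (DFc.ztr hM e2 ea e0) :)
    have p3 := (MD.eq eb (DFc.ztr hM e3 ea ec) :)
    have p4 := (MD.eq eb (DFc.ztr hM e3 ec ea) :)
    have p5 := (MD.eq eb (DFc.ztr hM e4 ec ea) :)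
    exact MD.and p1 (MD.or p2 (MD.or p3 (MD.or p4 p5)))
  obtain ⟨E, hE⟩ := hM.sep _ hd (zpd hM C C)
  refine ⟨E, ?_⟩
  intro z
  constructor
  · intro hz
    have hzM : z ∈ M := hM.trans _ E.2 _ hz
    obtain ⟨hz1, a, b, c, hz2, h⟩ := (hE ⟨z, hzM⟩).1 hz
    have hz1' : z ∈ C.1.prod C.1 := hz1
    rw [ZFSet.mem_prod] at hz1'
    obtain ⟨a', ha', b', hb', hz3⟩ := hz1'
    have hz2' : z = ZFSet.pair a.1 b.1 := congrArg Subtype.val hz2
    rw [hz2', ZFSet.pair_inj] at hz3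
    obtain ⟨rfl, rfl⟩ := hz3
    obtain ⟨φ, hφ⟩ := (hC _).1 ha'
    obtain ⟨ψ, hψ⟩ := (hC _).1 hb'
    refine ⟨φ, ψ, ?_, by rw [hz2', hφ, hψ]⟩
    rcases h with h | h | h | h
    · have h' : code ψ = trip (natZ 2) (code φ) (natZ 0) := by
        rw [← hφ, ← hψ, h]; rfl
      obtain ⟨φ', rfl, h2⟩ := (code_tr h').1 rfl
      rw [code_inj] at h2
      subst h2
      exact SubF.neg _
    · have h' : code ψ = trip (natZ 3) (code φ) c.1 := by
        rw [← hφ, ← hψ, h]; rfl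
      obtain ⟨φ', χ, rfl, h2, -⟩ := (code_tr h').2.1 rfl
      rw [code_inj] at h2
      subst h2
      exact SubF.andl _ _
    · have h' : code ψ = trip (natZ 3) c.1 (code φ) := by
        rw [← hφ, ← hψ, h]; rfl
      obtain ⟨φ', χ, rfl, -, h2⟩ := (code_tr h').2.1 rfl
      rw [code_inj] at h2
      subst h2
      exact SubF.andr _ _
    · have h' : code ψ = trip (natZ 4) c.1 (code φ) := by
        rw [← hφ, ← hψ, h]; rfl
      obtain ⟨i, φ', rfl, -, h2⟩ := (code_tr h').2.2 rfl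
      rw [code_inj] at h2
      subst h2
      exact SubF.all _ _
  · rintro ⟨φ, ψ, hs, rfl⟩
    have hpM : ZFSet.pair (code φ) (code ψ) ∈ M := hM.pairZ (hM.code_mem φ) (hM.code_mem ψ)
    refine (hE ⟨_, hpM⟩).2 ⟨?_, ⟨code φ, hM.code_mem φ⟩, ⟨code ψ, hM.code_mem ψ⟩, ?_⟩
    · change ZFSet.pair (code φ) (code ψ) ∈ C.1.prod C.1
      rw [ZFSet.pair_mem_prod]
      exact ⟨(hC _).2 ⟨φ, rfl⟩, (hC _).2 ⟨ψ, rfl⟩⟩
    · cases hs with
      | neg => exact ⟨znat hM 0, rfl, Or.inl rfl⟩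
      | andl _ χ => exact ⟨⟨code χ, hM.code_mem χ⟩, rfl, Or.inr (Or.inl rfl)⟩
      | andr χ _ => exact ⟨⟨code χ, hM.code_mem χ⟩, rfl, Or.inr (Or.inr (Or.inl rfl))⟩
      | all i _ => exact ⟨znat hM i, rfl, Or.inr (Or.inr (Or.inr rfl))⟩

theorem wf_subE {C E : ZFSet.{0}} (hC : ∀ z, z ∈ C ↔ ∃ φ, z = code φ)
    (hE : ∀ z, z ∈ E ↔ ∃ φ ψ, SubF φ ψ ∧ z = ZFSet.pair (code φ) (code ψ)) :
    WellFounded fun a b : {d : ZFSet.{0} // d ∈ C} => ZFSet.pair a.1 b.1 ∈ E := by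
  choose d hd using fun a : {d : ZFSet.{0} // d ∈ C} => (hC a.1).1 a.2
  refine Subrelation.wf (r := fun a b => sizeOf (d a) < sizeOf (d b)) ?_
    (InvImage.wf (fun a => sizeOf (d a)) wellFounded_lt)
  intro a b hab
  obtain ⟨φ, ψ, hs, h⟩ := (hE _).1 hab
  rw [ZFSet.pair_inj] at h
  have h1 : d a = φ := by
    rw [← code_inj, ← hd a, h.1]
  have h2 : d b = ψ := by
    rw [← code_inj, ← hd b, h.2]
  change sizeOf (d a) < sizeOf (d b)
  rw [h1, h2]
  cases hs <;> (simp; try omega)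

end RMK
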