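import Pool.Agent.RMK.S.ZFP
import Pool.Agent.RMK.S.ZCode

/-!
RMK ZSAT: internal satisfaction in a model of ZF without power set.

PROOFS.
`sat_congr`: induction on `φ` (`Sat` only looks at variables below `bd φ`).
`exists_Sat`: `recE` in the context `X = M` (the structure `x`) with `D = C` (`exists_codes`), `E` from
`exists_subE`, and `F x c h` defined by cases (`DFc.ite`): let `A = P x` (`exists_FP`).
If `c = trip (natZ 0) i j`: `{s ∈ A | apZ s i ∈ apZ s j}`; if `c = trip (natZ 1) i j`: `{s ∈ A | apZ s i = apZ s j}`;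
if `c = trip (natZ 2) c' _`: `A` minus `apZ h c'`; if `c = trip (natZ 3) c' c''`: `apZ h c' ∩ apZ h c''`; if
`c = trip (natZ 4) i c'`: `{s ∈ A | ∀ a ∈ x, updZ s i a ∈ apZ h c'}`; else `∅`.  Uniformly: by separation (`sepF`)
from `A` with the predicate on `s`: `(∃ i j, c = trip 0 i j ∧ apZ s i ∈ apZ s j) ∨ (∃ i j, c = trip 1 i j ∧
apZ s i = apZ s j) ∨ (∃ c' d, c = trip 2 c' d ∧ s ∉ apZ h c') ∨ (∃ c' c'', c = trip 3 c' c'' ∧ s ∈ apZ h c' ∧
s ∈ apZ h c'') ∨ (∃ i c', c = trip 4 i c' ∧ ∀ a : M, a ∈ x → zup s i a ∈ apZ h c')`, quantifiers over `↥M`.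
`S x c = apZ (H x) c`.  The specification is proved by induction on `φ`: the restricted function `h` exists
in `M` (separation from `H x`), and `apZ h (code φ') = apZ (H x) (code φ')` for immediate subformulas `φ'`.
For `all i φ'`: `FP x (updZ s (natZ i) a)` for `a ∈ x`, and `ext (updZ s (natZ i) a) = update (ext s) i a`
(`ext_upd`); `Sat` of `all` quantifies over `a ∈ {z | z ∈ x}`.
`MD.satZ`: for a fixed formula, induction on `φ` with `MD.mem`, `MD.eq`, `MD.not`, `MD.and`, `MD.all` (the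
quantifier over the elements of the set `x` is a bounded quantifier over `↥M`), the assignment being a
context variable `ℕ → M`; `update` of a sequence is `DFc` (coordinatewise: `DFc.nat`).
-/

namespace RMK

open Set PU

variable {M : Set ZFSet.{0}} {X : Type 1} [Ctx M X]

private theorem trip_inj' {a b c a' b' c' : ZFSet.{0}} (h : trip a b c = trip a' b' c') :
    a = a' ∧ b = b' ∧ c = c' := by
  unfold trip at h
  obtain ⟨h1, h2⟩ := ZFSet.pair_inj.1 h
  obtain ⟨h3, h4⟩ := ZFSet.pair_inj.1 h2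
  exact ⟨h1, h3, h4⟩

private theorem trip_ne {k l : ℕ} (hkl : k ≠ l) {b c b' c' : ZFSet.{0}}
    (h : trip (natZ k) b c = trip (natZ l) b' c') : False :=
  hkl (natZ_inj.1 (trip_inj' h).1)

private theorem apZ_of {h d y : ZFSet.{0}} (h1 : ZFSet.pair d y ∈ h)
    (h2 : ∀ y', ZFSet.pair d y' ∈ h → y' = y) : apZ h d = y := by
  have H : ∃ y, ZFSet.pair d y ∈ h ∧ ∀ y', ZFSet.pair d y' ∈ h → y' = y := ⟨y, h1, h2⟩
  unfold apZ
  rw [dif_pos H]
  exact h2 _ H.choose_spec.1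

theorem sat_congr {U : Type*} {E : U → U → Prop} {A : Set U} (φ : Fml) {s t : ℕ → U}
    (h : ∀ i, i < bd φ → s i = t i) : Sat E A φ s ↔ Sat E A φ t := by
  induction φ generalizing s t with
  | mem i j =>
    have h1 : s i = t i := h i (Nat.lt_succ_of_le (le_max_left i j))
    have h2 : s j = t j := h j (Nat.lt_succ_of_le (le_max_right i j))
    simp only [Sat, h1, h2]
  | eq i j =>
    have h1 : s i = t i := h i (Nat.lt_succ_of_le (le_max_left i j))
    have h2 : s j = t j := h j (Nat.lt_succ_of_le (le_max_right i j))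
    simp only [Sat, h1, h2]
  | neg φ ih =>
    simp only [Sat]
    exact not_congr (ih h)
  | and φ ψ ih1 ih2 =>
    simp only [Sat]
    exact and_congr (ih1 fun i hi => h i (lt_of_lt_of_le hi (le_max_left _ _)))
      (ih2 fun i hi => h i (lt_of_lt_of_le hi (le_max_right _ _)))
  | all i φ ih =>
    simp only [Sat]
    refine forall_congr' fun a => forall_congr' fun _ => ih fun j hj => ?_
    by_cases hji : j = i
    · subst hji
      simp
    · rw [Function.update_of_ne hji, Function.update_of_ne hji]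
      exact h j (lt_of_lt_of_le hj (le_max_right _ _))

private theorem updD {i : ℕ} {s : X → ℕ → M} (hs : DFc M s) :
    DFc M fun p : X × M => Function.update (s p.1) i p.2 := by
  apply DFc.nat
  intro j
  by_cases hji : j = i
  · subst hji
    have e : (fun p : X × M => Function.update (s p.1) j p.2 j) = fun p => p.2 := by
      funext p
      simp
    rw [e]
    exact DFc.snd DFc.id
  · have e : (fun p : X × M => Function.update (s p.1) i p.2 j) = fun p => s p.1 j := by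
      funext p
      rw [Function.update_of_ne hji]
    rw [e]
    exact DFc.app (hs.comp (DFc.fst DFc.id)) j

private theorem satZ_all (hM : ZF0 M) (i : ℕ) (φ : Fml) (x : M) (s : ℕ → M) :
    SatZ x.1 (.all i φ) (fun j => (s j).1) ↔
      ∀ a : M, a.1 ∈ x.1 → SatZ x.1 φ fun j => (Function.update s i a j).1 := by
  have key : ∀ a : M, (fun j => (Function.update s i a j).1) =
      Function.update (fun j => (s j).1) i a.1 := by
    intro a
    funext j
    by_cases hji : j = i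
    · subst hji
      simp
    · rw [Function.update_of_ne hji, Function.update_of_ne hji]
  constructor
  · intro h a ha
    rw [key]
    exact h a.1 ha
  · intro h a ha
    have := h ⟨a, hM.trans _ x.2 _ ha⟩ ha
    rw [key] at this
    exact this

private theorem satZ_aux (hM : ZF0 M) (φ : Fml) : ∀ (X : Type 1) [Ctx M X] (f : X → M)
    (_ : DFc M f) (s : X → ℕ → M) (_ : DFc M s),
    MD M fun x => SatZ (f x).1 φ fun i => (s x i).1 := by
  induction φ with
  | mem i j =>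
    intro X _ f hf s hs
    exact (MD.mem (DFc.app hs i) (DFc.app hs j) :)
  | eq i j =>
    intro X _ f hf s hs
    refine MD.congr (P := fun x => s x i = s x j) (fun x => ?_)
      (MD.eq (DFc.app hs i) (DFc.app hs j) :)
    exact Subtype.ext_iff
  | neg φ ih =>
    intro X _ f hf s hs
    exact (MD.not (ih X f hf s hs) :)
  | and φ ψ ih1 ih2 =>
    intro X _ f hf s hs
    exact (MD.and (ih1 X f hf s hs) (ih2 X f hf s hs) :)
  | all i φ ih =>
    intro X _ f hf s hs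
    refine MD.congr (P := fun x => ∀ a : M, a.1 ∈ (f x).1 →
      SatZ (f x).1 φ fun j => (Function.update (s x) i a j).1)
      (fun x => (satZ_all hM i φ (f x) (s x)).symm) ?_
    refine MD.all (P := fun x (a : M) => a.1 ∈ (f x).1 →
      SatZ (f x).1 φ fun j => (Function.update (s x) i a j).1) ?_
    have h1 : DFc M fun p : X × M => f p.1 := hf.comp (DFc.fst DFc.id)
    exact (MD.imp (MD.mem (DFc.snd DFc.id) h1) (ih (X × M) (fun p => f p.1) h1
      (fun p => Function.update (s p.1) i p.2) (updD hs)) :)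

theorem MD.satZ (hM : ZF0 M) (φ : Fml) {f : X → M} (hf : DFc M f) {s : X → ℕ → M}
    (hs : DFc M s) : MD M fun x => SatZ (f x).1 φ fun i => (s x i).1 :=
  satZ_aux hM φ X f hf s hs

/-- the defining predicate of the satisfaction recursion -/
private def Qs (hM : ZF0 M) (p : M × M × M) (s : M) : Prop :=
  (∃ i j : M, p.2.1 = ztr hM (znat hM 0) i j ∧ (zap hM s i).1 ∈ (zap hM s j).1) ∨
  (∃ i j : M, p.2.1 = ztr hM (znat hM 1) i j ∧ zap hM s i = zap hM s j) ∨
  (∃ c d : M, p.2.1 = ztr hM (znat hM 2) c d ∧ ¬ s.1 ∈ (zap hM p.2.2 c).1) ∨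
  (∃ c d : M, p.2.1 = ztr hM (znat hM 3) c d ∧ s.1 ∈ (zap hM p.2.2 c).1 ∧
    s.1 ∈ (zap hM p.2.2 d).1) ∨
  (∃ i c : M, p.2.1 = ztr hM (znat hM 4) i c ∧ ∀ a : M, a.1 ∈ p.1.1 →
    (zup hM s i a).1 ∈ (zap hM p.2.2 c).1)

section

variable (hM : ZF0 M)

private theorem d1 : DFc M fun q : (((M × M × M) × M) × M) × M => q.1.1.1.2.1 :=
  DFc.fst (DFc.snd (DFc.fst (DFc.fst (DFc.fst DFc.id))))

private theorem d2 : DFc M fun q : (((M × M × M) × M) × M) × M => q.1.1.1.2.2 :=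
  DFc.snd (DFc.snd (DFc.fst (DFc.fst (DFc.fst DFc.id))))

private theorem ds : DFc M fun q : (((M × M × M) × M) × M) × M => q.1.1.2 :=
  DFc.snd (DFc.fst (DFc.fst DFc.id))

private theorem di : DFc M fun q : (((M × M × M) × M) × M) × M => q.1.2 :=
  DFc.snd (DFc.fst DFc.id)

private theorem dj : DFc M fun q : (((M × M × M) × M) × M) × M => q.2 :=
  DFc.snd DFc.id

private theorem trD (k : ℕ) : MD M fun q : (((M × M × M) × M) × M) × M =>
    q.1.1.1.2.1 = ztr hM (znat hM k) q.1.2 q.2 :=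
  MD.eq d1 (DFc.ztr hM (DFc.const _) di dj)

private theorem exex {P : (M × M × M) × M → M → M → Prop}
    (h : MD M fun q : (((M × M × M) × M) × M) × M => P q.1.1 q.1.2 q.2) :
    MD M fun p : (M × M × M) × M => ∃ i j : M, P p i j :=
  MD.ex (P := fun p i => ∃ j : M, P p i j)
    (MD.ex (P := fun (q : ((M × M × M) × M) × M) (j : M) => P q.1 q.2 j) h)

private theorem QsD : MD M fun q : (M × M × M) × M => Qs hM q.1 q.2 := by
  unfold Qs
  refine MD.or ?_ (MD.or ?_ (MD.or ?_ (MD.or ?_ ?_)))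
  · exact exex (P := fun q i j => q.1.2.1 = ztr hM (znat hM 0) i j ∧
      (zap hM q.2 i).1 ∈ (zap hM q.2 j).1)
      (MD.and (trD hM 0) (MD.mem (DFc.zap hM ds di) (DFc.zap hM ds dj)))
  · exact exex (P := fun q i j => q.1.2.1 = ztr hM (znat hM 1) i j ∧
      zap hM q.2 i = zap hM q.2 j)
      (MD.and (trD hM 1) (MD.eq (DFc.zap hM ds di) (DFc.zap hM ds dj)))
  · exact exex (P := fun q c d => q.1.2.1 = ztr hM (znat hM 2) c d ∧
      ¬ q.2.1 ∈ (zap hM q.1.2.2 c).1)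
      (MD.and (trD hM 2) (MD.not (MD.mem ds (DFc.zap hM d2 di))))
  · exact exex (P := fun q c d => q.1.2.1 = ztr hM (znat hM 3) c d ∧
      q.2.1 ∈ (zap hM q.1.2.2 c).1 ∧ q.2.1 ∈ (zap hM q.1.2.2 d).1)
      (MD.and (trD hM 3) (MD.and (MD.mem ds (DFc.zap hM d2 di))
        (MD.mem ds (DFc.zap hM d2 dj))))
  · refine exex (P := fun q i c => q.1.2.1 = ztr hM (znat hM 4) i c ∧
      ∀ a : M, a.1 ∈ q.1.1.1 → (zup hM q.2 i a).1 ∈ (zap hM q.1.2.2 c).1)
      (MD.and (trD hM 4) ?_)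
    refine MD.all (P := fun (q : (((M × M × M) × M) × M) × M) (a : M) =>
      a.1 ∈ q.1.1.1.1.1 → (zup hM q.1.1.2 q.1.2 a).1 ∈ (zap hM q.1.1.1.2.2 q.2).1) ?_
    have w : DFc M fun r : ((((M × M × M) × M) × M) × M) × M => r.1 := DFc.fst DFc.id
    have ha : DFc M fun r : ((((M × M × M) × M) × M) × M) × M => r.2 := DFc.snd DFc.id
    have hx : DFc M fun r : ((((M × M × M) × M) × M) × M) × M => r.1.1.1.1.1 :=
      DFc.fst (DFc.fst (DFc.fst (DFc.fst w)))
    have hs : DFc M fun r : ((((M × M × M) × M) × M) × M) × M => r.1.1.1.2 :=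
      DFc.snd (DFc.fst (DFc.fst w))
    have hi : DFc M fun r : ((((M × M × M) × M) × M) × M) × M => r.1.1.2 :=
      DFc.snd (DFc.fst w)
    have hc : DFc M fun r : ((((M × M × M) × M) × M) × M) × M => r.1.2 := DFc.snd w
    have hh : DFc M fun r : ((((M × M × M) × M) × M) × M) × M => r.1.1.1.1.2.2 :=
      DFc.snd (DFc.snd (DFc.fst (DFc.fst (DFc.fst w))))
    exact MD.imp (MD.mem ha hx) (MD.mem (DFc.zup hM hs hi ha) (DFc.zap hM hh hc))

end

private theorem qs_mem (hM : ZF0 M) (x c h s : M) (i j : ℕ) (hc : c.1 = code (.mem i j)) :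
    Qs hM (x, c, h) s ↔ ext s.1 i ∈ ext s.1 j := by
  have hcc : c.1 = trip (natZ 0) (natZ i) (natZ j) := hc
  constructor
  · rintro (⟨a, b, he, hm⟩ | ⟨a, b, he, hm⟩ | ⟨a, b, he, hm⟩ | ⟨a, b, he, hm⟩ | ⟨a, b, he, hm⟩)
    · have h1 : c.1 = trip (natZ 0) a.1 b.1 := congrArg Subtype.val he
      obtain ⟨-, h2, h3⟩ := trip_inj' (hcc.symm.trans h1)
      change apZ s.1 (natZ i) ∈ apZ s.1 (natZ j)
      rw [h2, h3]
      exact hm
    · have h1 : c.1 = trip (natZ 1) a.1 b.1 := congrArg Subtype.val he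
      exact (trip_ne (by omega) (hcc.symm.trans h1)).elim
    · have h1 : c.1 = trip (natZ 2) a.1 b.1 := congrArg Subtype.val he
      exact (trip_ne (by omega) (hcc.symm.trans h1)).elim
    · have h1 : c.1 = trip (natZ 3) a.1 b.1 := congrArg Subtype.val he
      exact (trip_ne (by omega) (hcc.symm.trans h1)).elim
    · have h1 : c.1 = trip (natZ 4) a.1 b.1 := congrArg Subtype.val he
      exact (trip_ne (by omega) (hcc.symm.trans h1)).elim
  · intro hm
    exact Or.inl ⟨znat hM i, znat hM j, Subtype.ext hcc, hm⟩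

private theorem qs_eq (hM : ZF0 M) (x c h s : M) (i j : ℕ) (hc : c.1 = code (.eq i j)) :
    Qs hM (x, c, h) s ↔ ext s.1 i = ext s.1 j := by
  have hcc : c.1 = trip (natZ 1) (natZ i) (natZ j) := hc
  constructor
  · rintro (⟨a, b, he, hm⟩ | ⟨a, b, he, hm⟩ | ⟨a, b, he, hm⟩ | ⟨a, b, he, hm⟩ | ⟨a, b, he, hm⟩)
    · have h1 : c.1 = trip (natZ 0) a.1 b.1 := congrArg Subtype.val he
      exact (trip_ne (by omega) (hcc.symm.trans h1)).elim
    · have h1 : c.1 = trip (natZ 1) a.1 b.1 := congrArg Subtype.val he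
      obtain ⟨-, h2, h3⟩ := trip_inj' (hcc.symm.trans h1)
      change apZ s.1 (natZ i) = apZ s.1 (natZ j)
      rw [h2, h3]
      exact congrArg Subtype.val hm
    · have h1 : c.1 = trip (natZ 2) a.1 b.1 := congrArg Subtype.val he
      exact (trip_ne (by omega) (hcc.symm.trans h1)).elim
    · have h1 : c.1 = trip (natZ 3) a.1 b.1 := congrArg Subtype.val he
      exact (trip_ne (by omega) (hcc.symm.trans h1)).elim
    · have h1 : c.1 = trip (natZ 4) a.1 b.1 := congrArg Subtype.val he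
      exact (trip_ne (by omega) (hcc.symm.trans h1)).elim
  · intro hm
    exact Or.inr (Or.inl ⟨znat hM i, znat hM j, Subtype.ext hcc, Subtype.ext hm⟩)

private theorem qs_neg (hM : ZF0 M) (x c h s : M) (φ : Fml) (hc : c.1 = code (.neg φ)) :
    Qs hM (x, c, h) s ↔ ¬ s.1 ∈ apZ h.1 (code φ) := by
  have hcc : c.1 = trip (natZ 2) (code φ) (natZ 0) := hc
  constructor
  · rintro (⟨a, b, he, hm⟩ | ⟨a, b, he, hm⟩ | ⟨a, b, he, hm⟩ | ⟨a, b, he, hm⟩ | ⟨a, b, he, hm⟩)
    · have h1 : c.1 = trip (natZ 0) a.1 b.1 := congrArg Subtype.val he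
      exact (trip_ne (by omega) (hcc.symm.trans h1)).elim
    · have h1 : c.1 = trip (natZ 1) a.1 b.1 := congrArg Subtype.val he
      exact (trip_ne (by omega) (hcc.symm.trans h1)).elim
    · have h1 : c.1 = trip (natZ 2) a.1 b.1 := congrArg Subtype.val he
      obtain ⟨-, h2, h3⟩ := trip_inj' (hcc.symm.trans h1)
      rw [h2]
      exact hm
    · have h1 : c.1 = trip (natZ 3) a.1 b.1 := congrArg Subtype.val he
      exact (trip_ne (by omega) (hcc.symm.trans h1)).elim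
    · have h1 : c.1 = trip (natZ 4) a.1 b.1 := congrArg Subtype.val he
      exact (trip_ne (by omega) (hcc.symm.trans h1)).elim
  · intro hm
    exact Or.inr (Or.inr (Or.inl ⟨⟨code φ, hM.code_mem φ⟩, znat hM 0, Subtype.ext hcc, hm⟩))

private theorem qs_and (hM : ZF0 M) (x c h s : M) (φ ψ : Fml) (hc : c.1 = code (.and φ ψ)) :
    Qs hM (x, c, h) s ↔ s.1 ∈ apZ h.1 (code φ) ∧ s.1 ∈ apZ h.1 (code ψ) := by
  have hcc : c.1 = trip (natZ 3) (code φ) (code ψ) := hc
  constructor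
  · rintro (⟨a, b, he, hm⟩ | ⟨a, b, he, hm⟩ | ⟨a, b, he, hm⟩ | ⟨a, b, he, hm⟩ | ⟨a, b, he, hm⟩)
    · have h1 : c.1 = trip (natZ 0) a.1 b.1 := congrArg Subtype.val he
      exact (trip_ne (by omega) (hcc.symm.trans h1)).elim
    · have h1 : c.1 = trip (natZ 1) a.1 b.1 := congrArg Subtype.val he
      exact (trip_ne (by omega) (hcc.symm.trans h1)).elim
    · have h1 : c.1 = trip (natZ 2) a.1 b.1 := congrArg Subtype.val he
      exact (trip_ne (by omega) (hcc.symm.trans h1)).elim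
    · have h1 : c.1 = trip (natZ 3) a.1 b.1 := congrArg Subtype.val he
      obtain ⟨-, h2, h3⟩ := trip_inj' (hcc.symm.trans h1)
      rw [h2, h3]
      exact hm
    · have h1 : c.1 = trip (natZ 4) a.1 b.1 := congrArg Subtype.val he
      exact (trip_ne (by omega) (hcc.symm.trans h1)).elim
  · intro hm
    exact Or.inr (Or.inr (Or.inr (Or.inl ⟨⟨code φ, hM.code_mem φ⟩, ⟨code ψ, hM.code_mem ψ⟩,
      Subtype.ext hcc, hm⟩)))

private theorem qs_all (hM : ZF0 M) (x c h s : M) (i : ℕ) (φ : Fml)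
    (hc : c.1 = code (.all i φ)) :
    Qs hM (x, c, h) s ↔ ∀ a ∈ x.1, updZ s.1 (natZ i) a ∈ apZ h.1 (code φ) := by
  have hcc : c.1 = trip (natZ 4) (natZ i) (code φ) := hc
  constructor
  · rintro (⟨a, b, he, hm⟩ | ⟨a, b, he, hm⟩ | ⟨a, b, he, hm⟩ | ⟨a, b, he, hm⟩ | ⟨a, b, he, hm⟩)
    · have h1 : c.1 = trip (natZ 0) a.1 b.1 := congrArg Subtype.val he
      exact (trip_ne (by omega) (hcc.symm.trans h1)).elim
    · have h1 : c.1 = trip (natZ 1) a.1 b.1 := congrArg Subtype.val he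
      exact (trip_ne (by omega) (hcc.symm.trans h1)).elim
    · have h1 : c.1 = trip (natZ 2) a.1 b.1 := congrArg Subtype.val he
      exact (trip_ne (by omega) (hcc.symm.trans h1)).elim
    · have h1 : c.1 = trip (natZ 3) a.1 b.1 := congrArg Subtype.val he
      exact (trip_ne (by omega) (hcc.symm.trans h1)).elim
    · have h1 : c.1 = trip (natZ 4) a.1 b.1 := congrArg Subtype.val he
      obtain ⟨-, h2, h3⟩ := trip_inj' (hcc.symm.trans h1)
      intro w hw
      rw [h2, h3]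
      exact hm ⟨w, hM.trans _ x.2 _ hw⟩ hw
  · intro hm
    exact Or.inr (Or.inr (Or.inr (Or.inr ⟨znat hM i, ⟨code φ, hM.code_mem φ⟩,
      Subtype.ext hcc, fun a ha => hm a.1 ha⟩)))

/-- the restriction of `H` to the predecessors of `c` -/
private theorem exists_restr (hM : ZF0 M) (C E H c : M) (hf : IsFn H.1 C.1) :
    ∃ h : M, (∀ w, w ∈ h.1 ↔ ∃ e, e ∈ C.1 ∧ ZFSet.pair e c.1 ∈ E.1 ∧
      w = ZFSet.pair e (apZ H.1 e)) ∧
      ∀ e, e ∈ C.1 → ZFSet.pair e c.1 ∈ E.1 → apZ h.1 e = apZ H.1 e := by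
  have hP : MD M fun w : M => ∃ e y : M, w.1 = ZFSet.pair e.1 y.1 ∧
      ZFSet.pair e.1 c.1 ∈ E.1 := by
    refine MD.ex (P := fun (w e : M) => ∃ y : M, w.1 = ZFSet.pair e.1 y.1 ∧
      ZFSet.pair e.1 c.1 ∈ E.1) ?_
    refine MD.ex (P := fun (q : M × M) (y : M) => q.1.1 = ZFSet.pair q.2.1 y.1 ∧
      ZFSet.pair q.2.1 c.1 ∈ E.1) ?_
    have hw : DFc M fun q : (M × M) × M => q.1.1 := DFc.fst (DFc.fst DFc.id)
    have he : DFc M fun q : (M × M) × M => q.1.2 := DFc.snd (DFc.fst DFc.id)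
    have hy : DFc M fun q : (M × M) × M => q.2 := DFc.snd DFc.id
    exact MD.and (MD.eq_zpair hM hw he hy) (MD.zpair_mem hM he (DFc.const c) (DFc.const E))
  obtain ⟨h, hh⟩ := hM.sep _ hP H
  have hw : ∀ w, w ∈ h.1 ↔ ∃ e, e ∈ C.1 ∧ ZFSet.pair e c.1 ∈ E.1 ∧
      w = ZFSet.pair e (apZ H.1 e) := by
    intro w
    constructor
    · intro hw
      obtain ⟨h1, e, y, h2, h3⟩ := (hh ⟨w, hM.trans _ h.2 _ hw⟩).1 hw
      change w ∈ H.1 at h1
      change w = ZFSet.pair e.1 y.1 at h2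
      obtain ⟨d, hd, y', h4⟩ := hf.1 w h1
      have h5 := ZFSet.pair_inj.1 (h2.symm.trans h4)
      have h6 : apZ H.1 e.1 = y.1 := by
        rw [apZ_eq hf (h5.1 ▸ hd), ← h2]
        exact h1
      exact ⟨e.1, h5.1 ▸ hd, h3, by rw [h6, h2]⟩
    · rintro ⟨e, he, h1, h2⟩
      have h3 : ZFSet.pair e (apZ H.1 e) ∈ H.1 := (apZ_eq hf he).1 rfl
      have h4 : w ∈ H.1 := h2 ▸ h3
      refine (hh ⟨w, hM.trans _ H.2 _ h4⟩).2 ⟨h4, ⟨e, hM.trans _ C.2 _ he⟩,
        ⟨apZ H.1 e, hM.apZ_mem H.2⟩, h2, h1⟩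
  refine ⟨h, hw, ?_⟩
  intro e he h1
  refine apZ_of ((hw _).2 ⟨e, he, h1, rfl⟩) ?_
  intro y' hy'
  obtain ⟨e', -, -, h2⟩ := (hw _).1 hy'
  obtain ⟨h3, h4⟩ := ZFSet.pair_inj.1 h2
  rw [h4, ← h3]

theorem exists_Sat (hM : ZF0 M) : ∃ S : M → M → M, (DFc M fun p : M × M => S p.1 p.2) ∧
    ∀ (x c : M) (φ : Fml), c.1 = code φ →
      ∀ z, z ∈ (S x c).1 ↔ FP x.1 z ∧ SatZ x.1 φ (ext z) := by
  obtain ⟨C, hC⟩ := exists_codes hM
  obtain ⟨E, hE⟩ := exists_subE hM
  obtain ⟨P, hPd, hP⟩ := exists_FP hM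
  have hPd' : DFc M fun p : M × M × M => P p.1 := hPd.comp (DFc.fst DFc.id)
  obtain ⟨F, hF, hFs⟩ := hM.sepF (X := M × M × M) (a := fun p => P p.1) hPd'
    (P := fun p s => Qs hM p s) (QsD hM)
  obtain ⟨H, hH, hHs⟩ := recE hM (X := M) (D := fun _ => C) (E := fun _ => E) (DFc.const C)
    (DFc.const E) (fun _ => wf_subE hC hE) (F := fun x c h => F (x, c, h)) hF
  refine ⟨fun x c => zap hM (H x) c, DFc.zap hM (hH.comp (DFc.fst DFc.id)) (DFc.snd DFc.id), ?_⟩
  intro x c φ hc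
  -- the recursion equation
  have step : ∀ (c : M) (φ : Fml), c.1 = code φ → ∃ h : M,
      (∀ ψ, SubF ψ φ → apZ h.1 (code ψ) = apZ (H x).1 (code ψ)) ∧
      ∀ z : ZFSet.{0}, z ∈ (zap hM (H x) c).1 ↔ ∃ hz : z ∈ M, FP x.1 z ∧
        Qs hM (x, c, h) ⟨z, hz⟩ := by
    intro c φ hc
    obtain ⟨h, hh1, hh2⟩ := exists_restr hM C E (H x) c (hHs x).1
    refine ⟨h, ?_, ?_⟩
    · intro ψ hψ
      exact hh2 _ ((hC _).2 ⟨ψ, rfl⟩) ((hE _).2 ⟨ψ, φ, hψ, by rw [hc]⟩)
    · intro z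
      rw [(hHs x).2 c h ((hC _).2 ⟨φ, hc⟩) hh1]
      constructor
      · intro hz
        have hzM : z ∈ M := hM.trans _ (F (x, c, h)).2 _ hz
        obtain ⟨h1, h2⟩ := (hFs (x, c, h) ⟨z, hzM⟩).1 hz
        exact ⟨hzM, (hP x z).1 h1, h2⟩
      · rintro ⟨hzM, h1, h2⟩
        exact (hFs (x, c, h) ⟨z, hzM⟩).2 ⟨(hP x z).2 h1, h2⟩
  have fin : ∀ (c : M) (φ : Fml) (T : ZFSet.{0} → Prop), c.1 = code φ →
      (∀ h : M, (∀ ψ, SubF ψ φ → apZ h.1 (code ψ) = apZ (H x).1 (code ψ)) →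
        ∀ s : M, FP x.1 s.1 → (Qs hM (x, c, h) s ↔ T s.1)) →
      ∀ z, z ∈ (zap hM (H x) c).1 ↔ FP x.1 z ∧ T z := by
    intro c φ T hc hT z
    obtain ⟨h, hh, hz⟩ := step c φ hc
    rw [hz]
    constructor
    · rintro ⟨hzM, h1, h2⟩
      exact ⟨h1, (hT h hh ⟨z, hzM⟩ h1).1 h2⟩
    · rintro ⟨h1, h2⟩
      have hzM : z ∈ M := FP.mem_M hM x.2 h1
      exact ⟨hzM, h1, (hT h hh ⟨z, hzM⟩ h1).2 h2⟩
  clear step
  induction φ generalizing c with
  | mem i j =>
    refine fin c _ (fun z => SatZ x.1 (.mem i j) (ext z)) hc ?_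
    intro h hh s hs
    exact qs_mem hM x c h s i j hc
  | eq i j =>
    refine fin c _ (fun z => SatZ x.1 (.eq i j) (ext z)) hc ?_
    intro h hh s hs
    exact qs_eq hM x c h s i j hc
  | neg φ ih =>
    refine fin c _ (fun z => SatZ x.1 (.neg φ) (ext z)) hc ?_
    intro h hh s hs
    have h1 := ih ⟨code φ, hM.code_mem φ⟩ rfl s.1
    change s.1 ∈ apZ (H x).1 (code φ) ↔ _ at h1
    rw [qs_neg hM x c h s φ hc, hh φ (SubF.neg φ), h1]
    change _ ↔ ¬ SatZ x.1 φ (ext s.1)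
    tauto
  | and φ ψ ih1 ih2 =>
    refine fin c _ (fun z => SatZ x.1 (.and φ ψ) (ext z)) hc ?_
    intro h hh s hs
    have h1 := ih1 ⟨code φ, hM.code_mem φ⟩ rfl s.1
    have h2 := ih2 ⟨code ψ, hM.code_mem ψ⟩ rfl s.1
    change s.1 ∈ apZ (H x).1 (code φ) ↔ _ at h1
    change s.1 ∈ apZ (H x).1 (code ψ) ↔ _ at h2
    rw [qs_and hM x c h s φ ψ hc, hh φ (SubF.andl φ ψ), hh ψ (SubF.andr φ ψ), h1, h2]
    change _ ↔ SatZ x.1 φ (ext s.1) ∧ SatZ x.1 ψ (ext s.1)
    tauto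
  | all i φ ih =>
    refine fin c _ (fun z => SatZ x.1 (.all i φ) (ext z)) hc ?_
    intro h hh s hs
    rw [qs_all hM x c h s i φ hc, hh φ (SubF.all i φ)]
    change _ ↔ ∀ a ∈ {z | z ∈ x.1}, SatZ x.1 φ (Function.update (ext s.1) i a)
    refine forall_congr' fun a => forall_congr' fun ha => ?_
    have h1 := ih ⟨code φ, hM.code_mem φ⟩ rfl (updZ s.1 (natZ i) a)
    change updZ s.1 (natZ i) a ∈ apZ (H x).1 (code φ) ↔ _ at h1
    rw [h1, ext_upd]
    exact and_iff_right (FP.upd i hs ha)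

end RMK
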