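import Pool.Agent.RMK.S.LBas
import Pool.Agent.RMK.S.ZSat

/-!
RMK LCLO: closed sets in the sense of `CX` exist.

PROOFS.
`combine`: as in the proof of `club_forall` (`Club.lean`): `F l = G (l.length.unpair.1) (l.take
(l.length.unpair.2))`; for `N` closed under `F`: `a := F [] ∈ N`, and for a list `l` over `N`, the list
`l ++ replicate (Nat.pair n l.length - l.length) a` shows `G n l ∈ N`.
`exists_CX_fun`: `L Θ` is nonempty (`∅`); `Fml` is countable (an enumeration `d : ℕ → Fml` exists, see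
`LevEx.lean`/`PU/LEx.lean` or `Fml` as an inductive type: give an injection into `ℕ` or lists).  Use `combine`
for the countably many functions: the constant `∅`; `[γ] ↦ γ + 1` if it is an ordinal (`Θ` is a limit); for
every `x ≠ ∅` in `L Θ` fix the least `γ_x` with `x ∈ L (γ_x + 1)` and `φ_x, s_x` defining `x` over `L γ_x`
(`mem_L_succ`; `L γ_x` is nonempty as `x ≠ ∅`): functions `[x] ↦ γ_x`, `[x] ↦ s_x i` (one for every `i`); for every
`φ`: `[γ, s 0, ..., s (k - 1)] ↦` the set defined over `L γ` by `φ, s`, where `k = bd φ` (it is in `L (γ + 1) ⊆ L Θ`;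
remaining values of `s` are taken as `s 0` or `∅`; it depends only on `s i`, `i < k`: `sat_congr`); for every
`φ` and `i`: `[γ, s 0, ..., s (k - 1)] ↦` a `z ∈ L γ` with `¬ Sat (L γ) φ (update s i z)` if there is one.
If `N` is closed, the clauses of `CX` hold: given `s : ℕ → Y ∩ L γ` apply the functions to the list of the
first `bd φ` values (`List.ofFn`).
`exists_closed_aleph1`: `N = ⋃ k, A k`, `A 0 = S₀ ∪ {F []}`, `A (k+1) = A k ∪ F '' {lists over A k}`; the set of lists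
over a set of size `≤ ℵ₁` has size `≤ ℵ₁` (`Cardinal.mk_list_le_max`), and a countable union of sets of size
`≤ ℵ₁` has size `≤ ℵ₁`.
`exists_CX_countable`, `exists_CX_aleph1`: combine with `exists_closed_superset` (`Club.lean`).
-/

namespace RMK

open Set PU
open scoped ZFSet

universe u

theorem combine {S : Type u} (G : ℕ → List S → S) :
    ∃ F : List S → S, ∀ N : Set S, Closed F N → ∀ n, Closed (G n) N := by
  refine ⟨fun l => G (Nat.unpair l.length).1 (l.take (Nat.unpair l.length).2), ?_⟩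
  intro N hc n
  have h0 : G 0 [] ∈ N := by
    have := hc [] (by simp)
    simpa using this
  intro l hl
  have hle : l.length ≤ Nat.pair n l.length := Nat.right_le_pair _ _
  have h1 := hc (l ++ List.replicate (Nat.pair n l.length - l.length) (G 0 [])) (by
    intro z hz
    rcases List.mem_append.1 hz with hz | hz
    · exact hl z hz
    · rw [List.eq_of_mem_replicate hz]
      exact h0)
  have hlen : (l ++ List.replicate (Nat.pair n l.length - l.length) (G 0 [])).length =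
      Nat.pair n l.length := by
    rw [List.length_append, List.length_replicate]
    omega
  beta_reduce at h1
  rw [hlen, Nat.unpair_pair] at h1
  dsimp only at h1
  rwa [List.take_left'] at h1
  rfl

private noncomputable def dF : ℕ → Fml := fml_enum.choose

private theorem dF_surj (φ : Fml) : ∃ b, dF b = φ := fml_enum.choose_spec φ

private theorem exists_isDef {γ : Ordinal.{0}} (φ : Fml) (s : ℕ → ZFSet.{0})
    (hs : ∀ i, s i ∈ L γ) : ∃ x ∈ L (γ + 1), IsDef γ φ s x := by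
  obtain ⟨l, -, hl⟩ := exists_L_set γ
  have h1 : IsDef γ φ s (ZFSet.sep (fun z => Sat (fun a b : ZFSet.{0} => a ∈ b) (L γ) φ
      (Function.update s 0 z)) l) := by
    intro z
    rw [ZFSet.mem_sep, hl z]
  exact ⟨_, mem_L_succ.2 ⟨φ, s, fun _ => hs, h1⟩, h1⟩

theorem exists_CX_fun {Θ : Ordinal.{0}} (hΘ : Order.IsSuccLimit Θ) :
    ∃ F : List (L Θ) → L Θ, ∀ N : Set (L Θ), Closed F N → CX Θ (Subtype.val '' N) := by
  classical
  have h0 : (0 : Ordinal.{0}) < Θ := by
    have := hΘ.bot_lt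
    rwa [Ordinal.bot_eq_zero] at this
  let e : L Θ := ⟨∅, empty_mem_L h0⟩
  -- successor
  have hs1 : ∀ x : L Θ, ∃ y : L Θ, ∀ γ : Ordinal.{0}, x.1 = γ.toZFSet →
      y.1 = (γ + 1).toZFSet := by
    intro x
    by_cases hx : ∃ γ : Ordinal.{0}, x.1 = γ.toZFSet
    · obtain ⟨γ, hγ⟩ := hx
      have h1 : γ < Θ := by
        have := x.2
        rw [hγ] at this
        exact toZFSet_mem_L_iff.1 this
      have h2 : γ + 1 < Θ := by
        rw [Ordinal.add_one_eq_succ]
        exact hΘ.succ_lt h1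
      refine ⟨⟨(γ + 1).toZFSet, toZFSet_mem_L h2⟩, fun γ' hγ' => ?_⟩
      have h3 : γ = γ' := Ordinal.toZFSet_injective (hγ.symm.trans hγ')
      show (γ + 1).toZFSet = (γ' + 1).toZFSet
      rw [h3]
    · exact ⟨e, fun γ hγ => absurd ⟨γ, hγ⟩ hx⟩
  choose sc hsc using hs1
  -- definitions of elements
  have hs2 : ∀ x : L Θ, ∃ (g : L Θ) (s : ℕ → L Θ), x.1 ≠ ∅ → ∃ γ : Ordinal.{0},
      g.1 = γ.toZFSet ∧ (∀ β, x.1 ∈ L β → γ < β) ∧ ∃ φ : Fml, (∀ i, (s i).1 ∈ L γ) ∧
        IsDef γ φ (fun i => (s i).1) x.1 := by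
    intro x
    by_cases hx : x.1 = ∅
    · exact ⟨e, fun _ => e, fun h => absurd hx h⟩
    have hex : ∃ γ : Ordinal.{0}, x.1 ∈ L (γ + 1) := by
      obtain ⟨γ, -, h2⟩ := exists_succ_level x.2
      exact ⟨γ, h2⟩
    have hmin : ∀ β, x.1 ∈ L β → sInf {γ : Ordinal.{0} | x.1 ∈ L (γ + 1)} < β := by
      intro β hβ
      obtain ⟨γ', h3, h4⟩ := exists_succ_level hβ
      exact lt_of_le_of_lt (csInf_le' h4) h3
    have hmem : x.1 ∈ L (sInf {γ : Ordinal.{0} | x.1 ∈ L (γ + 1)} + 1) := csInf_mem hex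
    obtain ⟨γ, hγ⟩ : ∃ γ, γ = sInf {γ : Ordinal.{0} | x.1 ∈ L (γ + 1)} := ⟨_, rfl⟩
    rw [← hγ] at hmin hmem
    have hγΘ : γ < Θ := hmin Θ x.2
    obtain ⟨φ, s, h1, h2⟩ := mem_L_succ.1 hmem
    have hne : (L γ).Nonempty := by
      by_contra hcon
      apply hx
      rw [ZFSet.eq_empty]
      intro z hz
      exact hcon ⟨z, ((h2 z).1 hz).1⟩
    refine ⟨⟨γ.toZFSet, toZFSet_mem_L hγΘ⟩, fun i => ⟨s i, L_mono hγΘ.le (h1 hne i)⟩,
      fun _ => ⟨γ, rfl, hmin, φ, fun i => h1 hne i, h2⟩⟩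
  choose dg ds hds using hs2
  -- the functions
  let hd : List (L Θ) → L Θ := fun l => l.headD e
  let tl : List (L Θ) → ℕ → ZFSet.{0} := fun l i => (l.tail.getD i e).1
  let H : ℕ → ℕ → List (L Θ) → L Θ := fun a b l => match a with
    | 0 => e
    | 1 => sc (hd l)
    | 2 => dg (hd l)
    | 3 => ds (hd l) b
    | 4 => if h : ∃ x : L Θ, ∃ γ : Ordinal.{0}, (hd l).1 = γ.toZFSet ∧
        IsDef γ (dF b) (tl l) x.1 then h.choose else e
    | _ => if h : ∃ z : L Θ, ∃ γ : Ordinal.{0}, (hd l).1 = γ.toZFSet ∧ z.1 ∈ L γ ∧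
        ¬ Sat (fun a b : ZFSet.{0} => a ∈ b) (L γ) (dF (Nat.unpair b).1)
          (Function.update (tl l) (Nat.unpair b).2 z.1) then h.choose else e
  obtain ⟨F, hF⟩ := combine (fun n => H (Nat.unpair n).1 (Nat.unpair n).2)
  refine ⟨F, fun N hN => ?_⟩
  have hcl : ∀ a b, Closed (H a b) N := by
    intro a b
    have := hF N hN (Nat.pair a b)
    beta_reduce at this
    rw [Nat.unpair_pair] at this
    exact this
  have hsub : Subtype.val '' N ⊆ L Θ := by
    rintro x ⟨y, -, rfl⟩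
    exact y.2
  have hord : ∀ {γ : Ordinal.{0}} {x : L Θ}, x.1 = γ.toZFSet → γ < Θ := by
    intro γ x hx
    have := x.2
    rw [hx] at this
    exact toZFSet_mem_L_iff.1 this
  -- the list attached to an assignment
  have hlist : ∀ (g : L Θ) (k : ℕ) (s : ℕ → L Θ) (i : ℕ), i < k →
      tl (g :: (List.range k).map s) i = (s i).1 := by
    intro g k s i hi
    show ((g :: (List.range k).map s).tail.getD i e).1 = (s i).1
    rw [List.tail_cons, List.getD_eq_getElem?_getD, List.getElem?_map, List.getElem?_range hi]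
    rfl
  have hlmem : ∀ (g : L Θ) (k : ℕ) (s : ℕ → L Θ), g ∈ N → (∀ i, s i ∈ N) →
      ∀ z ∈ g :: (List.range k).map s, z ∈ N := by
    intro g k s hg hs z hz
    rcases List.mem_cons.1 hz with rfl | hz
    · exact hg
    · obtain ⟨i, -, rfl⟩ := List.mem_map.1 hz
      exact hs i
  refine ⟨hsub, ?_, ?_, ?_, ?_, ?_⟩
  · exact ⟨e, hcl 0 0 [] (by simp), rfl⟩
  · rintro γ ⟨x, hx, hxγ⟩
    refine ⟨sc x, hcl 1 0 [x] (by simpa using hx), hsc x γ hxγ⟩
  · rintro _ ⟨x, hx, rfl⟩ hne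
    obtain ⟨γ, h1, h2, φ, h3, h4⟩ := hds x hne
    refine ⟨γ, ⟨dg x, hcl 2 0 [x] (by simpa using hx), h1⟩, h2, φ, fun i => (ds x i).1,
      fun i => ⟨⟨ds x i, hcl 3 i [x] (by simpa using hx), rfl⟩, h3 i⟩, h4⟩
  · rintro γ ⟨g, hg, hgγ⟩ φ s hs
    have hγΘ : γ < Θ := hord hgγ
    choose t ht using fun i => (hs i).1
    obtain ⟨b, hb⟩ := dF_surj φ
    have hcongr : ∀ x, IsDef γ φ (tl (g :: (List.range (bd φ)).map t)) x ↔ IsDef γ φ s x := by
      intro x
      refine forall_congr' fun z => iff_congr Iff.rfl (and_congr_right fun _ => ?_)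
      refine sat_congr φ fun i hi => ?_
      by_cases hi0 : i = 0
      · subst hi0
        rw [Function.update_self, Function.update_self]
      · rw [Function.update_of_ne hi0, Function.update_of_ne hi0, hlist g _ t i hi]
        exact (ht i).2
    have hex : ∃ x : L Θ, ∃ γ' : Ordinal.{0},
        (hd (g :: (List.range (bd φ)).map t)).1 = γ'.toZFSet ∧
        IsDef γ' (dF b) (tl (g :: (List.range (bd φ)).map t)) x.1 := by
      obtain ⟨x, hx, hx2⟩ := exists_isDef φ s fun i => (hs i).2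
      have h1 : γ + 1 ≤ Θ := by
        rw [Ordinal.add_one_eq_succ]
        exact Order.succ_le_of_lt hγΘ
      refine ⟨⟨x, L_mono h1 hx⟩, γ, hgγ, ?_⟩
      rw [hb]
      exact (hcongr x).2 hx2
    have hin := hcl 4 b _ (hlmem g (bd φ) t hg fun i => (ht i).1)
    have heq : H 4 b (g :: (List.range (bd φ)).map t) = hex.choose := dif_pos hex
    rw [heq] at hin
    have hsp := hex.choose_spec
    generalize hex.choose = y at hin hsp
    obtain ⟨γ', h1, h2⟩ := hsp
    have h3 : γ = γ' := Ordinal.toZFSet_injective (hgγ.symm.trans h1)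
    subst h3
    rw [hb] at h2
    exact ⟨_, ⟨_, hin, rfl⟩, (hcongr _).1 h2⟩
  · rintro γ ⟨g, hg, hgγ⟩ φ s i hs ⟨z, hz, hzs⟩
    choose t ht using fun i => (hs i).1
    obtain ⟨b, hb⟩ := dF_surj φ
    have hcongr : ∀ x, Sat (fun a b : ZFSet.{0} => a ∈ b) (L γ) φ
        (Function.update (tl (g :: (List.range (bd φ)).map t)) i x) ↔
        Sat (fun a b : ZFSet.{0} => a ∈ b) (L γ) φ (Function.update s i x) := by
      intro x
      refine sat_congr φ fun j hj => ?_
      by_cases hji : j = i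
      · subst hji
        rw [Function.update_self, Function.update_self]
      · rw [Function.update_of_ne hji, Function.update_of_ne hji, hlist g _ t j hj]
        exact (ht j).2
    have hγΘ : γ < Θ := hord hgγ
    have hex : ∃ z : L Θ, ∃ γ' : Ordinal.{0},
        (hd (g :: (List.range (bd φ)).map t)).1 = γ'.toZFSet ∧ z.1 ∈ L γ' ∧
        ¬ Sat (fun a b : ZFSet.{0} => a ∈ b) (L γ') (dF (Nat.unpair (Nat.pair b i)).1)
          (Function.update (tl (g :: (List.range (bd φ)).map t))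
            (Nat.unpair (Nat.pair b i)).2 z.1) := by
      refine ⟨⟨z, L_mono hγΘ.le hz⟩, γ, hgγ, hz, ?_⟩
      rw [Nat.unpair_pair]
      dsimp only
      rw [hb, hcongr]
      exact hzs
    have hin := hcl 5 (Nat.pair b i) _ (hlmem g (bd φ) t hg fun i => (ht i).1)
    have heq : H 5 (Nat.pair b i) (g :: (List.range (bd φ)).map t) = hex.choose := dif_pos hex
    rw [heq] at hin
    have hsp := hex.choose_spec
    generalize hex.choose = y at hin hsp
    obtain ⟨γ', h1, h2, h3⟩ := hsp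
    have h4 : γ = γ' := Ordinal.toZFSet_injective (hgγ.symm.trans h1)
    subst h4
    rw [Nat.unpair_pair] at h3
    dsimp only at h3
    rw [hb, hcongr] at h3
    exact ⟨_, ⟨_, hin, rfl⟩, h2, h3⟩

private def cStep {S : Type 1} (F : List S → S) (A : Set S) : Set S :=
  A ∪ F '' {l | ∀ z ∈ l, z ∈ A}

private def cSeq {S : Type 1} (F : List S → S) (S₀ : Set S) : ℕ → Set S
  | 0 => S₀
  | k + 1 => cStep F (cSeq F S₀ k)

private theorem cStep_le {S : Type 1} (F : List S → S) {A : Set S}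
    (h : Cardinal.mk A ≤ Cardinal.aleph 1) : Cardinal.mk (cStep F A) ≤ Cardinal.aleph 1 := by
  have hc : Cardinal.aleph0.{1} ≤ Cardinal.aleph 1 := Cardinal.aleph0_le_aleph 1
  refine (Cardinal.mk_union_le _ _).trans (Cardinal.add_le_of_le hc h ?_)
  refine Cardinal.mk_image_le.trans ?_
  have h1 : Cardinal.mk {l : List S | ∀ z ∈ l, z ∈ A} ≤ Cardinal.mk (List A) := by
    refine Cardinal.mk_le_of_injective (f := fun l => l.1.attach.map fun z => ⟨z.1, l.2 z.1 z.2⟩)
      ?_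
    intro l l' hl
    apply Subtype.ext
    have h2 := congrArg (List.map Subtype.val) hl
    simp only [List.map_map, Function.comp_def] at h2
    rwa [List.attach_map_subtype_val, List.attach_map_subtype_val] at h2
  exact h1.trans ((Cardinal.mk_list_le_max A).trans (max_le hc h))

private theorem cSeq_le {S : Type 1} (F : List S → S) {S₀ : Set S}
    (h : Cardinal.mk S₀ ≤ Cardinal.aleph 1) (k : ℕ) :
    Cardinal.mk (cSeq F S₀ k) ≤ Cardinal.aleph 1 := by
  induction k with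
  | zero => exact h
  | succ k ih => exact cStep_le F ih

private theorem cSeq_mono {S : Type 1} (F : List S → S) (S₀ : Set S) : Monotone (cSeq F S₀) :=
  monotone_nat_of_le_succ fun _ => Set.subset_union_left

private theorem cSeq_list {S : Type 1} (F : List S → S) (S₀ : Set S) (l : List S)
    (h : ∀ z ∈ l, z ∈ ⋃ k, cSeq F S₀ k) : ∃ k, ∀ z ∈ l, z ∈ cSeq F S₀ k := by
  induction l with
  | nil => exact ⟨0, by simp⟩
  | cons x l ih =>
    obtain ⟨k, hk⟩ := ih fun z hz => h z (List.mem_cons_of_mem _ hz)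
    obtain ⟨m, hm⟩ := Set.mem_iUnion.1 (h x List.mem_cons_self)
    refine ⟨max k m, fun z hz => ?_⟩
    rcases List.mem_cons.1 hz with rfl | hz
    · exact cSeq_mono F S₀ (le_max_right _ _) hm
    · exact cSeq_mono F S₀ (le_max_left _ _) (hk z hz)

theorem exists_closed_aleph1 {S : Type 1} (F : List S → S) {S₀ : Set S}
    (h : Cardinal.mk S₀ ≤ Cardinal.aleph 1) :
    ∃ N : Set S, S₀ ⊆ N ∧ Cardinal.mk N ≤ Cardinal.aleph 1 ∧ Closed F N := by
  refine ⟨⋃ k, cSeq F S₀ k, Set.subset_iUnion (cSeq F S₀) 0, ?_, ?_⟩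
  · have hc : Cardinal.aleph0.{1} ≤ Cardinal.aleph 1 := Cardinal.aleph0_le_aleph 1
    have h1 : (⋃ k, cSeq F S₀ k) = ⋃ k : ULift.{1} ℕ, cSeq F S₀ k.down := by
      ext x
      rw [Set.mem_iUnion, Set.mem_iUnion]
      exact ⟨fun ⟨k, hk⟩ => ⟨⟨k⟩, hk⟩, fun ⟨k, hk⟩ => ⟨k.down, hk⟩⟩
    rw [h1]
    refine (Cardinal.mk_iUnion_le _).trans (Cardinal.mul_le_of_le hc ?_ ?_)
    · rw [Cardinal.mk_uLift, Cardinal.mk_nat, Cardinal.lift_aleph0]
      exact hc
    · exact ciSup_le' fun k => cSeq_le F h k.down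
  · intro l hl
    obtain ⟨k, hk⟩ := cSeq_list F S₀ l hl
    exact Set.mem_iUnion.2 ⟨k + 1, Or.inr ⟨l, hk, rfl⟩⟩

theorem exists_CX_countable {Θ : Ordinal.{0}} (hΘ : Order.IsSuccLimit Θ) {S₀ : Set ZFSet.{0}}
    (hS : S₀ ⊆ L Θ) (h : S₀.Countable) : ∃ Y, S₀ ⊆ Y ∧ Y.Countable ∧ CX Θ Y := by
  obtain ⟨F, hF⟩ := exists_CX_fun hΘ
  obtain ⟨N, h1, h2, h3⟩ := exists_closed_superset F
    (h.preimage (f := (Subtype.val : L Θ → ZFSet.{0})) Subtype.val_injective)
  refine ⟨Subtype.val '' N, ?_, h2.image _, hF N h3⟩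
  intro x hx
  exact ⟨⟨x, hS hx⟩, h1 hx, rfl⟩

theorem exists_CX_aleph1 {Θ : Ordinal.{0}} (hΘ : Order.IsSuccLimit Θ) {S₀ : Set ZFSet.{0}}
    (hS : S₀ ⊆ L Θ) (h : Cardinal.mk S₀ ≤ Cardinal.aleph 1) :
    ∃ Y : Set ZFSet.{0}, S₀ ⊆ Y ∧ Cardinal.mk Y ≤ Cardinal.aleph 1 ∧ CX Θ Y := by
  obtain ⟨F, hF⟩ := exists_CX_fun hΘ
  obtain ⟨N, h1, h2, h3⟩ := exists_closed_aleph1 F
    ((Cardinal.mk_preimage_of_injective (Subtype.val : L Θ → ZFSet.{0}) S₀
      Subtype.val_injective).trans h)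
  refine ⟨Subtype.val '' N, ?_, Cardinal.mk_image_le.trans h2, hF N h3⟩
  intro x hx
  exact ⟨⟨x, hS hx⟩, h1 hx, rfl⟩

end RMK
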