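import Pool.Agent.RMK.S.LBas

/-!
RMK LCND: condensation.  `CX Θ Y` (see `SDefs.lean`) says that `Y ⊆ L_Θ` is closed under constructible
definitions and elementary in all `L_γ`, `γ ∈ Y`.  Its transitive collapse is some `L_Θ'`.

PROOFS.
`exists_col`: recursion on `∈` (`ZFSet.mem_wf.fix` or similar): `π x` is the set with elements `π z`, `z ∈ x`,
`z ∈ Y`: `ZFSet.range` of a function on `Shrink {z // z ∈ x ∧ z ∈ Y}` (the elements of `x` form a small type).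
`col_id`: by `∈`-induction, for `x ∈ T`: `π x = {π z | z ∈ x, z ∈ Y} = {z | z ∈ x}`; then for `y ⊆ T` the same.
Facts on `Y` with `CX Θ Y`, `Θ` a limit ordinal: every `x ∈ Y` lies in some `L_γ` with `γ ∈ Y`, `γ < Θ`: for `x ≠ ∅` let
`δ` be given by `dfn`; `IsDef δ φ s x`, so `x ∈ DefSets (L δ) = L (δ + 1)` (`mem_L_succ`) and `δ + 1 ∈ Y` (`succ`);
`α ∈ Y → α < Θ` by `sub` and `toZFSet_mem_L_iff`; `∅ ∈ L 1`, `1 ∈ Y`.  Finitely many elements of `Y` lie in one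
such `L_γ` (`L_mono`).
`elem` (Tarski-Vaught): for `γ ∈ Y` and `s i ∈ Y ∩ L_γ`: `Sat (Y ∩ L_γ) φ s ↔ Sat (L_γ) φ s`, induction on `φ`;
case `all` by `wit`.
Injectivity: if `x ≠ y` are in `Y ∩ L_γ`, some `z ∈ L_γ` (transitivity) is in exactly one of them, so by `wit`
(formula `mem 0 1 ↔ mem 0 2` written with `neg`, `and`) there is such a `z ∈ Y`.  By induction on
`max (rank x) (rank y)`: `π x = π y → x = y`: otherwise let `z ∈ Y`, `z ∈ x`, `z ∉ y` (or conversely); `π z ∈ π x = π y`,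
so `π z = π w`, `w ∈ y ∩ Y`, hence `z = w` by induction, contradiction.  If `π x ∈ π y` then `π x = π z` with
`z ∈ y ∩ Y`, so `x = z ∈ y`.
Ordinals: for `α ∈ Y` (i.e. `α.toZFSet ∈ Y`), `π α` is an ordinal: its elements are the `π β`, `β ∈ Y`, `β < α`; by
induction it is a transitive set of ordinals.  The ordinals `π α`, `α ∈ Y`, form an initial segment: an
element of `π α` is `π β` with `β ∈ Y`.  Let `Θ'` be this initial segment (it is bounded: they all have rank at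
most `Θ`, as `π` does not increase ranks; or use that the set is small), so `β < Θ' ↔ ∃ α ∈ Y, π α = β`.
Main claim, for `γ ∈ Y` or `γ = Θ`, where `γ'` is the ordinal with `β < γ' ↔ ∃ α ∈ Y, α < γ ∧ π α = β` (so `γ' =
π γ` for `γ ∈ Y` and `γ' = Θ'` for `γ = Θ`): `{π x | x ∈ Y ∩ L_γ} = L_{γ'}`.  Induction on `γ`.
(⊆) Let `x ∈ Y ∩ L_γ`.  If `x = ∅` then `0 < γ`, `0 ∈ Y`, so `0 < γ'` and `π ∅ = ∅ ∈ L_{γ'}`.  Otherwise take `δ, φ, s` from
`dfn`; `δ < γ`, `δ ∈ Y`.  `x ⊆ L_δ`, and for `z ∈ Y ∩ L_δ`: `z ∈ x ↔ Sat (L_δ) φ (update s 0 z) ↔ Sat (Y ∩ L_δ) φ (update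
s 0 z) ↔ Sat (L_{δ'}) φ (update (π ∘ s) 0 (π z))` (`elem`; isomorphism `π : Y ∩ L_δ → L_{δ'}` by the induction
hypothesis and injectivity; lemma: satisfaction is preserved by isomorphisms, `PU` or `LevTR.lean` may
contain it as `sat_iso`).  So `π x` is defined over `L_{δ'}` by `φ, π ∘ s`, and `π x ∈ L_{δ'+1} ⊆ L_{γ'}`.
(⊇) Let `y ∈ L_{γ'}`, so `y ∈ DefSets (L_ε)`, `ε < γ'`, `ε = π δ`, `δ ∈ Y`, `δ < γ`.  If `δ = 0` then `ε = 0` and `y = ∅ =
π ∅`, `∅ ∈ Y ∩ L_γ`.  If `0 < δ` then `0 < ε` and `L_ε` is nonempty, the parameters of `y` are in `L_ε = {π x | x ∈ Y ∩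
L_δ}`, so they are `π (s i)`; by `clo` there is `x ∈ Y` with `IsDef δ φ s x`; as before `π x = y`, and `x ∈ L_{δ+1} ⊆ L_γ`.
`condense_countable`: the ordinals below `Θ'` are in `L Θ' = π '' Y`, a countable set; `lt_omega1_iff` (`PU/Om.lean`).
`condense_aleph1`: likewise `Θ'.card ≤ ℵ₁` so `Θ' < ω₂`.
-/

namespace RMK

open Set PU
open scoped ZFSet

theorem exists_col (Y : Set ZFSet.{0}) :
    ∃ π : ZFSet.{0} → ZFSet.{0}, ∀ x w, w ∈ π x ↔ ∃ z ∈ x, z ∈ Y ∧ w = π z := by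
  classical
  refine ⟨ZFSet.mem_wf.fix (C := fun _ => ZFSet.{0}) fun x ih =>
    ZFSet.range (fun z : {z : {z // z ∈ x} // z.1 ∈ Y} => ih z.1.1 z.1.2), fun x w => ?_⟩
  rw [WellFounded.fix_eq, ZFSet.mem_range]
  constructor
  · rintro ⟨⟨⟨z, hz⟩, hzY⟩, rfl⟩
    exact ⟨z, hz, hzY, rfl⟩
  · rintro ⟨z, hz, hzY, rfl⟩
    exact ⟨⟨⟨z, hz⟩, hzY⟩, rfl⟩

theorem col_id {Y T : Set ZFSet.{0}} {π : ZFSet.{0} → ZFSet.{0}}
    (hπ : ∀ x w, w ∈ π x ↔ ∃ z ∈ x, z ∈ Y ∧ w = π z) (hT : ∀ x ∈ T, ∀ y ∈ x, y ∈ T)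
    (hTY : T ⊆ Y) {y : ZFSet.{0}} (hy : ∀ z ∈ y, z ∈ T) : π y = y := by
  have key : ∀ x : ZFSet.{0}, x ∈ T → π x = x := by
    intro x
    induction x using ZFSet.inductionOn with
    | _ x ih =>
      intro hx
      apply ZFSet.ext
      intro w
      rw [hπ]
      constructor
      · rintro ⟨z, hz, -, rfl⟩
        rw [ih z hz (hT x hx z hz)]
        exact hz
      · intro hw
        exact ⟨w, hw, hTY (hT x hx w hw), (ih w hw (hT x hx w hw)).symm⟩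
  apply ZFSet.ext
  intro w
  rw [hπ]
  constructor
  · rintro ⟨z, hz, -, rfl⟩
    rw [key z (hy z hz)]
    exact hz
  · intro hw
    exact ⟨w, hw, hTY (hy w hw), (key w (hy w hw)).symm⟩

private theorem rank_col_le {Y : Set ZFSet.{0}} {π : ZFSet.{0} → ZFSet.{0}}
    (hπ : ∀ x w, w ∈ π x ↔ ∃ z ∈ x, z ∈ Y ∧ w = π z) (x : ZFSet.{0}) : (π x).rank ≤ x.rank := by
  induction x using ZFSet.inductionOn with
  | _ x ih =>
    rw [ZFSet.rank_le_iff]
    intro w hw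
    obtain ⟨z, hz, -, rfl⟩ := (hπ x w).1 hw
    exact lt_of_le_of_lt (ih z hz) (ZFSet.rank_lt_of_mem hz)

/-- every element of `Y` is in a level indexed by an element of `Y` -/
private theorem exists_lev {Θ : Ordinal.{0}} {Y : Set ZFSet.{0}} (hY : CX Θ Y) {x : ZFSet.{0}}
    (hx : x ∈ Y) : ∃ γ : Ordinal.{0}, γ.toZFSet ∈ Y ∧ x ∈ L γ := by
  by_cases h0 : x = ∅
  · subst h0
    have h1 : (0 : Ordinal.{0}).toZFSet ∈ Y := by
      rw [Ordinal.toZFSet_zero]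
      exact hY.emp
    exact ⟨0 + 1, hY.succ 0 h1, empty_mem_L (by simp)⟩
  · obtain ⟨γ, hγ, -, φ, s, hs, hd⟩ := hY.dfn x hx h0
    exact ⟨γ + 1, hY.succ γ hγ, mem_L_succ.2 ⟨φ, s, fun _ i => (hs i).2, hd⟩⟩

private theorem exists_lev₂ {Θ : Ordinal.{0}} {Y : Set ZFSet.{0}} (hY : CX Θ Y) {x y : ZFSet.{0}}
    (hx : x ∈ Y) (hy : y ∈ Y) : ∃ γ : Ordinal.{0}, γ.toZFSet ∈ Y ∧ x ∈ L γ ∧ y ∈ L γ := by
  obtain ⟨γ, hγ, h1⟩ := exists_lev hY hx
  obtain ⟨δ, hδ, h2⟩ := exists_lev hY hy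
  rcases le_total γ δ with h | h
  · exact ⟨δ, hδ, L_mono h h1, h2⟩
  · exact ⟨γ, hγ, h1, L_mono h h2⟩

private theorem elem {Θ : Ordinal.{0}} {Y : Set ZFSet.{0}} (hY : CX Θ Y) {γ : Ordinal.{0}}
    (hγ : γ.toZFSet ∈ Y) (φ : Fml) : ∀ s : ℕ → ZFSet.{0}, (∀ i, s i ∈ Y ∧ s i ∈ L γ) →
    (Sat (fun a b : ZFSet.{0} => a ∈ b) {x | x ∈ Y ∧ x ∈ L γ} φ s ↔
      Sat (fun a b : ZFSet.{0} => a ∈ b) (L γ) φ s) := by
  induction φ with
  | mem i j => intro s hs; exact Iff.rfl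
  | eq i j => intro s hs; exact Iff.rfl
  | neg φ ih => intro s hs; exact not_congr (ih s hs)
  | and φ ψ ih ih' => intro s hs; exact and_congr (ih s hs) (ih' s hs)
  | all i φ ih =>
    intro s hs
    have hu : ∀ a, a ∈ Y → a ∈ L γ → ∀ k, Function.update s i a k ∈ Y ∧
        Function.update s i a k ∈ L γ := fun a ha ha' k => by
      by_cases hk : k = i
      · subst hk
        rw [Function.update_self]
        exact ⟨ha, ha'⟩
      · rw [Function.update_of_ne hk]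
        exact hs k
    constructor
    · intro h
      by_contra hn
      have hn' : ∃ z ∈ L γ, ¬ Sat (fun a b : ZFSet.{0} => a ∈ b) (L γ) φ
          (Function.update s i z) := by
        by_contra hc
        apply hn
        intro a ha
        by_contra hc'
        exact hc ⟨a, ha, hc'⟩
      obtain ⟨z, hz, hz', hz2⟩ := hY.wit γ hγ φ s i hs hn'
      exact hz2 ((ih _ (hu z hz hz')).1 (h z ⟨hz, hz'⟩))
    · intro h a ha
      exact (ih _ (hu a ha.1 ha.2)).2 (h a ha.2)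

private theorem exists_diff {Θ : Ordinal.{0}} {Y : Set ZFSet.{0}} (hY : CX Θ Y) {x y : ZFSet.{0}}
    (hx : x ∈ Y) (hy : y ∈ Y) (h : ∃ z ∈ x, z ∉ y) : ∃ z ∈ Y, z ∈ x ∧ z ∉ y := by
  obtain ⟨γ, hγ, h1, h2⟩ := exists_lev₂ hY hx hy
  obtain ⟨z, hz, hz'⟩ := h
  have key : ∀ z : ZFSet.{0}, (¬ Sat (fun a b : ZFSet.{0} => a ∈ b) (L γ)
      (.neg (.and (.mem 0 1) (.neg (.mem 0 2))))
      (Function.update (fun i => if i = 1 then x else y) 0 z)) ↔ z ∈ x ∧ z ∉ y := by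
    intro z
    simp only [Sat, not_not]
    rw [Function.update_self, Function.update_of_ne (by decide), Function.update_of_ne (by decide),
      if_pos rfl, if_neg (by decide)]
  have hs : ∀ i : ℕ, (if i = 1 then x else y) ∈ Y ∧ (if i = 1 then x else y) ∈ L γ := by
    intro i
    split_ifs
    · exact ⟨hx, h1⟩
    · exact ⟨hy, h2⟩
  obtain ⟨w, hw, -, hw2⟩ := hY.wit γ hγ (.neg (.and (.mem 0 1) (.neg (.mem 0 2))))
    (fun i => if i = 1 then x else y) 0 hs ⟨z, L_transitive h1 hz, (key z).2 ⟨hz, hz'⟩⟩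
  exact ⟨w, hw, (key w).1 hw2⟩

private theorem col_inj {Θ : Ordinal.{0}} {Y : Set ZFSet.{0}} (hY : CX Θ Y)
    {π : ZFSet.{0} → ZFSet.{0}} (hπ : ∀ x w, w ∈ π x ↔ ∃ z ∈ x, z ∈ Y ∧ w = π z)
    (x : ZFSet.{0}) : x ∈ Y → ∀ y ∈ Y, π x = π y → x = y := by
  induction x using ZFSet.inductionOn with
  | _ x ih =>
    intro hx y hy hxy
    by_contra hne
    have h1 : (∃ z ∈ x, z ∉ y) ∨ ∃ z ∈ y, z ∉ x := by
      by_contra hc
      rw [not_or] at hc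
      apply hne
      apply ZFSet.ext
      intro z
      constructor
      · intro hz
        by_contra hz'
        exact hc.1 ⟨z, hz, hz'⟩
      · intro hz
        by_contra hz'
        exact hc.2 ⟨z, hz, hz'⟩
    rcases h1 with h1 | h1
    · obtain ⟨z, hzY, hzx, hzy⟩ := exists_diff hY hx hy h1
      have h2 : π z ∈ π y := by
        rw [← hxy]
        exact (hπ x _).2 ⟨z, hzx, hzY, rfl⟩
      obtain ⟨w, hw, hwY, hzw⟩ := (hπ y _).1 h2
      have h3 := ih z hzx hzY w hwY hzw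
      rw [h3] at hzy
      exact hzy hw
    · obtain ⟨z, hzY, hzy, hzx⟩ := exists_diff hY hy hx h1
      have h2 : π z ∈ π x := by
        rw [hxy]
        exact (hπ y _).2 ⟨z, hzy, hzY, rfl⟩
      obtain ⟨w, hw, hwY, hzw⟩ := (hπ x _).1 h2
      have h3 := ih w hw hwY z hzY hzw.symm
      rw [← h3] at hzx
      exact hzx hw

/-- the initial segment of the collapses of the ordinals of `Y` below `γ` -/
private theorem exists_seg {Y : Set ZFSet.{0}} {π : ZFSet.{0} → ZFSet.{0}}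
    (hπ : ∀ x w, w ∈ π x ↔ ∃ z ∈ x, z ∈ Y ∧ w = π z) (γ : Ordinal.{0}) :
    ∃ γ' : Ordinal.{0}, ∀ β : Ordinal.{0}, β < γ' ↔
      ∃ α : Ordinal.{0}, α < γ ∧ α.toZFSet ∈ Y ∧ π α.toZFSet = β.toZFSet := by
  have hlow : ∀ β β₁ : Ordinal.{0}, β₁ < β →
      (∃ α : Ordinal.{0}, α < γ ∧ α.toZFSet ∈ Y ∧ π α.toZFSet = β.toZFSet) →
      ∃ α : Ordinal.{0}, α < γ ∧ α.toZFSet ∈ Y ∧ π α.toZFSet = β₁.toZFSet := by
    rintro β β₁ h1 ⟨α, h2, h3, h4⟩
    have h5 : β₁.toZFSet ∈ π α.toZFSet := by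
      rw [h4]
      exact Ordinal.toZFSet_mem_toZFSet_iff.2 h1
    obtain ⟨z, hz, hzY, hz2⟩ := (hπ _ _).1 h5
    obtain ⟨a, ha, rfl⟩ := Ordinal.mem_toZFSet_iff.1 hz
    exact ⟨a, ha.trans h2, hzY, hz2.symm⟩
  have hne : ∃ β : Ordinal.{0}, ¬ ∃ α : Ordinal.{0}, α < γ ∧ α.toZFSet ∈ Y ∧
      π α.toZFSet = β.toZFSet := by
    refine ⟨γ, ?_⟩
    rintro ⟨α, h1, -, h3⟩
    have h4 := rank_col_le hπ α.toZFSet
    rw [h3, Ordinal.rank_toZFSet, Ordinal.rank_toZFSet] at h4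
    exact absurd h1 (not_lt.2 h4)
  obtain ⟨m, hm, hmin⟩ := WellFounded.has_min (wellFounded_lt (α := Ordinal.{0}))
    {β : Ordinal.{0} | ¬ ∃ α : Ordinal.{0}, α < γ ∧ α.toZFSet ∈ Y ∧ π α.toZFSet = β.toZFSet} hne
  refine ⟨m, fun β => ⟨fun h => ?_, fun h => ?_⟩⟩
  · by_contra hc
    exact hmin β hc h
  · by_contra hc
    rcases eq_or_lt_of_le (not_lt.1 hc) with h1 | h1
    · rw [← h1] at h
      exact hm h
    · exact hm (hlow β m h1 h)

theorem condense {Θ : Ordinal.{0}} (hΘ : Order.IsSuccLimit Θ) {Y : Set ZFSet.{0}}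
    (hY : CX Θ Y) {π : ZFSet.{0} → ZFSet.{0}}
    (hπ : ∀ x w, w ∈ π x ↔ ∃ z ∈ x, z ∈ Y ∧ w = π z) :
    ∃ Θ' : Ordinal.{0}, (∀ w, w ∈ L Θ' ↔ ∃ x ∈ Y, w = π x) ∧
      (∀ x ∈ Y, ∀ y ∈ Y, (π x = π y → x = y) ∧ (π x ∈ π y → x ∈ y)) ∧
      ∀ β : Ordinal.{0}, β < Θ' ↔ ∃ α : Ordinal.{0}, α.toZFSet ∈ Y ∧ π α.toZFSet = β.toZFSet := by
  have hinj := col_inj hY hπ
  have hlt : ∀ γ : Ordinal.{0}, γ.toZFSet ∈ Y → γ < Θ := fun γ h =>
    toZFSet_mem_L_iff.1 (hY.sub h)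
  choose S hS using exists_seg hπ
  have hπe : π ∅ = ∅ := by
    rw [ZFSet.eq_empty]
    intro w hw
    obtain ⟨z, hz, -⟩ := (hπ _ _).1 hw
    exact ZFSet.notMem_empty z hz
  -- collapse of the ordinals
  have hord : ∀ α : Ordinal.{0}, α.toZFSet ∈ Y → π α.toZFSet = (S α).toZFSet := by
    intro α
    induction α using WellFoundedLT.induction with
    | ind α ih =>
      intro _
      apply ZFSet.ext
      intro w
      rw [hπ, Ordinal.mem_toZFSet_iff]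
      constructor
      · rintro ⟨z, hz, hzY, rfl⟩
        obtain ⟨a, ha, rfl⟩ := Ordinal.mem_toZFSet_iff.1 hz
        exact ⟨S a, (hS α _).2 ⟨a, ha, hzY, ih a ha hzY⟩, (ih a ha hzY).symm⟩
      · rintro ⟨b, hb, rfl⟩
        obtain ⟨a, ha, haY, hab⟩ := (hS α b).1 hb
        exact ⟨a.toZFSet, Ordinal.mem_toZFSet_iff.2 ⟨a, ha, rfl⟩, haY, hab.symm⟩
  have hSlt : ∀ δ γ : Ordinal.{0}, δ.toZFSet ∈ Y → δ < γ → S δ < S γ := fun δ γ h1 h2 =>
    (hS γ _).2 ⟨δ, h2, h1, hord δ h1⟩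
  have hpos : ∀ γ : Ordinal.{0}, 0 < γ → 0 < S γ := fun γ h =>
    (hS γ _).2 ⟨0, h, by rw [Ordinal.toZFSet_zero]; exact hY.emp, by
      rw [Ordinal.toZFSet_zero, hπe]⟩
  -- transfer of definitions
  have hdef : ∀ δ : Ordinal.{0}, δ.toZFSet ∈ Y →
      (∀ w, w ∈ L (S δ) ↔ ∃ x, x ∈ Y ∧ x ∈ L δ ∧ w = π x) →
      ∀ (φ : Fml) (s : ℕ → ZFSet.{0}), (∀ i, s i ∈ Y ∧ s i ∈ L δ) → ∀ x ∈ Y, IsDef δ φ s x →
        IsDef (S δ) φ (fun i => π (s i)) (π x) := by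
    intro δ hδ hih φ s hs x _ hd w
    have key : ∀ z, z ∈ Y → z ∈ L δ → (z ∈ x ↔ Sat (fun a b : ZFSet.{0} => a ∈ b) (L (S δ)) φ
        (Function.update (fun i => π (s i)) 0 (π z))) := by
      intro z hz hz'
      have hu : ∀ k, Function.update s 0 z k ∈ Y ∧ Function.update s 0 z k ∈ L δ := fun k => by
        by_cases hk : k = 0
        · subst hk
          rw [Function.update_self]
          exact ⟨hz, hz'⟩
        · rw [Function.update_of_ne hk]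
          exact hs k
      rw [← comp_update', hd z, ← elem hY hδ φ _ hu]
      have h1 := sat_iso (E := fun a b : ZFSet.{0} => a ∈ b) (F := fun a b : ZFSet.{0} => a ∈ b)
        (M := {x | x ∈ Y ∧ x ∈ L δ}) (N := L (S δ)) π
        (fun a ha => (hih _).2 ⟨a, ha.1, ha.2, rfl⟩)
        (fun b hb => by
          obtain ⟨a, ha, ha', rfl⟩ := (hih b).1 hb
          exact ⟨a, ⟨ha, ha'⟩, rfl⟩)
        (fun a ha b hb => ⟨fun h => by
            obtain ⟨c, hc, hcY, hac⟩ := (hπ _ _).1 h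
            rw [hinj a ha.1 c hcY hac]
            exact hc, fun h => (hπ _ _).2 ⟨a, h, ha.1, rfl⟩⟩)
        (fun a ha b hb h => hinj a ha.1 b hb.1 h) φ (Function.update s 0 z) hu
      exact ⟨fun h => h1.2 h.2, fun h => ⟨hz', h1.1 h⟩⟩
    rw [hπ]
    constructor
    · rintro ⟨z, hz, hzY, rfl⟩
      have hzL := ((hd z).1 hz).1
      exact ⟨(hih _).2 ⟨z, hzY, hzL, rfl⟩, (key z hzY hzL).1 hz⟩
    · rintro ⟨hw, hw2⟩
      obtain ⟨z, hzY, hzL, rfl⟩ := (hih w).1 hw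
      exact ⟨z, (key z hzY hzL).2 hw2, hzY, rfl⟩
  -- main claim
  have hmain : ∀ γ : Ordinal.{0}, γ.toZFSet ∈ Y ∨ γ = Θ →
      ∀ w, w ∈ L (S γ) ↔ ∃ x, x ∈ Y ∧ x ∈ L γ ∧ w = π x := by
    intro γ
    induction γ using WellFoundedLT.induction with
    | ind γ ih =>
      intro _ w
      constructor
      · intro hw
        obtain ⟨ε, hε, φ, t, ht, htw⟩ := mem_L_iff.1 hw
        obtain ⟨δ, hδγ, hδY, hδ⟩ := (hS γ ε).1 hε
        have hεδ : ε = S δ := by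
          rw [hord δ hδY] at hδ
          exact (Ordinal.toZFSet_injective hδ).symm
        subst hεδ
        have hih := ih δ hδγ (Or.inl hδY)
        by_cases hne : (L (S δ)).Nonempty
        · have h1 : ∀ i, ∃ x, x ∈ Y ∧ x ∈ L δ ∧ t i = π x := fun i => (hih _).1 (ht hne i)
          choose s hs1 hs2 hs3 using h1
          obtain ⟨x, hx, hxd⟩ := hY.clo δ hδY φ s fun i => ⟨hs1 i, hs2 i⟩
          refine ⟨x, hx, mem_L_iff.2 ⟨δ, hδγ, φ, s, fun _ i => hs2 i, hxd⟩, ?_⟩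
          have h2 := hdef δ hδY hih φ s (fun i => ⟨hs1 i, hs2 i⟩) x hx hxd
          have h3 : t = fun i => π (s i) := funext hs3
          apply ZFSet.ext
          intro z
          rw [htw z, h2 z, h3]
        · refine ⟨∅, hY.emp, empty_mem_L (lt_of_le_of_lt zero_le hδγ), ?_⟩
          rw [hπe, ZFSet.eq_empty]
          intro z hz
          exact hne ⟨z, ((htw z).1 hz).1⟩
      · rintro ⟨x, hx, hxL, rfl⟩
        by_cases h0 : x = ∅
        · subst h0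
          rw [hπe]
          refine empty_mem_L (hpos γ ?_)
          rw [pos_iff_ne_zero]
          rintro rfl
          rw [L_zero] at hxL
          exact Set.notMem_empty _ hxL
        · obtain ⟨δ, hδY, hδ, φ, s, hs, hd⟩ := hY.dfn x hx h0
          have hδγ := hδ γ hxL
          have hih := ih δ hδγ (Or.inl hδY)
          refine mem_L_iff.2 ⟨S δ, hSlt δ γ hδY hδγ, φ, fun i => π (s i), fun _ i =>
            (hih _).2 ⟨s i, (hs i).1, (hs i).2, rfl⟩, hdef δ hδY hih φ s hs x hx hd⟩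
  refine ⟨S Θ, fun w => ?_, fun x hx y hy => ⟨fun h => hinj x hx y hy h, fun h => ?_⟩, fun β => ?_⟩
  · rw [hmain Θ (Or.inr rfl) w]
    exact ⟨fun ⟨x, h1, _, h3⟩ => ⟨x, h1, h3⟩, fun ⟨x, h1, h3⟩ => ⟨x, h1, hY.sub h1, h3⟩⟩
  · obtain ⟨z, hz, hzY, hxz⟩ := (hπ _ _).1 h
    rw [hinj x hx z hzY hxz]
    exact hz
  · rw [hS Θ β]
    exact ⟨fun ⟨α, _, h2, h3⟩ => ⟨α, h2, h3⟩, fun ⟨α, h2, h3⟩ => ⟨α, hlt α h2, h2, h3⟩⟩

theorem condense_countable {Θ' : Ordinal.{0}} {Y : Set ZFSet.{0}} {π : ZFSet.{0} → ZFSet.{0}}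
    (h : ∀ w, w ∈ L Θ' ↔ ∃ x ∈ Y, w = π x) (hY : Y.Countable) : Θ' < Ordinal.omega 1 := by
  rw [lt_omega1_iff]
  have h1 : (L Θ').Countable := by
    have h2 : L Θ' ⊆ π '' Y := by
      intro w hw
      obtain ⟨x, hx, rfl⟩ := (h w).1 hw
      exact ⟨x, hx, rfl⟩
    exact (hY.image π).mono h2
  have h2 : Ordinal.toZFSet '' Iio Θ' ⊆ L Θ' := by
    rintro _ ⟨α, hα, rfl⟩
    exact toZFSet_mem_L hα
  exact Set.countable_of_injective_of_countable_image Ordinal.toZFSet_injective.injOn (h1.mono h2)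

theorem condense_aleph1 {Θ' : Ordinal.{0}} {Y : Set ZFSet.{0}} {π : ZFSet.{0} → ZFSet.{0}}
    (h : ∀ w, w ∈ L Θ' ↔ ∃ x ∈ Y, w = π x) (hY : Cardinal.mk Y ≤ Cardinal.aleph 1) :
    Θ' < Ordinal.omega 2 := by
  have h1 : Cardinal.mk (L Θ') ≤ Cardinal.aleph 1 := by
    have h2 : L Θ' ⊆ π '' Y := by
      intro w hw
      obtain ⟨x, hx, rfl⟩ := (h w).1 hw
      exact ⟨x, hx, rfl⟩
    exact (Cardinal.mk_le_mk_of_subset h2).trans (Cardinal.mk_image_le.trans hY)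
  have h2 : Ordinal.toZFSet '' Iio Θ' ⊆ L Θ' := by
    rintro _ ⟨α, hα, rfl⟩
    exact toZFSet_mem_L hα
  have h3 : Cardinal.mk (Iio Θ') ≤ Cardinal.aleph.{1} 1 := by
    rw [← Cardinal.mk_image_eq (s := Iio Θ') Ordinal.toZFSet_injective]
    exact (Cardinal.mk_le_mk_of_subset h2).trans h1
  rw [Cardinal.mk_Iio_ordinal] at h3
  have h4 : Θ'.card ≤ Cardinal.aleph 1 := by
    have h5 : Cardinal.lift.{1, 0} Θ'.card ≤ Cardinal.lift.{1, 0} (Cardinal.aleph 1) := by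
      rw [Cardinal.lift_aleph, Ordinal.lift_one]
      exact h3
    exact Cardinal.lift_le.1 h5
  have h6 : (2 : Ordinal.{0}) = Order.succ 1 := by
    rw [← one_add_one_eq_two, Ordinal.add_one_eq_succ]
  rw [h6, ← Cardinal.ord_aleph, Cardinal.lt_ord, Cardinal.aleph_succ, Order.lt_succ_iff]
  exact h4

end RMK
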