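import Pool.Agent.RMK.S.Tra
import Pool.Agent.RMK.S.LBas

/-!
RMK LREF: reflection, and `L_{ω₁}[A]` is a model of ZF without power set.

PROOFS.  Write `K = LR A (ω 1)`; `LR A β` is countable for `β < ω₁` (`LR_countable`), `LR_mono`, `LR_transitive`.
`reflect`: induction on `φ`.  Atomic: any `g`.  `neg`: the same `g`; `and`: the maximum.  `all i φ`, with `g` for `φ`: let
`g' a` be at least `g a`, `a + 1` and such that for all `s : ℕ → LR A (a + 1)` (only the values at variables below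
`bd φ` matter, `sat_congr`, so countably many): if some `z ∈ K` has `¬ Sat K φ (update s i z)` then some such `z` is in
`LR A (g' a)`.  Let `β` be closed under `g'` and `s i ∈ LR A β`; (`β` is a limit, so the finitely many relevant values of
`s` lie in some `LR A (a + 1)`, `a < β`; if `β = 0` there is no `s`).
`zf0_LR`: `trans`: `LR_transitive`.  `pair`, `union`: as `pair_mem_L`, `union_mem_L` in `LBas.lean` but with `relE A`:
`x ∈ y` is expressed by `relE A x y ∧ x ≠ y`.  `om`: `toZFSet_mem_LR`.  `sep`: `md_fml1` gives `φ, s` with `P z ↔ Sat (relE A)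
K φ (update s 0 z)`.  Replace `s i` for `i ≥ bd φ` by `∅` (`sat_congr`).  Let `β < ω₁` be closed under the `g` of
`reflect` for `φ`, with `a ∈ LR A β` and all `s i ∈ LR A β`.  The set `{z ∈ a | P z}` is the subset of `LR A β` defined
by the formula `z ∈ a ∧ φ` (`a` as an additional parameter at a variable not used: `bd φ`, `and` of
`and (mem 0 m) (neg (eq 0 m))` and `φ`, `m = max (bd φ) 1`), so it is in `LR A (β + 1)`.
`repl`: `{F y | y ∈ a}` is countable (`a ⊆ LR A β` countable), so contained in `LR A γ` for some `γ < ω₁`; the set of all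
elements of `LR A γ` is in `LR A (γ + 1)`; apply `sep` to it with the predicate `∃ y, y ∈ a ∧ z = F y`.
`zf0_LK`: `L_eq_LR`.
`LK_sub_LR`: `Lev_sub` for `M = LR A (ω 1)` and all `γ < ω₁` (`LK` is the union of the `L γ`, `γ < ω₁`:
`exists_succ_level`).
`inter_mem_LR`: if `A ⊆ {toZ α | α < δ}`, the set of the elements of `A` is in `LR A (δ + 1)`, defined over `LR A δ` by
`mem 0 0` (`relE A z z ↔ z ∈ A`).
-/

namespace RMK

open Set PU

private theorem lr_top {A : Set ZFSet.{0}} {x : ZFSet.{0}} :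
    x ∈ LR A (Ordinal.omega 1) ↔ ∃ γ : Om, x ∈ DefSetsR A (LR A γ.1) := by
  rw [mem_LR_iff]
  constructor
  · rintro ⟨γ, h1, h2⟩
    exact ⟨⟨γ, h1⟩, h2⟩
  · rintro ⟨γ, h⟩
    exact ⟨γ.1, γ.2, h⟩

private theorem lr_lt {A : Set ZFSet.{0}} {x : ZFSet.{0}} {γ β : Om} (h : γ < β)
    (hx : x ∈ DefSetsR A (LR A γ.1)) : x ∈ LR A β.1 :=
  mem_LR_iff.2 ⟨γ.1, h, hx⟩

private theorem lr_le {A : Set ZFSet.{0}} (γ : Om) : LR A γ.1 ⊆ LR A (Ordinal.omega 1) :=
  LR_mono γ.2.le

private theorem lr_ex {A : Set ZFSet.{0}} {x : ZFSet.{0}} (hx : x ∈ LR A (Ordinal.omega 1)) :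
    ∃ γ : Om, x ∈ LR A γ.1 := by
  obtain ⟨γ, h⟩ := lr_top.1 hx
  obtain ⟨β, hβ⟩ := Om.bdd (S := {γ}) (countable_singleton γ)
  exact ⟨β, lr_lt (hβ γ rfl) h⟩

private theorem lists_countable {S : Set ZFSet.{0}} (hS : S.Countable) :
    {l : List ZFSet.{0} | ∀ x ∈ l, x ∈ S}.Countable := by
  have h1 := hS.to_subtype
  refine (Set.countable_range (fun l : List S => l.map Subtype.val)).mono ?_
  intro l hl
  refine ⟨l.attach.map fun z => ⟨z.1, hl z.1 z.2⟩, ?_⟩
  simp only [List.map_map, Function.comp_def]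
  exact List.attach_map_subtype_val l

/-- a common level for finitely many elements -/
private theorem fin_level {A : Set ZFSet.{0}} {g : Om → Om} {β : Om}
    (hg : ∀ a, a < β → a < g a ∧ g a < β) {s : ℕ → ZFSet.{0}} (hs : ∀ i, s i ∈ LR A β.1) (n : ℕ) :
    ∃ a, a < β ∧ ∀ j, j < n → s j ∈ LR A a.1 := by
  have h0 : ∀ i, ∃ a, a < β ∧ s i ∈ LR A a.1 := by
    intro i
    obtain ⟨γ, h1, h2⟩ := mem_LR_iff.1 (hs i)
    have h3 : (⟨γ, lt_trans h1 β.2⟩ : Om) < β := h1
    obtain ⟨h4, h5⟩ := hg _ h3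
    exact ⟨_, h5, lr_lt h4 h2⟩
  induction n with
  | zero =>
    obtain ⟨a, ha, -⟩ := h0 0
    exact ⟨a, ha, fun j hj => absurd hj (Nat.not_lt_zero _)⟩
  | succ n ih =>
    obtain ⟨a, ha, h1⟩ := ih
    obtain ⟨b, hb, h2⟩ := h0 n
    refine ⟨max a b, max_lt ha hb, fun j hj => ?_⟩
    rcases Nat.lt_succ_iff_lt_or_eq.1 hj with h | h
    · exact LR_mono (le_max_left a b : a ≤ max a b) (h1 j h)
    · rw [h]
      exact LR_mono (le_max_right a b : b ≤ max a b) h2

theorem reflect (A : Set ZFSet.{0}) (φ : Fml) : ∃ g : Om → Om, ∀ β : Om,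
    (∀ a, a < β → g a < β) → ∀ s : ℕ → ZFSet.{0}, (∀ i, s i ∈ LR A β.1) →
      (Sat (relE A) (LR A β.1) φ s ↔ Sat (relE A) (LR A (Ordinal.omega 1)) φ s) := by
  classical
  induction φ with
  | mem i j => exact ⟨fun a => a, fun β _ s _ => Iff.rfl⟩
  | eq i j => exact ⟨fun a => a, fun β _ s _ => Iff.rfl⟩
  | neg φ ih =>
    obtain ⟨g, hg⟩ := ih
    exact ⟨g, fun β hβ s hs => not_congr (hg β hβ s hs)⟩
  | and φ ψ ih1 ih2 =>
    obtain ⟨g1, hg1⟩ := ih1
    obtain ⟨g2, hg2⟩ := ih2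
    refine ⟨fun a => max (g1 a) (g2 a), fun β hβ s hs => and_congr
      (hg1 β (fun a ha => lt_of_le_of_lt (le_max_left _ _) (hβ a ha)) s hs)
      (hg2 β (fun a ha => lt_of_le_of_lt (le_max_right _ _) (hβ a ha)) s hs)⟩
  | all i φ ih =>
    obtain ⟨g, hg⟩ := ih
    obtain ⟨K, hK⟩ : ∃ K, K = LR A (Ordinal.omega 1) := ⟨_, rfl⟩
    obtain ⟨la, hla⟩ : ∃ la : List ZFSet.{0} → ℕ → ZFSet.{0}, la = fun l j => l.getD j ∅ :=
      ⟨_, rfl⟩
    have hlist : ∀ (s : ℕ → ZFSet.{0}) (k j : ℕ), j < k → la ((List.range k).map s) j = s j := by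
      intro s k j hj
      rw [hla]
      show ((List.range k).map s).getD j ∅ = s j
      rw [List.getD_eq_getElem?_getD, List.getElem?_map, List.getElem?_range hj]
      rfl
    have hcon : ∀ (B : Set ZFSet.{0}) (s : ℕ → ZFSet.{0}) (z : ZFSet.{0}),
        (Sat (relE A) B φ (Function.update (la ((List.range (bd φ)).map s)) i z) ↔
          Sat (relE A) B φ (Function.update s i z)) := by
      intro B s z
      refine RMK.sat_congr φ fun j hj => ?_
      by_cases hji : j = i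
      · subst hji
        rw [Function.update_self, Function.update_self]
      · rw [Function.update_of_ne hji, Function.update_of_ne hji, hlist s _ j hj]
    have hex : ∀ l : List ZFSet.{0}, ∃ γ : Om,
        (∃ z ∈ K, ¬ Sat (relE A) K φ (Function.update (la l) i z)) →
        ∃ z ∈ LR A γ.1, ¬ Sat (relE A) K φ (Function.update (la l) i z) := by
      intro l
      by_cases h : ∃ z ∈ K, ¬ Sat (relE A) K φ (Function.update (la l) i z)
      · obtain ⟨z, hz, h1⟩ := h
        rw [hK] at hz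
        obtain ⟨γ, hγ⟩ := lr_ex hz
        exact ⟨γ, fun _ => ⟨z, hγ, h1⟩⟩
      · exact ⟨natO 0, fun h' => absurd h' h⟩
    choose h hh using hex
    have hb : ∀ a : Om, ∃ b : Om, g a < b ∧ a < b ∧
        ∀ l : List ZFSet.{0}, (∀ x ∈ l, x ∈ LR A a.1) → h l < b := by
      intro a
      obtain ⟨b, hb⟩ := Om.bdd (S := {g a} ∪ {a} ∪
        h '' {l : List ZFSet.{0} | ∀ x ∈ l, x ∈ LR A a.1})
        (((countable_singleton _).union (countable_singleton _)).union
          ((lists_countable (LR_countable A a)).image _))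
      exact ⟨b, hb _ (Or.inl (Or.inl rfl)), hb _ (Or.inl (Or.inr rfl)),
        fun l hl => hb _ (Or.inr ⟨l, hl, rfl⟩)⟩
    choose g' hg1 hg2 hg3 using hb
    refine ⟨g', fun β hβ s hs => ?_⟩
    have hgβ : ∀ a, a < β → g a < β := fun a ha => lt_trans (hg1 a) (hβ a ha)
    have hup : ∀ z ∈ LR A β.1, ∀ j, Function.update s i z j ∈ LR A β.1 := by
      intro z hz j
      by_cases hji : j = i
      · subst hji
        rw [Function.update_self]
        exact hz
      · rw [Function.update_of_ne hji]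
        exact hs j
    constructor
    · intro h1
      by_contra h2
      have h3 : ∃ z ∈ K, ¬ Sat (relE A) K φ (Function.update s i z) := by
        by_contra h4
        apply h2
        intro z hz
        by_contra h5
        rw [← hK] at hz h5
        exact h4 ⟨z, hz, h5⟩
      obtain ⟨a, ha, h4⟩ := fin_level (fun a ha => ⟨hg2 a, hβ a ha⟩) hs (bd φ)
      obtain ⟨l, hl⟩ : ∃ l, l = (List.range (bd φ)).map s := ⟨_, rfl⟩
      have hlm : ∀ x ∈ l, x ∈ LR A a.1 := by
        rw [hl]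
        intro x hx
        obtain ⟨j, hj, rfl⟩ := List.mem_map.1 hx
        exact h4 j (List.mem_range.1 hj)
      have h5 : ∃ z ∈ K, ¬ Sat (relE A) K φ (Function.update (la l) i z) := by
        obtain ⟨z, hz, h6⟩ := h3
        refine ⟨z, hz, fun h7 => h6 ?_⟩
        rw [hl] at h7
        exact (hcon K s z).1 h7
      obtain ⟨z, hz, h6⟩ := hh l h5
      have h7 : h l < β := lt_trans (hg3 a l hlm) (hβ a ha)
      have hzβ : z ∈ LR A β.1 := LR_mono (h7.le : h l ≤ β) hz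
      apply h6
      rw [hl]
      refine (hcon K s z).2 ?_
      rw [hK]
      exact (hg β hgβ _ (hup z hzβ)).1 (h1 z hzβ)
    · intro h1 z hz
      exact (hg β hgβ _ (hup z hz)).2 (h1 z (lr_le β hz))

/-- closed ordinals exist -/
private theorem exists_clo (g : Om → Om) (γ : Om) : ∃ β : Om, γ < β ∧ ∀ a, a < β → g a < β := by
  have hb : ∀ b : Om, ∃ c : Om, b < c ∧ ∀ a, a ≤ b → g a < c := by
    intro b
    obtain ⟨c, hc⟩ := Om.bdd (S := {b} ∪ g '' {a | a ≤ b})
      ((countable_singleton _).union ((Om.countable_Iic b).image _))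
    exact ⟨c, hc _ (Or.inl rfl), fun a ha => hc _ (Or.inr ⟨a, ha, rfl⟩)⟩
  choose f hf1 hf2 using hb
  obtain ⟨c, hc⟩ := Om.bdd (S := Set.range fun n : ℕ => f^[n] γ) (Set.countable_range _)
  have hne : {β : Om | ∀ n : ℕ, f^[n] γ < β}.Nonempty := ⟨c, fun n => hc _ ⟨n, rfl⟩⟩
  obtain ⟨β, hβ, hmin⟩ := wellFounded_lt.has_min {β : Om | ∀ n : ℕ, f^[n] γ < β} hne
  refine ⟨β, hβ 0, fun a ha => ?_⟩
  have h1 : ∃ n : ℕ, a ≤ f^[n] γ := by
    by_contra h
    push Not at h
    exact hmin a h ha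
  obtain ⟨n, hn⟩ := h1
  have h2 := hβ (n + 1)
  rw [Function.iterate_succ_apply'] at h2
  exact lt_trans (hf2 _ a hn) h2

/-- definable subsets of a countable level are elements of the model -/
private theorem def_ex (A : Set ZFSet.{0}) (γ : Om) (φ : Fml) (s : ℕ → ZFSet.{0})
    (hs : (LR A γ.1).Nonempty → ∀ i, s i ∈ LR A γ.1) :
    ∃ x ∈ LR A (Ordinal.omega 1), ∀ z, z ∈ x ↔ z ∈ LR A γ.1 ∧
      Sat (relE A) (LR A γ.1) φ (Function.update s 0 z) := by
  have hcount : ({z | z ∈ LR A γ.1 ∧ Sat (relE A) (LR A γ.1) φ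
      (Function.update s 0 z)} : Set ZFSet.{0}).Countable :=
    (LR_countable A γ).mono fun z hz => hz.1
  have hc := hcount.to_subtype
  have hx : ∀ z, z ∈ (ZFSet.range fun z : ({z | z ∈ LR A γ.1 ∧ Sat (relE A) (LR A γ.1) φ
      (Function.update s 0 z)} : Set ZFSet.{0}) => z.1) ↔ z ∈ LR A γ.1 ∧
      Sat (relE A) (LR A γ.1) φ (Function.update s 0 z) := by
    intro z
    rw [ZFSet.mem_range]
    constructor
    · rintro ⟨z', rfl⟩
      exact z'.2
    · intro hz
      exact ⟨⟨z, hz⟩, rfl⟩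
  exact ⟨_, lr_top.2 ⟨γ, φ, s, hs, hx⟩, hx⟩

/-- the level as a set -/
private theorem level_ex (A : Set ZFSet.{0}) (γ : Om) :
    ∃ x ∈ LR A (Ordinal.omega 1), ∀ z, z ∈ x ↔ z ∈ LR A γ.1 := by
  obtain ⟨c, hc⟩ : ∃ c : ZFSet.{0}, (LR A γ.1).Nonempty → c ∈ LR A γ.1 := by
    by_cases h : (LR A γ.1).Nonempty
    · obtain ⟨c, hc⟩ := h
      exact ⟨c, fun _ => hc⟩
    · exact ⟨∅, fun h' => absurd h' h⟩
  obtain ⟨x, hx, h1⟩ := def_ex A γ (.eq 1 1) (fun _ => c) fun h _ => hc h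
  exact ⟨x, hx, fun z => ⟨fun h => ((h1 z).1 h).1, fun h => (h1 z).2 ⟨h, rfl⟩⟩⟩

private theorem relE_ne {A : Set ZFSet.{0}} {x y : ZFSet.{0}} :
    (relE A x y ∧ ¬ x = y) ↔ x ∈ y := by
  constructor
  · rintro ⟨h | ⟨h, -⟩, h2⟩
    · exact h
    · exact absurd h h2
  · intro h
    refine ⟨Or.inl h, fun h2 => ?_⟩
    rw [h2] at h
    exact ZFSet.mem_irrefl _ h

theorem zf0_LR (A : Set ZFSet.{0}) : ZF0 (LR A (Ordinal.omega 1)) := by
  have htr : ∀ x ∈ LR A (Ordinal.omega 1), ∀ y ∈ x, y ∈ LR A (Ordinal.omega 1) :=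
    fun x hx y hy => LR_transitive hx hy
  have hom : omZ ∈ LR A (Ordinal.omega 1) :=
    toZFSet_mem_LR A Ordinal.omega0_lt_omega_one
  have hsep : ∀ P : (LR A (Ordinal.omega 1)) → Prop, MD (LR A (Ordinal.omega 1)) P →
      ∀ a : LR A (Ordinal.omega 1), ∃ b : LR A (Ordinal.omega 1),
      ∀ z : LR A (Ordinal.omega 1), z.1 ∈ b.1 ↔ z.1 ∈ a.1 ∧ P z := by
    intro P hP a
    obtain ⟨φ, s, hs, h1⟩ := md_fml1 A hP ⟨_, hom⟩
    obtain ⟨g, hg⟩ := reflect A φ
    obtain ⟨γa, hγa⟩ := lr_ex a.2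
    choose γs hγs using fun i => lr_ex (hs i)
    obtain ⟨γ, hγ⟩ := Om.bdd (S := {γa} ∪ Set.range γs)
      ((countable_singleton _).union (Set.countable_range _))
    obtain ⟨β, hβ1, hβ2⟩ := exists_clo g γ
    have haβ : a.1 ∈ LR A β.1 :=
      LR_mono ((lt_trans (hγ γa (Or.inl rfl)) hβ1).le : γa ≤ β) hγa
    have hsβ : ∀ i, s i ∈ LR A β.1 := fun i =>
      LR_mono ((lt_trans (hγ (γs i) (Or.inr ⟨i, rfl⟩)) hβ1).le : γs i ≤ β) (hγs i)
    obtain ⟨n, hn⟩ : ∃ n, n = bd φ + 1 := ⟨_, rfl⟩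
    obtain ⟨s', hs'⟩ : ∃ s' : ℕ → ZFSet.{0}, s' = fun i => if i < bd φ then s i else a.1 :=
      ⟨_, rfl⟩
    have hs'β : ∀ i, s' i ∈ LR A β.1 := by
      intro i
      rw [hs']
      show (if i < bd φ then s i else a.1) ∈ LR A β.1
      split_ifs
      · exact hsβ i
      · exact haβ
    have hs'n : s' n = a.1 := by
      rw [hs']
      show (if n < bd φ then s n else a.1) = a.1
      rw [if_neg (by omega)]
    obtain ⟨b, hb, h2⟩ := def_ex A β (.and (.and (.mem 0 n) (.neg (.eq 0 n))) φ) s'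
      fun _ => hs'β
    refine ⟨⟨b, hb⟩, fun z => ?_⟩
    show z.1 ∈ b ↔ z.1 ∈ a.1 ∧ P z
    rw [h2 z.1, h1 z]
    have h3 : Sat (relE A) (LR A β.1) (.and (.and (.mem 0 n) (.neg (.eq 0 n))) φ)
        (Function.update s' 0 z.1) ↔ (relE A z.1 a.1 ∧ ¬ z.1 = a.1) ∧
        Sat (relE A) (LR A β.1) φ (Function.update s' 0 z.1) := by
      have e0 : Function.update s' 0 z.1 0 = z.1 := Function.update_self _ _ _
      have e1 : Function.update s' 0 z.1 n = a.1 := by
        rw [Function.update_of_ne (by omega), hs'n]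
      show ((relE A (Function.update s' 0 z.1 0) (Function.update s' 0 z.1 n) ∧
        ¬ Function.update s' 0 z.1 0 = Function.update s' 0 z.1 n) ∧ _) ↔ _
      rw [e0, e1]
    rw [h3, relE_ne]
    have h4 : ∀ hz : z.1 ∈ LR A β.1, (Sat (relE A) (LR A β.1) φ (Function.update s' 0 z.1) ↔
        Sat (relE A) (LR A (Ordinal.omega 1)) φ (Function.update s 0 z.1)) := by
      intro hz
      rw [hg β hβ2 _ (fun j => ?_)]
      · refine RMK.sat_congr φ fun j hj => ?_
        by_cases hj0 : j = 0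
        · subst hj0
          rw [Function.update_self, Function.update_self]
        · rw [Function.update_of_ne hj0, Function.update_of_ne hj0, hs']
          show (if j < bd φ then s j else a.1) = s j
          rw [if_pos hj]
      · by_cases hj0 : j = 0
        · subst hj0
          rw [Function.update_self]
          exact hz
        · rw [Function.update_of_ne hj0]
          exact hs'β j
    constructor
    · rintro ⟨hz, h5, h6⟩
      exact ⟨h5, (h4 hz).1 h6⟩
    · rintro ⟨h5, h6⟩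
      have hz : z.1 ∈ LR A β.1 := LR_transitive haβ h5
      exact ⟨hz, h5, (h4 hz).2 h6⟩
  refine ⟨htr, ?_, ?_, hom, hsep, ?_⟩
  · intro x hx y hy
    obtain ⟨γ1, h1⟩ := lr_ex hx
    obtain ⟨γ2, h2⟩ := lr_ex hy
    obtain ⟨γ, hγ⟩ : ∃ γ, γ = max γ1 γ2 := ⟨_, rfl⟩
    have hxγ : x ∈ LR A γ.1 := LR_mono (by rw [hγ]; exact le_max_left γ1 γ2 : γ1 ≤ γ) h1
    have hyγ : y ∈ LR A γ.1 := LR_mono (by rw [hγ]; exact le_max_right γ1 γ2 : γ2 ≤ γ) h2
    refine lr_top.2 ⟨γ, .neg (.and (.neg (.eq 0 1)) (.neg (.eq 0 2))),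
      fun i => if i = 1 then x else y, fun _ i => ?_, fun z => ?_⟩
    · dsimp only
      split_ifs
      · exact hxγ
      · exact hyγ
    · rw [ZFSet.mem_pair]
      simp only [Sat, Function.update_self]
      rw [Function.update_of_ne (by decide), Function.update_of_ne (by decide)]
      rw [if_pos rfl, if_neg (by decide)]
      constructor
      · rintro (h | h)
        · rw [h]
          exact ⟨hxγ, fun h1 => h1.1 rfl⟩
        · rw [h]
          exact ⟨hyγ, fun h1 => h1.2 rfl⟩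
      · rintro ⟨-, h⟩
        by_contra hn
        rw [not_or] at hn
        exact h hn
  · intro x hx
    obtain ⟨γ, hxγ⟩ := lr_ex hx
    refine lr_top.2 ⟨γ, .neg (.all 2 (.neg (.and (.and (.mem 2 1) (.neg (.eq 2 1)))
      (.and (.mem 0 2) (.neg (.eq 0 2)))))), fun _ => x, fun _ _ => hxγ, fun z => ?_⟩
    rw [ZFSet.mem_sUnion]
    have h1 : Sat (relE A) (LR A γ.1) (.neg (.all 2 (.neg (.and (.and (.mem 2 1) (.neg (.eq 2 1)))
        (.and (.mem 0 2) (.neg (.eq 0 2))))))) (Function.update (fun _ => x) 0 z) ↔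
        ¬ ∀ w ∈ LR A γ.1, ¬ (w ∈ x ∧ z ∈ w) := by
      simp only [Sat]
      refine not_congr (forall_congr' fun w => forall_congr' fun _ => not_congr ?_)
      rw [Function.update_self, Function.update_of_ne (by decide),
        Function.update_of_ne (by decide), Function.update_of_ne (by decide),
        Function.update_self]
      rw [relE_ne, relE_ne]
    rw [h1]
    constructor
    · rintro ⟨w, hw, hz⟩
      have hwL := LR_transitive hxγ hw
      exact ⟨LR_transitive hwL hz, fun h => h w hwL ⟨hw, hz⟩⟩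
    · rintro ⟨-, h⟩
      by_contra hn
      exact h fun w _ h2 => hn ⟨w, h2.1, h2.2⟩
  · intro F hF a
    obtain ⟨γa, hγa⟩ := lr_ex a.2
    have hex : ∀ y : LR A (Ordinal.omega 1), ∃ δ : Om, (F y).1 ∈ LR A δ.1 := fun y =>
      lr_ex (F y).2
    choose δ hδ using hex
    have hc : {y : LR A (Ordinal.omega 1) | y.1 ∈ LR A γa.1}.Countable :=
      (LR_countable A γa).preimage (f := (Subtype.val : LR A (Ordinal.omega 1) → ZFSet.{0}))
        Subtype.val_injective
    obtain ⟨ε, hε⟩ := Om.bdd (hc.image δ)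
    obtain ⟨c, hc1, hc2⟩ := level_ex A ε
    have hP : MD (LR A (Ordinal.omega 1)) fun z : LR A (Ordinal.omega 1) =>
        ∃ y : LR A (Ordinal.omega 1), y.1 ∈ a.1 ∧ z = F y := by
      refine MD.ex (P := fun z y : LR A (Ordinal.omega 1) => y.1 ∈ a.1 ∧ z = F y) ?_
      exact (MD.and (MD.mem (DFc.snd DFc.id) (DFc.const a))
        (MD.eq (DFc.fst DFc.id) (hF.comp (DFc.snd DFc.id))) :)
    obtain ⟨b, hb⟩ := hsep _ hP ⟨c, hc1⟩
    refine ⟨b, fun z => ?_⟩
    rw [hb z]
    constructor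
    · rintro ⟨-, h⟩
      exact h
    · rintro ⟨y, hy, hz⟩
      refine ⟨(hc2 z.1).2 ?_, y, hy, hz⟩
      rw [hz]
      have h1 : δ y < ε := hε _ ⟨y, LR_transitive hγa hy, rfl⟩
      exact LR_mono (h1.le : δ y ≤ ε) (hδ y)

theorem zf0_LK : ZF0 LK := by
  have h : LK = LR ∅ (Ordinal.omega 1) := L_eq_LR _
  rw [h]
  exact zf0_LR ∅

theorem inter_mem_LR {A : Set ZFSet.{0}} {δ : Om} (hA : ∀ x ∈ A, ∃ α : Om, α < δ ∧ x = toZ α) :
    ∃ a ∈ LR A (Ordinal.omega 1), ∀ z, z ∈ a ↔ z ∈ A := by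
  obtain ⟨c, hc⟩ : ∃ c : ZFSet.{0}, (LR A δ.1).Nonempty → c ∈ LR A δ.1 := by
    by_cases h : (LR A δ.1).Nonempty
    · obtain ⟨c, hc⟩ := h
      exact ⟨c, fun _ => hc⟩
    · exact ⟨∅, fun h' => absurd h' h⟩
  obtain ⟨x, hx, h1⟩ := def_ex A δ (.mem 0 0) (fun _ => c) fun h _ => hc h
  refine ⟨x, hx, fun z => ?_⟩
  rw [h1 z]
  have h2 : Sat (relE A) (LR A δ.1) (.mem 0 0) (Function.update (fun _ => c) 0 z) ↔ z ∈ A := by
    have e0 : Function.update (fun _ : ℕ => c) 0 z 0 = z := Function.update_self _ _ _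
    show relE A (Function.update (fun _ : ℕ => c) 0 z 0) (Function.update (fun _ : ℕ => c) 0 z 0)
      ↔ z ∈ A
    rw [e0]
    constructor
    · rintro (h | ⟨-, h⟩)
      · exact absurd h (ZFSet.mem_irrefl _)
      · exact h
    · intro h
      exact Or.inr ⟨rfl, h⟩
  rw [h2]
  constructor
  · exact fun h => h.2
  · intro h
    refine ⟨?_, h⟩
    obtain ⟨α, hα, rfl⟩ := hA z h
    exact toZFSet_mem_LR A hα

end RMK
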