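import Pool.Agent.RMK.S.ZSat
import Pool.Agent.RMK.S.LBas

/-!
RMK ZLEV: the constructible hierarchy inside a model of ZF without power set; the kit of definable
functions used later.

PROOFS.
The facts on the hierarchy `L γ` are in `LBas.lean`.
`exists_kit`: take `C`, `P`, `S` from `exists_codes`, `exists_FP`, `exists_Sat`.  `Dd x c s = {z ∈ x | updZ s (natZ 0)
z ∈ S x c}` (`sepF` in the context `M × M × M`).  `Df x = {Dd x c s | c ∈ C, s ∈ P x}` (`unionF`/`replF` over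
`zpd C (P x)`).  For `x` with `z ∈ x ↔ z ∈ L γ`: `y ∈ Df x ↔ y ∈ DefSets (L γ)`: (→) `c = code φ`, `FP x s`:
`z ∈ Dd x c s ↔ z ∈ x ∧ SatZ x φ (ext (updZ s (natZ 0) z)) ↔ z ∈ L γ ∧ Sat (L γ) φ (update (ext s) 0 z)`
(`FP x (updZ s (natZ 0) z)` for `z ∈ x`), and `ext s i ∈ L γ` if `L γ` is nonempty (then `0 < γ`, `∅ ∈ L γ`,
`FP.ext_mem`).  (←) given `φ, s` with `s i ∈ L γ` (if `L γ` is nonempty), take `z₀` from `exists_FP_of` with
`k = bd φ`; `Sat` does not change (`sat_congr`); if `L γ` is empty, `y = ∅ = Dd x c ∅`.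
`Lv`: `recOrd` (no parameters) with `F γ h = ⋃_{ξ ∈ γ} Df (apZ h ξ)` (`unionF`).  `Lv_spec` by induction on `γ`:
`L γ = ⋃_{β < γ} DefSets (L β)` by definition of `L` (unfold once), the elements of `γ.toZFSet` are the
`β.toZFSet`, `β < γ` (`Ordinal.mem_toZFSet_iff`), all in `M` by transitivity.
`Lev_mem`: if `γ.toZFSet ∈ M` then `L γ` is (the set of elements of) an element of `M`, so `L γ ⊆ M`.
-/

namespace RMK

open Set PU

variable {M : Set ZFSet.{0}}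

/-- definable functions for the constructible hierarchy in `M` -/
structure Kit (M : Set ZFSet.{0}) where
  /-- `M` is a model of ZF without power set -/
  hM : ZF0 M
  /-- codes of formulas -/
  C : M
  C_spec : ∀ z, z ∈ C.1 ↔ ∃ φ, z = code φ
  /-- finite assignments -/
  P : M → M
  hP : DFc M P
  P_spec : ∀ (x : M) z, z ∈ (P x).1 ↔ FP x.1 z
  /-- internal satisfaction -/
  S : M → M → M
  hS : DFc M fun p : M × M => S p.1 p.2
  S_spec : ∀ (x c : M) (φ : Fml), c.1 = code φ →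
    ∀ z, z ∈ (S x c).1 ↔ FP x.1 z ∧ SatZ x.1 φ (ext z)
  /-- definable subsets -/
  Dd : M → M → M → M
  hDd : DFc M fun p : M × M × M => Dd p.1 p.2.1 p.2.2
  Dd_spec : ∀ x c s z : M, z.1 ∈ (Dd x c s).1 ↔ z.1 ∈ x.1 ∧ updZ s.1 (natZ 0) z.1 ∈ (S x c).1
  /-- levels of the constructible hierarchy -/
  Lv : M → M
  hLv : DFc M Lv
  Lv_spec : ∀ (γ : Ordinal.{0}) (g : M), g.1 = γ.toZFSet → ∀ z, z ∈ (Lv g).1 ↔ z ∈ L γ

/-- the sets defined by `Dd` -/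
private theorem dd_iff (hM : ZF0 M) {S : M → M → M}
    (hS : ∀ (x c : M) (φ : Fml), c.1 = code φ →
      ∀ z, z ∈ (S x c).1 ↔ FP x.1 z ∧ SatZ x.1 φ (ext z))
    {Dd : M → M → M → M}
    (hDd : ∀ x c s z : M, z.1 ∈ (Dd x c s).1 ↔ z.1 ∈ x.1 ∧ updZ s.1 (natZ 0) z.1 ∈ (S x c).1)
    {x c z₀ : M} {φ : Fml} (hc : c.1 = code φ) (hz : FP x.1 z₀.1) {β : Ordinal.{0}}
    (hx : ∀ z, z ∈ x.1 ↔ z ∈ L β) {s : ℕ → ZFSet.{0}} (hs : ∀ i, i < bd φ → ext z₀.1 i = s i) :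
    ∀ z, z ∈ (Dd x c z₀).1 ↔
      z ∈ L β ∧ Sat (fun a b : ZFSet.{0} => a ∈ b) (L β) φ (Function.update s 0 z) := by
  have hset : {w : ZFSet.{0} | w ∈ x.1} = L β := Set.ext hx
  have key : ∀ z : M, z.1 ∈ (Dd x c z₀).1 ↔
      z.1 ∈ L β ∧ Sat (fun a b : ZFSet.{0} => a ∈ b) (L β) φ (Function.update s 0 z.1) := by
    intro z
    rw [hDd, hS x c φ hc, ext_upd, ← hx z.1]
    have e : SatZ x.1 φ (Function.update (ext z₀.1) 0 z.1) ↔
        Sat (fun a b : ZFSet.{0} => a ∈ b) (L β) φ (Function.update s 0 z.1) := by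
      unfold SatZ
      rw [hset]
      apply sat_congr
      intro i hi
      by_cases h0 : i = 0
      · rw [h0, Function.update_self, Function.update_self]
      · rw [Function.update_of_ne h0, Function.update_of_ne h0]
        exact hs i hi
    rw [e]
    constructor
    · rintro ⟨h1, -, h3⟩
      exact ⟨h1, h3⟩
    · rintro ⟨h1, h3⟩
      exact ⟨h1, FP.upd 0 hz h1, h3⟩
  intro z
  constructor
  · intro h
    exact (key ⟨z, hM.trans _ (Dd x c z₀).2 _ h⟩).1 h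
  · intro h
    exact (key ⟨z, hM.trans _ x.2 _ ((hx z).2 h.1)⟩).2 h

private theorem df_iff (hM : ZF0 M) {C : M} (hC : ∀ z, z ∈ C.1 ↔ ∃ φ, z = code φ) {P : M → M}
    (hP : ∀ (x : M) z, z ∈ (P x).1 ↔ FP x.1 z) {S : M → M → M}
    (hS : ∀ (x c : M) (φ : Fml), c.1 = code φ →
      ∀ z, z ∈ (S x c).1 ↔ FP x.1 z ∧ SatZ x.1 φ (ext z))
    {Dd : M → M → M → M}
    (hDd : ∀ x c s z : M, z.1 ∈ (Dd x c s).1 ↔ z.1 ∈ x.1 ∧ updZ s.1 (natZ 0) z.1 ∈ (S x c).1)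
    {Df : M → M} (hDf : ∀ x y : M, y.1 ∈ (Df x).1 ↔ ∃ c : M, c.1 ∈ C.1 ∧ ∃ s : M, s.1 ∈ (P x).1 ∧
      y = Dd x c s) {x : M} {β : Ordinal.{0}} (hx : ∀ z, z ∈ x.1 ↔ z ∈ L β) :
    ∀ y, y ∈ (Df x).1 ↔ y ∈ DefSets (L β) := by
  have h0 : (L β).Nonempty → (∅ : ZFSet.{0}) ∈ L β := by
    intro h
    apply empty_mem_L
    by_contra hc
    have : β = 0 := le_antisymm (not_lt.1 hc) zero_le
    rw [this, L_zero] at h
    exact Set.not_nonempty_empty h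
  intro y
  constructor
  · intro hy
    obtain ⟨c, hcC, s, hsP, he⟩ := (hDf x ⟨y, hM.trans _ (Df x).2 _ hy⟩).1 hy
    obtain ⟨φ, hφ⟩ := (hC _).1 hcC
    have hFP := (hP x s.1).1 hsP
    have hyD : y = (Dd x c s).1 := congrArg Subtype.val he
    refine ⟨φ, ext s.1, fun hne i => ?_, ?_⟩
    · rcases FP.ext_mem hFP i with h | h
      · exact (hx _).1 h
      · rw [h]
        exact h0 hne
    · rw [hyD]
      exact dd_iff hM hS hDd hφ hFP hx fun i _ => rfl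
  · rintro ⟨φ, s, hs, hy⟩
    have hz : ∃ z₀ : M, FP x.1 z₀.1 ∧ ((L β).Nonempty → ∀ i, i < bd φ → ext z₀.1 i = s i) := by
      by_cases hne : (L β).Nonempty
      · obtain ⟨z, hz1, hz2, -⟩ := exists_FP_of (bd φ) s (x := x.1) fun i => (hx _).2 (hs hne i)
        exact ⟨⟨z, FP.mem_M hM x.2 hz1⟩, hz1, fun _ => hz2⟩
      · exact ⟨⟨∅, hM.empty_mem⟩, FP.nil, fun h => (hne h).elim⟩
    obtain ⟨z₀, hz1, hz2⟩ := hz
    have hyD : y = (Dd x ⟨code φ, hM.code_mem φ⟩ z₀).1 := by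
      apply ZFSet.ext
      intro z
      by_cases hne : (L β).Nonempty
      · rw [hy z]
        exact (dd_iff hM hS hDd (c := ⟨code φ, hM.code_mem φ⟩) rfl hz1 hx (hz2 hne) z).symm
      · constructor
        · intro h
          exact (hne ⟨z, ((hy z).1 h).1⟩).elim
        · intro h
          have h1 := (hDd x ⟨code φ, hM.code_mem φ⟩ z₀
            ⟨z, hM.trans _ (Dd x ⟨code φ, hM.code_mem φ⟩ z₀).2 _ h⟩).1 h
          exact (hne ⟨z, (hx z).1 h1.1⟩).elim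
    rw [hyD]
    exact (hDf x (Dd x ⟨code φ, hM.code_mem φ⟩ z₀)).2 ⟨⟨code φ, hM.code_mem φ⟩, (hC _).2 ⟨φ, rfl⟩,
      z₀, (hP x z₀.1).2 hz1, rfl⟩

private theorem exists_Dd (hM : ZF0 M) {S : M → M → M} (hS : DFc M fun p : M × M => S p.1 p.2) :
    ∃ Dd : M → M → M → M, (DFc M fun p : M × M × M => Dd p.1 p.2.1 p.2.2) ∧
      ∀ x c s z : M, z.1 ∈ (Dd x c s).1 ↔ z.1 ∈ x.1 ∧ updZ s.1 (natZ 0) z.1 ∈ (S x c).1 := by
  have h1 : DFc M fun p : M × M × M => p.1 := DFc.fst DFc.id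
  have c1 : DFc M fun p : (M × M × M) × M => p.1 := DFc.fst DFc.id
  have c2 : DFc M fun p : (M × M × M) × M => p.2 := DFc.snd DFc.id
  have a1 : DFc M fun p : (M × M × M) × M => p.1.1 := DFc.fst c1
  have a2 : DFc M fun p : (M × M × M) × M => p.1.2.1 := DFc.fst (DFc.snd c1)
  have a3 : DFc M fun p : (M × M × M) × M => p.1.2.2 := DFc.snd (DFc.snd c1)
  have b1 : DFc M fun p : (M × M × M) × M => S p.1.1 p.1.2.1 :=
    DFc.comp (g := fun p : M × M => S p.1 p.2) hS (DFc.mk a1 a2)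
  have b2 : DFc M fun p : (M × M × M) × M => zup hM p.1.2.2 (znat hM 0) p.2 :=
    DFc.zup hM a3 (DFc.const (znat hM 0)) c2
  obtain ⟨f, hf, hfs⟩ := hM.sepF (X := M × M × M) h1
    (P := fun p z => (zup hM p.2.2 (znat hM 0) z).1 ∈ (S p.1 p.2.1).1) (MD.mem b2 b1 :)
  refine ⟨fun x c s => f (x, c, s), hf, fun x c s z => ?_⟩
  exact hfs (x, c, s) z

private theorem exists_Df (hM : ZF0 M) (C : M) {P : M → M} (hP : DFc M P)
    {Dd : M → M → M → M} (hDd : DFc M fun p : M × M × M => Dd p.1 p.2.1 p.2.2) :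
    ∃ Df : M → M, DFc M Df ∧ ∀ x y : M, y.1 ∈ (Df x).1 ↔ ∃ c : M, c.1 ∈ C.1 ∧ ∃ s : M,
      s.1 ∈ (P x).1 ∧ y = Dd x c s := by
  have h1 : DFc M fun p : M × M => P p.1 := DFc.comp hP (DFc.fst DFc.id)
  have c1 : DFc M fun p : (M × M) × M => p.1 := DFc.fst DFc.id
  have c2 : DFc M fun p : (M × M) × M => p.2 := DFc.snd DFc.id
  have h2 : DFc M fun p : (M × M) × M => Dd p.1.1 p.1.2 p.2 :=
    DFc.comp (g := fun p : M × M × M => Dd p.1 p.2.1 p.2.2) hDd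
      (DFc.mk (DFc.fst c1) (DFc.mk (DFc.snd c1) c2))
  obtain ⟨G, hG, hGs⟩ := hM.replF (X := M × M) h1 (F := fun p s => Dd p.1 p.2 s) h2
  have h3 : DFc M fun _ : M => C := DFc.const C
  obtain ⟨Df, hDf, hDfs⟩ := hM.unionF (X := M) h3 (F := fun x c => G (x, c)) hG
  refine ⟨Df, hDf, fun x y => ?_⟩
  rw [hDfs x y]
  refine exists_congr fun c => and_congr_right fun _ => ?_
  exact hGs (x, c) y

private theorem exists_Lv (hM : ZF0 M) {Df : M → M} (hDf : DFc M Df) :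
    ∃ Lv : M → M, DFc M Lv ∧ ∀ γ : M, IsO γ.1 → ∀ z : M, z.1 ∈ (Lv γ).1 ↔
      ∃ ξ : M, ξ.1 ∈ γ.1 ∧ z.1 ∈ (Df (Lv ξ)).1 := by
  have h1 : DFc M fun p : M × M × M => p.2.1 := DFc.fst (DFc.snd DFc.id)
  have c1 : DFc M fun p : (M × M × M) × M => p.1.2.2 := DFc.snd (DFc.snd (DFc.fst DFc.id))
  have c2 : DFc M fun p : (M × M × M) × M => p.2 := DFc.snd DFc.id
  have h2 : DFc M fun p : (M × M × M) × M => Df (zap hM p.1.2.2 p.2) :=
    DFc.comp hDf (DFc.zap hM c1 c2)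
  obtain ⟨U, hU, hUs⟩ := hM.unionF (X := M × M × M) h1
    (F := fun p ξ => Df (zap hM p.2.2 ξ)) h2
  obtain ⟨H, hH, hHs⟩ := recOrd (X := M) hM (F := fun x γ h => U (x, γ, h)) hU
  have e0 : M := ⟨∅, hM.empty_mem⟩
  refine ⟨fun γ => H e0 γ, DFc.comp (g := fun p : M × M => H p.1 p.2) hH
    (DFc.mk (DFc.const e0) DFc.id), fun γ hγ z => ?_⟩
  obtain ⟨h, -, h3, h4⟩ := hHs e0 γ hγ
  simp only []
  rw [h4, hUs (e0, γ, h) z]
  refine exists_congr fun ξ => and_congr_right fun hξ => ?_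
  simp only []
  rw [h3 ξ hξ]

private theorem lv_spec (hM : ZF0 M) {Df Lv : M → M}
    (hDf : ∀ (x : M) (β : Ordinal.{0}), (∀ z, z ∈ x.1 ↔ z ∈ L β) →
      ∀ y, y ∈ (Df x).1 ↔ y ∈ DefSets (L β))
    (hLv : ∀ γ : M, IsO γ.1 → ∀ z : M, z.1 ∈ (Lv γ).1 ↔
      ∃ ξ : M, ξ.1 ∈ γ.1 ∧ z.1 ∈ (Df (Lv ξ)).1) :
    ∀ (γ : Ordinal.{0}) (g : M), g.1 = γ.toZFSet → ∀ z, z ∈ (Lv g).1 ↔ z ∈ L γ := by
  intro γ
  induction γ using WellFoundedLT.induction with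
  | ind γ ih =>
    intro g hg z
    have hO : IsO g.1 := ⟨γ, hg⟩
    have hL : z ∈ L γ ↔ ∃ β : Set.Iio γ, z ∈ DefSets (L β.1) := by
      rw [L]
      rfl
    rw [hL]
    constructor
    · intro hz
      obtain ⟨ξ, hξ, hzξ⟩ := (hLv g hO ⟨z, hM.trans _ (Lv g).2 _ hz⟩).1 hz
      rw [hg] at hξ
      obtain ⟨β, hβ, hβ2⟩ := Ordinal.mem_toZFSet_iff.1 hξ
      refine ⟨⟨β, hβ⟩, ?_⟩
      exact (hDf (Lv ξ) β (ih β hβ ξ hβ2.symm) z).1 hzξ
    · rintro ⟨⟨β, hβ⟩, hz⟩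
      have hβg : β.toZFSet ∈ g.1 := by
        rw [hg]
        exact Ordinal.toZFSet_mem_toZFSet_iff.2 hβ
      have hβM : β.toZFSet ∈ M := hM.trans _ g.2 _ hβg
      have h1 := (hDf (Lv ⟨β.toZFSet, hβM⟩) β (ih β hβ ⟨β.toZFSet, hβM⟩ rfl) z).2 hz
      exact (hLv g hO ⟨z, hM.trans _ (Df (Lv ⟨β.toZFSet, hβM⟩)).2 _ h1⟩).2
        ⟨⟨β.toZFSet, hβM⟩, hβg, h1⟩

theorem exists_kit (hM : ZF0 M) : Nonempty (Kit M) := by
  obtain ⟨C, hC⟩ := exists_codes hM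
  obtain ⟨P, hP, hPs⟩ := exists_FP hM
  obtain ⟨S, hS, hSs⟩ := exists_Sat hM
  obtain ⟨Dd, hDd, hDds⟩ := exists_Dd hM hS
  obtain ⟨Df, hDf, hDfs⟩ := exists_Df hM C hP hDd
  obtain ⟨Lv, hLv, hLvs⟩ := exists_Lv hM hDf
  exact ⟨{
    hM := hM
    C := C
    C_spec := hC
    P := P
    hP := hP
    P_spec := hPs
    S := S
    hS := hS
    S_spec := hSs
    Dd := Dd
    hDd := hDd
    Dd_spec := hDds
    Lv := Lv
    hLv := hLv
    Lv_spec := lv_spec hM (fun x β hx => df_iff hM hC hPs hSs hDds hDfs hx) hLvs }⟩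

theorem Lev_sub (hM : ZF0 M) {γ : Ordinal.{0}} (hγ : γ.toZFSet ∈ M) : L γ ⊆ M := by
  obtain ⟨K⟩ := exists_kit hM
  intro z hz
  exact hM.trans _ (K.Lv ⟨γ.toZFSet, hγ⟩).2 _ ((K.Lv_spec γ ⟨γ.toZFSet, hγ⟩ rfl z).2 hz)

/-- the sets defined by `Dd` -/
theorem Kit.isDef (K : Kit M) {γ : Ordinal.{0}} (g : M) (hg : g.1 = γ.toZFSet) (φ : Fml)
    (s : ℕ → ZFSet.{0}) (z₀ : M) (hz : FP (K.Lv g).1 z₀.1) (hs : ∀ i, i < bd φ → ext z₀.1 i = s i)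
    (c : M) (hc : c.1 = code φ) : IsDef γ φ s (K.Dd (K.Lv g) c z₀).1 := by
  exact dd_iff K.hM K.S_spec K.Dd_spec hc hz (K.Lv_spec γ g hg) hs

end RMK
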