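import Pool.Agent.RMK.S.LRef
import Pool.Agent.RMK.S.ZLev

/-!
RMK LREFB: `L_{ω₁} ⊆ L_{ω₁}[A]`.

PROOF.  `Lev_sub` for `M = LR A (ω 1)` (`zf0_LR`) and all `γ < ω₁` (`toZFSet_mem_LR`); `LK` is the union of the
`L γ`, `γ < ω₁` (`exists_succ_level`).
-/

namespace RMK

open Set PU

theorem LK_sub_LR (A : Set ZFSet.{0}) : LK ⊆ LR A (Ordinal.omega 1) := by
  intro x hx
  obtain ⟨γ, hγ, h1⟩ := exists_succ_level hx
  have h2 : γ + 1 < Ordinal.omega 1 := by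
    have h3 := (Cardinal.isSuccLimit_omega 1).succ_lt hγ
    rwa [Order.succ_eq_add_one] at h3
  exact Lev_sub (zf0_LR A) (toZFSet_mem_LR A h2) h1

end RMK
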