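import Pool.Agent.RMK.S.LCnd
import Pool.Agent.RMK.S.LClo

/-!
RMK LSUB: constructible subsets of `L_α`.

PROOFS.
`sub_L1`: let `x ∈ L Θ₀`, `x ⊆ L α`, `α < ω₁`.  Take a limit `Θ > Θ₀, α`, a countable `Y` with `L α ∪ {x} ⊆ Y` and `CX Θ Y`
(`exists_CX_countable`, `L_countable`), `π` from `exists_col`, and `Θ'` from `condense`.  `π x = x` by `col_id` with
`T = L α`, so `x ∈ L Θ'`, and `Θ' < ω₁` by `condense_countable`; `L_mono`.
`sub_L2`: the same with `exists_CX_aleph1`, `T = L ω₁` (`mk_L_le`), `condense_aleph1`.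
`LK_countable_subset`: a countable subset of `L ω₁` is contained in `L α` for some `α < ω₁` (every element is in
some `L β`, `β < ω₁`, as `ω₁` is a limit; `Om.bdd`).
`MK_Lc`: (⊇) `L ω₁ ⊆ Lc`, `rank_lt_of_mem_L`, `mem_vonNeumann`.  (⊆) let `x ∈ Lc`, `rank x < ω₁`; by induction on the
rank all elements of `x` are in `L ω₁` (they are in `Lc`, by `L_transitive`).  They form a countable set by the
hypothesis (`x ⊆ Lc ∩ V_α`, `α = rank x`), so `x ⊆ L β`, `β < ω₁`, and `x ∈ L ω₁` by `sub_L1`.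
`VK_sub`: if `x ∈ Lc`, `x ⊆ V_{ω₁}`, then `x ⊆ MK Lc = L ω₁`, so `x ∈ L ω₂` by `sub_L2`.
-/

namespace RMK

open Set PU
open scoped ZFSet

theorem sub_L1 {x : ZFSet.{0}} {α : Om} (hx : x ∈ Lc) (h : ∀ z ∈ x, z ∈ L α.1) : x ∈ LK := by
  obtain ⟨Θ₀, hΘ₀⟩ := hx
  have hlim : Order.IsSuccLimit (max Θ₀ α.1 + Ordinal.omega0) :=
    Ordinal.isSuccLimit_add _ Ordinal.isSuccLimit_omega0
  have hle : max Θ₀ α.1 ≤ max Θ₀ α.1 + Ordinal.omega0 := le_self_add
  obtain ⟨Y, h1, h2, h3⟩ := exists_CX_countable hlim (S₀ := insert x (L α.1))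
    (by
      rintro z (rfl | hz)
      · exact L_mono ((le_max_left _ _).trans hle) hΘ₀
      · exact L_mono ((le_max_right _ _).trans hle) hz)
    ((L_countable α).insert x)
  obtain ⟨π, hπ⟩ := exists_col Y
  obtain ⟨Θ', h4, -, -⟩ := condense hlim h3 hπ
  have h5 : π x = x := col_id hπ (T := L α.1) (fun a ha b hb => L_transitive ha hb)
    (fun z hz => h1 (Set.mem_insert_of_mem _ hz)) h
  have h6 : x ∈ L Θ' := (h4 x).2 ⟨x, h1 (Set.mem_insert _ _), h5.symm⟩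
  exact L_mono (condense_countable h4 h2).le h6

theorem sub_L2 {x : ZFSet.{0}} (hx : x ∈ Lc) (h : ∀ z ∈ x, z ∈ LK) : x ∈ L (Ordinal.omega 2) := by
  obtain ⟨Θ₀, hΘ₀⟩ := hx
  have hlim : Order.IsSuccLimit (max Θ₀ (Ordinal.omega 1) + Ordinal.omega0) :=
    Ordinal.isSuccLimit_add _ Ordinal.isSuccLimit_omega0
  have hle : max Θ₀ (Ordinal.omega 1) ≤ max Θ₀ (Ordinal.omega 1) + Ordinal.omega0 := le_self_add
  have hcard : Cardinal.mk (insert x LK : Set ZFSet.{0}) ≤ Cardinal.aleph 1 := by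
    refine Cardinal.mk_insert_le.trans (Cardinal.add_le_of_le (Cardinal.aleph0_le_aleph 1)
      (mk_L_le (Ordinal.omega_lt_omega.2 (by norm_num))) ?_)
    exact Cardinal.one_le_aleph0.trans (Cardinal.aleph0_le_aleph 1)
  obtain ⟨Y, h1, h2, h3⟩ := exists_CX_aleph1 hlim (S₀ := insert x LK)
    (by
      rintro z (rfl | hz)
      · exact L_mono ((le_max_left _ _).trans hle) hΘ₀
      · exact L_mono ((le_max_right _ _).trans hle) hz)
    hcard
  obtain ⟨π, hπ⟩ := exists_col Y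
  obtain ⟨Θ', h4, -, -⟩ := condense hlim h3 hπ
  have h5 : π x = x := col_id hπ (T := LK) (fun a ha b hb => L_transitive ha hb)
    (fun z hz => h1 (Set.mem_insert_of_mem _ hz)) h
  have h6 : x ∈ L Θ' := (h4 x).2 ⟨x, h1 (Set.mem_insert _ _), h5.symm⟩
  exact L_mono (condense_aleph1 h4 h2).le h6

theorem LK_countable_subset {S : Set ZFSet.{0}} (hS : S ⊆ LK) (h : S.Countable) :
    ∃ α : Om, S ⊆ L α.1 := by
  have h1 : ∀ z : S, ∃ γ : Om, z.1 ∈ L γ.1 := by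
    intro z
    obtain ⟨γ, h2, h3⟩ := exists_succ_level (hS z.2)
    refine ⟨⟨γ + 1, ?_⟩, h3⟩
    exact (Cardinal.isSuccLimit_omega 1).succ_lt h2
  choose f hf using h1
  have h2 : (Set.range f).Countable := by
    have := h.to_subtype
    exact Set.countable_range f
  obtain ⟨α, hα⟩ := Om.bdd h2
  refine ⟨α, fun z hz => ?_⟩
  have h3 : f ⟨z, hz⟩ < α := hα _ ⟨_, rfl⟩
  exact L_mono (show (f ⟨z, hz⟩).1 ≤ α.1 from le_of_lt h3) (hf ⟨z, hz⟩)

theorem MK_Lc (h : ∀ α : Om, {z : ZFSet.{0} | z ∈ Lc ∧ z ∈ V_ α.1}.Countable) : MK Lc = LK := by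
  apply Set.Subset.antisymm
  · have key : ∀ x : ZFSet.{0}, x ∈ Lc → x.rank < Ordinal.omega 1 → x ∈ LK := by
      intro x
      induction x using ZFSet.inductionOn with
      | _ x ih =>
        intro hx hr
        have h1 : ∀ z ∈ x, z ∈ LK := by
          intro z hz
          obtain ⟨β, hβ⟩ := hx
          exact ih z hz ⟨β, L_transitive hβ hz⟩ (lt_trans (ZFSet.rank_lt_of_mem hz) hr)
        have h2 : {z : ZFSet.{0} | z ∈ x}.Countable := by
          refine (h ⟨x.rank, hr⟩).mono fun z hz => ?_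
          have hz' : z ∈ x := hz
          obtain ⟨β, hβ⟩ := hx
          exact ⟨⟨β, L_transitive hβ hz'⟩, ZFSet.mem_vonNeumann.2 (ZFSet.rank_lt_of_mem hz')⟩
        obtain ⟨β, hβ⟩ := LK_countable_subset (S := {z : ZFSet.{0} | z ∈ x}) h1 h2
        exact sub_L1 hx fun z hz => hβ hz
    rintro x ⟨hx1, hx2⟩
    exact key x hx1 (ZFSet.mem_vonNeumann.1 hx2)
  · intro x hx
    exact ⟨⟨_, hx⟩, ZFSet.mem_vonNeumann.2 (rank_lt_of_mem_L hx)⟩

theorem VK_sub (h : ∀ α : Om, {z : ZFSet.{0} | z ∈ Lc ∧ z ∈ V_ α.1}.Countable) {x : ZFSet.{0}}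
    (hx : x ∈ Lc) (hV : x ⊆ V_ (Ordinal.omega 1)) : (∀ z ∈ x, z ∈ LK) ∧ x ∈ L (Ordinal.omega 2) := by
  have h1 : ∀ z ∈ x, z ∈ LK := by
    intro z hz
    rw [← MK_Lc h]
    obtain ⟨β, hβ⟩ := hx
    exact ⟨⟨β, L_transitive hβ hz⟩, hV hz⟩
  exact ⟨h1, sub_L2 hx h1⟩

end RMK
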