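import Pool.Agent.RMK.Club

/-!
RMK PRJ: projections of stationary and club families.

PROOFS.
`StatMany.proj`: given `F : List T → T`, `club_comap` applied to `club_closed F` gives `F' : List S → S` such that
countable `N` closed under `F'` have `j ⁻¹' N` closed under `F`; apply the hypothesis to `F'`; `j ⁻¹' N` is countable.
`club_proj`: suppose not; the negation of `ClubMany Q` is `StatMany` of the negation of `Q`, so for stationarily
many `N ⊆ T` there is no countable `N'` with `j ⁻¹' N' = N` and `Q N'`.  `StatMany.lift` (needs `T` nonempty) and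
`StatMany.and_club` with `hQ` give a countable `N' ⊆ S` with `Q N'` such that there is no such set for `j ⁻¹' N'`,
contradiction.
`not_statMany`: unfolding.
-/

namespace RMK

open Set

universe u v

variable {S : Type u} {T : Type v}

theorem StatMany.proj {j : T → S} (hj : Function.Injective j) {Q : Set T → Prop}
    (hQ : StatMany fun N : Set S => Q (j ⁻¹' N)) : StatMany Q := by
  intro F
  obtain ⟨F', hF'⟩ := club_comap hj (club_closed F)
  obtain ⟨N, h1, h2, h3⟩ := hQ F'
  exact ⟨j ⁻¹' N, h1.preimage hj, hF' N h1 h2, h3⟩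

theorem club_proj [Nonempty T] {j : T → S} (hj : Function.Injective j) {Q : Set S → Prop}
    (hQ : ClubMany Q) : ClubMany fun N : Set T => ∃ N' : Set S, N'.Countable ∧ j ⁻¹' N' = N ∧ Q N' := by
  by_contra h
  have h1 : StatMany fun N : Set T => ¬ ∃ N' : Set S, N'.Countable ∧ j ⁻¹' N' = N ∧ Q N' := by
    intro F
    by_contra h2
    apply h
    refine ⟨F, fun N hN hc => ?_⟩
    by_contra h3
    exact h2 ⟨N, hN, hc, h3⟩
  obtain ⟨N, h2, _, h4, h5⟩ := (h1.lift hj).and_club hQ fun _ => j (Classical.arbitrary T)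
  exact h4 ⟨N, h2, rfl, h5⟩

theorem not_statMany {Q : Set S → Prop} (h : ¬ StatMany Q) : ClubMany fun N => ¬ Q N := by
  by_contra h1
  apply h
  intro F
  by_contra h2
  apply h1
  refine ⟨F, fun N hN hc h3 => ?_⟩
  exact h2 ⟨N, hN, hc, h3⟩

theorem StatMany.mono {Q Q' : Set S → Prop} (hQ : StatMany Q)
    (h : ∀ N : Set S, N.Countable → Q N → Q' N) : StatMany Q' := by
  intro F
  obtain ⟨N, h1, h2, h3⟩ := hQ F
  exact ⟨N, h1, h2, h N h1 h3⟩

end RMK
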