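import Pool.Agent.RMK.S.NDefs
import Pool.Agent.RMK.S.Prj

/-!
RMK NCAP: if `ClS` holds and the trace property of remarkability fails, all traces are enumerated in `L`.

PROOF of `capt_of_ClS`.  Let `Y = Yn N`, `π` from `exists_col Y`, `Θ'` from `condense` (`Θ = ω₂`, a limit).  By `low`, `L δ ⊆
Y`, so `π x = x` for all `x` with all elements in `L δ` (`col_id` with `T = L δ`), in particular for `x ∈ L δ`.
`hbad` gives `y ∈ Lc`, `y ⊆ V_ δ`.  By `vd` all elements of `y` are in `L δ` (elements of `y` are in `Lc`).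
`gch E dlt` gives `τ, f` with `y ∈ L τ` and `f` mapping `δ` onto `L τ`.
Claim: `y ∉ L Θ'`.  Suppose `y = π x`, `x ∈ Y`.  First all elements of `x` are in `LK`: otherwise, let `l ∈ Y` be the set of
the elements of `L_{ω₁}`: by `clo` with `γ = ω₁ ∈ Y` (`om1`) and a true formula (parameters: `∅`).  Let `γ ∈ Y` with `x, l ∈
L γ` (from `dfn` and `succ`: `x ∈ L (γ₁ + 1)`, `γ₁ + 1 ∈ Y`; take the larger one).  By `wit` for the formula `mem 0 1 → mem 0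
2` (in `neg`, `and`), parameters `s 1 = x`, `s 2 = l` (others `∅`), there is `z ∈ Y` with `z ∈ x`, `z ∉ l`, so `z ∉ LK`.  Then
`π z ∈ π x = y`, so `π z ∈ L δ`, and `w = π z` satisfies `π w = w = π z` and `w ∈ Y`, so `z = w` by injectivity,
`z ∈ L δ ⊆ LK`, contradiction.  So `x ⊆ LK ⊆ V_ ω₁` (`rank_lt_of_mem_L`, `mem_vonNeumann`), `x` is an element of `VK Lc` with
`x ∈ Y`, and for all `z`: `z ∈ y = π x` iff `z = π z'` with `z' ∈ x ∩ Y`; `z' ∈ Y ∩ LK = L δ`, so `z = z'`; hence `z ∈ y ↔ z ∈ x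
∧ z ∈ L δ ↔ z ∈ x ∧ z ∈ V_ δ` (for `z ∈ x ⊆ Lc`: `vd`, and `L δ ⊆ V_ δ`).  This contradicts `hbad`.
So `Θ' < τ` (`L_mono`), `L Θ' ⊆ L τ`.  Let `R ∈ N₁` and `x` from `nam`.  `π x ∈ L Θ' ⊆ L τ`, so `π x = apZ f ξ`, `ξ < δ`.  As before,
all elements of `x` are in `LK`, so `z ∈ π x ↔ z ∈ x ∧ z ∈ L δ`.  For `a, b, c < δ`: if `R a b c`, `nam` gives `p ∈ G`, `p ∈ L δ`,
`pair (tup a b c) p ∈ x`; it is in `L δ` (`pair_tup_mem_L`), so in `π x`; `p ∈ Col ω₁` (`hG`: `G ⊆ Col ω₁`), `p ∈ V_ δ`, so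
`p ∈ Col δ` (`Col_of_mem_V`) and `p ∈ GLam G δ`.  Conversely if `p ∈ GLam G δ` and `pair (tup a b c) p ∈ π x`, it is in `x`, and
`R a b c` as `R = Rn G x`.
-/

namespace RMK

open Set PU
open scoped ZFSet

/-- every nonempty element of `Y` is in a level indexed by an element of `Y` -/
private theorem exists_lv {Θ : Ordinal.{0}} {Y : Set ZFSet.{0}} (hY : CX Θ Y) {x : ZFSet.{0}}
    (hx : x ∈ Y) (h0 : x ≠ ∅) : ∃ γ : Ordinal.{0}, γ.toZFSet ∈ Y ∧ x ∈ L γ := by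
  obtain ⟨γ, hγ, -, φ, s, hs, hd⟩ := hY.dfn x hx h0
  exact ⟨γ + 1, hY.succ γ hγ, mem_L_succ.2 ⟨φ, s, fun _ i => (hs i).2, hd⟩⟩

private theorem exists_lv2 {Θ : Ordinal.{0}} {Y : Set ZFSet.{0}} (hY : CX Θ Y) {x y : ZFSet.{0}}
    (hx : x ∈ Y) (h0 : x ≠ ∅) (hy : y ∈ Y) (h1 : y ≠ ∅) :
    ∃ γ : Ordinal.{0}, γ.toZFSet ∈ Y ∧ x ∈ L γ ∧ y ∈ L γ := by
  obtain ⟨γ, hγ, h2⟩ := exists_lv hY hx h0
  obtain ⟨δ, hδ, h3⟩ := exists_lv hY hy h1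
  rcases le_total γ δ with h | h
  · exact ⟨δ, hδ, L_mono h h2, h3⟩
  · exact ⟨γ, hγ, h2, L_mono h h3⟩

/-- if all elements of the collapse of `x` are in `L δ`, then all elements of `x` are in `L_{ω₁}` -/
private theorem all_LK {Y : Set ZFSet.{0}} (hY : CX (Ordinal.omega 2) Y)
    (om1 : (Ordinal.omega 1).toZFSet ∈ Y) {δ : Om}
    (low : ∀ x, (x ∈ Y ∧ x ∈ LK) ↔ x ∈ L δ.1) {π : ZFSet.{0} → ZFSet.{0}}
    (hπ : ∀ x w, w ∈ π x ↔ ∃ z ∈ x, z ∈ Y ∧ w = π z)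
    (hinj : ∀ x ∈ Y, ∀ y ∈ Y, π x = π y → x = y)
    (hid : ∀ y : ZFSet.{0}, (∀ z ∈ y, z ∈ L δ.1) → π y = y) {x : ZFSet.{0}} (hx : x ∈ Y)
    (hsub : ∀ w ∈ π x, w ∈ L δ.1) : ∀ z ∈ x, z ∈ LK := by
  by_contra hcon
  push Not at hcon
  obtain ⟨z0, hz0, hz1⟩ := hcon
  have hemp : (∅ : ZFSet.{0}) ∈ LK := empty_mem_L (Ordinal.omega_pos 1)
  obtain ⟨l, hlY, hl⟩ := hY.clo _ om1 (.eq 1 1) (fun _ => ∅) (fun _ => ⟨hY.emp, hemp⟩)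
  have hl' : ∀ z, z ∈ l ↔ z ∈ LK := by
    intro z
    rw [hl z]
    exact ⟨fun h => h.1, fun h => ⟨h, rfl⟩⟩
  have hx0 : x ≠ ∅ := by
    rintro rfl
    exact ZFSet.notMem_empty _ hz0
  have hl0 : l ≠ ∅ := by
    rintro rfl
    exact ZFSet.notMem_empty _ ((hl' ∅).2 hemp)
  obtain ⟨γ, hγ, hxγ, hlγ⟩ := exists_lv2 hY hx hx0 hlY hl0
  have hemγ : (∅ : ZFSet.{0}) ∈ L γ := by
    refine empty_mem_L ?_
    by_contra h0
    have h1 : γ = 0 := le_antisymm (not_lt.1 h0) zero_le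
    rw [h1, L_zero] at hxγ
    exact absurd hxγ (Set.notMem_empty _)
  let s : ℕ → ZFSet.{0} := fun i => if i = 1 then x else if i = 2 then l else ∅
  have hs : ∀ i, s i ∈ Y ∧ s i ∈ L γ := by
    intro i
    show (if i = 1 then x else if i = 2 then l else ∅) ∈ Y ∧
      (if i = 1 then x else if i = 2 then l else ∅) ∈ L γ
    split_ifs
    · exact ⟨hx, hxγ⟩
    · exact ⟨hlY, hlγ⟩
    · exact ⟨hY.emp, hemγ⟩
  have hsat : ∀ z, ¬ Sat (fun a b : ZFSet.{0} => a ∈ b) (L γ)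
      (.neg (.and (.mem 0 1) (.neg (.mem 0 2)))) (Function.update s 0 z) ↔ z ∈ x ∧ z ∉ l := by
    intro z
    simp only [Sat, Function.update_self]
    rw [Function.update_of_ne (by decide), Function.update_of_ne (by decide), not_not]
    exact Iff.rfl
  obtain ⟨z, hzY, -, hz⟩ := hY.wit γ hγ (.neg (.and (.mem 0 1) (.neg (.mem 0 2)))) s 0 hs
    ⟨z0, L_transitive hxγ hz0, (hsat z0).2 ⟨hz0, fun h => hz1 ((hl' z0).1 h)⟩⟩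
  obtain ⟨hzx, hzl⟩ := (hsat z).1 hz
  have hw : π z ∈ L δ.1 := hsub _ ((hπ x _).2 ⟨z, hzx, hzY, rfl⟩)
  have hwid : π (π z) = π z := hid _ fun u hu => L_transitive hw hu
  have hzw : π z = z := hinj _ ((low _).2 hw).1 _ hzY hwid
  rw [hzw] at hw
  exact hzl ((hl' z).2 ((low z).2 hw).2)

theorem capt_of_ClS {G : Set ZFSet.{0}} (h : Solovay Lc G) (E : EKit) {N : Set (T3 ⊕ L2)} {δ : Om}
    (hN : ClS G E N δ)
    (hbad : ∃ y ∈ Lc, y ⊆ V_ δ.1 ∧ ∀ x : VK Lc, x.1 ∈ Yn N →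
      ¬ ∀ z, z ∈ y ↔ z ∈ x.1 ∧ z ∈ V_ δ.1) :
    ∃ f : LK, IsFn f.1 (toZ δ) ∧ ∀ R, Sum.inl R ∈ N → ∃ ξ, ξ < δ ∧
      ∀ a b c, a < δ → b < δ → c < δ →
        (R a b c ↔ ∃ p ∈ GLam G δ.1, ZFSet.pair (tup a b c) p ∈ apZ f.1 (toZ ξ)) := by
  obtain ⟨π, hπ⟩ := exists_col (Yn N)
  obtain ⟨Θ', hΘ1, hΘ2, -⟩ := condense (Cardinal.isSuccLimit_omega 2) hN.cx hπ
  have hid : ∀ y : ZFSet.{0}, (∀ z ∈ y, z ∈ L δ.1) → π y = y := fun y hy =>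
    col_id hπ (T := L δ.1) (fun x hx z hz => L_transitive hx hz) (fun x hx => ((hN.low x).2 hx).1) hy
  have hin : ∀ x : ZFSet.{0}, (∀ z ∈ x, z ∈ LK) → ∀ z, z ∈ π x ↔ z ∈ x ∧ z ∈ L δ.1 := by
    intro x hx z
    rw [hπ]
    constructor
    · rintro ⟨z', h1, h2, rfl⟩
      have h3 : z' ∈ L δ.1 := (hN.low z').1 ⟨h2, hx z' h1⟩
      have h4 : π z' = z' := hid _ fun u hu => L_transitive h3 hu
      rw [h4]
      exact ⟨h1, h3⟩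
    · rintro ⟨h1, h3⟩
      exact ⟨z, h1, ((hN.low z).2 h3).1, (hid _ fun u hu => L_transitive h3 hu).symm⟩
  have hLV : ∀ {z : ZFSet.{0}} {α : Ordinal.{0}}, z ∈ L α → z ∈ V_ α := by
    intro z α hz
    rw [ZFSet.mem_vonNeumann]
    exact rank_lt_of_mem_L hz
  have hLc : ∀ {x z : ZFSet.{0}}, x ∈ Lc → z ∈ x → z ∈ Lc := by
    rintro x z ⟨α, hα⟩ hz
    exact ⟨α, L_transitive hα hz⟩
  obtain ⟨y, hyL, hyV, hyb⟩ := hbad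
  have hyδ : ∀ z ∈ y, z ∈ L δ.1 := fun z hz => hN.vd z (hLc hyL hz) (hyV hz)
  obtain ⟨τ, f, hf1, hf2, hf3⟩ := gch E hN.dlt hyL hyδ
  have hny : y ∉ L Θ' := by
    intro hyΘ
    obtain ⟨x, hxY, hyx⟩ := (hΘ1 y).1 hyΘ
    have hxK := all_LK hN.cx hN.om1 hN.low hπ (fun a ha b hb => (hΘ2 a ha b hb).1) hid hxY
      (by rw [← hyx]; exact hyδ)
    have hxLc : x ∈ Lc := ⟨_, hN.cx.sub hxY⟩
    refine hyb ⟨x, hxLc, fun z hz => hLV (hxK z hz)⟩ hxY fun z => ?_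
    rw [hyx, hin x hxK z]
    constructor
    · rintro ⟨h1, h2⟩
      exact ⟨h1, hLV h2⟩
    · rintro ⟨h1, h2⟩
      exact ⟨h1, hN.vd z (hLc hxLc h1) h2⟩
  have hle : Θ' ≤ τ.1 := by
    by_contra hc
    exact hny (L_mono (le_of_lt (not_le.1 hc)) hf2)
  refine ⟨f, hf1, fun R hR => ?_⟩
  obtain ⟨x, hxY, hRx, hxK, hxp⟩ := hN.nam R hR
  obtain ⟨ξ, hξ, hξx⟩ := hf3 (π x) (L_mono hle ((hΘ1 _).2 ⟨x, hxY, rfl⟩))
  refine ⟨ξ, hξ, fun a b c ha hb hc => ?_⟩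
  rw [hξx]
  constructor
  · intro hab
    obtain ⟨p, hpG, hpL, hpx⟩ := hxp a b c ha hb hc hab
    refine ⟨p, ⟨hpG, Col_of_mem_V ((mem_G_iff h).1 hpG).1 (hLV hpL)⟩, ?_⟩
    exact (hin x hxK _).2 ⟨hpx, pair_tup_mem_L hN.lim ha hb hc hpL⟩
  · rintro ⟨p, hp, hpx⟩
    rw [hRx]
    exact ⟨p, hp.1, ((hin x hxK _).1 hpx).1⟩

end RMK
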