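import Pool.Agent.RMK.S.NDefs
import Pool.Agent.RMK.S.Prj

/-!
RMK NCL: the closure properties `ClS` hold for club many `N`.

PROOF.  `S = T3 ⊕ L2`.  `hv` is the countability of the sets `V_α ∩ L` (`vw_countable`), so `MK Lc = LK` (`MK_Lc`).  Each of
the following holds for club many countable `N ⊆ S` (`Club.lean`); write `N₁ = inl ⁻¹ N`.
(a) `CX ω₂ (Yn N)`: `exists_CX_fun` for `Θ = ω₂` (a limit ordinal) gives `F`; `club_comap` for `Sum.inr` applied to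
`club_closed F`; `Yn N = Subtype.val '' (inr ⁻¹ N)`.
(b) `(ω 1).toZFSet ∈ Yn N` (`club_mem`; `toZFSet_mem_L`, `ω₁ < ω₂`).
(c) `lev (nOm k) ∈ N₁` for all `k`; `lev α ∈ N₁ ↔ toZ α ∈ Yn N` (two functions, `club_map`).
(d) `lev α ∈ N₁`, `β < α` imply `lev β ∈ N₁` (enumerations of `Iio α`, functions of `lev α` and `lev (nOm k)`, `club_map2`);
`lev α ∈ N₁ → lev (α + 1) ∈ N₁`; `lev α ∈ N₁ → lev (f α) ∈ N₁` with `f` from `club_Dlt E`; `lev α, lev β ∈ N₁ →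
lev (gp α β) ∈ N₁`; `lev α ∈ N₁ → lev (f₂ α) ∈ N₁` where `V_α ∩ Lc ⊆ L (f₂ α)` (`V_α ∩ Lc ⊆ MK Lc = LK` is countable,
`LK_countable_subset`).
(e) for `lev α ∈ N₁` all elements of `L α` (countable) are in `Yn N` (enumeration, `club_map2`).
(f) `R ∈ N₁ → σ R ∈ Yn N`, where `σ R` is a name of `R` as in `exists_nameT` (for `W = Lc`), an element of `L2` with elements
in `LK` by `VK_sub`.
(g) if `R ∈ N₁`, `lev a, lev b, lev c ∈ N₁` and `R a b c`, then there is `p ∈ G`, `p ∈ Yn N`, with `pair (tup a b c) p ∈ σ R`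
(choose one such `p` for all `R, a, b, c`; a function of four arguments, as a function on lists; `p ∈ Col ω₁` is an
element of an element of an element ... of `σ R`, so in `LK ⊆ L2`).
Let `δ` be with `lev α ∈ N₁ ↔ α < δ` ((d) and countability, `Om.bdd`); it is a limit.
`low`: let `x ∈ Yn N ∩ LK`.  If `x = ∅`, `x ∈ L δ`.  Otherwise `dfn` gives `γ ∈ Yn N` with `γ < β` whenever `x ∈ L β`, and
`x ∈ L (γ + 1)`; so `γ < ω₁`, `γ < δ` by (c), `x ∈ L (γ + 1) ⊆ L δ`.  Conversely `x ∈ L δ` is in `L α` for some `α < δ`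
(`exists_succ_level`), use (e).
`nam`: (f), (g); the `p` of (g) is in `Yn N ∩ LK`, so in `L δ` by `low`.
`vd`: `z ∈ V_ δ`, so `z ∈ V_ α` for some `α < δ` (`δ` limit, rank), so `z ∈ L (f₂ α) ⊆ L δ`.
-/

namespace RMK

open Set PU
open scoped ZFSet

private instance ncl_ne : Nonempty (T3 ⊕ L2) := ⟨Sum.inl (lev default)⟩

/-- Skolem functions with four arguments -/
private theorem ncl_sk (P : T3 ⊕ L2 → T3 ⊕ L2 → T3 ⊕ L2 → T3 ⊕ L2 → T3 ⊕ L2 → Prop) :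
    ClubMany fun N : Set (T3 ⊕ L2) => ∀ x ∈ N, ∀ y ∈ N, ∀ z ∈ N, ∀ w ∈ N,
      (∃ c, P x y z w c) → ∃ c ∈ N, P x y z w c := by
  classical
  refine ⟨fun l => match l with
    | x :: y :: z :: w :: _ => if h : ∃ c, P x y z w c then h.choose else x
    | _ => Classical.arbitrary _, ?_⟩
  intro N _ hc x hx y hy z hz w hw h
  have h1 := hc [x, y, z, w] (by
    intro a ha
    simp only [List.mem_cons, List.not_mem_nil, or_false] at ha
    rcases ha with rfl | rfl | rfl | rfl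
    · exact hx
    · exact hy
    · exact hz
    · exact hw)
  dsimp only at h1
  rw [dif_pos h] at h1
  exact ⟨_, h1, h.choose_spec⟩

private theorem ncl_ctb (A : T3 ⊕ L2 → Set (T3 ⊕ L2)) (hA : ∀ x, (A x).Countable) :
    ClubMany fun N : Set (T3 ⊕ L2) => ∀ x ∈ N, ∀ c ∈ A x, c ∈ N := by
  have h1 : ∀ x, ∃ H : ℕ → T3 ⊕ L2, A x ⊆ Set.range H := by
    intro x
    rcases (A x).eq_empty_or_nonempty with h | h
    · exact ⟨fun _ => x, by rw [h]; exact Set.empty_subset _⟩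
    · obtain ⟨H, hH⟩ := (hA x).exists_eq_range h
      exact ⟨H, hH.subset⟩
  choose H hH using h1
  refine (club_forall fun n => club_map fun x => H x n).mono fun N _ hN x hx c hc => ?_
  obtain ⟨n, rfl⟩ := hH x hc
  exact hN n x hx

private theorem lv_eq {α β : Om} (h : (Sum.inl (lev α) : T3 ⊕ L2) = Sum.inl (lev β)) : α = β :=
  lev_injective (Sum.inl_injective h)

private theorem ncl_om (f : Om → Om) : ClubMany fun N : Set (T3 ⊕ L2) =>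
    ∀ α, Sum.inl (lev α) ∈ N → Sum.inl (lev (f α)) ∈ N := by
  refine (ncl_sk fun x _ _ _ c => ∃ α, x = Sum.inl (lev α) ∧
    c = Sum.inl (lev (f α))).mono fun N _ hN α hα => ?_
  obtain ⟨c, hc, β, h1, h2⟩ := hN _ hα _ hα _ hα _ hα ⟨_, α, rfl, rfl⟩
  rw [lv_eq h1, ← h2]
  exact hc

private theorem ncl_om2 (f : Om → Om → Om) : ClubMany fun N : Set (T3 ⊕ L2) =>
    ∀ α β, Sum.inl (lev α) ∈ N → Sum.inl (lev β) ∈ N → Sum.inl (lev (f α β)) ∈ N := by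
  refine (ncl_sk fun x y _ _ c => ∃ α β, x = Sum.inl (lev α) ∧ y = Sum.inl (lev β) ∧
    c = Sum.inl (lev (f α β))).mono fun N _ hN α β hα hβ => ?_
  obtain ⟨c, hc, α', β', h1, h2, h3⟩ := hN _ hα _ hβ _ hα _ hα ⟨_, α, β, rfl, rfl, rfl⟩
  rw [lv_eq h1, lv_eq h2, ← h3]
  exact hc

private theorem ncl_down : ClubMany fun N : Set (T3 ⊕ L2) =>
    ∀ α β : Om, β < α → Sum.inl (lev α) ∈ N → Sum.inl (lev β) ∈ N := by
  refine (ncl_ctb (fun x : T3 ⊕ L2 => {c | ∃ α β : Om, x = Sum.inl (lev α) ∧ β < α ∧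
    c = Sum.inl (lev β)}) ?_).mono fun N _ hN α β hβ hα => hN _ hα _ ⟨α, β, rfl, hβ, rfl⟩
  intro x
  by_cases h : ∃ α, x = Sum.inl (lev α)
  · obtain ⟨α, rfl⟩ := h
    refine ((Om.countable_Iio α).image fun β => (Sum.inl (lev β) : T3 ⊕ L2)).mono ?_
    rintro c ⟨α', β, h1, h2, rfl⟩
    rw [← lv_eq h1] at h2
    exact ⟨β, h2, rfl⟩
  · refine Set.countable_empty.mono ?_
    rintro c ⟨α', β, h1, -⟩
    exact (h ⟨_, h1⟩).elim

private theorem om12 : Ordinal.omega.{0} 1 < Ordinal.omega 2 :=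
  Ordinal.omega_lt_omega.2 (by norm_num)

private theorem toZ_mem_L2 (α : Om) : toZ α ∈ L2 := toZFSet_mem_L (lt_trans α.2 om12)

private theorem ncl_to : ClubMany fun N : Set (T3 ⊕ L2) =>
    ∀ α, Sum.inl (lev α) ∈ N → toZ α ∈ Yn N := by
  refine (ncl_sk fun x _ _ _ c => ∃ α, x = Sum.inl (lev α) ∧
    c = Sum.inr ⟨toZ α, toZ_mem_L2 α⟩).mono fun N _ hN α hα => ?_
  obtain ⟨c, hc, β, h1, h2⟩ := hN _ hα _ hα _ hα _ hα ⟨_, α, rfl, rfl⟩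
  have h3 := lv_eq h1
  subst h3
  subst h2
  exact ⟨toZ_mem_L2 α, hc⟩

private theorem ncl_from : ClubMany fun N : Set (T3 ⊕ L2) =>
    ∀ α, toZ α ∈ Yn N → Sum.inl (lev α) ∈ N := by
  refine (ncl_sk fun x _ _ _ c => ∃ α, x = Sum.inr ⟨toZ α, toZ_mem_L2 α⟩ ∧
    c = Sum.inl (lev α)).mono fun N _ hN α hα => ?_
  obtain ⟨h, hα⟩ := hα
  obtain ⟨c, hc, β, h1, h2⟩ := hN _ hα _ hα _ hα _ hα ⟨_, α, rfl, rfl⟩
  have h3 : toZ α = toZ β := congrArg Subtype.val (Sum.inr_injective h1)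
  have h4 : α = β := Subtype.ext (Ordinal.toZFSet_injective h3)
  rw [h4, ← h2]
  exact hc

private theorem ncl_lev : ClubMany fun N : Set (T3 ⊕ L2) =>
    ∀ α : Om, Sum.inl (lev α) ∈ N → ∀ z ∈ L α.1, z ∈ Yn N := by
  classical
  refine (ncl_ctb (fun x : T3 ⊕ L2 => {c | ∃ (α : Om) (z : ZFSet.{0}) (h : z ∈ L2),
    x = Sum.inl (lev α) ∧ z ∈ L α.1 ∧ c = Sum.inr ⟨z, h⟩}) ?_).mono
    fun N _ hN α hα z hz => ?_
  · intro x
    by_cases h : ∃ α, x = Sum.inl (lev α)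
    · obtain ⟨α, rfl⟩ := h
      refine ((L_countable α).image fun z => if h : z ∈ L2 then
        (Sum.inr ⟨z, h⟩ : T3 ⊕ L2) else Sum.inl (lev α)).mono ?_
      rintro c ⟨α', z, h, h1, h2, rfl⟩
      rw [← lv_eq h1] at h2
      exact ⟨z, h2, dif_pos h⟩
    · refine Set.countable_empty.mono ?_
      rintro c ⟨α', z, h2, h1, -⟩
      exact (h ⟨_, h1⟩).elim
  · have hz2 : z ∈ L2 := L_mono (le_of_lt (lt_trans α.2 om12)) hz
    exact ⟨hz2, hN _ hα _ ⟨α, z, hz2, rfl, hz, rfl⟩⟩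

private theorem ncl_nam {G : Set ZFSet.{0}} (h : Solovay Lc G)
    (hv : ∀ α : Om, {z : ZFSet.{0} | z ∈ Lc ∧ z ∈ V_ α.1}.Countable) :
    ClubMany fun N : Set (T3 ⊕ L2) => ∀ R : T3, Sum.inl R ∈ N →
      ∃ x ∈ Yn N, R = Rn G x ∧ ∀ z ∈ x, z ∈ LK := by
  refine (ncl_sk fun x _ _ _ c => ∃ (R : T3) (y : ZFSet.{0}) (hy : y ∈ L2), x = Sum.inl R ∧
    c = Sum.inr ⟨y, hy⟩ ∧ R = Rn G y ∧ ∀ z ∈ y, z ∈ LK).mono fun N _ hN R hR => ?_
  obtain ⟨x, h1, -⟩ := exists_nameT h R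
  obtain ⟨h2, h3⟩ := VK_sub hv x.2.1 x.2.2
  obtain ⟨c, hc, R', y, hy, e1, e2, e3, e4⟩ :=
    hN _ hR _ hR _ hR _ hR ⟨_, R, x.1, h3, rfl, rfl, h1, h2⟩
  have e5 : R = R' := Sum.inl_injective e1
  subst e5
  subst e2
  exact ⟨y, ⟨hy, hc⟩, e3, e4⟩

private theorem mem_of_pair {t p : ZFSet.{0}} {Θ : Ordinal.{0}} (h : ZFSet.pair t p ∈ L Θ) :
    p ∈ L Θ := by
  have h1 : ({t, p} : ZFSet.{0}) ∈ ZFSet.pair t p := by
    unfold ZFSet.pair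
    rw [ZFSet.mem_pair]
    exact Or.inr rfl
  exact L_transitive (L_transitive h h1) (ZFSet.mem_pair.2 (Or.inr rfl))

private theorem ncl_p (G : Set ZFSet.{0}) : ClubMany fun N : Set (T3 ⊕ L2) =>
    ∀ x ∈ Yn N, (∀ z ∈ x, z ∈ LK) → ∀ a b c : Om, Sum.inl (lev a) ∈ N →
      Sum.inl (lev b) ∈ N → Sum.inl (lev c) ∈ N → Rn G x a b c →
      ∃ p ∈ G, (p ∈ Yn N ∧ p ∈ LK) ∧ ZFSet.pair (tup a b c) p ∈ x := by
  refine (ncl_sk fun u v w t d => ∃ (x : ZFSet.{0}) (hx : x ∈ L2) (a b c : Om)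
    (p : ZFSet.{0}) (hp : p ∈ L2), u = Sum.inr ⟨x, hx⟩ ∧ v = Sum.inl (lev a) ∧
    w = Sum.inl (lev b) ∧ t = Sum.inl (lev c) ∧ d = Sum.inr ⟨p, hp⟩ ∧ p ∈ G ∧ p ∈ LK ∧
    ZFSet.pair (tup a b c) p ∈ x).mono fun N _ hN x hx hxK a b c ha hb hc hR => ?_
  obtain ⟨hx2, hx⟩ := hx
  obtain ⟨p, hpG, hp⟩ := hR
  have hpK : p ∈ LK := mem_of_pair (hxK _ hp)
  have hp2 : p ∈ L2 := L_mono om12.le hpK
  obtain ⟨d, hd, x', hx', a', b', c', p', hp', e1, e2, e3, e4, e5, e6, e7, e8⟩ :=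
    hN _ hx _ ha _ hb _ hc ⟨_, x, hx2, a, b, c, p, hp2, rfl, rfl, rfl, rfl, rfl, hpG, hpK, hp⟩
  have f1 : x = x' := congrArg Subtype.val (Sum.inr_injective e1)
  have f2 := lv_eq e2
  have f3 := lv_eq e3
  have f4 := lv_eq e4
  subst f1
  subst f2
  subst f3
  subst f4
  subst e5
  exact ⟨p', e6, ⟨⟨hp', hd⟩, e7⟩, e8⟩

private theorem ncl_cx : ClubMany fun N : Set (T3 ⊕ L2) =>
    CX (Ordinal.omega 2) (Yn N) := by
  obtain ⟨F, hF⟩ := exists_CX_fun (Θ := Ordinal.omega 2) (Cardinal.isSuccLimit_omega 2)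
  refine (club_comap (T := L2) (S := T3 ⊕ L2) (j := Sum.inr) Sum.inr_injective
    (Q := fun N : Set L2 => CX (Ordinal.omega 2) (Subtype.val '' N))
    ⟨F, fun N _ hc => hF N hc⟩).mono fun N _ hN => ?_
  have e : Yn N = Subtype.val '' (Sum.inr ⁻¹' N) := by
    ext x
    constructor
    · rintro ⟨h, h1⟩
      exact ⟨⟨x, h⟩, h1, rfl⟩
    · rintro ⟨⟨y, h⟩, h1, rfl⟩
      exact ⟨h, h1⟩
  rw [e]
  exact hN

private theorem ncl_delta {N : Set (T3 ⊕ L2)} (hN : N.Countable)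
    (hd : ∀ α β : Om, β < α → Sum.inl (lev α) ∈ N → Sum.inl (lev β) ∈ N) :
    ∃ δ : Om, ∀ α, Sum.inl (lev α) ∈ N ↔ α < δ := by
  have hc : {α : Om | (Sum.inl (lev α) : T3 ⊕ L2) ∈ N}.Countable := by
    have h1 := hN.preimage_of_injOn (f := fun α : Om => (Sum.inl (lev α) : T3 ⊕ L2))
      (fun a _ b _ h => lv_eq h)
    exact h1
  obtain ⟨b, hb⟩ := Om.bdd hc
  have hne : {α : Om | (Sum.inl (lev α) : T3 ⊕ L2) ∉ N}.Nonempty :=
    ⟨b, fun h => lt_irrefl b (hb b h)⟩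
  have hmin := WellFounded.min_mem (wellFounded_lt (α := Om)) _ hne
  refine ⟨WellFounded.min wellFounded_lt _ hne, fun α => ⟨fun h => ?_, fun h => ?_⟩⟩
  · by_contra hcon
    rcases eq_or_lt_of_le (not_lt.1 hcon) with h1 | h1
    · rw [h1] at hmin
      exact hmin h
    · exact hmin (hd _ _ h1 h)
  · by_contra hcon
    exact WellFounded.not_lt_min wellFounded_lt
      {α : Om | (Sum.inl (lev α) : T3 ⊕ L2) ∉ N} hcon h

private theorem om_add_one (a : Om) : a.1 + 1 < Ordinal.omega 1 := by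
  have h := (Cardinal.isSuccLimit_omega 1).succ_lt a.2
  rwa [Order.succ_eq_add_one] at h

private theorem ncl_lim {E : EKit} {δ : Om} (h : Dlt E δ) : Order.IsSuccLimit δ.1 := by
  have hs : ∀ b : Ordinal.{0}, b < δ.1 → b + 1 < δ.1 := by
    intro b hb
    exact h.suc ⟨b, lt_trans hb δ.2⟩ ⟨b + 1, om_add_one ⟨b, lt_trans hb δ.2⟩⟩ hb rfl
  rw [Order.isSuccLimit_iff]
  refine ⟨?_, ?_⟩
  · intro hm
    have h1 : nOm 0 < δ := h.nat 0
    have h2 : (nOm 0).1 < δ.1 := h1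
    exact not_le.2 h2 (hm (le_of_lt h2))
  · intro b hb
    have h1 := hs b hb.lt
    exact hb.2 (Order.lt_add_one_iff.2 le_rfl) h1

theorem club_ClS {G : Set ZFSet.{0}} (h : Solovay Lc G) (E : EKit)
    (hv : ∀ α : Om, {z : ZFSet.{0} | z ∈ Lc ∧ z ∈ V_ α.1}.Countable) :
    ClubMany fun N : Set (T3 ⊕ L2) => ∃ δ, ClS G E N δ := by
  classical
  have hMK := MK_Lc hv
  -- the function for `vd`
  have hf2 : ∀ α : Om, ∃ β : Om, {z : ZFSet.{0} | z ∈ Lc ∧ z ∈ V_ α.1} ⊆ L β.1 := by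
    intro α
    refine LK_countable_subset ?_ (hv α)
    rintro z ⟨h1, h2⟩
    rw [← hMK]
    refine ⟨h1, ?_⟩
    rw [ZFSet.mem_vonNeumann] at h2 ⊢
    exact lt_trans h2 α.2
  choose f2 hf2 using hf2
  obtain ⟨f, hf⟩ := club_Dlt E
  have hom1 : (Ordinal.omega.{0} 1).toZFSet ∈ L2 := toZFSet_mem_L om12
  refine (((((ncl_cx.and (club_mem (Sum.inr ⟨_, hom1⟩))).and
    ((club_forall fun k => club_mem (Sum.inl (lev (nOm k)))).and
    (ncl_to.and ncl_from))).and ((ncl_down.and (ncl_om f)).and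
    ((ncl_om2 gp).and (ncl_om f2)))).and (ncl_lev.and
    ((ncl_nam h hv).and (ncl_p G))))).mono fun N hNc hN => ?_
  obtain ⟨⟨⟨⟨c1, c2⟩, c3, c4, c5⟩, ⟨c6, c7⟩, c8, c9⟩, c10, c11, c12⟩ := hN
  obtain ⟨δ, hδ⟩ := ncl_delta hNc c6
  have hdlt : Dlt E δ := by
    refine hf δ (fun k => (hδ _).1 (c3 k)) (fun a ha => (hδ _).1 (c7 a ((hδ a).2 ha))) ?_
    intro a b ha hb
    exact (hδ _).1 (c8 a b ((hδ a).2 ha) ((hδ b).2 hb))
  have hlim := ncl_lim hdlt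
  have hs : ∀ b : Ordinal.{0}, b < δ.1 → b + 1 < δ.1 := by
    intro b hb
    have h1 := hlim.succ_lt hb
    rwa [Order.succ_eq_add_one] at h1
  have h0 : (0 : Ordinal.{0}) < δ.1 := by
    have h1 : (nOm 0).1 < δ.1 := hdlt.nat 0
    exact lt_of_le_of_lt zero_le h1
  have hord : ∀ α : Om, toZ α ∈ Yn N ↔ α < δ := fun α =>
    ⟨fun h1 => (hδ α).1 (c5 α h1), fun h1 => c4 α ((hδ α).2 h1)⟩
  have hlow : ∀ x, (x ∈ Yn N ∧ x ∈ LK) ↔ x ∈ L δ.1 := by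
    intro x
    constructor
    · rintro ⟨h1, h2⟩
      by_cases hx : x = ∅
      · rw [hx]
        exact empty_mem_L h0
      · obtain ⟨γ, g1, g2, φ, s, g3, g4⟩ := c1.dfn x h1 hx
        have g5 : γ < Ordinal.omega 1 := g2 _ h2
        have g6 : (⟨γ, g5⟩ : Om) < δ := (hord ⟨γ, g5⟩).1 g1
        have g7 : γ < δ.1 := g6
        have g8 : x ∈ L (γ + 1) := mem_L_succ.2 ⟨φ, s, fun _ i => (g3 i).2, g4⟩
        exact L_mono (hs γ g7).le g8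
    · intro h1
      obtain ⟨γ, g1, g2⟩ := exists_succ_level h1
      have g3 := hs γ g1
      refine ⟨?_, L_mono δ.2.le h1⟩
      exact c10 ⟨γ + 1, lt_trans g3 δ.2⟩ ((hδ _).2 g3) x g2
  refine ⟨δ, ⟨hδ, hord, c1, ⟨hom1, c2⟩, hlow, ?_, hlim, hdlt, ?_⟩⟩
  · intro R hR
    obtain ⟨x, hx1, hx2, hx3⟩ := c11 R hR
    refine ⟨x, hx1, hx2, hx3, ?_⟩
    intro a b c ha hb hc hRa
    rw [hx2] at hRa
    obtain ⟨p, hp1, hp2, hp3⟩ := c12 x hx1 hx3 a b c ((hδ a).2 ha) ((hδ b).2 hb)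
      ((hδ c).2 hc) hRa
    exact ⟨p, hp1, (hlow p).1 hp2, hp3⟩
  · intro z hz hzV
    rw [ZFSet.mem_vonNeumann] at hzV
    have h1 := hs _ hzV
    have h2 : (⟨z.rank + 1, lt_trans h1 δ.2⟩ : Om) < δ := h1
    have h3 : f2 ⟨z.rank + 1, lt_trans h1 δ.2⟩ < δ := (hδ _).1 (c9 _ ((hδ _).2 h2))
    have h4 : z ∈ L (f2 ⟨z.rank + 1, lt_trans h1 δ.2⟩).1 :=
      hf2 ⟨z.rank + 1, lt_trans h1 δ.2⟩ ⟨hz, ZFSet.mem_vonNeumann.2
        (Order.lt_add_one_iff.2 le_rfl)⟩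
    exact L_mono (show (f2 ⟨z.rank + 1, lt_trans h1 δ.2⟩).1 ≤ δ.1 from le_of_lt h3) h4

end RMK
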