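import Pool.Agent.RMK.S.NDefs
import Pool.Agent.RMK.S.LRefB
import Pool.Agent.RMK.S.LRefB

/-!
RMK NDEF: the enumerated relation is definable over some `L_β[G ∩ δ]`.

PROOF.  Let `A = ords {α | α ∈ GP G ∧ α < δ}` and `M = LR A (ω 1)`; `ZF0 M` (`zf0_LR`), `toZ α ∈ M` for all `α : Om`
(`toZFSet_mem_LR`), `LK ⊆ M` (`LK_sub_LR`).  Let `A' ∈ M` be the set of the elements of `A` (`inter_mem_LR`), `Cδ = Col δ ∈ LK`
(`hC`), `P2` from `exists_P2` in `M`.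
Consider on `M × M × M × M` the predicate `T (ξ, a, b, c)`:
`∃ p ∈ Cδ, (∀ t ∈ p, ∃ α n β : M, α ∈ δ ∧ n ∈ ω ∧ β ∈ δ ∧ t = trip α n β ∧ P2 α (P2 n β) ∈ A') ∧
pair (trip a b c) p ∈ apZ f ξ`,
definable over `M` (`MD`; constants `Cδ, A', f, δ, ω`; quantifiers over `↥M`).
For `p ∈ Col δ`: `p ∈ G` iff for all `t ∈ p` there is `q ∈ G` with `t ∈ q` (`mem_G_iff`, `Col_mono`) iff for all `t = trip (toZ α)
(natZ n) (toZ β) ∈ p`: `gp α (gp (nOm n) β) ∈ GP G` (`gp_inj`, injectivity of `nOm`, `toZ`); and these ordinals are `< δ`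
(`Dlt.gp`, `Dlt.nat`).  Hence `T (toZ ξ, toZ a, toZ b, toZ c) ↔ ∃ p ∈ GLam G δ, pair (tup a b c) p ∈ apZ f ξ`.
`md_fml4` gives `φ, s` with `T (x0, x1, x2, x3) ↔ Sat (relE A) M φ (..)`.  Change `s i` for `i ≥ max (bd φ) 4` to `∅`
(`sat_congr`).  Take `β : Om` closed under the `g` of `reflect` for `φ`, with `δ < β` and `s i ∈ LR A β` for all `i` (finitely
many values).  For `ξ, a, b, c < δ` the assignment `asg s ξ a b c` has values in `LR A β`, so `Sat (relE A) (LR A β) φ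
(asg s ξ a b c) ↔ Sat (relE A) M φ (asg s ξ a b c) ↔ T (..)`.
-/

namespace RMK

open Set PU
open scoped ZFSet

private theorem toZ_inj_nd {α β : Om} : toZ α = toZ β ↔ α = β := by
  constructor
  · intro h
    exact Subtype.ext (Ordinal.toZFSet_injective h)
  · rintro rfl
    rfl

private theorem mem_toZ_nd {δ : Om} {x : ZFSet.{0}} :
    x ∈ toZ δ ↔ ∃ α, α < δ ∧ x = toZ α := by
  unfold toZ
  rw [Ordinal.mem_toZFSet_iff]
  constructor
  · rintro ⟨a, ha, rfl⟩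
    exact ⟨⟨a, ha.trans δ.2⟩, ha, rfl⟩
  · rintro ⟨α, hα, rfl⟩
    exact ⟨α.1, hα, rfl⟩

private theorem toZ_nOm_nd (k : ℕ) : toZ (nOm k) = natZ k := rfl

private theorem exists_closed_above (g : Om → Om) (S : Set Om) (hS : S.Countable) :
    ∃ β : Om, (∀ a ∈ S, a < β) ∧ ∀ a, a < β → g a < β := by
  obtain ⟨b0, hb0⟩ := Om.bdd hS
  have key : ∀ b : Om, ∃ b' : Om, b < b' ∧ ∀ a, a ≤ b → g a < b' := by
    intro b
    obtain ⟨c, hc⟩ := Om.bdd (((Om.countable_Iic b).image g).union (countable_singleton b))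
    exact ⟨c, hc b (Or.inr rfl), fun a ha => hc (g a) (Or.inl ⟨a, ha, rfl⟩)⟩
  choose nx hnx1 hnx2 using key
  let u : ℕ → Om := fun n => Nat.rec b0 (fun _ b => nx b) n
  have hu : ∀ n, u (n + 1) = nx (u n) := fun n => rfl
  obtain ⟨c, hc⟩ := Om.bdd (countable_range u)
  have hne : {β : Om | ∀ n, u n < β}.Nonempty := ⟨c, fun n => hc _ ⟨n, rfl⟩⟩
  have hwf : WellFounded (fun a b : Om => a < b) := wellFounded_lt
  set β := hwf.min _ hne with hβ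
  have hβ1 : ∀ n, u n < β := hwf.min_mem _ hne
  have hβ2 : ∀ a, a < β → ∃ n, a ≤ u n := by
    intro a ha
    by_contra hcon
    push Not at hcon
    exact hwf.not_lt_min _ (show a ∈ {β : Om | ∀ n, u n < β} from hcon) ha
  refine ⟨β, fun a ha => (hb0 a ha).trans (hβ1 0), fun a ha => ?_⟩
  obtain ⟨n, hn⟩ := hβ2 a ha
  exact (hnx2 (u n) a hn).trans (hu n ▸ hβ1 (n + 1))


theorem capt_def {G : Set ZFSet.{0}} (h : Solovay Lc G) (E : EKit) {δ : Om} (hδ : Dlt E δ)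
    (hC : Col δ.1 ∈ LK) (f : LK) (hf : IsFn f.1 (toZ δ)) :
    ∃ β : Om, δ ≤ β ∧ ∃ (φ : Fml) (s : ℕ → ZFSet.{0}),
      (∀ i, s i ∈ LR (ords {α | α ∈ GP G ∧ α < δ}) β.1) ∧
      ∀ ξ a b c, ξ < δ → a < δ → b < δ → c < δ →
        ((∃ p ∈ GLam G δ.1, ZFSet.pair (tup a b c) p ∈ apZ f.1 (toZ ξ)) ↔
          Sat (relE (ords {α | α ∈ GP G ∧ α < δ})) (LR (ords {α | α ∈ GP G ∧ α < δ}) β.1) φ
            (asg s ξ a b c)) := by
  classical
  set A : Set ZFSet.{0} := ords {α | α ∈ GP G ∧ α < δ} with hAdef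
  let M : Set ZFSet.{0} := LR A (Ordinal.omega 1)
  have hM : ZF0 M := zf0_LR A
  have hO : ∀ α : Om, toZ α ∈ M := fun α => toZFSet_mem_LR A α.2
  have hLK : LK ⊆ M := LK_sub_LR A
  obtain ⟨A', hA'M, hA'⟩ := inter_mem_LR (A := A) (δ := δ) (by
    rintro x ⟨α, ⟨-, h2⟩, rfl⟩
    exact ⟨α, h2, rfl⟩)
  obtain ⟨P2, hP2d, hP2⟩ := exists_P2 hM hO
  let cC : M := ⟨Col δ.1, hLK hC⟩
  let cA : M := ⟨A', hA'M⟩
  let cf : M := ⟨f.1, hLK f.2⟩
  let cd : M := ⟨toZ δ, hO δ⟩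
  let T : M × M × M × M → Prop := fun x => ∃ p : M, p.1 ∈ cC.1 ∧
    ((∀ t : M, t.1 ∈ p.1 → ∃ al : M, ∃ n : M, ∃ be : M, al.1 ∈ cd.1 ∧ n.1 ∈ (zom hM).1 ∧
      be.1 ∈ cd.1 ∧ t = ztr hM al n be ∧ (P2 al (P2 n be)).1 ∈ cA.1) ∧
    ZFSet.pair (ztr hM x.2.1 x.2.2.1 x.2.2.2).1 p.1 ∈ (zap hM cf x.1).1)
  have hT : MD M T := by
    refine MD.ex (MD.and ?_ (MD.and ?_ ?_))
    · have d1 : DFc M fun q : (M × M × M × M) × M => q.2 := DFc.snd DFc.id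
      exact (MD.mem d1 (DFc.const cC) :)
    · refine MD.all (MD.imp ?_ (MD.ex (MD.ex (MD.ex ?_))))
      · have d1 : DFc M fun q : ((M × M × M × M) × M) × M => q.2 := DFc.snd DFc.id
        have d2 : DFc M fun q : ((M × M × M × M) × M) × M => q.1.2 := DFc.snd (DFc.fst DFc.id)
        exact (MD.mem d1 d2 :)
      · have dt : DFc M fun q : (((((M × M × M × M) × M) × M) × M) × M) × M =>
          q.1.1.1.2 := DFc.snd (DFc.fst (DFc.fst (DFc.fst DFc.id)))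
        have dal : DFc M fun q : (((((M × M × M × M) × M) × M) × M) × M) × M =>
          q.1.1.2 := DFc.snd (DFc.fst (DFc.fst DFc.id))
        have dn : DFc M fun q : (((((M × M × M × M) × M) × M) × M) × M) × M =>
          q.1.2 := DFc.snd (DFc.fst DFc.id)
        have dbe : DFc M fun q : (((((M × M × M × M) × M) × M) × M) × M) × M =>
          q.2 := DFc.snd DFc.id
        have dP1 : DFc M fun q : (((((M × M × M × M) × M) × M) × M) × M) × M =>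
          P2 q.1.2 q.2 := (DFc.comp hP2d (DFc.mk dn dbe) :)
        have dP2 : DFc M fun q : (((((M × M × M × M) × M) × M) × M) × M) × M =>
          P2 q.1.1.2 (P2 q.1.2 q.2) := (DFc.comp hP2d (DFc.mk dal dP1) :)
        refine MD.and ?_ (MD.and ?_ (MD.and ?_ (MD.and ?_ ?_)))
        · exact (MD.mem dal (DFc.const cd) :)
        · exact (MD.mem dn (DFc.const (zom hM)) :)
        · exact (MD.mem dbe (DFc.const cd) :)
        · exact (MD.eq dt (DFc.ztr hM dal dn dbe) :)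
        · exact (MD.mem dP2 (DFc.const cA) :)
    · have dx : DFc M fun q : (M × M × M × M) × M => q.1.1 := DFc.fst (DFc.fst DFc.id)
      have da : DFc M fun q : (M × M × M × M) × M => q.1.2.1 :=
        DFc.fst (DFc.snd (DFc.fst DFc.id))
      have db : DFc M fun q : (M × M × M × M) × M => q.1.2.2.1 :=
        DFc.fst (DFc.snd (DFc.snd (DFc.fst DFc.id)))
      have dc : DFc M fun q : (M × M × M × M) × M => q.1.2.2.2 :=
        DFc.snd (DFc.snd (DFc.snd (DFc.fst DFc.id)))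
      have dp : DFc M fun q : (M × M × M × M) × M => q.2 := DFc.snd DFc.id
      exact (MD.zpair_mem hM (DFc.ztr hM da db dc) dp (DFc.zap hM (DFc.const cf) dx) :)
  have hTval : ∀ ξ a b c : Om, T (⟨toZ ξ, hO ξ⟩, ⟨toZ a, hO a⟩, ⟨toZ b, hO b⟩, ⟨toZ c, hO c⟩) ↔
      ∃ p ∈ GLam G δ.1, ZFSet.pair (tup a b c) p ∈ apZ f.1 (toZ ξ) := by
    intro ξ a b c
    constructor
    · rintro ⟨p, hp1, hp2, hp3⟩
      refine ⟨p.1, ⟨(mem_G_iff h).2 ⟨Col_mono δ.2.le hp1, fun t ht => ?_⟩, hp1⟩, hp3⟩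
      obtain ⟨al, n, be, hal, hn, hbe, htt, hPP⟩ := hp2 ⟨t, hM.trans _ p.2 _ ht⟩ ht
      obtain ⟨α, hα, hal'⟩ := mem_toZ_nd.1 hal
      obtain ⟨k, hn'⟩ := mem_omZ.1 hn
      obtain ⟨β, hβ, hbe'⟩ := mem_toZ_nd.1 hbe
      have e1 : al = ⟨toZ α, hO α⟩ := Subtype.ext hal'
      have e2 : n = ⟨toZ (nOm k), hO _⟩ := Subtype.ext hn'
      have e3 : be = ⟨toZ β, hO β⟩ := Subtype.ext hbe'
      have e4 : P2 n be = ⟨toZ (gp (nOm k) β), hO _⟩ := Subtype.ext (by rw [e2, e3]; exact hP2 _ _)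
      have e5 : (P2 al (P2 n be)).1 = toZ (gp α (gp (nOm k) β)) := by
        rw [e4, e1]; exact hP2 _ _
      rw [e5] at hPP
      obtain ⟨γ, ⟨hγ1, hγ2⟩, hγ3⟩ := (hA' _).1 hPP
      have e6 : gp α (gp (nOm k) β) = γ := toZ_inj_nd.1 hγ3
      obtain ⟨α', β', n', hg1, q, hq, hq2⟩ := hγ1
      rw [← e6] at hg1
      obtain ⟨g1, g2⟩ := gp_inj hg1
      obtain ⟨g3, g4⟩ := gp_inj g2
      refine ⟨q, hq, ?_⟩
      have e7 : t = trip (toZ α) (natZ k) (toZ β) := by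
        have := congrArg Subtype.val htt
        rw [e1, e2, e3] at this
        exact this
      have e8 : natZ k = natZ n' := by
        have := congrArg toZ g3
        rwa [toZ_nOm_nd, toZ_nOm_nd] at this
      rw [e7, g1, e8, g4]
      exact hq2
    · rintro ⟨p, ⟨hpG, hpC⟩, hp3⟩
      refine ⟨⟨p, hM.trans _ cC.2 _ hpC⟩, hpC, fun t ht => ?_, hp3⟩
      obtain ⟨-, hcond, -⟩ := mem_Col.1 hpC
      obtain ⟨α, β, n, hβα, hαδ, htt⟩ := hcond t.1 ht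
      let α' : Om := ⟨α, hαδ.trans δ.2⟩
      let β' : Om := ⟨β, (hβα.trans hαδ).trans δ.2⟩
      have hα' : α' < δ := hαδ
      have hβ' : β' < δ := hβα.trans hαδ
      refine ⟨⟨toZ α', hO α'⟩, ⟨toZ (nOm n), hO _⟩, ⟨toZ β', hO β'⟩, mem_toZ_nd.2 ⟨α', hα', rfl⟩,
        mem_omZ.2 ⟨n, rfl⟩, mem_toZ_nd.2 ⟨β', hβ', rfl⟩, Subtype.ext htt, ?_⟩
      have e4 : P2 ⟨toZ (nOm n), hO _⟩ ⟨toZ β', hO β'⟩ = ⟨toZ (gp (nOm n) β'), hO _⟩ :=
        Subtype.ext (hP2 _ _)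
      rw [e4, hP2]
      refine (hA' _).2 ⟨gp α' (gp (nOm n) β'), ⟨⟨α', β', n, rfl, p, hpG, ?_⟩, ?_⟩, rfl⟩
      · rw [htt] at ht
        exact ht
      · exact hδ.gp _ _ hα' (hδ.gp _ _ (hδ.nat n) hβ')
  obtain ⟨φ, s, hs, hsat⟩ := md_fml4 A hT ⟨toZ δ, hO δ⟩
  obtain ⟨g, hg⟩ := reflect A φ
  have hlev : ∀ i, ∃ b : Om, s i ∈ LR A b.1 := by
    intro i
    obtain ⟨γ, hγ, h1⟩ := mem_LR_iff.1 (hs i)
    have hlim : Order.IsSuccLimit (Ordinal.omega 1) := Cardinal.isSuccLimit_omega 1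
    exact ⟨⟨γ + 1, hlim.add_one_lt hγ⟩, mem_LR_iff.2 ⟨γ, Order.lt_succ γ, h1⟩⟩
  choose bb hbb using hlev
  obtain ⟨β, hβ1, hβ2⟩ := exists_closed_above g (range bb ∪ {δ})
    ((countable_range bb).union (countable_singleton δ))
  have hδβ : δ < β := hβ1 δ (Or.inr rfl)
  have hsβ : ∀ i, s i ∈ LR A β.1 := fun i => LR_mono (hβ1 _ (Or.inl ⟨i, rfl⟩)).le (hbb i)
  refine ⟨β, hδβ.le, φ, s, hsβ, fun ξ a b c hξ ha hb hc => ?_⟩
  rw [← hTval ξ a b c, hsat]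
  have hO' : ∀ α : Om, α < δ → α.1.toZFSet ∈ LR A β.1 := fun α hα =>
    toZFSet_mem_LR A (hα.trans hδβ)
  have hasg : ∀ i, asg s ξ a b c i ∈ LR A β.1 := by
    intro i
    unfold asg
    split_ifs
    · exact hO' ξ hξ
    · exact hO' a ha
    · exact hO' b hb
    · exact hO' c hc
    · exact hsβ i
  exact (hg β hβ2 _ hasg).symm

end RMK
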