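import Pool.Agent.RMK.S.ZHul
import Pool.Agent.RMK.S.LSub

/-!
RMK ZGCH: for club many `δ`, every constructible subset `y` of `L_δ` belongs to some `L_τ` which is the image
of `δ` under a constructible function.

PROOF of `gch`.  `y ∈ LK` by `sub_L1`, so `y ∈ L β`, `β < ω₁`.  Take a countable limit ordinal `τ₀ > β, δ`, and `h` from
`exists_hull`; `Y = {apZ h ξ | ξ < δ}`.  The set `Y` is an element of `M = LK` (`Ys`, the range of `h`: `exists_ran`).  Let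
`c` be its collapsing function in `M` (`exists_colM`): `IsFn c Y`, `apZ c x = {apZ c z | z ∈ x ∩ Y}` for `x ∈ Y`.  Let `π` be
from `exists_col Y`; by `∈`-induction `apZ c x = π x` for `x ∈ Y`.  `condense` gives `τ` with `L τ = {π x | x ∈ Y}`,
countable by `condense_countable`.  `π y = y` (`col_id` with `T = L δ`), so `y ∈ L τ`.  Let
`f = {pair ξ (apZ c (apZ h ξ)) | ξ ∈ δ}` (`hM.repl` with the definable function `ξ ↦ pair ξ (apZ c (apZ h ξ))`,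
constants `c, h`).  `f ∈ LK` is a function on `δ` with range `L τ`.
-/

namespace RMK

open Set PU

private theorem gch_toZ {δ : Om} {x : ZFSet.{0}} : x ∈ toZ δ ↔ ∃ ξ : Om, ξ < δ ∧ x = toZ ξ := by
  constructor
  · intro h
    obtain ⟨ν, hν, hν2⟩ := Ordinal.mem_toZFSet_iff.1 h
    exact ⟨⟨ν, lt_trans hν δ.2⟩, hν, hν2.symm⟩
  · rintro ⟨ξ, hξ, rfl⟩
    exact Ordinal.toZFSet_mem_toZFSet_iff.2 hξ

private theorem gch_lim {β : Ordinal.{0}} (hβ : β < Ordinal.omega 1) (δ : Om) :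
    ∃ τ : Om, Order.IsSuccLimit τ.1 ∧ δ < τ ∧ β < τ.1 := by
  have h1 : max β δ.1 < Ordinal.omega 1 := max_lt hβ δ.2
  have h2 : max β δ.1 + Ordinal.omega0 < Ordinal.omega 1 := by
    have h5 : Ordinal.omega0 < Ordinal.omega 1 := Ordinal.omega0_lt_omega_one
    exact (Ordinal.isPrincipal_add_omega 1) h1 h5
  refine ⟨⟨max β δ.1 + Ordinal.omega0, h2⟩, ?_, ?_, ?_⟩
  · exact Ordinal.isSuccLimit_add _ Ordinal.isSuccLimit_omega0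
  · show δ.1 < max β δ.1 + Ordinal.omega0
    exact lt_of_le_of_lt (le_max_right β δ.1) (lt_add_of_pos_right _ Ordinal.omega0_pos)
  · exact lt_of_le_of_lt (le_max_left β δ.1) (lt_add_of_pos_right _ Ordinal.omega0_pos)

theorem gch (E : EKit) {δ : Om} (hδ : Dlt E δ) {y : ZFSet.{0}} (hy : y ∈ Lc)
    (hyδ : ∀ z ∈ y, z ∈ L δ.1) :
    ∃ (τ : Om) (f : LK), IsFn f.1 (toZ δ) ∧ y ∈ L τ.1 ∧
      ∀ x ∈ L τ.1, ∃ ξ, ξ < δ ∧ apZ f.1 (toZ ξ) = x := by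
  have hM : ZF0 LK := E.K.hM
  have hyK : y ∈ LK := sub_L1 hy hyδ
  obtain ⟨β, hβ, hβ2⟩ := exists_succ_level hyK
  have hβ1 : β + 1 < Ordinal.omega 1 := by
    have h := (Cardinal.isSuccLimit_omega 1).succ_lt hβ
    rwa [Order.succ_eq_add_one] at h
  obtain ⟨τ₀, hlim, hδτ, hβτ⟩ := gch_lim hβ1 δ
  obtain ⟨h, hfn, hCX, hLδ, hyY⟩ := exists_hull E hδ hlim hδτ (L_mono hβτ.le hβ2)
  obtain ⟨Y, hY⟩ : ∃ Y : Set ZFSet.{0}, Y = {x | ∃ ξ, ξ < δ ∧ apZ h.1 (toZ ξ) = x} := ⟨_, rfl⟩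
  rw [← hY] at hCX
  have hmY : ∀ x, x ∈ Y ↔ ∃ ξ, ξ < δ ∧ apZ h.1 (toZ ξ) = x := by
    intro x
    rw [hY]
    exact Iff.rfl
  have hYK : ∀ x ∈ Y, x ∈ LK := fun x hx => L_mono τ₀.2.le (hCX.sub hx)
  -- the set `Y` is an element of `LK`
  obtain ⟨ran, -, hran⟩ := hM.exists_ran
  have hYs : ∀ z, z ∈ (ran h).1 ↔ z ∈ Y := by
    intro z
    constructor
    · intro hz
      have hzK : z ∈ LK := hM.trans _ (ran h).2 z hz
      obtain ⟨w, hw⟩ := (hran h ⟨z, hzK⟩).1 hz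
      obtain ⟨d, hd, v, hv⟩ := hfn.1 _ hw
      have e := ZFSet.pair_injective hv
      obtain ⟨ξ, hξ, hξ2⟩ := gch_toZ.1 hd
      refine (hmY z).2 ⟨ξ, hξ, ?_⟩
      rw [apZ_eq hfn (gch_toZ.2 ⟨ξ, hξ, rfl⟩), ← hξ2, ← e.1]
      exact hw
    · intro hz
      obtain ⟨ξ, hξ, hξ2⟩ := (hmY z).1 hz
      have h1 := (apZ_eq hfn (gch_toZ.2 ⟨ξ, hξ, rfl⟩)).1 hξ2
      exact (hran h ⟨z, hYK z hz⟩).2 ⟨oz ξ, h1⟩
  obtain ⟨c, hcfn, hc⟩ := exists_colM hM (ran h)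
  obtain ⟨π, hπ⟩ := exists_col Y
  have hcπ : ∀ x, x ∈ Y → apZ c.1 x = π x := by
    intro x
    induction x using ZFSet.inductionOn with
    | _ x ih =>
      intro hx
      apply ZFSet.ext
      intro w
      rw [hc x ((hYs x).2 hx) w, hπ x w]
      constructor
      · rintro ⟨z, h1, h2, h3⟩
        have h4 := (hYs z).1 h2
        exact ⟨z, h1, h4, by rw [h3, ih z h1 h4]⟩
      · rintro ⟨z, h1, h2, h3⟩
        exact ⟨z, h1, (hYs z).2 h2, by rw [h3, ih z h1 h2]⟩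
  obtain ⟨Θ', hL, -, -⟩ := condense hlim hCX hπ
  have hcnt : Y.Countable := by
    have h1 : Y = (fun ξ : Om => apZ h.1 (toZ ξ)) '' {ξ : Om | ξ < δ} := by
      ext x
      rw [hmY]
      exact Iff.rfl
    rw [h1]
    exact (Om.countable_Iio δ).image _
  have hΘ' := condense_countable hL hcnt
  -- the function
  have hF : DFc LK fun ξ : LK => zpr hM ξ (zap hM c (zap hM h ξ)) :=
    DFc.zpr hM DFc.id (DFc.zap hM (DFc.const c) (DFc.zap hM (DFc.const h) DFc.id))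
  obtain ⟨f, hf⟩ := hM.repl _ hF (oz δ)
  have hf1 : ∀ w, w ∈ f.1 ↔ ∃ ξ, ξ < δ ∧ w = ZFSet.pair (toZ ξ) (apZ c.1 (apZ h.1 (toZ ξ))) := by
    intro w
    constructor
    · intro hw
      obtain ⟨u, hu, hu2⟩ := (hf ⟨w, hM.trans _ f.2 w hw⟩).1 hw
      obtain ⟨ξ, hξ, hξ2⟩ := gch_toZ.1 hu
      have h1 : w = ZFSet.pair u.1 (apZ c.1 (apZ h.1 u.1)) := congrArg Subtype.val hu2
      refine ⟨ξ, hξ, ?_⟩
      rw [h1, hξ2]
    · rintro ⟨ξ, hξ, rfl⟩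
      exact (hf (zpr hM (oz ξ) (zap hM c (zap hM h (oz ξ))))).2
        ⟨oz ξ, gch_toZ.2 ⟨ξ, hξ, rfl⟩, rfl⟩
  have hffn : IsFn f.1 (toZ δ) := by
    refine ⟨?_, ?_⟩
    · intro w hw
      obtain ⟨ξ, hξ, hξ2⟩ := (hf1 w).1 hw
      exact ⟨toZ ξ, gch_toZ.2 ⟨ξ, hξ, rfl⟩, _, hξ2⟩
    · intro d hd
      obtain ⟨ξ, hξ, rfl⟩ := gch_toZ.1 hd
      refine ⟨apZ c.1 (apZ h.1 (toZ ξ)), (hf1 _).2 ⟨ξ, hξ, rfl⟩, ?_⟩
      intro v hv
      obtain ⟨ξ', -, hξ2⟩ := (hf1 _).1 hv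
      have e := ZFSet.pair_injective hξ2
      rw [e.2, ← e.1]
  refine ⟨⟨Θ', hΘ'⟩, f, hffn, ?_, ?_⟩
  · refine (hL y).2 ⟨y, (hmY y).2 hyY, ?_⟩
    exact (col_id hπ (T := L δ.1) (fun x hx z hz => L_transitive hx hz)
      (fun x hx => (hmY x).2 (hLδ x hx)) hyδ).symm
  · intro x hx
    obtain ⟨x', hx', rfl⟩ := (hL x).1 hx
    obtain ⟨ξ, hξ, hξ2⟩ := (hmY x').1 hx'
    refine ⟨ξ, hξ, ?_⟩
    rw [apZ_eq hffn (gch_toZ.2 ⟨ξ, hξ, rfl⟩)]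
    refine (hf1 _).2 ⟨ξ, hξ, ?_⟩
    rw [hξ2, hcπ x' hx']

end RMK
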