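import Pool.Agent.RMK.S.WNam
import Pool.Agent.RMK.S.ZGch

/-!
RMK NDEFS: definitions for the negative part over `L` (complete file).
-/

namespace RMK

open Set PU
open scoped ZFSet

/-- the generic filter coded as a set of countable ordinals -/
def GP (G : Set ZFSet.{0}) : Set Om :=
  {γ | ∃ (α β : Om) (n : ℕ), γ = gp α (gp (nOm n) β) ∧
    ∃ p ∈ G, trip (toZ α) (natZ n) (toZ β) ∈ p}

/-- `L_{ω₂}` -/
abbrev L2 : Set ZFSet.{0} := L (Ordinal.omega 2)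

/-- the sets in the second part of `N` -/
def Yn (N : Set (T3 ⊕ L2)) : Set ZFSet.{0} := {x | ∃ h : x ∈ L2, Sum.inr ⟨x, h⟩ ∈ N}

/-- closure properties of `N` and the corresponding `δ` -/
structure ClS (G : Set ZFSet.{0}) (E : EKit) (N : Set (T3 ⊕ L2)) (δ : Om) : Prop where
  lev : ∀ α, Sum.inl (lev α) ∈ N ↔ α < δ
  ord : ∀ α : Om, toZ α ∈ Yn N ↔ α < δ
  cx : CX (Ordinal.omega 2) (Yn N)
  om1 : (Ordinal.omega 1).toZFSet ∈ Yn N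
  low : ∀ x, (x ∈ Yn N ∧ x ∈ LK) ↔ x ∈ L δ.1
  nam : ∀ R, Sum.inl R ∈ N → ∃ x ∈ Yn N, R = Rn G x ∧ (∀ z ∈ x, z ∈ LK) ∧
    ∀ a b c, a < δ → b < δ → c < δ → R a b c →
      ∃ p ∈ G, p ∈ L δ.1 ∧ ZFSet.pair (tup a b c) p ∈ x
  lim : Order.IsSuccLimit δ.1
  dlt : Dlt E δ
  vd : ∀ z ∈ Lc, z ∈ V_ δ.1 → z ∈ L δ.1

end RMK
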