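import Pool.Agent.RMK.S.NCl
import Pool.Agent.RMK.S.NCap
import Pool.Agent.RMK.S.NDef

/-!
RMK NMAIN: over `L`, failure of remarkability implies `Captured`.

PROOF.  `hv`: `vw_countable h`.  `E` from `exists_ekit zf0_LK`.  `MK_Lc hv : MK Lc = LK`, so `Col δ ∈ LK` by `Col_mem_MK`.
`not_statMany` turns `¬ Rem Lc` into: for club many `N₂ ⊆ VK Lc` the property in `Rem` fails.  By `club_comap` for the
injection `VK Lc → T3 ⊕ L2`, `x ↦ inr x` (`VK_sub`), it fails for `j ⁻¹ N` for club many `N ⊆ T3 ⊕ L2`; combine with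
`club_ClS` (`ClubMany.and`) and project to `T3` (`club_proj` for `Sum.inl`).  So for club many `N₁ ⊆ T3` there is `N` with
`inl ⁻¹ N = N₁`, `ClS G E N δ`, and the property in `Rem` fails for `j ⁻¹ N`; by clause `ord` its first part holds with
`δ`, so the second fails: this is `hbad` of `capt_of_ClS`.  `capt_of_ClS` and `capt_def` give the property in
`Captured (GP G)` (combine `ξ` with `f`).
-/

namespace RMK

open Set PU
open scoped ZFSet

theorem captured_of_not_rem {G : Set ZFSet.{0}} (h : Solovay Lc G) (hR : ¬ Rem Lc) :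
    Captured (GP G) := by
  have hv : ∀ α : Om, {z : ZFSet.{0} | z ∈ Lc ∧ z ∈ V_ α.1}.Countable := vw_countable h
  obtain ⟨E⟩ := exists_ekit zf0_LK
  have hMK : MK Lc = LK := MK_Lc hv
  have hCol : ∀ δ : Om, Col δ.1 ∈ LK := fun δ => hMK ▸ (Col_mem_MK h.zfc δ).1
  have h1 := not_statMany hR
  set j : VK Lc → T3 ⊕ L2 := fun x => Sum.inr ⟨x.1, (VK_sub hv x.2.1 x.2.2).2⟩ with hjdef
  have hj : Function.Injective j := by
    intro x y hxy
    have h2 := Sum.inr_injective hxy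
    have h3 := Subtype.mk.inj h2
    exact Subtype.ext h3
  have h2 := club_comap hj h1
  have h3 := h2.and (club_ClS h E hv)
  have : Nonempty T3 := ⟨lev default⟩
  have h4 := club_proj (j := (Sum.inl : T3 → T3 ⊕ L2)) Sum.inl_injective h3
  refine h4.mono fun N _ hN => ?_
  obtain ⟨N', _, rfl, hbad, δ, hN'⟩ := hN
  refine ⟨δ, fun α => hN'.lev α, ?_⟩
  have hbad' : ∃ y ∈ Lc, y ⊆ V_ δ.1 ∧ ∀ x : VK Lc, x.1 ∈ Yn N' →
      ¬ ∀ z, z ∈ y ↔ z ∈ x.1 ∧ z ∈ V_ δ.1 := by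
    by_contra hc
    apply hbad
    refine ⟨δ, ?_, ?_⟩
    · intro α
      constructor
      · rintro ⟨x, hx, hxα⟩
        rw [← hN'.ord α, ← hxα]
        exact ⟨(VK_sub hv x.2.1 x.2.2).2, hx⟩
      · intro hα
        obtain ⟨hL, hm⟩ := (hN'.ord α).2 hα
        have hsub : toZ α ⊆ V_ (Ordinal.omega 1) := by
          intro z hz
          have h5 : z ∈ V_ α.1 := Ordinal.toZFSet_subset_vonNeumann α.1 hz
          rw [ZFSet.mem_vonNeumann] at h5 ⊢
          exact h5.trans α.2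
        exact ⟨⟨toZ α, h.zfc.ord α.1, hsub⟩, hm, rfl⟩
    · intro y hy hyV
      by_contra hno
      refine hc ⟨y, hy, hyV, fun x hx hz => hno ⟨x, ?_, hz⟩⟩
      obtain ⟨hL, hm⟩ := hx
      exact hm
  obtain ⟨f, hf, hcap⟩ := capt_of_ClS h E hN' hbad'
  obtain ⟨β, hβ, φ, s, hs, hdef⟩ := capt_def h E hN'.dlt (hCol δ) f hf
  refine ⟨β, hβ, φ, s, hs, fun R hR => ?_⟩
  obtain ⟨ξ, hξ, hR'⟩ := hcap R hR
  exact ⟨ξ, hξ, fun a b c ha hb hc => (hR' a b c ha hb hc).trans (hdef ξ a b c hξ ha hb hc)⟩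

end RMK
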