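import Pool.Agent.RMK.GDefs

/-!
RMK SDEFS: Solovay's model over an inner model (definitions used in the final statement).
-/

namespace RMK

open MeasureTheory Set PU
open scoped ZFSet

/-! ### Inner models -/

/-- `W` is an inner model of ZFC: a transitive class containing all ordinals and satisfying pairing,
union, power set, the separation and replacement schemes (for first-order definitions with parameters)
and the axiom of choice (every set is the image of an ordinal). -/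
structure InnerZFC (W : Set ZFSet.{0}) : Prop where
  trans : ∀ x ∈ W, ∀ y ∈ x, y ∈ W
  ord : ∀ α : Ordinal.{0}, α.toZFSet ∈ W
  pair : ∀ x ∈ W, ∀ y ∈ W, ({x, y} : ZFSet.{0}) ∈ W
  union : ∀ x ∈ W, ZFSet.sUnion x ∈ W
  power : ∀ x ∈ W, ∃ y ∈ W, ∀ z, z ∈ y ↔ z ∈ W ∧ z ⊆ x
  sep : ∀ S : Set W, (Set.univ : Set W).Definable₁ LSet S → ∀ a ∈ W, ∃ b ∈ W,
    ∀ z : W, (z : ZFSet.{0}) ∈ b ↔ (z : ZFSet.{0}) ∈ a ∧ z ∈ S
  repl : ∀ S : Set (W × W), (Set.univ : Set W).Definable₂ LSet S →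
    (∀ x y y', (x, y) ∈ S → (x, y') ∈ S → y = y') → ∀ a ∈ W, ∃ b ∈ W,
      ∀ y : W, (y : ZFSet.{0}) ∈ b ↔ ∃ x : W, (x : ZFSet.{0}) ∈ a ∧ (x, y) ∈ S
  choice : ∀ x ∈ W, ∃ α : Ordinal.{0}, ∃ f ∈ W,
    (∀ z ∈ x, ∃ ξ, ξ < α ∧ ZFSet.pair ξ.toZFSet z ∈ f) ∧
      ∀ ξ < α, ∃! z, ZFSet.pair ξ.toZFSet z ∈ f

/-! ### The Levy collapse -/

/-- `p` is a condition of `Col(ω, < lam)`: a finite partial function assigning to pairs `(α, n)` with
`α < lam`, `n < ω` ordinals below `α` (coded as a finite set of triples). -/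
def IsCond (lam : Ordinal.{0}) (p : ZFSet.{0}) : Prop :=
  {t : ZFSet.{0} | t ∈ p}.Finite ∧
    (∀ t ∈ p, ∃ α β : Ordinal.{0}, ∃ n : ℕ, β < α ∧ α < lam ∧
      t = trip α.toZFSet (natZ n) β.toZFSet) ∧
    ∀ (α β β' : Ordinal.{0}) (n : ℕ), trip α.toZFSet (natZ n) β.toZFSet ∈ p →
      trip α.toZFSet (natZ n) β'.toZFSet ∈ p → β = β'

/-- the set of conditions of `Col(ω, < lam)` -/
noncomputable def Col (lam : Ordinal.{0}) : ZFSet.{0} :=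
  ZFSet.sep (IsCond lam) (ZFSet.powerset (lam.toZFSet.prod (omZ.prod lam.toZFSet)))

/-- the order of `Col(ω, < lam)`: `pair p q` belongs to it iff `p` extends `q` -/
noncomputable def ColR (lam : Ordinal.{0}) : ZFSet.{0} :=
  ZFSet.sep (fun z => ∃ p q, z = ZFSet.pair p q ∧ q ⊆ p) ((Col lam).prod (Col lam))

/-- The universe is Solovay's model `W[G]`: `W` is an inner model of ZFC, `ω₁` is a strong limit
cardinal in `W` (being regular, it is inaccessible in `W`), `G` is a filter on `Col(ω, < ω₁)` generic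
over `W`, and every subset of an element of `W` has a name in `W`. -/
structure Solovay (W G : Set ZFSet.{0}) : Prop where
  zfc : InnerZFC W
  inacc : ∀ α : Om, ∃ β : Om, ∃ f ∈ W, (∀ z ∈ W, z ⊆ toZ α → ∃ ξ, ξ < β ∧
    ZFSet.pair (toZ ξ) z ∈ f) ∧ ∀ ξ, ξ < β → ∃! z, ZFSet.pair (toZ ξ) z ∈ f
  gen : IsGeneric W (Col (Ordinal.omega 1)) (ColR (Ordinal.omega 1)) G
  names : ∀ a ∈ W, ∀ z, z ⊆ a → ∃ σ ∈ W, ∀ x, x ∈ z ↔ x ∈ a ∧ ∃ p ∈ G, ZFSet.pair x p ∈ σ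

/-! ### Remarkability -/

/-- `V_{κ+1}` of the inner model `W`, `κ = ω₁`. -/
abbrev VK (W : Set ZFSet.{0}) : Type 1 := {x : ZFSet.{0} // x ∈ W ∧ x ⊆ V_ (Ordinal.omega 1)}

/-- `κ = ω₁` is `(κ+1)`-remarkable in `W`: for stationarily many countable sets `N ⊆ V_{κ+1}^W`, the
intersection of `N` with `κ` is an ordinal `δ` and every element of `V_{δ+1}^W` is of the form `x ∩ V_δ`
with `x ∈ N` (so the transitive collapse of `N` is `V_{δ+1}^W`). -/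
def Rem (W : Set ZFSet.{0}) : Prop :=
  StatMany fun N : Set (VK W) => ∃ δ : Om, (∀ α : Om, (∃ x ∈ N, x.1 = toZ α) ↔ α < δ) ∧
    ∀ y ∈ W, y ⊆ V_ δ.1 → ∃ x ∈ N, ∀ z, z ∈ y ↔ z ∈ x.1 ∧ z ∈ V_ δ.1

/-- The class of constructible sets. -/
def Lc : Set ZFSet.{0} := {x | ∃ α, x ∈ L α}

/-- the elements of `W` of rank less than `ω₁` -/
def MK (W : Set ZFSet.{0}) : Set ZFSet.{0} := {x | x ∈ W ∧ x ∈ V_ (Ordinal.omega 1)}

/-- the part of the generic filter in `Col(ω, < lam)` -/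
def GLam (G : Set ZFSet.{0}) (lam : Ordinal.{0}) : Set ZFSet.{0} := {p | p ∈ G ∧ p ∈ Col lam}

/-! ### Models of ZF without power set -/

/-- `M` is a transitive class satisfying pairing, union, infinity, separation and replacement. -/
structure ZF0 (M : Set ZFSet.{0}) : Prop where
  trans : ∀ x ∈ M, ∀ y ∈ x, y ∈ M
  pair : ∀ x ∈ M, ∀ y ∈ M, ({x, y} : ZFSet.{0}) ∈ M
  union : ∀ x ∈ M, ZFSet.sUnion x ∈ M
  om : omZ ∈ M
  sep : ∀ P : M → Prop, MD M P → ∀ a : M, ∃ b : M, ∀ z : M, z.1 ∈ b.1 ↔ z.1 ∈ a.1 ∧ P z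
  repl : ∀ F : M → M, DFc M F → ∀ a : M, ∃ b : M, ∀ z : M, z.1 ∈ b.1 ↔ ∃ y : M, y.1 ∈ a.1 ∧ z = F y

/-- `x` is an ordinal -/
def IsO (x : ZFSet.{0}) : Prop := ∃ α : Ordinal.{0}, x = α.toZFSet

/-! ### Finite assignments and codes of formulas -/

open Classical in
/-- the value of the function `h` at `d` (`∅` if undefined) -/
noncomputable def apZ (h d : ZFSet.{0}) : ZFSet.{0} :=
  if H : ∃ y, ZFSet.pair d y ∈ h ∧ ∀ y', ZFSet.pair d y' ∈ h → y' = y then H.choose else ∅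

/-- `h` with the value at `i` changed to `a` -/
noncomputable def updZ (h i a : ZFSet.{0}) : ZFSet.{0} :=
  ZFSet.sep (fun w => ∀ y, w ≠ ZFSet.pair i y) h ∪ {ZFSet.pair i a}

/-- `h` is a function with domain `D` -/
def IsFn (h D : ZFSet.{0}) : Prop :=
  (∀ w ∈ h, ∃ d ∈ D, ∃ y, w = ZFSet.pair d y) ∧ ∀ d ∈ D, ∃! y, ZFSet.pair d y ∈ h

/-- finite partial functions from `ω` to `x` -/
inductive FP (x : ZFSet.{0}) : ZFSet.{0} → Prop
  | nil : FP x ∅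
  | upd {s : ZFSet.{0}} (i : ℕ) {a : ZFSet.{0}} : FP x s → a ∈ x → FP x (updZ s (natZ i) a)

/-- the assignment coded by `s` -/
noncomputable def ext (s : ZFSet.{0}) : ℕ → ZFSet.{0} := fun i => apZ s (natZ i)

/-- codes of formulas -/
noncomputable def code : Fml → ZFSet.{0}
  | .mem i j => trip (natZ 0) (natZ i) (natZ j)
  | .eq i j => trip (natZ 1) (natZ i) (natZ j)
  | .neg φ => trip (natZ 2) (code φ) (natZ 0)
  | .and φ ψ => trip (natZ 3) (code φ) (code ψ)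
  | .all i φ => trip (natZ 4) (natZ i) (code φ)

/-- satisfaction in `(x, ∈)` -/
def SatZ (x : ZFSet.{0}) (φ : Fml) (s : ℕ → ZFSet.{0}) : Prop :=
  Sat (fun a b : ZFSet.{0} => a ∈ b) {z | z ∈ x} φ s

/-- every variable of `φ` is less than `bd φ` -/
def bd : Fml → ℕ
  | .mem i j => max i j + 1
  | .eq i j => max i j + 1
  | .neg φ => bd φ
  | .and φ ψ => max (bd φ) (bd ψ)
  | .all i φ => max (i + 1) (bd φ)

/-! ### Elementary closure -/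

/-- `z` is the subset of `L_γ` defined by `φ`, `s` -/
def IsDef (γ : Ordinal.{0}) (φ : Fml) (s : ℕ → ZFSet.{0}) (x : ZFSet.{0}) : Prop :=
  ∀ z, z ∈ x ↔ z ∈ L γ ∧ Sat (fun a b : ZFSet.{0} => a ∈ b) (L γ) φ (Function.update s 0 z)

/-- `Y` is closed under constructible definitions and elementary in all `L_γ`, `γ ∈ Y`, `γ < Θ` -/
structure CX (Θ : Ordinal.{0}) (Y : Set ZFSet.{0}) : Prop where
  sub : Y ⊆ L Θ
  emp : ∅ ∈ Y
  succ : ∀ γ : Ordinal.{0}, γ.toZFSet ∈ Y → (γ + 1).toZFSet ∈ Y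
  dfn : ∀ x ∈ Y, x ≠ ∅ → ∃ γ : Ordinal.{0}, γ.toZFSet ∈ Y ∧ (∀ β, x ∈ L β → γ < β) ∧
    ∃ (φ : Fml) (s : ℕ → ZFSet.{0}), (∀ i, s i ∈ Y ∧ s i ∈ L γ) ∧ IsDef γ φ s x
  clo : ∀ γ : Ordinal.{0}, γ.toZFSet ∈ Y → ∀ (φ : Fml) (s : ℕ → ZFSet.{0}),
    (∀ i, s i ∈ Y ∧ s i ∈ L γ) → ∃ x ∈ Y, IsDef γ φ s x
  wit : ∀ γ : Ordinal.{0}, γ.toZFSet ∈ Y → ∀ (φ : Fml) (s : ℕ → ZFSet.{0}) (i : ℕ),
    (∀ i, s i ∈ Y ∧ s i ∈ L γ) →
    (∃ z ∈ L γ, ¬ Sat (fun a b : ZFSet.{0} => a ∈ b) (L γ) φ (Function.update s i z)) →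
    ∃ z ∈ Y, z ∈ L γ ∧ ¬ Sat (fun a b : ZFSet.{0} => a ∈ b) (L γ) φ (Function.update s i z)

/-- `L_{ω₁}` -/
abbrev LK : Set ZFSet.{0} := L (Ordinal.omega 1)

end RMK
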