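import Pool.Agent.RMK.S.SMain
import Pool.Agent.RMK.S.Inac

/-!
RMK SFIN: the final theorem.
-/

namespace RMK

open MeasureTheory Set PU

theorem solovay_final {W G : Set ZFSet.{0}} (h : SolovayModel W G) :
    (Rem W → ∀ (X : Type) [TopologicalSpace X] [PolishSpace X] [MeasurableSpace X]
      [BorelSpace X] (I : SigmaIdeal X), Proper I → ProjUnif I) ∧
    (W = {x | ∃ α, x ∈ L α} → ¬ Rem W →
      ∃ I : SigmaIdeal (ℕ → Bool), Proper I ∧ ¬ ProjUnif I) ∧
    (W = {x | ∃ α, x ∈ L α} → (∀ δ < Ordinal.omega 1, ¬ InaccIn W δ) →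
      ∃ I : SigmaIdeal (ℕ → Bool), Proper I ∧ ¬ ProjUnif I) := by
  have h' := h.solovay
  refine ⟨(solovay_main h').1, (solovay_main h').2, fun hW hδ => (solovay_main h').2 hW ?_⟩
  intro hR
  obtain ⟨δ, hd⟩ := inacc_of_rem h' hR
  exact hδ δ.1 δ.2 hd

end RMK
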