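import Pool.Agent.RMK.S.WGen

/-!
RMK WCH: the continuum hypothesis holds in Solovay's model.

PROOF.  `ℵ₁ ≤ 𝔠` (`Cardinal.aleph_one_le_continuum`).  Conversely for `x : ℕ → Bool` let `z = {natZ n | x n = true} ⊆ omZ`,
`omZ ∈ MK W`, and choose `lam`, `σ` by `exists_name`; `x` is determined by `(lam, σ) ∈ Om × MK W`.  `Om` has cardinality `ℵ₁`
(see the proof of `exists_enum` in `BorEnum.lean`) and `#(MK W) ≤ ℵ₁` (`mk_MK_le`), so `#(ℕ → Bool) ≤ ℵ₁` (lift to
universe 1).
-/

namespace RMK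

open Set PU

private theorem card_Om69 : Cardinal.mk Om = Cardinal.aleph 1 := by
  have h := Cardinal.mk_Iio_ordinal (Ordinal.omega.{0} 1)
  rw [Ordinal.card_omega] at h
  have h2 : Cardinal.lift.{1, 0} (Cardinal.aleph 1) = Cardinal.aleph.{1} 1 := by
    rw [Cardinal.lift_aleph, Ordinal.lift_one]
  rw [← h2]
  exact h

private noncomputable def zset69 (x : ℕ → Bool) : ZFSet.{0} :=
  ZFSet.sep (fun y => ∃ n, x n = true ∧ y = natZ n) omZ

private theorem zset69_sub (x : ℕ → Bool) : zset69 x ⊆ omZ := fun _ hy => (ZFSet.mem_sep.1 hy).1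

private theorem natZ_mem_zset69 (x : ℕ → Bool) (n : ℕ) : natZ n ∈ zset69 x ↔ x n = true := by
  unfold zset69
  rw [ZFSet.mem_sep]
  constructor
  · rintro ⟨-, m, hm, he⟩
    rw [natZ_inj] at he
    rw [he]
    exact hm
  · intro hx
    exact ⟨natZ_mem_omZ n, n, hx, rfl⟩

theorem ch_solovay {W G : Set ZFSet.{0}} (h : Solovay W G) :
    Cardinal.continuum.{0} = Cardinal.aleph 1 := by
  apply le_antisymm _ Cardinal.aleph_one_le_continuum
  have hom : omZ ∈ MK W := (zmodel_MK h).om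
  have hex : ∀ x : ℕ → Bool, ∃ p : Om × MK W, ∀ y, y ∈ zset69 x ↔
      y ∈ omZ ∧ ∃ q ∈ GLam G p.1.1, ZFSet.pair y q ∈ p.2.1 := by
    intro x
    obtain ⟨lam, σ, hσ, hx⟩ := exists_name h hom (zset69_sub x)
    exact ⟨(lam, ⟨σ, hσ⟩), hx⟩
  choose F hF using hex
  have hinj : Function.Injective F := by
    intro x y hxy
    funext n
    have h1 : x n = true ↔ y n = true := by
      rw [← natZ_mem_zset69, ← natZ_mem_zset69, hF x, hF y, hxy]
    cases hx : x n <;> cases hy : y n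
    · rfl
    · rw [hx, hy] at h1
      exact absurd (h1.2 rfl) (by simp)
    · rw [hx, hy] at h1
      exact absurd (h1.1 rfl) (by simp)
    · rfl
  have h1 := Cardinal.mk_le_of_injective (α := ULift.{1, 0} (ℕ → Bool)) (β := Om × MK W)
    (f := fun x => F x.down) (fun x y hxy => ULift.ext _ _ (hinj hxy))
  have h2 : Cardinal.mk (Om × MK W) ≤ Cardinal.aleph 1 := by
    rw [Cardinal.mk_prod, Cardinal.lift_id, Cardinal.lift_id, card_Om69]
    calc Cardinal.aleph 1 * Cardinal.mk (MK W) ≤ Cardinal.aleph 1 * Cardinal.aleph 1 :=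
          mul_le_mul' le_rfl (mk_MK_le h)
      _ = Cardinal.aleph 1 := Cardinal.mul_eq_self (Cardinal.aleph0_le_aleph 1)
  have h3 : Cardinal.mk (ULift.{1, 0} (ℕ → Bool)) = Cardinal.lift.{1, 0} Cardinal.continuum := by
    rw [Cardinal.mk_uLift]
    congr 1
    simp
  have h4 : Cardinal.lift.{1, 0} Cardinal.continuum ≤ Cardinal.lift.{1, 0} (Cardinal.aleph 1) := by
    rw [← h3, Cardinal.lift_aleph, Ordinal.lift_one]
    exact h1.trans h2
  exact Cardinal.lift_le.1 h4

end RMK
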