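import Pool.Agent.RMK.S.WNam
import Pool.Agent.RMK.S.Prj

/-!
RMK WREF: remarkability implies `Reflecting`.

PROOF.  Let `S = T3 ⊕ VK W` (universe 1).  For `R : T3` let `σ R : VK W` be given by `exists_nameT`.
Consider the following closure conditions on countable `N ⊆ S`, each holding for club many `N` (`club_mem`,
`club_map`, `club_map2`, `club_forall`, `ClubMany.and`; functions of more than two arguments can be handled by
`club_closed` with lists).  Write `N₁ = inl ⁻¹ N`, `N₂ = inr ⁻¹ N`.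
(a) `lev α ∈ N₁ ↔ toZ α ∈ N₂` (`toZ α` as an element of `VK W`: `ord`, `toZFSet_subset_vonNeumann`);
(b) if `lev α ∈ N₁` and `β < α` then `lev β ∈ N₁`: for `α` fix an enumeration of `Iio α` (countable) by natural
numbers, and use a function of `lev α` and `lev (nOm k)`; `lev (nOm k) ∈ N₁` for all `k`; `lev α ∈ N₁ → lev (α + 1) ∈ N₁`;
(c) `R ∈ N₁ → σ R ∈ N₂`; `x ∈ N₂ → Rn G x ∈ N₁`;
(d) `x ∈ N₂`, `x ∈ V_ ω₁` imply `lev (rank x) ∈ N₁`;
(e) if `x ∈ N₂`, `lev a, lev b, lev c ∈ N₁` and `Rn G x a b c`, then there is `p ∈ N₂` with `p ∈ G` and `pair (tup a b c)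
p ∈ x` (`p ∈ VK W`: `p ∈ Col ω₁ ∈ W`, and `Col_mem_V`).
Given such `N`, by (b) and countability there is `δ` with `lev α ∈ N₁ ↔ α < δ` (`Om.bdd`; the least `α` with
`lev α ∉ N₁`), a limit ordinal.  By (d) `x ∈ N₂ ∩ V_ ω₁ → x ∈ V_ δ` (`mem_vonNeumann`).
`Rem W` gives by `StatMany.lift` (for `Sum.inr`; `VK W` is nonempty) stationarily many `N ⊆ S` such that `N₂` satisfies
the property in `Rem` with some `δ'`; by (a) `δ' = δ`.  By `StatMany.and_club` these `N` also satisfy (a)-(e), and by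
`StatMany.mono` and `StatMany.proj` (for `Sum.inl`) it remains to check the property of `Reflecting` for `N₁`:
`M = MK W`, `Q = Col δ`, `r = ColR δ`, `g = GLam G δ`.  `ground_MK`, `Col_isPoset`, `Col_mem_MK`, `GLam_generic`;
`toZ δ ∈ MK W`.
First trace clause: `R ∈ N₁`, `x = σ R ∈ N₂`, `R = Rn G x`.  `σ' = x ∩ v` with `v ∈ W` the set of the elements of `V_δ ∩ W`
(`exists_vw`), in `MK W` (rank at most `δ`).  For `a, b, c < δ`: if `R a b c` let `p` be from (e); `p ∈ V_ δ` by (d), so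
`p ∈ Col δ` (`Col_of_mem_V`), `p ∈ GLam G δ`, and `pair (tup a b c) p ∈ V_ δ` (`pair_tup_mem_V`), it is in `W`; so
`Named g σ' a b c`.  Conversely `GLam G δ ⊆ G` and `σ' ⊆ x`.
Second trace clause: `σ ∈ MK W`, `y = σ ∩ v ∈ W`, `y ⊆ V_ δ`; there is `x ∈ N₂` with `z ∈ y ↔ z ∈ x ∧ z ∈ V_ δ`.  Let `R =
Rn G x ∈ N₁` by (c).  For `a, b, c < δ`: if `R a b c`, (e) gives `p ∈ N₂`, `p ∈ G`, `pair (tup a b c) p ∈ x`, `p ∈ V_ δ`,
`p ∈ GLam G δ`, `pair .. ∈ V_ δ`, so it is in `y ⊆ σ`.  Conversely if `p ∈ GLam G δ`, `pair (tup a b c) p ∈ σ`, then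
`p ∈ V_ δ` (`Col_mem_V`), the pair is in `V_ δ` and in `W`, so in `y`, so in `x`, and `p ∈ G`.
-/

namespace RMK

open Set PU
open scoped ZFSet

private theorem wr_wit {S : Type 1} [Nonempty S] (Φ : List S → S → Prop) :
    ClubMany fun N : Set S => ∀ l : List S, (∀ z ∈ l, z ∈ N) → (∃ y, Φ l y) →
      ∃ y ∈ N, Φ l y := by
  classical
  refine (club_closed fun l => if h : ∃ y, Φ l y then h.choose else Classical.arbitrary S).mono ?_
  intro N _ hN l hl h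
  have h1 := hN l hl
  beta_reduce at h1
  rw [dif_pos h] at h1
  exact ⟨_, h1, h.choose_spec⟩

private theorem wr_wit1 {S : Type 1} [Nonempty S] (Φ : S → S → Prop) :
    ClubMany fun N : Set S => ∀ x ∈ N, (∃ y, Φ x y) → ∃ y ∈ N, Φ x y := by
  refine (wr_wit fun l y => ∃ x, l = [x] ∧ Φ x y).mono ?_
  rintro N _ hN x hx ⟨y, hy⟩
  obtain ⟨y', h1, x', h2, h3⟩ := hN [x] (by simpa using hx) ⟨y, x, rfl, hy⟩
  rw [List.cons.injEq] at h2
  rw [h2.1]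
  exact ⟨y', h1, h3⟩

/-- the successor of a countable ordinal -/
private noncomputable def wrS (α : Om) : Om :=
  ⟨Order.succ α.1, (Cardinal.isSuccLimit_omega 1).succ_lt α.2⟩

theorem reflecting_of_rem {W G : Set ZFSet.{0}} (h : Solovay W G) (hR : Rem W) : Reflecting := by
  classical
  have hlim : Order.IsSuccLimit (Ordinal.omega.{0} 1) := Cardinal.isSuccLimit_omega 1
  have hVK : ∀ x, x ∈ MK W → x ∈ W ∧ x ⊆ V_ (Ordinal.omega 1) := by
    rintro x ⟨h1, h2⟩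
    refine ⟨h1, ?_⟩
    rw [ZFSet.subset_vonNeumann]
    exact (ZFSet.mem_vonNeumann.1 h2).le
  have hG : ∀ p ∈ G, p ∈ MK W := fun p hp =>
    ⟨h.zfc.trans _ (Col_mem h.zfc _) _ (h.gen.sub p hp), Col_mem_V hlim (h.gen.sub p hp)⟩
  have htoZ : ∀ α : Om, toZ α ∈ MK W := by
    intro α
    refine ⟨h.zfc.ord _, ?_⟩
    rw [ZFSet.mem_vonNeumann]
    unfold toZ
    rw [Ordinal.rank_toZFSet]
    exact α.2
  have hne : Nonempty (VK W) := ⟨⟨toZ default, hVK _ (htoZ default)⟩⟩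
  have hne2 : Nonempty (T3 ⊕ VK W) := ⟨Sum.inl (lev default)⟩
  choose σ hσ1 _ using exists_nameT h
  have c0 := club_mem (S := T3 ⊕ VK W) (Sum.inl (lev ⟨0, Ordinal.omega_pos 1⟩))
  have ca1 := wr_wit1 (S := T3 ⊕ VK W) fun x y => ∃ α : Om, x = Sum.inl (lev α) ∧
    y = Sum.inr ⟨toZ α, hVK _ (htoZ α)⟩
  have ca2 := wr_wit1 (S := T3 ⊕ VK W) fun x y => ∃ (α : Om) (z : VK W), z.1 = toZ α ∧
    x = Sum.inr z ∧ y = Sum.inl (lev α)
  have cb := wr_wit1 (S := T3 ⊕ VK W) fun x y => ∃ α : Om, x = Sum.inl (lev α) ∧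
    y = Sum.inl (lev (wrS α))
  have cc1 := wr_wit1 (S := T3 ⊕ VK W) fun x y => ∃ R : T3, x = Sum.inl R ∧ y = Sum.inr (σ R)
  have cc2 := wr_wit1 (S := T3 ⊕ VK W) fun x y => ∃ z : VK W, x = Sum.inr z ∧
    y = Sum.inl (Rn G z.1)
  have cd := wr_wit1 (S := T3 ⊕ VK W) fun x y => ∃ (z : VK W) (α : Om), z.1.rank = α.1 ∧
    x = Sum.inr z ∧ y = Sum.inl (lev α)
  have ce := wr_wit (S := T3 ⊕ VK W) fun l y => ∃ (z : VK W) (a b c : Om) (p : VK W),
    l = [Sum.inr z, Sum.inl (lev a), Sum.inl (lev b), Sum.inl (lev c)] ∧ y = Sum.inr p ∧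
      p.1 ∈ G ∧ ZFSet.pair (tup a b c) p.1 ∈ z.1
  refine StatMany.proj (S := T3 ⊕ VK W) (j := Sum.inl) Sum.inl_injective ?_
  refine ((StatMany.lift (S := T3 ⊕ VK W) (j := Sum.inr) Sum.inr_injective hR).and_club
    (c0.and (ca1.and (ca2.and (cb.and (cc1.and (cc2.and (cd.and ce)))))))).mono ?_
  rintro N hN ⟨⟨δ, hδ, hrep⟩, k0, ka1, ka2, kb, kc1, kc2, kd, ke⟩
  have hl : ∀ α : Om, Sum.inl (lev α) ∈ N ↔ α < δ := by
    intro α
    rw [← hδ α]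
    constructor
    · intro h1
      obtain ⟨y, h2, α', h3, h4⟩ := ka1 _ h1 ⟨_, α, rfl, rfl⟩
      have e : α = α' := lev_injective (Sum.inl_injective h3)
      rw [h4] at h2
      exact ⟨_, h2, by rw [e]⟩
    · rintro ⟨x, h1, h2⟩
      obtain ⟨y, h3, α', z, h4, h5, h6⟩ := ka2 _ h1 ⟨_, α, x, h2, rfl, rfl⟩
      have e1 : x = z := Sum.inr_injective h5
      have e2 : α = α' := by
        rw [← e1, h2] at h4
        exact Subtype.ext (Ordinal.toZFSet_injective h4)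
      rw [h6, ← e2] at h3
      exact h3
  have hδl : Order.IsSuccLimit δ.1 := by
    have h0 : (⟨0, Ordinal.omega_pos 1⟩ : Om) < δ := (hl _).1 k0
    refine ⟨not_isMin_of_lt (show (0 : Ordinal.{0}) < δ.1 from h0), ?_⟩
    refine Order.isSuccPrelimit_of_succ_lt ?_
    intro α hα
    have hα2 : α < Ordinal.omega 1 := hα.trans δ.2
    have h1 : Sum.inl (lev ⟨α, hα2⟩) ∈ N := (hl _).2 hα
    obtain ⟨y, h2, α', h3, h4⟩ := kb _ h1 ⟨_, ⟨α, hα2⟩, rfl, rfl⟩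
    have e : (⟨α, hα2⟩ : Om) = α' := lev_injective (Sum.inl_injective h3)
    rw [h4, ← e] at h2
    exact (hl _).1 h2
  have hd : ∀ x : VK W, Sum.inr x ∈ N → x.1 ∈ V_ (Ordinal.omega 1) → x.1 ∈ V_ δ.1 := by
    intro x hx hV
    rw [ZFSet.mem_vonNeumann] at hV ⊢
    obtain ⟨y, h1, z, α, h2, h3, h4⟩ := kd _ hx ⟨_, x, ⟨x.1.rank, hV⟩, rfl, rfl, rfl⟩
    have e : x = z := Sum.inr_injective h3
    rw [h4, hl] at h1
    rw [e, h2]
    exact h1
  have he : ∀ x : VK W, Sum.inr x ∈ N → ∀ a b c : Om, a < δ → b < δ → c < δ →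
      Rn G x.1 a b c → ∃ p ∈ G, p ∈ V_ δ.1 ∧ ZFSet.pair (tup a b c) p ∈ x.1 := by
    rintro x hx a b c ha hb hc ⟨p, hp, hpx⟩
    obtain ⟨y, h1, z, a', b', c', p', h2, h3, h4, h5⟩ :=
      ke [Sum.inr x, Sum.inl (lev a), Sum.inl (lev b), Sum.inl (lev c)] (by
        intro w hw
        simp only [List.mem_cons, List.not_mem_nil, or_false] at hw
        rcases hw with rfl | rfl | rfl | rfl
        · exact hx
        · exact (hl _).2 ha
        · exact (hl _).2 hb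
        · exact (hl _).2 hc) ⟨Sum.inr ⟨p, hVK _ (hG p hp)⟩, x, a, b, c, ⟨p, hVK _ (hG p hp)⟩,
          rfl, rfl, hp, hpx⟩
    simp only [List.cons.injEq] at h2
    obtain ⟨e1, e2, e3, e4, -⟩ := h2
    have e1' : x = z := Sum.inr_injective e1
    have e2' : a = a' := lev_injective (Sum.inl_injective e2)
    have e3' : b = b' := lev_injective (Sum.inl_injective e3)
    have e4' : c = c' := lev_injective (Sum.inl_injective e4)
    rw [h3] at h1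
    refine ⟨p'.1, h4, hd p' h1 (hG _ h4).2, ?_⟩
    rw [e1', e2', e3', e4']
    exact h5
  obtain ⟨v, hvW, hv⟩ := exists_vw h.zfc δ.1
  have hcut : ∀ x ∈ W, x ∩ v ∈ W ∧ x ∩ v ⊆ V_ δ.1 := by
    intro x hx
    refine ⟨h.zfc.inter hx hvW, ?_⟩
    intro z hz
    exact ((hv z).1 (ZFSet.mem_inter.1 hz).2).2
  obtain ⟨hC1, hC2⟩ := Col_mem_MK h.zfc δ
  refine ⟨δ, MK W, Col δ.1, ColR δ.1, GLam G δ.1, hl, ground_MK h, htoZ δ,
    Col_isPoset hC1 hC2, GLam_generic h δ, ?_, ?_⟩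
  · intro R hRN
    obtain ⟨y, h1, R', h2, h3⟩ := kc1 _ hRN ⟨_, R, rfl, rfl⟩
    have e : R = R' := Sum.inl_injective h2
    rw [h3, ← e] at h1
    obtain ⟨h4, h5⟩ := hcut (σ R).1 (σ R).2.1
    refine ⟨(σ R).1 ∩ v, ⟨h4, ?_⟩, ?_⟩
    · rw [ZFSet.mem_vonNeumann]
      exact (ZFSet.subset_vonNeumann.1 h5).trans_lt δ.2
    · intro a b c ha hb hc
      constructor
      · intro hRa
        rw [hσ1 R] at hRa
        obtain ⟨p, hp, hpV, hpx⟩ := he _ h1 a b c ha hb hc hRa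
        exact ⟨p, ⟨hp, Col_of_mem_V (h.gen.sub p hp) hpV⟩, ZFSet.mem_inter.2 ⟨hpx,
          (hv _).2 ⟨h.zfc.trans _ (σ R).2.1 _ hpx, pair_tup_mem_V hδl ha hb hc hpV⟩⟩⟩
      · rintro ⟨p, hp, hpσ⟩
        rw [hσ1 R]
        exact ⟨p, hp.1, (ZFSet.mem_inter.1 hpσ).1⟩
  · intro τ hτ
    obtain ⟨h4, h5⟩ := hcut τ hτ.1
    obtain ⟨x, hx, hxy⟩ := hrep _ h4 h5
    obtain ⟨y, h1, z, h2, h3⟩ := kc2 _ hx ⟨_, x, rfl, rfl⟩
    have e : x = z := Sum.inr_injective h2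
    rw [h3, ← e] at h1
    refine ⟨Rn G x.1, h1, ?_⟩
    intro a b c ha hb hc
    constructor
    · intro hRa
      obtain ⟨p, hp, hpV, hpx⟩ := he _ hx a b c ha hb hc hRa
      exact ⟨p, ⟨hp, Col_of_mem_V (h.gen.sub p hp) hpV⟩,
        (ZFSet.mem_inter.1 ((hxy _).2 ⟨hpx, pair_tup_mem_V hδl ha hb hc hpV⟩)).1⟩
    · rintro ⟨p, hp, hpσ⟩
      have hV := pair_tup_mem_V hδl ha hb hc (Col_mem_V hδl hp.2)
      exact ⟨p, hp.1, ((hxy _).1 (ZFSet.mem_inter.2 ⟨hpσ, (hv _).2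
        ⟨h.zfc.trans _ hτ.1 _ hpσ, hV⟩⟩)).1⟩

end RMK
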