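import Pool.Agent.RMK.S.NMain
import Pool.Agent.RMK.S.WRef
import Pool.Agent.RMK.S.WCH
import Pool.Agent.RMK.MainP
import Pool.Agent.RMK.MainN

/-!
RMK SMAIN: projective uniformization up to proper ideals in Solovay's model.
-/

namespace RMK

open MeasureTheory Set PU

theorem solovay_main {W G : Set ZFSet.{0}} (h : Solovay W G) :
    (Rem W → ∀ (X : Type) [TopologicalSpace X] [PolishSpace X] [MeasurableSpace X]
      [BorelSpace X] (I : SigmaIdeal X), Proper I → ProjUnif I) ∧
    (W = {x | ∃ α, x ∈ L α} → ¬ Rem W →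
      ∃ I : SigmaIdeal (ℕ → Bool), Proper I ∧ ¬ ProjUnif I) := by
  refine ⟨fun hR X _ _ _ _ I hI => positive (ch_solovay h) (reflecting_of_rem h hR) X I hI, ?_⟩
  rintro rfl hR
  exact negative (captured_of_not_rem h hR)

end RMK
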