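import Pool.Agent.RMK.S.WZf

/-!
RMK WCOL: the Levy collapse.

PROOFS.
`mem_Col`: a condition of `Col(ω, < lam)` is a subset of `lam × (ω × lam)`.
`mem_ColR`, `ColR_sub`: definition, `ZFSet.pair_inj`.
`Col_mem`: over `W` (`ZF0 W`) the predicate `IsCond lam p` is `MD` in `p` (`lam.toZFSet ∈ W` a parameter): the quantifiers
over ordinals and natural numbers are bounded quantifiers over `lam` and `ω`, and `{t | t ∈ p}` is finite iff
`∃ n ∈ ω, ∃ f : W, IsFn f n ∧ ∀ t ∈ p, ∃ i ∈ n, pair i t ∈ f` (if `p` is finite with elements in `W`, such an `f` is in `W`, by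
induction).  So `Col lam` is obtained by separation from the power set in `W` of `lam × (ω × lam)`; every
condition is in `W` (a finite subset of an element of `W`, induction: `∅`, `p ∪ {t}`).
`ColR_mem`: separation in `Col lam × Col lam`.
`Col_isPoset`: `∅ ∈ Col lam`; reflexive and transitive.
`Col_mono`: clear.  `Col_bdd`: the finitely many ordinals in `p` are bounded below `ω₁`.
`Col_rank`: for `p ∈ Col lam`, `lam ≤ ω₁`: `p ∈ V_ ω₁`; more precisely if `lam` is a limit ordinal then `p ∈ V_ lam`: the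
elements `trip α n β` have rank `< lam` (rank of a pair is at most the maximum plus 2), there are finitely many, so
the rank of `p` is `< lam`; if `lam < ω₁` is arbitrary then `Col lam ∈ V_ ω₁`, as its elements have rank at most
`lam + ω`.
`Col_of_mem_V`: if `p ∈ Col ω₁` and `p ∈ V_ δ` then all ordinals occurring in `p` are `< δ` (ranks), so `p ∈ Col δ`.
`exists_restr`: `p' = {t ∈ p | t is a trip with first entry < lam}`.
`union_cond`: if `p ∈ Col mu`, `d ∈ Col lam`, `lam ≤ mu`, and `d` contains all `t ∈ p` whose first entry is `< lam`, then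
`d ∪ p ∈ Col mu`: functional, since the elements of `d` have first entry `< lam`.
-/

namespace RMK

open Set PU
open scoped ZFSet

variable {W : Set ZFSet.{0}}

/-! ### Private helpers -/

private theorem wc_trip_inj {a b c a' b' c' : ZFSet.{0}} (h : trip a b c = trip a' b' c') :
    a = a' ∧ b = b' ∧ c = c' := by
  unfold trip at h
  obtain ⟨h1, h2⟩ := ZFSet.pair_injective h
  obtain ⟨h3, h4⟩ := ZFSet.pair_injective h2
  exact ⟨h1, h3, h4⟩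

private theorem wc_rank_pair (x y : ZFSet.{0}) :
    (ZFSet.pair x y).rank ≤ Order.succ (Order.succ (max x.rank y.rank)) := by
  rw [ZFSet.pair, ZFSet.rank_pair, ZFSet.rank_singleton, ZFSet.rank_pair]
  refine max_le (Order.succ_le_succ (Order.succ_le_succ (le_max_left _ _)))
    (Order.succ_le_succ (max_le (Order.succ_le_succ (le_max_left _ _))
      (Order.succ_le_succ (le_max_right _ _))))

private theorem wc_lt_rank_pair (x y : ZFSet.{0}) : x.rank < (ZFSet.pair x y).rank := by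
  rw [ZFSet.pair, ZFSet.rank_pair, ZFSet.rank_singleton]
  exact lt_of_lt_of_le ((Order.lt_succ _).trans (Order.lt_succ _)) (le_max_left _ _)

private theorem wc_pair_lt {o : Ordinal.{0}} (ho : Order.IsSuccLimit o) {x y : ZFSet.{0}}
    (hx : x.rank < o) (hy : y.rank < o) : (ZFSet.pair x y).rank < o :=
  lt_of_le_of_lt (wc_rank_pair x y) (ho.succ_lt (ho.succ_lt (max_lt hx hy)))

private theorem wc_prod_lt {o : Ordinal.{0}} (ho : Order.IsSuccLimit o) {x y : ZFSet.{0}}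
    (hx : x.rank < o) (hy : y.rank < o) : (x.prod y).rank < o := by
  have h : (x.prod y).rank ≤ Order.succ (Order.succ (Order.succ (max x.rank y.rank))) := by
    rw [ZFSet.rank_le_iff]
    intro z hz
    obtain ⟨a, ha, b, hb, rfl⟩ := ZFSet.mem_prod.1 hz
    refine lt_of_le_of_lt (wc_rank_pair a b) ?_
    refine Order.succ_lt_succ (Order.succ_lt_succ ?_)
    refine lt_of_lt_of_le ?_ (Order.le_succ _)
    exact max_lt_max (ZFSet.rank_lt_of_mem ha) (ZFSet.rank_lt_of_mem hb)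
  exact lt_of_le_of_lt h (ho.succ_lt (ho.succ_lt (ho.succ_lt (max_lt hx hy))))

private theorem wc_om1 : Order.IsSuccLimit (Ordinal.omega 1 : Ordinal.{0}) :=
  Cardinal.isSuccLimit_omega 1

private theorem wc_fin {α : Type*} {o : Ordinal.{0}} (ho : Order.IsSuccLimit o) {s : Set α}
    (hs : s.Finite) (f : α → Ordinal.{0}) (hf : ∀ x ∈ s, f x < o) :
    ∃ b < o, ∀ x ∈ s, f x < b := by
  induction s, hs using Set.Finite.induction_on with
  | empty => exact ⟨0, ho.bot_lt, fun x hx => hx.elim⟩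
  | @insert a s _ _ ih =>
    obtain ⟨b, hb, h⟩ := ih fun x hx => hf x (mem_insert_of_mem _ hx)
    have ha := hf a (mem_insert _ _)
    refine ⟨max b (Order.succ (f a)), max_lt hb (ho.succ_lt ha), ?_⟩
    rintro x (rfl | hx)
    · exact lt_of_lt_of_le (Order.lt_succ _) (le_max_right _ _)
    · exact lt_of_lt_of_le (h x hx) (le_max_left _ _)

private theorem wc_nat_lt {o : Ordinal.{0}} (ho : Order.IsSuccLimit o) (n : ℕ) :
    (n : Ordinal.{0}) < o := by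
  induction n with
  | zero => exact_mod_cast ho.bot_lt
  | succ n ih =>
    have h := ho.succ_lt ih
    rw [Order.succ_eq_add_one] at h
    exact_mod_cast h

private theorem wc_mem_natZ {n : ℕ} {x : ZFSet.{0}} : x ∈ natZ n ↔ ∃ k < n, x = natZ k := by
  unfold natZ
  rw [Ordinal.mem_toZFSet_iff]
  constructor
  · rintro ⟨a, ha, rfl⟩
    obtain ⟨k, rfl⟩ := Ordinal.lt_omega0.1 (ha.trans (Ordinal.natCast_lt_omega0 n))
    exact ⟨k, by exact_mod_cast ha, rfl⟩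
  · rintro ⟨k, hk, rfl⟩
    exact ⟨k, by exact_mod_cast hk, rfl⟩

/-- finite sets of elements of `W` are in `W` and have an enumeration in `W` -/
private theorem wc_enum (hM : ZF0 W) {s : Set ZFSet.{0}} (hs : s.Finite) (hsW : s ⊆ W) :
    ∃ p ∈ W, (∀ t, t ∈ p ↔ t ∈ s) ∧ ∃ n : ℕ, ∃ f ∈ W, IsFn f (natZ n) ∧
      ∀ t ∈ p, ∃ i ∈ natZ n, ZFSet.pair i t ∈ f := by
  induction s, hs using Set.Finite.induction_on with
  | empty =>
    refine ⟨∅, hM.empty_mem, fun t => ⟨fun h => (ZFSet.notMem_empty t h).elim, fun h => h.elim⟩,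
      0, ∅, hM.empty_mem, ⟨fun w hw => (ZFSet.notMem_empty w hw).elim, fun d hd => ?_⟩,
      fun t ht => (ZFSet.notMem_empty t ht).elim⟩
    obtain ⟨k, hk, -⟩ := wc_mem_natZ.1 hd
    exact (Nat.not_lt_zero k hk).elim
  | @insert a s _ _ ih =>
    obtain ⟨p, hp, hps, n, f, hf, hfn, hfp⟩ := ih fun x hx => hsW (mem_insert_of_mem _ hx)
    have ha : a ∈ W := hsW (mem_insert _ _)
    refine ⟨p ∪ {a}, hM.un hp (hM.sg ha), fun t => ?_, n + 1, f ∪ {ZFSet.pair (natZ n) a},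
      hM.un hf (hM.sg (hM.pairZ (hM.natZ_mem n) ha)), ⟨fun w hw => ?_, fun d hd => ?_⟩,
      fun t ht => ?_⟩
    · rw [ZFSet.mem_union, ZFSet.mem_singleton, hps, mem_insert_iff, or_comm]
    · rw [ZFSet.mem_union, ZFSet.mem_singleton] at hw
      rcases hw with hw | hw
      · obtain ⟨d, hd, y, hy⟩ := hfn.1 w hw
        obtain ⟨k, hk, rfl⟩ := wc_mem_natZ.1 hd
        exact ⟨_, wc_mem_natZ.2 ⟨k, hk.trans (Nat.lt_succ_self n), rfl⟩, y, hy⟩
      · exact ⟨_, wc_mem_natZ.2 ⟨n, Nat.lt_succ_self n, rfl⟩, a, hw⟩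
    · obtain ⟨k, hk, rfl⟩ := wc_mem_natZ.1 hd
      rcases Nat.lt_succ_iff_lt_or_eq.1 hk with hk | rfl
      · obtain ⟨y, hy, hu⟩ := hfn.2 _ (wc_mem_natZ.2 ⟨k, hk, rfl⟩)
        refine ⟨y, ZFSet.mem_union.2 (Or.inl hy), fun y' hy' => ?_⟩
        rcases ZFSet.mem_union.1 hy' with h | h
        · exact hu y' h
        · rw [ZFSet.mem_singleton] at h
          have h1 := natZ_inj.1 (ZFSet.pair_injective h).1
          exact absurd h1 hk.ne
      · refine ⟨a, ZFSet.mem_union.2 (Or.inr (ZFSet.mem_singleton.2 rfl)), fun y' hy' => ?_⟩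
        rcases ZFSet.mem_union.1 hy' with h | h
        · obtain ⟨d, hd, y, hy⟩ := hfn.1 _ h
          obtain ⟨l, hl, rfl⟩ := wc_mem_natZ.1 hd
          have h1 := natZ_inj.1 (ZFSet.pair_injective hy).1
          exact absurd h1.symm hl.ne
        · rw [ZFSet.mem_singleton] at h
          exact (ZFSet.pair_injective h).2
    · rw [ZFSet.mem_union, ZFSet.mem_singleton] at ht
      rcases ht with ht | rfl
      · obtain ⟨i, hi, h⟩ := hfp t ht
        obtain ⟨k, hk, rfl⟩ := wc_mem_natZ.1 hi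
        exact ⟨_, wc_mem_natZ.2 ⟨k, hk.trans (Nat.lt_succ_self n), rfl⟩,
          ZFSet.mem_union.2 (Or.inl h)⟩
      · exact ⟨_, wc_mem_natZ.2 ⟨n, Nat.lt_succ_self n, rfl⟩,
          ZFSet.mem_union.2 (Or.inr (ZFSet.mem_singleton.2 rfl))⟩

private theorem wc_fin_mem (hM : ZF0 W) {p : ZFSet.{0}} (hp : {t : ZFSet.{0} | t ∈ p}.Finite)
    (hW : ∀ t ∈ p, t ∈ W) : p ∈ W ∧ ∃ n : ℕ, ∃ f ∈ W, IsFn f (natZ n) ∧
      ∀ t ∈ p, ∃ i ∈ natZ n, ZFSet.pair i t ∈ f := by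
  obtain ⟨q, hq, hqs, h⟩ := wc_enum hM hp hW
  have e : q = p := ZFSet.ext hqs
  rw [e] at hq h
  exact ⟨hq, h⟩

/-- a set enumerated by a function on a natural number is finite -/
private theorem wc_finite {p f : ZFSet.{0}} {n : ℕ} (hf : IsFn f (natZ n))
    (h : ∀ t ∈ p, ∃ i ∈ natZ n, ZFSet.pair i t ∈ f) : {t : ZFSet.{0} | t ∈ p}.Finite := by
  have h1 : {t : ZFSet.{0} | t ∈ p} ⊆ (fun k : ℕ => apZ f (natZ k)) '' Iio n := by
    intro t ht
    obtain ⟨i, hi, hit⟩ := h t ht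
    obtain ⟨k, hk, rfl⟩ := wc_mem_natZ.1 hi
    exact ⟨k, hk, (apZ_eq hf hi).2 hit⟩
  exact ((Set.finite_Iio n).image _).subset h1

section md

variable {X : Type 1} [Ctx W X]

private theorem wc_isFn (hM : ZF0 W) {f g : X → W} (hf : DFc W f) (hg : DFc W g) :
    MD W fun x => IsFn (f x).1 (g x).1 := by
  exact MD.isFn hM hf hg

private theorem wc_pm (hM : ZF0 W) {f g h : X → W} (hf : DFc W f) (hg : DFc W g)
    (hh : DFc W h) : MD W fun x => ZFSet.pair (f x).1 (g x).1 ∈ (h x).1 :=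
  (MD.mem (DFc.zpr hM hf hg) hh :)

private theorem wc_tm (hM : ZF0 W) {f g h k : X → W} (hf : DFc W f) (hg : DFc W g)
    (hh : DFc W h) (hk : DFc W k) :
    MD W fun x => trip (f x).1 (g x).1 (h x).1 ∈ (k x).1 :=
  (MD.mem (DFc.ztr hM hf hg hh) hk :)

private theorem wc_te (hM : ZF0 W) {f g h k : X → W} (hf : DFc W f) (hg : DFc W g)
    (hh : DFc W h) (hk : DFc W k) :
    MD W fun x => (k x).1 = trip (f x).1 (g x).1 (h x).1 := by
  refine MD.congr (fun x => ?_) (MD.eq hk (DFc.ztr hM hf hg hh))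
  exact Subtype.ext_iff

end md

private theorem wc_w {X : Type 1} [Ctx W X] {g : X → W} (hg : DFc W g) :
    DFc W fun p : X × W => g p.1 :=
  (DFc.comp hg (DFc.fst (DFc.id (M := W) (X := X × W))) :)

private theorem wc_v {X : Type 1} [Ctx W X] : DFc W fun p : X × W => p.2 :=
  (DFc.snd (DFc.id (M := W) (X := X × W)) :)

/-- finiteness, in `W` -/
private def PA (W : Set ZFSet.{0}) (p : W) : Prop :=
  ∃ n f : W, n.1 ∈ omZ ∧ IsFn f.1 n.1 ∧ ∀ t : W, t.1 ∈ p.1 →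
    ∃ i : W, i.1 ∈ n.1 ∧ ZFSet.pair i.1 t.1 ∈ f.1

private def PB (W : Set ZFSet.{0}) (p : W) : Prop :=
  ∀ t : W, t.1 ∈ p.1 → ∃ a m b : W, t.1 = trip a.1 m.1 b.1 ∧ b.1 ∈ a.1

private def PC' (W : Set ZFSet.{0}) (p : W) : Prop :=
  ∀ a m b b' : W, trip a.1 m.1 b.1 ∈ p.1 → trip a.1 m.1 b'.1 ∈ p.1 → b = b'

private theorem md_PA (hM : ZF0 W) : MD W fun p : W => PA W p := by
  unfold PA
  refine MD.ex (P := fun (p : W) n => ∃ f : W, n.1 ∈ omZ ∧ IsFn f.1 n.1 ∧ ∀ t : W, t.1 ∈ p.1 →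
    ∃ i : W, i.1 ∈ n.1 ∧ ZFSet.pair i.1 t.1 ∈ f.1) ?_
  refine MD.ex (P := fun (x : W × W) f => x.2.1 ∈ omZ ∧ IsFn f.1 x.2.1 ∧ ∀ t : W, t.1 ∈ x.1.1 →
    ∃ i : W, i.1 ∈ x.2.1 ∧ ZFSet.pair i.1 t.1 ∈ f.1) ?_
  have n1 : DFc W fun x : (W × W) × W => x.1.2 := wc_w wc_v
  have f1 : DFc W fun x : (W × W) × W => x.2 := wc_v
  have p1 : DFc W fun x : (W × W) × W => x.1.1 := wc_w (DFc.fst DFc.id)
  have c1 : DFc W fun x : (W × W) × W => (⟨omZ, hM.om⟩ : W) := DFc.const _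
  refine MD.and (MD.mem n1 c1 :) (MD.and (wc_isFn hM f1 n1) ?_)
  refine MD.all (P := fun (x : (W × W) × W) t => t.1 ∈ x.1.1.1 →
    ∃ i : W, i.1 ∈ x.1.2.1 ∧ ZFSet.pair i.1 t.1 ∈ x.2.1) ?_
  refine MD.imp (MD.mem wc_v (wc_w p1) :) ?_
  refine MD.ex (P := fun (x : ((W × W) × W) × W) i => i.1 ∈ x.1.1.2.1 ∧
    ZFSet.pair i.1 x.2.1 ∈ x.1.2.1) ?_
  exact MD.and (MD.mem wc_v (wc_w (wc_w n1)) :) (wc_pm hM wc_v (wc_w wc_v) (wc_w (wc_w f1)))

private theorem md_PB (hM : ZF0 W) : MD W fun p : W => PB W p := by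
  unfold PB
  refine MD.all (P := fun (p : W) t => t.1 ∈ p.1 → ∃ a m b : W, t.1 = trip a.1 m.1 b.1 ∧ b.1 ∈ a.1) ?_
  refine MD.imp (MD.mem wc_v (DFc.fst DFc.id) :) ?_
  refine MD.ex (P := fun (x : W × W) a => ∃ m b : W, x.2.1 = trip a.1 m.1 b.1 ∧ b.1 ∈ a.1) ?_
  refine MD.ex (P := fun (x : (W × W) × W) m => ∃ b : W, x.1.2.1 = trip x.2.1 m.1 b.1 ∧
    b.1 ∈ x.2.1) ?_
  refine MD.ex (P := fun (x : ((W × W) × W) × W) b => x.1.1.2.1 = trip x.1.2.1 x.2.1 b.1 ∧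
    b.1 ∈ x.1.2.1) ?_
  have b1 : DFc W fun x : (((W × W) × W) × W) × W => x.2 := wc_v
  have m1 : DFc W fun x : (((W × W) × W) × W) × W => x.1.2 := wc_w wc_v
  have a1 : DFc W fun x : (((W × W) × W) × W) × W => x.1.1.2 := wc_w (wc_w wc_v)
  have t1 : DFc W fun x : (((W × W) × W) × W) × W => x.1.1.1.2 := wc_w (wc_w (wc_w wc_v))
  exact MD.and (wc_te hM a1 m1 b1 t1) (MD.mem b1 a1 :)

private theorem md_PC' (hM : ZF0 W) : MD W fun p : W => PC' W p := by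
  unfold PC'
  refine MD.all (P := fun (p : W) a => ∀ m b b' : W, trip a.1 m.1 b.1 ∈ p.1 →
    trip a.1 m.1 b'.1 ∈ p.1 → b = b') ?_
  refine MD.all (P := fun (x : W × W) m => ∀ b b' : W, trip x.2.1 m.1 b.1 ∈ x.1.1 →
    trip x.2.1 m.1 b'.1 ∈ x.1.1 → b = b') ?_
  refine MD.all (P := fun (x : (W × W) × W) b => ∀ b' : W, trip x.1.2.1 x.2.1 b.1 ∈ x.1.1.1 →
    trip x.1.2.1 x.2.1 b'.1 ∈ x.1.1.1 → b = b') ?_
  refine MD.all (P := fun (x : ((W × W) × W) × W) b' =>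
    trip x.1.1.2.1 x.1.2.1 x.2.1 ∈ x.1.1.1.1 →
    trip x.1.1.2.1 x.1.2.1 b'.1 ∈ x.1.1.1.1 → x.2 = b') ?_
  have c1 : DFc W fun x : (((W × W) × W) × W) × W => x.2 := wc_v
  have b1 : DFc W fun x : (((W × W) × W) × W) × W => x.1.2 := wc_w wc_v
  have m1 : DFc W fun x : (((W × W) × W) × W) × W => x.1.1.2 := wc_w (wc_w wc_v)
  have a1 : DFc W fun x : (((W × W) × W) × W) × W => x.1.1.1.2 := wc_w (wc_w (wc_w wc_v))
  have p1 : DFc W fun x : (((W × W) × W) × W) × W => x.1.1.1.1 :=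
    wc_w (wc_w (wc_w (DFc.fst DFc.id)))
  exact MD.imp (wc_tm hM a1 m1 b1 p1) (MD.imp (wc_tm hM a1 m1 c1 p1) (MD.eq b1 c1 :))

private theorem wc_sub {lam : Ordinal.{0}} {p : ZFSet.{0}} (h : IsCond lam p) :
    p ⊆ lam.toZFSet.prod (omZ.prod lam.toZFSet) := by
  intro t ht
  obtain ⟨α, β, n, h1, h2, rfl⟩ := h.2.1 t ht
  unfold trip
  rw [ZFSet.pair_mem_prod, ZFSet.pair_mem_prod, Ordinal.toZFSet_mem_toZFSet_iff,
    Ordinal.toZFSet_mem_toZFSet_iff]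
  exact ⟨h2, natZ_mem_omZ n, h1.trans h2⟩

/-! ### The collapse -/

theorem mem_Col {lam : Ordinal.{0}} {p : ZFSet.{0}} : p ∈ Col lam ↔ IsCond lam p := by
  unfold Col
  rw [ZFSet.mem_sep, ZFSet.mem_powerset]
  exact ⟨fun h => h.2, fun h => ⟨wc_sub h, h⟩⟩

theorem mem_ColR {lam : Ordinal.{0}} {p q : ZFSet.{0}} :
    ZFSet.pair p q ∈ ColR lam ↔ p ∈ Col lam ∧ q ∈ Col lam ∧ q ⊆ p := by
  unfold ColR
  rw [ZFSet.mem_sep, ZFSet.pair_mem_prod]
  constructor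
  · rintro ⟨⟨h1, h2⟩, p', q', h3, h4⟩
    obtain ⟨rfl, rfl⟩ := ZFSet.pair_injective h3
    exact ⟨h1, h2, h4⟩
  · rintro ⟨h1, h2, h3⟩
    exact ⟨⟨h1, h2⟩, p, q, rfl, h3⟩

theorem ColR_sub {lam : Ordinal.{0}} {z : ZFSet.{0}} (h : z ∈ ColR lam) :
    ∃ p q, z = ZFSet.pair p q := by
  unfold ColR at h
  rw [ZFSet.mem_sep] at h
  obtain ⟨-, p, q, h, -⟩ := h
  exact ⟨p, q, h⟩

theorem Col_mem (h : InnerZFC W) (lam : Ordinal.{0}) : Col lam ∈ W := by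
  have hM : ZF0 W := h.zf0
  have hD : lam.toZFSet.prod (omZ.prod lam.toZFSet) ∈ W :=
    hM.prodZ (h.ord lam) (hM.prodZ hM.om (h.ord lam))
  obtain ⟨y, hy, hyp⟩ := h.power _ hD
  obtain ⟨b, hb⟩ := hM.sep (fun p : W => PA W p ∧ PB W p ∧ PC' W p)
    (MD.and (md_PA hM) (MD.and (md_PB hM) (md_PC' hM))) ⟨y, hy⟩
  have e : Col lam = b.1 := by
    ext p
    rw [mem_Col]
    constructor
    · intro hp
      have hsub := wc_sub hp
      have hpW : ∀ t ∈ p, t ∈ W := fun t ht => hM.trans _ hD _ (hsub ht)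
      obtain ⟨hpm, n, f, hf, hfn, hfp⟩ := wc_fin_mem hM hp.1 hpW
      refine (hb ⟨p, hpm⟩).2 ⟨(hyp p).2 ⟨hpm, hsub⟩, ?_, ?_, ?_⟩
      · refine ⟨⟨natZ n, hM.natZ_mem n⟩, ⟨f, hf⟩, natZ_mem_omZ n, hfn, fun t ht => ?_⟩
        obtain ⟨i, hi, h1⟩ := hfp t.1 ht
        obtain ⟨k, hk, rfl⟩ := wc_mem_natZ.1 hi
        exact ⟨⟨natZ k, hM.natZ_mem k⟩, hi, h1⟩
      · intro t ht
        obtain ⟨α, β, n, h1, h2, h3⟩ := hp.2.1 t.1 ht
        exact ⟨⟨_, h.ord α⟩, ⟨_, hM.natZ_mem n⟩, ⟨_, h.ord β⟩, h3,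
          Ordinal.toZFSet_mem_toZFSet_iff.2 h1⟩
      · intro a m b b' h1 h2
        obtain ⟨α, β, n, h3, h4, h5⟩ := hp.2.1 _ h1
        obtain ⟨e1, e2, e3⟩ := wc_trip_inj h5
        obtain ⟨α', β', n', h3', h4', h5'⟩ := hp.2.1 _ h2
        obtain ⟨e1', e2', e3'⟩ := wc_trip_inj h5'
        rw [e1, e2, e3] at h1
        rw [e1, e2, e3'] at h2
        have h6 := hp.2.2 α β β' n h1 h2
        apply Subtype.ext
        rw [e3, e3', h6]
    · intro hp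
      have hpW : p ∈ W := hM.trans _ b.2 _ hp
      obtain ⟨h1, ⟨n, f, hn, hfn, hfp⟩, h3, h4⟩ := (hb ⟨p, hpW⟩).1 hp
      have h2 := ((hyp p).1 h1).2
      obtain ⟨k, hk⟩ := mem_omZ.1 hn
      rw [hk] at hfn
      have hW : ∀ t ∈ p, t ∈ W := fun t ht => hM.trans _ hpW _ ht
      refine ⟨wc_finite hfn fun t ht => ?_, fun t ht => ?_, fun α β β' n h5 h6 => ?_⟩
      · obtain ⟨i, hi, h5⟩ := hfp ⟨t, hW t ht⟩ ht
        exact ⟨i.1, hk ▸ hi, h5⟩
      · obtain ⟨a, m, b, h5, h6⟩ := h3 ⟨t, hW t ht⟩ ht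
        change t = _ at h5
        have h7 := h2 ht
        rw [h5] at h7
        unfold trip at h7
        rw [ZFSet.pair_mem_prod, ZFSet.pair_mem_prod, Ordinal.mem_toZFSet_iff,
          Ordinal.mem_toZFSet_iff] at h7
        obtain ⟨⟨α, hα, e1⟩, h8, ⟨β, hβ, e2⟩⟩ := h7
        obtain ⟨j, e3⟩ := mem_omZ.1 h8
        rw [← e1, ← e2, Ordinal.toZFSet_mem_toZFSet_iff] at h6
        exact ⟨α, β, j, h6, hα, by rw [h5, e1, e2, e3]⟩
      · have h7 := h4 ⟨_, h.ord α⟩ ⟨_, hM.natZ_mem n⟩ ⟨_, h.ord β⟩ ⟨_, h.ord β'⟩ h5 h6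
        exact Ordinal.toZFSet_injective (congrArg Subtype.val h7)
  rw [e]
  exact b.2

theorem ColR_mem (h : InnerZFC W) (lam : Ordinal.{0}) : ColR lam ∈ W := by
  have hM : ZF0 W := h.zf0
  have hC := Col_mem h lam
  have hD : (Col lam).prod (Col lam) ∈ W := hM.prodZ hC hC
  have hP : MD W fun z : W => ∃ p q : W, z.1 = ZFSet.pair p.1 q.1 ∧
      ∀ t : W, t.1 ∈ q.1 → t.1 ∈ p.1 := by
    refine MD.ex (P := fun (z : W) p => ∃ q : W, z.1 = ZFSet.pair p.1 q.1 ∧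
      ∀ t : W, t.1 ∈ q.1 → t.1 ∈ p.1) ?_
    refine MD.ex (P := fun (x : W × W) q => x.1.1 = ZFSet.pair x.2.1 q.1 ∧
      ∀ t : W, t.1 ∈ q.1 → t.1 ∈ x.2.1) ?_
    have q1 : DFc W fun x : (W × W) × W => x.2 := wc_v
    have p1 : DFc W fun x : (W × W) × W => x.1.2 := wc_w wc_v
    have z1 : DFc W fun x : (W × W) × W => x.1.1 := wc_w (DFc.fst DFc.id)
    refine MD.and ?_ ?_
    · refine MD.congr (fun x => ?_) (MD.eq z1 (DFc.zpr hM p1 q1))
      exact Subtype.ext_iff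
    · refine MD.all (P := fun (x : (W × W) × W) t => t.1 ∈ x.2.1 → t.1 ∈ x.1.2.1) ?_
      exact MD.imp (MD.mem wc_v (wc_w q1) :) (MD.mem wc_v (wc_w p1) :)
  obtain ⟨b, hb⟩ := hM.sep _ hP ⟨_, hD⟩
  have e : ColR lam = b.1 := by
    ext z
    constructor
    · intro hz
      obtain ⟨p, q, rfl⟩ := ColR_sub hz
      obtain ⟨hp, hq, hqp⟩ := mem_ColR.1 hz
      have hpW := hM.trans _ hC _ hp
      have hqW := hM.trans _ hC _ hq
      exact (hb ⟨_, hM.pairZ hpW hqW⟩).2 ⟨ZFSet.pair_mem_prod.2 ⟨hp, hq⟩, ⟨p, hpW⟩, ⟨q, hqW⟩, rfl,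
        fun t ht => hqp ht⟩
    · intro hz
      have hzW := hM.trans _ b.2 _ hz
      obtain ⟨h1, p, q, h2, h3⟩ := (hb ⟨z, hzW⟩).1 hz
      change z = _ at h2
      change z ∈ (Col lam).prod (Col lam) at h1
      rw [h2] at h1 ⊢
      obtain ⟨h4, h5⟩ := ZFSet.pair_mem_prod.1 h1
      exact mem_ColR.2 ⟨h4, h5, fun t ht => h3 ⟨t, hM.trans _ q.2 _ ht⟩ ht⟩
  rw [e]
  exact b.2

theorem Col_isPoset {M : Set ZFSet.{0}} {lam : Ordinal.{0}} (h1 : Col lam ∈ M)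
    (h2 : ColR lam ∈ M) : IsPoset M (Col lam) (ColR lam) := by
  refine ⟨h1, h2, ⟨∅, mem_Col.2 ⟨?_, ?_, ?_⟩⟩, fun x hx => mem_ColR.2 ⟨hx, hx, fun _ h => h⟩, ?_⟩
  · have e : {t : ZFSet.{0} | t ∈ (∅ : ZFSet.{0})} = ∅ :=
      eq_empty_of_forall_notMem fun t ht => ZFSet.notMem_empty t ht
    rw [e]
    exact finite_empty
  · intro t ht
    exact (ZFSet.notMem_empty t ht).elim
  · intro α β β' n ht
    exact (ZFSet.notMem_empty _ ht).elim
  · intro x _ y _ z _ hxy hyz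
    obtain ⟨a1, -, a3⟩ := mem_ColR.1 hxy
    obtain ⟨-, b2, b3⟩ := mem_ColR.1 hyz
    exact mem_ColR.2 ⟨a1, b2, fun t ht => a3 (b3 ht)⟩

theorem Col_mono {lam mu : Ordinal.{0}} (h : lam ≤ mu) {p : ZFSet.{0}} (hp : p ∈ Col lam) :
    p ∈ Col mu := by
  rw [mem_Col] at hp ⊢
  refine ⟨hp.1, fun t ht => ?_, hp.2.2⟩
  obtain ⟨α, β, n, h1, h2, h3⟩ := hp.2.1 t ht
  exact ⟨α, β, n, h1, lt_of_lt_of_le h2 h, h3⟩

private theorem wc_mem_V {lam : Ordinal.{0}} (h : Order.IsSuccLimit lam) {p : ZFSet.{0}}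
    (hp : p ∈ Col lam) : p.rank < lam := by
  rw [mem_Col] at hp
  obtain ⟨b, hb, h1⟩ := wc_fin h hp.1 ZFSet.rank fun t ht => by
    obtain ⟨α, β, n, h1, h2, rfl⟩ := hp.2.1 t ht
    refine wc_pair_lt h ?_ (wc_pair_lt h ?_ ?_)
    · rw [Ordinal.rank_toZFSet]
      exact h2
    · unfold natZ
      rw [Ordinal.rank_toZFSet]
      exact wc_nat_lt h n
    · rw [Ordinal.rank_toZFSet]
      exact h1.trans h2
  exact lt_of_le_of_lt (ZFSet.rank_le_iff.2 fun y hy => h1 y hy) hb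

private theorem wc_of_rank {δ mu : Ordinal.{0}} {p : ZFSet.{0}} (hp : p ∈ Col mu)
    (hV : p.rank ≤ δ) : p ∈ Col δ := by
  rw [mem_Col] at hp ⊢
  refine ⟨hp.1, fun t ht => ?_, hp.2.2⟩
  obtain ⟨α, β, n, h1, h2, h3⟩ := hp.2.1 t ht
  refine ⟨α, β, n, h1, ?_, h3⟩
  have h4 : α.toZFSet.rank < t.rank := by
    rw [h3]
    exact wc_lt_rank_pair _ _
  rw [Ordinal.rank_toZFSet] at h4
  exact lt_of_lt_of_le (h4.trans (ZFSet.rank_lt_of_mem ht)) hV

theorem Col_bdd {p : ZFSet.{0}} (hp : p ∈ Col (Ordinal.omega 1)) : ∃ lam : Om, p ∈ Col lam.1 :=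
  ⟨⟨p.rank, wc_mem_V wc_om1 hp⟩, wc_of_rank hp le_rfl⟩

theorem Col_mem_V {lam : Ordinal.{0}} (h : Order.IsSuccLimit lam) {p : ZFSet.{0}}
    (hp : p ∈ Col lam) : p ∈ V_ lam :=
  ZFSet.mem_vonNeumann.2 (wc_mem_V h hp)

theorem Col_V (lam : Om) : Col lam.1 ∈ V_ (Ordinal.omega 1) ∧ ColR lam.1 ∈ V_ (Ordinal.omega 1) := by
  have h1 : (lam.1.toZFSet).rank < Ordinal.omega 1 := by
    rw [Ordinal.rank_toZFSet]
    exact lam.2
  have h2 : omZ.rank < Ordinal.omega 1 := by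
    unfold omZ
    rw [Ordinal.rank_toZFSet]
    exact Ordinal.omega0_lt_omega_one
  have h3 := wc_prod_lt wc_om1 h1 (wc_prod_lt wc_om1 h2 h1)
  have h4 : (Col lam.1).rank < Ordinal.omega 1 := by
    unfold Col
    refine lt_of_le_of_lt (ZFSet.rank_mono (ZFSet.sep_subset)) ?_
    rw [ZFSet.rank_powerset]
    exact wc_om1.succ_lt h3
  refine ⟨ZFSet.mem_vonNeumann.2 h4, ZFSet.mem_vonNeumann.2 ?_⟩
  unfold ColR
  exact lt_of_le_of_lt (ZFSet.rank_mono (ZFSet.sep_subset)) (wc_prod_lt wc_om1 h4 h4)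

theorem Col_of_mem_V {δ : Ordinal.{0}} {p : ZFSet.{0}} (hp : p ∈ Col (Ordinal.omega 1))
    (hV : p ∈ V_ δ) : p ∈ Col δ :=
  wc_of_rank hp (ZFSet.mem_vonNeumann.1 hV).le

theorem exists_restr {lam mu : Ordinal.{0}} {p : ZFSet.{0}} (hp : p ∈ Col mu) :
    ∃ p' ∈ Col lam, p' ⊆ p ∧ ∀ d ∈ Col lam, p' ⊆ d → lam ≤ mu → d ∪ p ∈ Col mu := by
  rw [mem_Col] at hp
  have hs : ∀ t, t ∈ ZFSet.sep (fun t => ∃ α < lam, ∃ b, t = ZFSet.pair α.toZFSet b) p ↔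
      t ∈ p ∧ ∃ α < lam, ∃ b, t = ZFSet.pair α.toZFSet b := fun t => ZFSet.mem_sep
  refine ⟨ZFSet.sep (fun t => ∃ α < lam, ∃ b, t = ZFSet.pair α.toZFSet b) p, mem_Col.2 ⟨?_, ?_, ?_⟩,
    fun t ht => ((hs t).1 ht).1, fun d hd hpd hlm => ?_⟩
  · exact hp.1.subset fun t ht => ((hs t).1 ht).1
  · intro t ht
    obtain ⟨h1, α, hα, b, e⟩ := (hs t).1 ht
    obtain ⟨α', β, n, h2, h3, e'⟩ := hp.2.1 t h1
    have e2 : α = α' := by
      rw [e'] at e
      exact (Ordinal.toZFSet_injective (ZFSet.pair_injective e).1).symm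
    exact ⟨α', β, n, h2, e2 ▸ hα, e'⟩
  · intro α β β' n h1 h2
    exact hp.2.2 α β β' n ((hs _).1 h1).1 ((hs _).1 h2).1
  · rw [mem_Col] at hd ⊢
    refine ⟨?_, ?_, ?_⟩
    · refine (hd.1.union hp.1).subset fun t ht => ?_
      exact ZFSet.mem_union.1 ht
    · intro t ht
      rcases ZFSet.mem_union.1 ht with ht | ht
      · obtain ⟨α, β, n, h1, h2, h3⟩ := hd.2.1 t ht
        exact ⟨α, β, n, h1, lt_of_lt_of_le h2 hlm, h3⟩
      · exact hp.2.1 t ht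
    · have key : ∀ (α β β' : Ordinal.{0}) (n : ℕ), trip α.toZFSet (natZ n) β.toZFSet ∈ d →
          trip α.toZFSet (natZ n) β'.toZFSet ∈ p → trip α.toZFSet (natZ n) β'.toZFSet ∈ d := by
        intro α β β' n h1 h2
        obtain ⟨α', β'', n', h3, h4, e⟩ := hd.2.1 _ h1
        have e2 : α = α' := Ordinal.toZFSet_injective (wc_trip_inj e).1
        exact hpd ((hs _).2 ⟨h2, α, e2 ▸ h4, _, rfl⟩)
      intro α β β' n h1 h2
      rcases ZFSet.mem_union.1 h1 with h1 | h1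
      · rcases ZFSet.mem_union.1 h2 with h2 | h2
        · exact hd.2.2 α β β' n h1 h2
        · exact hd.2.2 α β β' n h1 (key α β β' n h1 h2)
      · rcases ZFSet.mem_union.1 h2 with h2 | h2
        · exact hd.2.2 α β β' n (key α β' β n h2 h1) h2
        · exact hp.2.2 α β β' n h1 h2

end RMK
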