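import Pool.Agent.RMK.S.WMod
import Pool.Agent.RMK.S.WCol

/-!
RMK WGEN: the filters `GLam G lam = G ∩ Col(ω, < lam)` are generic over `MK W`, and every subset of an element of
`MK W` has a name in `MK W` with respect to some of them.

PROOFS.
`mem_G_iff`: (→) `hG.sub`; for `t ∈ p` take `q = p`.  (←) `p` is finite; by directedness there is `q ∈ G` containing all
`t ∈ p` (induction on finite subsets; `pair z x ∈ ColR` means `x ⊆ z`), `p ⊆ q`, so `p ∈ G` by `up`.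
`GLam_generic`: let `lam : Om`.  `sub`: by definition.  `ne`: `∅ ∈ G`.  `up`, `dir`: `up` of `G`; for `x, y ∈ GLam` take
`z ∈ G` below both and `z' = exists_restr` of `z` (the part below `lam`): `z' ∈ Col lam`, `z' ⊆ z` so `z' ∈ G`, and `x, y ⊆ z'`
(the entries of `x` are below `lam`; this needs that `z'` is the exact part below `lam`: alternatively take
`x ∪ y`, which is a condition since `x ∪ y ⊆ z`, and it is in `G` by `mem_G_iff`).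
`meets`: let `D ∈ MK W` be dense in `Col lam`.  `D' = {p ∈ Col ω₁ | ∃ d ∈ D, d ⊆ p}` is in `W` (`sep` of `ZF0 W`) and dense in
`Col ω₁`: given `p`, let `p'` be from `exists_restr`, `d ∈ D` with `p' ⊆ d`, `d ∪ p ∈ Col ω₁` is in `D'`.  So there is
`p ∈ G ∩ D'`, and `d ∈ D`, `d ⊆ p`, is in `G` by `up`, so in `GLam`.
`exists_name`: `names` gives `σ ∈ W` with `x ∈ z ↔ x ∈ a ∧ ∃ p ∈ G, pair x p ∈ σ`.  `a` is countable (`(zmodel_MK h).ctbl`);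
choose for every `x ∈ z` such a `p_x`, `p_x ∈ Col lam_x` (`Col_bdd`), and `lam` above all `lam_x` (`Om.bdd`,
`Col_mono`).  Let `σ' = σ ∩ (a × Col lam)`, in `W` (`inter`, `prodZ` of `ZF0`), of rank `< ω₁`.
`ground_MK`: `zmodel_MK`, `exists_name`, `Col_isPoset`, `GLam_generic` (`Col lam ∈ MK W` by `Col_mem`, `Col_V`).
-/

namespace RMK

open Set PU
open scoped ZFSet

variable {W G : Set ZFSet.{0}}

private theorem wg_empty (lam : Ordinal.{0}) : (∅ : ZFSet.{0}) ∈ Col lam := by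
  refine mem_Col.2 ⟨?_, fun t ht => (ZFSet.notMem_empty t ht).elim,
    fun α β β' n ht => (ZFSet.notMem_empty _ ht).elim⟩
  have e : {t : ZFSet.{0} | t ∈ (∅ : ZFSet.{0})} = ∅ :=
    eq_empty_of_forall_notMem fun t ht => ZFSet.notMem_empty t ht
  rw [e]
  exact finite_empty

private theorem wg_up (h : Solovay W G) {p q : ZFSet.{0}} (hq : q ∈ G)
    (hp : p ∈ Col (Ordinal.omega 1)) (hpq : p ⊆ q) : p ∈ G :=
  h.gen.up q hq p hp (mem_ColR.2 ⟨h.gen.sub q hq, hp, hpq⟩)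

private theorem wg_dir (h : Solovay W G) {p q : ZFSet.{0}} (hp : p ∈ G) (hq : q ∈ G) :
    ∃ z ∈ G, p ⊆ z ∧ q ⊆ z := by
  obtain ⟨z, hz, h1, h2⟩ := h.gen.dir p hp q hq
  exact ⟨z, hz, (mem_ColR.1 h1).2.2, (mem_ColR.1 h2).2.2⟩

private theorem wg_w {X : Type 1} [Ctx W X] {g : X → W} (hg : DFc W g) :
    DFc W fun p : X × W => g p.1 :=
  (DFc.comp hg (DFc.fst (DFc.id (M := W) (X := X × W))) :)

private theorem wg_v {X : Type 1} [Ctx W X] : DFc W fun p : X × W => p.2 :=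
  (DFc.snd (DFc.id (M := W) (X := X × W)) :)

theorem mem_G_iff (h : Solovay W G) {p : ZFSet.{0}} :
    p ∈ G ↔ p ∈ Col (Ordinal.omega 1) ∧ ∀ t ∈ p, ∃ q ∈ G, t ∈ q := by
  constructor
  · intro hp
    exact ⟨h.gen.sub p hp, fun t ht => ⟨p, hp, ht⟩⟩
  · rintro ⟨hp, hG⟩
    have key : ∀ s : Set ZFSet.{0}, s.Finite → (∀ t ∈ s, ∃ q ∈ G, t ∈ q) →
        ∃ q ∈ G, ∀ t ∈ s, t ∈ q := by
      intro s hs
      induction s, hs using Set.Finite.induction_on with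
      | empty =>
        intro _
        obtain ⟨q, hq⟩ := h.gen.ne
        exact ⟨q, hq, fun t ht => ht.elim⟩
      | @insert a s _ _ ih =>
        intro hs
        obtain ⟨q, hq, h1⟩ := ih fun t ht => hs t (mem_insert_of_mem _ ht)
        obtain ⟨q', hq', h2⟩ := hs a (mem_insert _ _)
        obtain ⟨z, hz, h3, h4⟩ := wg_dir h hq hq'
        refine ⟨z, hz, ?_⟩
        rintro t (rfl | ht)
        · exact h4 h2
        · exact h3 (h1 t ht)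
    obtain ⟨q, hq, h1⟩ := key {t | t ∈ p} (mem_Col.1 hp).1 hG
    exact wg_up h hq hp fun t ht => h1 t ht

theorem Col_mem_MK (h : InnerZFC W) (lam : Om) : Col lam.1 ∈ MK W ∧ ColR lam.1 ∈ MK W :=
  ⟨⟨Col_mem h _, (Col_V lam).1⟩, ⟨ColR_mem h _, (Col_V lam).2⟩⟩

theorem GLam_generic (h : Solovay W G) (lam : Om) :
    IsGeneric (MK W) (Col lam.1) (ColR lam.1) (GLam G lam.1) := by
  have hle : lam.1 ≤ Ordinal.omega 1 := lam.2.le
  refine ⟨fun x hx => hx.2, ⟨∅, ?_, wg_empty _⟩, ?_, ?_, ?_⟩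
  · exact (mem_G_iff h).2 ⟨wg_empty _, fun t ht => (ZFSet.notMem_empty t ht).elim⟩
  · intro x hx y hy hxy
    exact ⟨wg_up h hx.1 (Col_mono hle hy) (mem_ColR.1 hxy).2.2, hy⟩
  · intro x hx y hy
    obtain ⟨z, hz, h1, h2⟩ := wg_dir h hx.1 hy.1
    have hzc := mem_Col.1 (h.gen.sub z hz)
    have hxc := mem_Col.1 hx.2
    have hyc := mem_Col.1 hy.2
    have hsub : x ∪ y ⊆ z := by
      intro t ht
      rcases ZFSet.mem_union.1 ht with ht | ht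
      · exact h1 ht
      · exact h2 ht
    have hc : x ∪ y ∈ Col lam.1 := by
      rw [mem_Col]
      refine ⟨(hxc.1.union hyc.1).subset fun t ht => ZFSet.mem_union.1 ht, fun t ht => ?_,
        fun α β β' n h3 h4 => hzc.2.2 α β β' n (hsub h3) (hsub h4)⟩
      rcases ZFSet.mem_union.1 ht with ht | ht
      · exact hxc.2.1 t ht
      · exact hyc.2.1 t ht
    refine ⟨x ∪ y, ⟨wg_up h hz (Col_mono hle hc) hsub, hc⟩, mem_ColR.2 ⟨hc, hx.2, fun t ht => ?_⟩,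
      mem_ColR.2 ⟨hc, hy.2, fun t ht => ?_⟩⟩
    · exact ZFSet.mem_union.2 (Or.inl ht)
    · exact ZFSet.mem_union.2 (Or.inr ht)
  · intro D hD hDs hdense
    have hM : ZF0 W := h.zfc.zf0
    have hP : MD W fun p : W => ∃ d : W, d.1 ∈ D ∧ ∀ t : W, t.1 ∈ d.1 → t.1 ∈ p.1 := by
      refine MD.ex (P := fun (p : W) d => d.1 ∈ D ∧ ∀ t : W, t.1 ∈ d.1 → t.1 ∈ p.1) ?_
      have c1 : DFc W fun x : W × W => (⟨D, hD.1⟩ : W) := DFc.const _
      have d1 : DFc W fun x : W × W => x.2 := wg_v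
      have p1 : DFc W fun x : W × W => x.1 := DFc.fst DFc.id
      refine MD.and (MD.mem d1 c1 :) ?_
      refine MD.all (P := fun (x : W × W) t => t.1 ∈ x.2.1 → t.1 ∈ x.1.1) ?_
      exact MD.imp (MD.mem wg_v (wg_w d1) :) (MD.mem wg_v (wg_w p1) :)
    obtain ⟨D', hD'⟩ := hM.sep _ hP ⟨_, Col_mem h.zfc (Ordinal.omega 1)⟩
    have hD1 : ∀ p, p ∈ D'.1 ↔ p ∈ Col (Ordinal.omega 1) ∧ ∃ d ∈ D, d ⊆ p := by
      intro p
      constructor
      · intro hp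
        obtain ⟨h1, d, h2, h3⟩ := (hD' ⟨p, hM.trans _ D'.2 _ hp⟩).1 hp
        exact ⟨h1, d.1, h2, fun t ht => h3 ⟨t, hM.trans _ d.2 _ ht⟩ ht⟩
      · rintro ⟨h1, d, h2, h3⟩
        exact (hD' ⟨p, hM.trans _ (Col_mem h.zfc _) _ h1⟩).2 ⟨h1, ⟨d, hM.trans _ hD.1 _ h2⟩, h2,
          fun t ht => h3 ht⟩
    obtain ⟨x, hx, hxD⟩ := h.gen.meets D'.1 D'.2 (fun p hp => ((hD1 p).1 hp).1) fun p hp => by
      obtain ⟨p', hp', h1, h2⟩ := exists_restr (lam := lam.1) hp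
      obtain ⟨d, hd, hdp⟩ := hdense p' hp'
      obtain ⟨h3, -, h4⟩ := mem_ColR.1 hdp
      have h5 := h2 d h3 h4 hle
      exact ⟨d ∪ p, (hD1 _).2 ⟨h5, d, hd, fun t ht => ZFSet.mem_union.2 (Or.inl ht)⟩,
        mem_ColR.2 ⟨h5, hp, fun t ht => ZFSet.mem_union.2 (Or.inr ht)⟩⟩
    obtain ⟨-, d, hd, hdx⟩ := (hD1 x).1 hxD
    have h1 := hDs hd
    exact ⟨d, ⟨wg_up h hx (Col_mono hle h1) hdx, h1⟩, hd⟩

theorem exists_name (h : Solovay W G) {a z : ZFSet.{0}} (ha : a ∈ MK W) (hz : z ⊆ a) :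
    ∃ (lam : Om) (σ : ZFSet.{0}), σ ∈ MK W ∧
      ∀ x, x ∈ z ↔ x ∈ a ∧ ∃ p ∈ GLam G lam.1, ZFSet.pair x p ∈ σ := by
  have hZ := zmodel_MK h
  obtain ⟨σ, hσ, hσz⟩ := h.names a ha.1 z hz
  have h1 : ∀ x, ∃ l : Om, x ∈ z → ∃ p ∈ G, ZFSet.pair x p ∈ σ ∧ p ∈ Col l.1 := by
    intro x
    by_cases hx : x ∈ z
    · obtain ⟨-, p, hp, hxp⟩ := (hσz x).1 hx
      obtain ⟨l, hl⟩ := Col_bdd (h.gen.sub p hp)
      exact ⟨l, fun _ => ⟨p, hp, hxp, hl⟩⟩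
    · exact ⟨default, fun h => (hx h).elim⟩
  choose l hl using h1
  have h2 : (l '' {x | x ∈ z}).Countable :=
    ((hZ.ctbl a ha).mono fun x hx => hz hx).image _
  obtain ⟨lam, hlam⟩ := Om.bdd h2
  obtain ⟨hC, -⟩ := Col_mem_MK h.zfc lam
  have h3 : a.prod (Col lam.1) ∈ MK W := hZ.prodZ ha hC
  have hin : ∀ t, t ∈ σ ∩ a.prod (Col lam.1) ↔ t ∈ σ ∧ t ∈ a.prod (Col lam.1) :=
    fun t => ZFSet.mem_inter
  refine ⟨lam, σ ∩ a.prod (Col lam.1), ⟨h.zfc.inter hσ h3.1, ?_⟩, fun x => ⟨fun hx => ?_, ?_⟩⟩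
  · exact ZFSet.mem_vonNeumann_of_subset (fun t ht => ((hin t).1 ht).2) h3.2
  · obtain ⟨p, hp, hxp, hpl⟩ := hl x hx
    have h4 : p ∈ Col lam.1 := Col_mono (hlam _ (mem_image_of_mem _ hx)).le hpl
    exact ⟨hz hx, p, ⟨hp, h4⟩, (hin _).2 ⟨hxp, ZFSet.pair_mem_prod.2 ⟨hz hx, h4⟩⟩⟩
  · rintro ⟨hxa, p, hp, hxp⟩
    exact (hσz x).2 ⟨hxa, p, hp.1, ((hin _).1 hxp).1⟩

theorem ground_MK (h : Solovay W G) : Ground (MK W) := by
  refine ⟨zmodel_MK h, fun a ha z hz => ?_⟩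
  obtain ⟨lam, σ, hσ, hx⟩ := exists_name h ha hz
  obtain ⟨h1, h2⟩ := Col_mem_MK h.zfc lam
  exact ⟨Col lam.1, ColR lam.1, σ, GLam G lam.1, Col_isPoset h1 h2, GLam_generic h lam, hσ, hx⟩

end RMK
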