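import Pool.Agent.RMK.S.WZf

/-!
RMK WMOD: `MK W = W ∩ V_{ω₁}` is a model as in `ZModel`.

PROOFS.  `x ∈ V_ ω₁ ↔ rank x < ω₁` (`mem_vonNeumann`).
`zmodel_MK`: `trans`: clear.  `ctbl`: for `x ∈ MK W`, the elements of `x` are in `W ∩ V_α`, `α = rank x < ω₁`;
`vw_countable`.  `pair`, `union`: in `W`, ranks (`rank_pair`, `rank_sUnion_le`).  `power`: the power set in `W`; its
rank is at most `rank x + 1`; its elements are the `z ∈ W`, `z ⊆ x`, all of which are in `MK W`.  `om`: `ord`.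
`sep`: let `S ⊆ MK W` be `Definable₁` and `a ∈ MK W`.  `definable₁_md` and `md_fml1` with `A = ∅` (`relE ∅ x y ↔ x ∈ y`)
give `φ, s` with `z ∈ S ↔ Sat (∈) (MK W) φ (update s 0 z)` for `z ∈ MK W`.  Let `m ∈ W` be the set of the elements of
`MK W` (`exists_vw` for `ω₁`); `Sat (∈) (MK W) φ t = SatZ m φ t`.  The predicate `z ↦ SatZ m φ (update s 0 z)` is `MD` over `W`
(`MD.satZ` with constants), so `b = {z ∈ a | SatZ m φ (update s 0 z)} ∈ W`, and `b ⊆ a` has rank `< ω₁`.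
-/

namespace RMK

open Set PU
open scoped ZFSet

variable {W G : Set ZFSet.{0}}

private theorem wm_iff {x : ZFSet.{0}} : x ∈ MK W ↔ x ∈ W ∧ x.rank < Ordinal.omega 1 := by
  unfold MK
  rw [mem_setOf_eq, ZFSet.mem_vonNeumann]

private theorem wm_succ {o : Ordinal.{0}} (h : o < Ordinal.omega 1) :
    Order.succ o < Ordinal.omega 1 :=
  (Cardinal.isSuccLimit_omega 1).succ_lt h

private theorem wm_relE : relE ∅ = fun a b : ZFSet.{0} => a ∈ b := by
  funext a b
  apply propext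
  constructor
  · rintro (h | ⟨-, h⟩)
    · exact h
    · exact absurd h (Set.notMem_empty _)
  · exact Or.inl

private theorem wm_upd {M : Set ZFSet.{0}} (s : ℕ → M) (z : M) :
    (fun i => (Function.update s 0 z i).1) = Function.update (fun i => (s i).1) 0 z.1 := by
  funext i
  by_cases hi : i = 0
  · subst hi
    simp
  · simp [Function.update_of_ne hi]

private theorem wm_dupd {M : Set ZFSet.{0}} (s : ℕ → M) :
    DFc M fun z : M => Function.update s 0 z := by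
  refine DFc.nat fun j => ?_
  by_cases hj : j = 0
  · subst hj
    have : (fun z : M => Function.update s 0 z 0) = fun z => z := by
      funext z
      simp
    rw [this]
    exact DFc.id
  · have : (fun z : M => Function.update s 0 z j) = fun _ => s j := by
      funext z
      exact Function.update_of_ne hj _ _
    rw [this]
    exact DFc.const _

theorem zmodel_MK (h : Solovay W G) : ZModel (MK W) := by
  have hW := h.zfc
  have hz := hW.zf0
  have hom : omZ ∈ MK W := by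
    refine wm_iff.2 ⟨hz.om, ?_⟩
    have e : omZ = (Ordinal.omega0 : Ordinal.{0}).toZFSet := rfl
    rw [e, Ordinal.rank_toZFSet]
    exact Ordinal.omega0_lt_omega_one
  refine ⟨?_, ?_, ?_, ?_, ?_, ?_, hom⟩
  · intro x hx y hy
    rw [wm_iff] at hx ⊢
    exact ⟨hW.trans x hx.1 y hy, (ZFSet.rank_lt_of_mem hy).trans hx.2⟩
  · intro x hx
    rw [wm_iff] at hx
    refine (vw_countable h ⟨x.rank, hx.2⟩).mono fun y hy => ?_
    exact ⟨hW.trans x hx.1 y hy, ZFSet.mem_vonNeumann.2 (ZFSet.rank_lt_of_mem hy)⟩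
  · intro x hx y hy
    rw [wm_iff] at hx hy ⊢
    refine ⟨hW.pair x hx.1 y hy.1, ?_⟩
    rw [ZFSet.rank_pair]
    exact max_lt (wm_succ hx.2) (wm_succ hy.2)
  · intro x hx
    rw [wm_iff] at hx ⊢
    exact ⟨hW.union x hx.1, (ZFSet.rank_sUnion_le x).trans_lt hx.2⟩
  · intro x hx
    rw [wm_iff] at hx
    obtain ⟨y, hy, h1⟩ := hW.power x hx.1
    refine ⟨y, wm_iff.2 ⟨hy, ?_⟩, fun z => ?_⟩
    · refine lt_of_le_of_lt (ZFSet.rank_le_iff.2 fun z hz' => ?_) (wm_succ hx.2)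
      exact Order.lt_succ_of_le (ZFSet.rank_mono ((h1 z).1 hz').2)
    · rw [h1, wm_iff]
      constructor
      · rintro ⟨h2, h3⟩
        exact ⟨⟨h2, (ZFSet.rank_mono h3).trans_lt hx.2⟩, h3⟩
      · rintro ⟨h2, h3⟩
        exact ⟨h2.1, h3⟩
  · intro S hS a ha
    have hP := definable₁_md hS
    obtain ⟨φ, s, hs, h1⟩ := md_fml1 ∅ hP ⟨_, hom⟩
    rw [wm_relE] at h1
    obtain ⟨m, hm, hm1⟩ := exists_vw hW (Ordinal.omega 1)
    have hsm : {z : ZFSet.{0} | z ∈ m} = MK W := by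
      ext z
      exact hm1 z
    obtain ⟨s', hs'⟩ : ∃ s' : ℕ → W, ∀ i, (s' i).1 = s i :=
      ⟨fun i => ⟨s i, (wm_iff.1 (hs i)).1⟩, fun _ => rfl⟩
    have e1 : (fun i => (s' i).1) = s := funext hs'
    have hMD : MD W fun z : W => SatZ (⟨m, hm⟩ : W).1 φ fun i => (Function.update s' 0 z i).1 :=
      MD.satZ hz φ (DFc.const _) (wm_dupd s')
    rw [wm_iff] at ha
    obtain ⟨b, hb⟩ := hz.sep _ hMD ⟨a, ha.1⟩
    have hba : b.1 ⊆ a := by
      intro z hzb
      exact ((hb ⟨z, hW.trans _ b.2 z hzb⟩).1 hzb).1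
    refine ⟨b.1, wm_iff.2 ⟨b.2, (ZFSet.rank_mono hba).trans_lt ha.2⟩, fun z => ?_⟩
    have hzW : z.1 ∈ W := (wm_iff.1 z.2).1
    have h2 := hb ⟨z.1, hzW⟩
    have h3 : (SatZ (⟨m, hm⟩ : W).1 φ fun i =>
        (Function.update s' 0 (⟨z.1, hzW⟩ : W) i).1) ↔ z ∈ S := by
      rw [wm_upd, e1]
      refine Iff.trans ?_ (h1 z).symm
      unfold SatZ
      rw [hsm]
    rw [h3] at h2
    exact h2

theorem mk_MK_le (h : Solovay W G) : Cardinal.mk (MK W) ≤ Cardinal.aleph 1 := by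
  have hOm : Cardinal.mk Om = Cardinal.aleph 1 := by
    have h1 := Cardinal.mk_Iio_ordinal (Ordinal.omega.{0} 1)
    rw [Ordinal.card_omega] at h1
    have h2 : Cardinal.lift.{1, 0} (Cardinal.aleph 1) = Cardinal.aleph.{1} 1 := by
      rw [Cardinal.lift_aleph, Ordinal.lift_one]
    rw [← h2]
    exact h1
  have hsub : MK W ⊆ ⋃ α : Om, {z : ZFSet.{0} | z ∈ W ∧ z ∈ V_ α.1} := by
    intro x hx
    rw [wm_iff] at hx
    exact mem_iUnion.2 ⟨⟨Order.succ x.rank, wm_succ hx.2⟩, hx.1, ZFSet.mem_vonNeumann_succ x⟩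
  refine (Cardinal.mk_le_mk_of_subset hsub).trans ((Cardinal.mk_iUnion_le _).trans ?_)
  rw [hOm]
  have h1 : ⨆ α : Om, Cardinal.mk {z : ZFSet.{0} | z ∈ W ∧ z ∈ V_ α.1} ≤ Cardinal.aleph0 :=
    ciSup_le' fun α => Cardinal.le_aleph0_iff_set_countable.2 (vw_countable h α)
  calc Cardinal.aleph 1 * ⨆ α : Om, Cardinal.mk {z : ZFSet.{0} | z ∈ W ∧ z ∈ V_ α.1}
      ≤ Cardinal.aleph 1 * Cardinal.aleph0 := mul_le_mul' le_rfl h1
    _ = Cardinal.aleph 1 := Cardinal.mul_aleph0_eq (Cardinal.aleph0_le_aleph 1)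

end RMK
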