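import Pool.Agent.RMK.S.WGen
import Pool.Agent.RMK.S.LBas

/-!
RMK WNAM: names in `V_{κ+1}^W` for relations on `ω₁`.

`Rn G x` is the relation with name `x`; every relation `R : T3` has a name `σ ∈ VK W` whose elements are pairs of a
triple of countable ordinals and a condition.

PROOFS.
`exists_nameT`: `names` for `a = toZ`-triples: `a = κ.prod (κ.prod κ)`, `κ = (ω 1).toZFSet ∈ W` (`prodZ` of `ZF0 W`), and `z =
{tup a b c | R a b c}` (`ZFSet.sep`): there is `σ ∈ W` with `R a b c ↔ ∃ p ∈ G, pair (tup a b c) p ∈ σ` (`tup` is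
injective).  Let `σ' = σ ∩ (a × Col ω₁)`; its elements are pairs of elements of `V_ ω₁` (`Col_mem_V` for `lam = ω₁`, a
limit ordinal), so `σ' ⊆ V_ ω₁`.
`pair_tup_mem_V`: ranks: `rank (pair x y) ≤ max (rank x) (rank y) + 2`, `δ` limit.
-/

namespace RMK

open Set PU
open scoped ZFSet

variable {W G : Set ZFSet.{0}}

/-- the relation named by `x` -/
def Rn (G : Set ZFSet.{0}) (x : ZFSet.{0}) : T3 := fun a b c =>
  ∃ p ∈ G, ZFSet.pair (tup a b c) p ∈ x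

/-! ### Ranks -/

private theorem wn_V2 {δ : Ordinal.{0}} (hδ : Order.IsSuccLimit δ) {x y : ZFSet.{0}}
    (hx : x ∈ V_ δ) (hy : y ∈ V_ δ) : ({x, y} : ZFSet.{0}) ∈ V_ δ := by
  rw [ZFSet.mem_vonNeumann] at hx hy ⊢
  rw [ZFSet.rank_pair]
  exact max_lt (hδ.succ_lt hx) (hδ.succ_lt hy)

private theorem wn_Vp {δ : Ordinal.{0}} (hδ : Order.IsSuccLimit δ) {x y : ZFSet.{0}}
    (hx : x ∈ V_ δ) (hy : y ∈ V_ δ) : ZFSet.pair x y ∈ V_ δ := by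
  have h1 : ({x} : ZFSet.{0}) ∈ V_ δ := by
    rw [ZFSet.mem_vonNeumann] at hx ⊢
    rw [ZFSet.rank_singleton]
    exact hδ.succ_lt hx
  exact wn_V2 hδ h1 (wn_V2 hδ hx hy)

private theorem wn_Vo {δ α : Ordinal.{0}} (h : α < δ) : α.toZFSet ∈ V_ δ := by
  rw [ZFSet.mem_vonNeumann, Ordinal.rank_toZFSet]
  exact h

private theorem wn_Vt {δ : Ordinal.{0}} (hδ : Order.IsSuccLimit δ) {a b c : Om} {p : ZFSet.{0}}
    (ha : a.1 < δ) (hb : b.1 < δ) (hc : c.1 < δ) (hp : p ∈ V_ δ) :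
    ZFSet.pair (tup a b c) p ∈ V_ δ :=
  wn_Vp hδ (wn_Vp hδ (wn_Vo ha) (wn_Vp hδ (wn_Vo hb) (wn_Vo hc))) hp

/-! ### Levels of the constructible hierarchy -/

private theorem wn_L2 {τ : Ordinal.{0}} (hτ : Order.IsSuccLimit τ) {x y : ZFSet.{0}}
    (hx : x ∈ L τ) (hy : y ∈ L τ) : ({x, y} : ZFSet.{0}) ∈ L τ := by
  obtain ⟨γ1, h1, h2⟩ := exists_succ_level hx
  obtain ⟨γ2, h3, h4⟩ := exists_succ_level hy
  have e1 : γ1 + 1 < τ := by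
    rw [← Order.succ_eq_add_one]
    exact hτ.succ_lt h1
  have e2 : γ2 + 1 < τ := by
    rw [← Order.succ_eq_add_one]
    exact hτ.succ_lt h3
  have e3 : max (γ1 + 1) (γ2 + 1) + 1 < τ := by
    rw [← Order.succ_eq_add_one]
    exact hτ.succ_lt (max_lt e1 e2)
  exact L_mono e3.le (pair_mem_L (L_mono (le_max_left _ _) h2) (L_mono (le_max_right _ _) h4))

private theorem wn_Lp {τ : Ordinal.{0}} (hτ : Order.IsSuccLimit τ) {x y : ZFSet.{0}}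
    (hx : x ∈ L τ) (hy : y ∈ L τ) : ZFSet.pair x y ∈ L τ := by
  have h1 : ({x} : ZFSet.{0}) ∈ L τ := by
    have h := wn_L2 hτ hx hx
    have e : ({x, x} : ZFSet.{0}) = {x} := by
      apply ZFSet.ext
      intro z
      rw [ZFSet.mem_pair, ZFSet.mem_singleton, or_self_iff]
    rwa [e] at h
  exact wn_L2 hτ h1 (wn_L2 hτ hx hy)

theorem tup_inj {a b c a' b' c' : Om} : tup a b c = tup a' b' c' ↔ a = a' ∧ b = b' ∧ c = c' := by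
  unfold tup
  rw [ZFSet.pair_inj, ZFSet.pair_inj]
  constructor
  · rintro ⟨h1, h2, h3⟩
    exact ⟨Subtype.ext (Ordinal.toZFSet_injective h1), Subtype.ext (Ordinal.toZFSet_injective h2),
      Subtype.ext (Ordinal.toZFSet_injective h3)⟩
  · rintro ⟨rfl, rfl, rfl⟩
    exact ⟨rfl, rfl, rfl⟩

theorem exists_nameT (h : Solovay W G) (R : T3) : ∃ x : VK W, R = Rn G x.1 ∧
    ∀ z ∈ x.1, ∃ (a b c : Om) (p : ZFSet.{0}), p ∈ Col (Ordinal.omega 1) ∧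
      z = ZFSet.pair (tup a b c) p := by
  obtain ⟨κ, hκ⟩ : ∃ κ : ZFSet.{0}, κ = (Ordinal.omega.{0} 1).toZFSet := ⟨_, rfl⟩
  have hκW : κ ∈ W := by
    rw [hκ]
    exact h.zfc.ord _
  have hZ := h.zfc.zf0
  have hlim : Order.IsSuccLimit (Ordinal.omega.{0} 1) := Cardinal.isSuccLimit_omega 1
  have hκm : ∀ x, x ∈ κ ↔ ∃ a : Om, x = a.1.toZFSet := by
    intro x
    rw [hκ, Ordinal.mem_toZFSet_iff]
    constructor
    · rintro ⟨a, ha, rfl⟩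
      exact ⟨⟨a, ha⟩, rfl⟩
    · rintro ⟨a, rfl⟩
      exact ⟨a.1, a.2, rfl⟩
  have haW : κ.prod (κ.prod κ) ∈ W := hZ.prodZ hκW (hZ.prodZ hκW hκW)
  have htup : ∀ t, t ∈ κ.prod (κ.prod κ) ↔ ∃ a b c : Om, t = tup a b c := by
    intro t
    rw [ZFSet.mem_prod]
    constructor
    · rintro ⟨x, hx, w, hw, rfl⟩
      rw [ZFSet.mem_prod] at hw
      obtain ⟨y, hy, z, hz, rfl⟩ := hw
      obtain ⟨a, rfl⟩ := (hκm x).1 hx
      obtain ⟨b, rfl⟩ := (hκm y).1 hy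
      obtain ⟨c, rfl⟩ := (hκm z).1 hz
      exact ⟨a, b, c, rfl⟩
    · rintro ⟨a, b, c, rfl⟩
      exact ⟨_, (hκm _).2 ⟨a, rfl⟩, _, ZFSet.mem_prod.2 ⟨_, (hκm _).2 ⟨b, rfl⟩, _,
        (hκm _).2 ⟨c, rfl⟩, rfl⟩, rfl⟩
  obtain ⟨σ, hσ, hσ2⟩ := h.names (κ.prod (κ.prod κ)) haW
    (ZFSet.sep (fun t => ∃ a b c : Om, t = tup a b c ∧ R a b c) (κ.prod (κ.prod κ)))
    ZFSet.sep_subset
  have hσW : σ ∩ ((κ.prod (κ.prod κ)).prod (Col (Ordinal.omega 1))) ∈ W :=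
    h.zfc.inter hσ (hZ.prodZ haW (Col_mem h.zfc _))
  have hel : ∀ z ∈ σ ∩ ((κ.prod (κ.prod κ)).prod (Col (Ordinal.omega 1))),
      ∃ (a b c : Om) (p : ZFSet.{0}), p ∈ Col (Ordinal.omega 1) ∧
        z = ZFSet.pair (tup a b c) p := by
    intro z hz
    obtain ⟨t, ht, p, hp, rfl⟩ := ZFSet.mem_prod.1 (ZFSet.mem_inter.1 hz).2
    obtain ⟨a, b, c, rfl⟩ := (htup t).1 ht
    exact ⟨a, b, c, p, hp, rfl⟩
  refine ⟨⟨_, hσW, ?_⟩, ?_, hel⟩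
  · intro z hz
    obtain ⟨a, b, c, p, hp, rfl⟩ := hel z hz
    exact wn_Vt hlim a.2 b.2 c.2 (Col_mem_V hlim hp)
  · funext a b c
    apply propext
    constructor
    · intro hR
      have ht : tup a b c ∈ κ.prod (κ.prod κ) := (htup _).2 ⟨a, b, c, rfl⟩
      obtain ⟨-, p, hp, hpσ⟩ := (hσ2 (tup a b c)).1 (ZFSet.mem_sep.2 ⟨ht, a, b, c, rfl, hR⟩)
      exact ⟨p, hp, ZFSet.mem_inter.2 ⟨hpσ, ZFSet.pair_mem_prod.2 ⟨ht, h.gen.sub p hp⟩⟩⟩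
    · rintro ⟨p, hp, hpσ⟩
      obtain ⟨h1, h2⟩ := ZFSet.mem_inter.1 hpσ
      obtain ⟨ht, -⟩ := ZFSet.pair_mem_prod.1 h2
      obtain ⟨-, a', b', c', he, hR⟩ := ZFSet.mem_sep.1 ((hσ2 (tup a b c)).2 ⟨ht, p, hp, h1⟩)
      obtain ⟨e1, e2, e3⟩ := tup_inj.1 he
      rw [e1, e2, e3]
      exact hR

theorem pair_tup_mem_V {δ : Om} (hδ : Order.IsSuccLimit δ.1) {a b c : Om} {p : ZFSet.{0}}
    (ha : a < δ) (hb : b < δ) (hc : c < δ) (hp : p ∈ V_ δ.1) :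
    ZFSet.pair (tup a b c) p ∈ V_ δ.1 := wn_Vt hδ ha hb hc hp

theorem pair_tup_mem_L {δ : Om} (hδ : Order.IsSuccLimit δ.1) {a b c : Om} {p : ZFSet.{0}}
    (ha : a < δ) (hb : b < δ) (hc : c < δ) (hp : p ∈ L δ.1) :
    ZFSet.pair (tup a b c) p ∈ L δ.1 := wn_Lp hδ (wn_Lp hδ (toZFSet_mem_L ha) (wn_Lp hδ (toZFSet_mem_L hb) (toZFSet_mem_L hc))) hp

end RMK
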