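import Pool.Agent.RMK.S.ZEnum

/-!
RMK ZCLO: internal closure of a set of size `δ` under countably many definable choice functions.

`Dlt E δ` collects the closure properties of `δ` (club many `δ` have them).

PROOF of `exists_closure`.  `recOrd` in the context of the parameters with `F ξ h` defined by cases.  If there are
ordinals `i, a, b, c, d ∈ ξ` with `ξ = succ (P2 i (P2 a (P2 b (P2 c d))))` (unique), then: if `i = 0`: the value `e a` if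
`e a ∈ A`, else `∅`; if `i = succ k` with `k ∈ ω`: the value `ch {z ∈ A | R (k, apZ h a, apZ h b, apZ h c, apZ h d, z)}` if this set is
nonempty (`EKit.choice`, `sepF`), else `∅`.  In all other cases `∅`.  All values are in `A` as `∅ ∈ A`.
The function `h` on `δ` is given by the restriction from `recOrd` at `γ = δ`: `IsFn h δ`, `apZ h ξ = H ξ` for `ξ < δ`,
and for each `ξ < δ` the recursion function `h_ξ` at `ξ` satisfies `apZ h_ξ η = H η`.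
Closure: base: for `ξ < δ` with `e ξ ∈ A`, the ordinal `η = succ (gp 0 (gp ξ (gp 0 (gp 0 0))))` is `< δ` and `ξ < η`, so `H η =
e ξ`.  Choice: given `x₁, ..., x₄ ∈ Y`, `x_j = H a_j`, and `k`: `η = succ (gp (k+1) (gp a₁ (gp a₂ (gp a₃ a₄)))) < δ`, `a_j < η`,
so `H η = ch {..}`.
PROOF of `club_Dlt`: let `f a` be at least: `a + 1`; a `β` with `e (oz a) ∈ L β`; and greater than all indices `ξ_x`,
`x ∈ L (a + 1)`, where `e (oz ξ_x) = x` (a countable set, `L_countable`, `Om.bdd`).  If `x ∈ L δ`, then `x ∈ L (a + 1)` for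
some `a < δ` (`exists_succ_level`).
-/

namespace RMK

open Set PU

/-- closure properties of `δ` -/
structure Dlt (E : EKit) (δ : Om) : Prop where
  nat : ∀ k, nOm k < δ
  suc : ∀ a b : Om, a < δ → b.1 = a.1 + 1 → b < δ
  gp : ∀ a b, a < δ → b < δ → gp a b < δ
  e1 : ∀ ξ, ξ < δ → (E.e (oz ξ)).1 ∈ L δ.1
  e2 : ∀ x ∈ L δ.1, ∃ ξ, ξ < δ ∧ (E.e (oz ξ)).1 = x

/-- the function with one value more -/
private noncomputable def sc (E : EKit) (x : LK) : LK := zun E.K.hM x (zsg E.K.hM x)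

private theorem om_succ (a : Om) : ∃ b : Om, b.1 = a.1 + 1 := by
  refine ⟨⟨a.1 + 1, ?_⟩, rfl⟩
  rw [lt_omega1_iff]
  have h : (Iio (a.1 + 1)) ⊆ Iio a.1 ∪ {a.1} := by
    intro x hx
    rcases eq_or_lt_of_le (Order.lt_add_one_iff.1 (mem_Iio.1 hx)) with h | h
    · exact Or.inr h
    · exact Or.inl h
  exact ((lt_omega1_iff.1 a.2).union (countable_singleton a.1)).mono h

private theorem oz_inj {a b : Om} (h : oz a = oz b) : a = b :=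
  Subtype.ext (Ordinal.toZFSet_injective (congrArg Subtype.val h))

private theorem sc_oz (E : EKit) {a b : Om} (h : b.1 = a.1 + 1) : oz b = sc E (oz a) := by
  apply Subtype.ext
  show b.1.toZFSet = a.1.toZFSet ∪ {a.1.toZFSet}
  rw [h, Ordinal.toZFSet_add_one]
  ext z
  rw [ZFSet.mem_insert_iff, ZFSet.mem_union, ZFSet.mem_singleton, or_comm]

private theorem sc_inj (E : EKit) {x y : LK} (h : sc E x = sc E y) : x = y := by
  have h1 : x.1 ∪ {x.1} = y.1 ∪ {y.1} := congrArg Subtype.val h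
  have hx : x.1 ∈ y.1 ∪ {y.1} := by
    rw [← h1, ZFSet.mem_union, ZFSet.mem_singleton]
    exact Or.inr rfl
  have hy : y.1 ∈ x.1 ∪ {x.1} := by
    rw [h1, ZFSet.mem_union, ZFSet.mem_singleton]
    exact Or.inr rfl
  rw [ZFSet.mem_union, ZFSet.mem_singleton] at hx hy
  rcases hx with hx | hx
  · rcases hy with hy | hy
    · exact absurd hx (ZFSet.mem_asymm hy)
    · exact Subtype.ext hy.symm
  · exact Subtype.ext hx

/-- `ξ` codes the tuple -/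
private def Tpl (E : EKit) (ξ f i a b c d : LK) : Prop :=
  IsO f.1 ∧ IsO i.1 ∧ IsO a.1 ∧ IsO b.1 ∧ IsO c.1 ∧ IsO d.1 ∧
    ξ = sc E (E.P2 f (E.P2 i (E.P2 a (E.P2 b (E.P2 c d)))))

section

variable {X : Type 1} [Ctx LK X]

private theorem DFc.p2 (E : EKit) {f g : X → LK} (hf : DFc LK f) (hg : DFc LK g) :
    DFc LK fun x => E.P2 (f x) (g x) :=
  (DFc.comp E.hP2 (DFc.mk hf hg) :)

private theorem DFc.sc' (E : EKit) {f : X → LK} (hf : DFc LK f) :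
    DFc LK fun x => sc E (f x) :=
  (DFc.zun E.K.hM hf (DFc.zsg E.K.hM hf) :)

private theorem MD.tpl (E : EKit) {ξ f i a b c d : X → LK} (hξ : DFc LK ξ) (hf : DFc LK f)
    (hi : DFc LK i) (ha : DFc LK a) (hb : DFc LK b) (hc : DFc LK c) (hd : DFc LK d) :
    MD LK fun x => Tpl E (ξ x) (f x) (i x) (a x) (b x) (c x) (d x) :=
  (MD.and (MD.isO E.K.hM hf) (MD.and (MD.isO E.K.hM hi) (MD.and (MD.isO E.K.hM ha) (MD.and (MD.isO E.K.hM hb)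
    (MD.and (MD.isO E.K.hM hc) (MD.and (MD.isO E.K.hM hd) (MD.eq hξ (DFc.sc' E (DFc.p2 E hf (DFc.p2 E hi
      (DFc.p2 E ha (DFc.p2 E hb (DFc.p2 E hc hd)))))))))))) :)

end

/-- the value given by a tuple -/
private def TVal (E : EKit) (R : LK × LK × LK × LK × LK × LK → Prop) (h y f i a b c d : LK) :
    Prop :=
  (f = oz (nOm 0) ∧ y = E.e a) ∨ (f ≠ oz (nOm 0) ∧
    R (i, zap E.K.hM h a, zap E.K.hM h b, zap E.K.hM h c, zap E.K.hM h d, y))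

private def Good (E : EKit) (R : LK × LK × LK × LK × LK × LK → Prop) (ξ h y : LK) : Prop :=
  ∃ f i a b c d : LK, Tpl E ξ f i a b c d ∧ TVal E R h y f i a b c d

section

variable {X : Type 1} [Ctx LK X]

private theorem MD.val (E : EKit) {R : LK × LK × LK × LK × LK × LK → Prop} (hR : MD LK R)
    {h y f i a b c d : X → LK} (hh : DFc LK h) (hy : DFc LK y) (hf : DFc LK f)
    (hi : DFc LK i) (ha : DFc LK a) (hb : DFc LK b) (hc : DFc LK c) (hd : DFc LK d) :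
    MD LK fun x => TVal E R (h x) (y x) (f x) (i x) (a x) (b x) (c x) (d x) := by
  have h1 := MD.comp hR (DFc.mk hi (DFc.mk (DFc.zap E.K.hM hh ha) (DFc.mk
    (DFc.zap E.K.hM hh hb) (DFc.mk (DFc.zap E.K.hM hh hc) (DFc.mk (DFc.zap E.K.hM hh hd) hy)))))
  have h2 := MD.eq hf (DFc.const (M := LK) (X := X) (oz (nOm 0)))
  have h3 := MD.eq hy (DFc.comp E.he ha)
  exact MD.or (MD.and h2 h3) (MD.and (MD.not h2) h1)

private theorem MD.good (E : EKit) {R : LK × LK × LK × LK × LK × LK → Prop} (hR : MD LK R)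
    {ξ h y : X → LK} (hξ : DFc LK ξ) (hh : DFc LK h) (hy : DFc LK y) :
    MD LK fun x => Good E R (ξ x) (h x) (y x) := by
  have w : ∀ {Y : Type 1} [Ctx LK Y] {g : Y → LK}, DFc LK g → DFc LK fun p : Y × LK => g p.1 := by
    intro Y _ g hg
    exact (DFc.comp hg (DFc.fst (DFc.id (M := LK) (X := Y × LK))) :)
  have v : ∀ {Y : Type 1} [Ctx LK Y], DFc LK fun p : Y × LK => p.2 := by
    intro Y _
    exact (DFc.snd (DFc.id (M := LK) (X := Y × LK)) :)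
  refine MD.ex (P := fun x f => ∃ i a b c d : LK, Tpl E (ξ x) f i a b c d ∧
    TVal E R (h x) (y x) f i a b c d) ?_
  refine MD.ex (P := fun (x : X × LK) i => ∃ a b c d : LK, Tpl E (ξ x.1) x.2 i a b c d ∧
    TVal E R (h x.1) (y x.1) x.2 i a b c d) ?_
  refine MD.ex (P := fun (x : (X × LK) × LK) a => ∃ b c d : LK,
    Tpl E (ξ x.1.1) x.1.2 x.2 a b c d ∧ TVal E R (h x.1.1) (y x.1.1) x.1.2 x.2 a b c d) ?_
  refine MD.ex (P := fun (x : ((X × LK) × LK) × LK) b => ∃ c d : LK,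
    Tpl E (ξ x.1.1.1) x.1.1.2 x.1.2 x.2 b c d ∧
    TVal E R (h x.1.1.1) (y x.1.1.1) x.1.1.2 x.1.2 x.2 b c d) ?_
  refine MD.ex (P := fun (x : (((X × LK) × LK) × LK) × LK) c => ∃ d : LK,
    Tpl E (ξ x.1.1.1.1) x.1.1.1.2 x.1.1.2 x.1.2 x.2 c d ∧
    TVal E R (h x.1.1.1.1) (y x.1.1.1.1) x.1.1.1.2 x.1.1.2 x.1.2 x.2 c d) ?_
  refine MD.ex (P := fun (x : ((((X × LK) × LK) × LK) × LK) × LK) d =>
    Tpl E (ξ x.1.1.1.1.1) x.1.1.1.1.2 x.1.1.1.2 x.1.1.2 x.1.2 x.2 d ∧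
    TVal E R (h x.1.1.1.1.1) (y x.1.1.1.1.1) x.1.1.1.1.2 x.1.1.1.2 x.1.1.2 x.1.2 x.2 d) ?_
  have a6 := v (Y := (((((X × LK) × LK) × LK) × LK) × LK))
  have a5 := w (v (Y := ((((X × LK) × LK) × LK) × LK)))
  have a4 := w (w (v (Y := (((X × LK) × LK) × LK))))
  have a3 := w (w (w (v (Y := ((X × LK) × LK)))))
  have a2 := w (w (w (w (v (Y := (X × LK))))))
  have a1 := w (w (w (w (w (v (Y := X))))))
  have b1 := w (w (w (w (w (w hξ)))))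
  have b2 := w (w (w (w (w (w hh)))))
  have b3 := w (w (w (w (w (w hy)))))
  exact MD.and (MD.tpl E b1 a1 a2 a3 a4 a5 a6) (MD.val E hR b2 b3 a1 a2 a3 a4 a5 a6)

end

private theorem tpl_unique (E : EKit) {η f i a b c d : Om}
    (h : η.1 = (gp f (gp i (gp a (gp b (gp c d))))).1 + 1) {f' i' a' b' c' d' : LK}
    (ht : Tpl E (oz η) f' i' a' b' c' d') :
    f' = oz f ∧ i' = oz i ∧ a' = oz a ∧ b' = oz b ∧ c' = oz c ∧ d' = oz d := by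
  obtain ⟨h1, h2, h3, h4, h5, h6, h7⟩ := ht
  obtain ⟨f1, rfl⟩ := isO_LK h1
  obtain ⟨i1, rfl⟩ := isO_LK h2
  obtain ⟨a1, rfl⟩ := isO_LK h3
  obtain ⟨b1, rfl⟩ := isO_LK h4
  obtain ⟨c1, rfl⟩ := isO_LK h5
  obtain ⟨d1, rfl⟩ := isO_LK h6
  rw [sc_oz E h] at h7
  have h8 := sc_inj E h7
  rw [E.P2_spec, E.P2_spec, E.P2_spec, E.P2_spec, E.P2_spec] at h8
  obtain ⟨e1, g1⟩ := gp_inj (oz_inj h8)
  obtain ⟨e2, g2⟩ := gp_inj g1
  obtain ⟨e3, g3⟩ := gp_inj g2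
  obtain ⟨e4, g4⟩ := gp_inj g3
  obtain ⟨e5, e6⟩ := gp_inj g4
  rw [e1, e2, e3, e4, e5, e6]
  exact ⟨rfl, rfl, rfl, rfl, rfl, rfl⟩

private theorem good_iff (E : EKit) (R : LK × LK × LK × LK × LK × LK → Prop)
    {η f i a b c d : Om} (h : η.1 = (gp f (gp i (gp a (gp b (gp c d))))).1 + 1) (k y : LK) :
    Good E R (oz η) k y ↔ TVal E R k y (oz f) (oz i) (oz a) (oz b) (oz c) (oz d) := by
  constructor
  · rintro ⟨f', i', a', b', c', d', ht, hv⟩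
    obtain ⟨rfl, rfl, rfl, rfl, rfl, rfl⟩ := tpl_unique E h ht
    exact hv
  · intro hv
    refine ⟨_, _, _, _, _, _, ⟨⟨f.1, rfl⟩, ⟨i.1, rfl⟩, ⟨a.1, rfl⟩, ⟨b.1, rfl⟩, ⟨c.1, rfl⟩,
      ⟨d.1, rfl⟩, ?_⟩, hv⟩
    rw [sc_oz E h, E.P2_spec, E.P2_spec, E.P2_spec, E.P2_spec, E.P2_spec]

/-- the recursion -/
private theorem exists_rec (E : EKit) (A : LK) (hA : (∅ : ZFSet.{0}) ∈ A.1)
    {R : LK × LK × LK × LK × LK × LK → Prop} (hR : MD LK R) :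
    ∃ H : LK → LK, (∀ δ : Om, ∃ h : LK, IsFn h.1 (toZ δ) ∧ ∀ ξ, ξ < δ →
      apZ h.1 (toZ ξ) = (H (oz ξ)).1) ∧ (∀ ξ, (H (oz ξ)).1 ∈ A.1) ∧
      ∀ ξ : Om, ∃ h : LK, (∀ η, η < ξ → zap E.K.hM h (oz η) = H (oz η)) ∧
        ∀ y : LK, y.1 ∈ A.1 → Good E R (oz ξ) h y → Good E R (oz ξ) h (H (oz ξ)) := by
  classical
  obtain ⟨ch, hch, hch1⟩ := E.choice
  obtain ⟨B, hB, hB1⟩ := ZF0.sepF E.K.hM (X := LK × LK × LK) (a := fun _ => A)
    (DFc.const (M := LK) A) (P := fun p y => Good E R p.2.1 p.2.2 y)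
    (MD.good E hR (DFc.fst (DFc.snd (DFc.fst DFc.id))) (DFc.snd (DFc.snd (DFc.fst DFc.id)))
      (DFc.snd DFc.id))
  obtain ⟨z0, hz0⟩ : ∃ z0 : LK, z0.1 = ∅ := ⟨⟨∅, E.K.hM.empty_mem⟩, rfl⟩
  have hP : MD LK fun p : LK × LK × LK => ∃ z : LK, z.1 ∈ (B p).1 :=
    MD.ex (P := fun p z => z.1 ∈ (B p).1) (MD.mem (DFc.snd DFc.id) (DFc.comp hB (DFc.fst DFc.id)) :)
  have hF := DFc.ite (DFc.comp hch hB) (DFc.const (M := LK) (X := LK × LK × LK) z0) hP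
  obtain ⟨H, hH, hH1⟩ := recOrd E.K.hM (X := LK)
    (F := fun x ξ h => if ∃ z : LK, z.1 ∈ (B (x, ξ, h)).1 then ch (B (x, ξ, h)) else z0) hF
  have hO : ∀ ξ : Om, IsO (oz ξ).1 := fun ξ => ⟨ξ.1, rfl⟩
  have hlt : ∀ {ξ δ : Om}, ξ < δ → (oz ξ).1 ∈ (oz δ).1 := fun h =>
    Ordinal.toZFSet_mem_toZFSet_iff.2 h
  refine ⟨H A, fun δ => ?_, fun ξ => ?_, fun ξ => ?_⟩
  · obtain ⟨h, h1, h2, -⟩ := hH1 A (oz δ) (hO δ)
    exact ⟨h, h1, fun ξ hξ => congrArg Subtype.val (h2 (oz ξ) (hlt hξ))⟩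
  · obtain ⟨h, -, -, h3⟩ := hH1 A (oz ξ) (hO ξ)
    rw [h3]
    split_ifs with hz
    · obtain ⟨z, hz⟩ := hz
      exact ((hB1 _ _).1 (hch1 _ ⟨z.1, hz⟩)).1
    · rw [hz0]
      exact hA
  · obtain ⟨h, -, h2, h3⟩ := hH1 A (oz ξ) (hO ξ)
    refine ⟨h, fun η hη => h2 (oz η) (hlt hη), fun y hy hg => ?_⟩
    have hyB : y.1 ∈ (B (A, oz ξ, h)).1 := (hB1 (A, oz ξ, h) y).2 ⟨hy, hg⟩
    rw [h3, if_pos ⟨y, hyB⟩]
    exact ((hB1 (A, oz ξ, h) _).1 (hch1 _ ⟨y.1, hyB⟩)).2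

private theorem lt_code {f i a b c d η : Om}
    (h : η.1 = (gp f (gp i (gp a (gp b (gp c d))))).1 + 1) :
    a < η ∧ b < η ∧ c < η ∧ d < η := by
  have h0 : ∀ x : Om, x ≤ gp a (gp b (gp c d)) → x < η := by
    intro x hx
    have h1 : x ≤ gp f (gp i (gp a (gp b (gp c d)))) :=
      hx.trans ((le_gp_right _ _).trans (le_gp_right _ _))
    show x.1 < η.1
    rw [h]
    exact Order.lt_add_one_iff.2 h1
  refine ⟨h0 _ (le_gp_left _ _), h0 _ ((le_gp_left _ _).trans (le_gp_right _ _)),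
    h0 _ (((le_gp_left _ _).trans (le_gp_right _ _)).trans (le_gp_right _ _)),
    h0 _ (((le_gp_right _ _).trans (le_gp_right _ _)).trans (le_gp_right _ _))⟩

private theorem nOm_ne : oz (nOm 1) ≠ oz (nOm 0) := by
  intro h
  have h1 := congrArg Subtype.val (oz_inj h)
  have h2 : ((1 : ℕ) : Ordinal.{0}) = ((0 : ℕ) : Ordinal.{0}) := h1
  exact absurd (Nat.cast_injective h2) (by decide)

theorem exists_closure (E : EKit) {δ : Om} (hδ : Dlt E δ) (A : LK) (hA : (∅ : ZFSet.{0}) ∈ A.1)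
    {R : LK × LK × LK × LK × LK × LK → Prop} (hR : MD LK R) :
    ∃ h : LK, IsFn h.1 (toZ δ) ∧ (∀ ξ, ξ < δ → apZ h.1 (toZ ξ) ∈ A.1) ∧
      (∀ ξ, ξ < δ → (E.e (oz ξ)).1 ∈ A.1 → ∃ η, η < δ ∧ apZ h.1 (toZ η) = (E.e (oz ξ)).1) ∧
      ∀ (k : ℕ) (x1 x2 x3 x4 : LK), (∃ ξ, ξ < δ ∧ apZ h.1 (toZ ξ) = x1.1) →
        (∃ ξ, ξ < δ ∧ apZ h.1 (toZ ξ) = x2.1) → (∃ ξ, ξ < δ ∧ apZ h.1 (toZ ξ) = x3.1) →
        (∃ ξ, ξ < δ ∧ apZ h.1 (toZ ξ) = x4.1) →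
        (∃ z : LK, z.1 ∈ A.1 ∧ R (oz (nOm k), x1, x2, x3, x4, z)) →
        ∃ z : LK, (∃ ξ, ξ < δ ∧ apZ h.1 (toZ ξ) = z.1) ∧ z.1 ∈ A.1 ∧
          R (oz (nOm k), x1, x2, x3, x4, z) := by
  obtain ⟨H, H1, H2, H3⟩ := exists_rec E A hA hR
  obtain ⟨h, hfn, hap⟩ := H1 δ
  have hgp : ∀ {f i a b c d : Om}, f < δ → i < δ → a < δ → b < δ → c < δ → d < δ →
      ∃ η : Om, η.1 = (gp f (gp i (gp a (gp b (gp c d))))).1 + 1 ∧ η < δ := by
    intro f i a b c d hf hi ha hb hc hd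
    obtain ⟨η, hη⟩ := om_succ (gp f (gp i (gp a (gp b (gp c d)))))
    exact ⟨η, hη, hδ.suc _ _ (hδ.gp _ _ hf (hδ.gp _ _ hi (hδ.gp _ _ ha (hδ.gp _ _ hb
      (hδ.gp _ _ hc hd))))) hη⟩
  refine ⟨h, hfn, fun ξ hξ => ?_, fun ξ hξ hξA => ?_, fun k x1 x2 x3 x4 h1 h2 h3 h4 hz => ?_⟩
  · rw [hap ξ hξ]
    exact H2 ξ
  · obtain ⟨η, hη, hηδ⟩ := hgp (hδ.nat 0) (hδ.nat 0) hξ (hδ.nat 0) (hδ.nat 0) (hδ.nat 0)
    refine ⟨η, hηδ, ?_⟩
    rw [hap η hηδ]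
    obtain ⟨k, -, hk⟩ := H3 η
    have hg := hk (E.e (oz ξ)) hξA ((good_iff E R hη k _).2 (Or.inl ⟨rfl, rfl⟩))
    rcases (good_iff E R hη k _).1 hg with ⟨-, hv⟩ | ⟨hv, -⟩
    · rw [hv]
    · exact absurd rfl hv
  · obtain ⟨a1, ha1, h1⟩ := h1
    obtain ⟨a2, ha2, h2⟩ := h2
    obtain ⟨a3, ha3, h3⟩ := h3
    obtain ⟨a4, ha4, h4⟩ := h4
    obtain ⟨z, hzA, hzR⟩ := hz
    obtain ⟨η, hη, hηδ⟩ := hgp (hδ.nat 1) (hδ.nat k) ha1 ha2 ha3 ha4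
    obtain ⟨l1, l2, l3, l4⟩ := lt_code hη
    obtain ⟨g, hg0, hg⟩ := H3 η
    have e1 : zap E.K.hM g (oz a1) = x1 := by
      rw [hg0 _ l1]
      exact Subtype.ext ((hap _ ha1).symm.trans h1)
    have e2 : zap E.K.hM g (oz a2) = x2 := by
      rw [hg0 _ l2]
      exact Subtype.ext ((hap _ ha2).symm.trans h2)
    have e3 : zap E.K.hM g (oz a3) = x3 := by
      rw [hg0 _ l3]
      exact Subtype.ext ((hap _ ha3).symm.trans h3)
    have e4 : zap E.K.hM g (oz a4) = x4 := by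
      rw [hg0 _ l4]
      exact Subtype.ext ((hap _ ha4).symm.trans h4)
    have key : ∀ y : LK, Good E R (oz η) g y ↔ R (oz (nOm k), x1, x2, x3, x4, y) := by
      intro y
      rw [good_iff E R hη g y]
      unfold TVal
      rw [e1, e2, e3, e4]
      constructor
      · rintro (⟨hv, -⟩ | ⟨-, hv⟩)
        · exact absurd hv nOm_ne
        · exact hv
      · intro hv
        exact Or.inr ⟨nOm_ne, hv⟩
    exact ⟨H (oz η), ⟨η, hηδ, hap η hηδ⟩, H2 η, (key _).1 (hg z hzA ((key z).2 hzR))⟩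

/-- club many `δ` have the closure properties -/
theorem club_Dlt (E : EKit) : ∃ f : Om → Om, ∀ δ : Om, (∀ k, nOm k < δ) →
    (∀ a, a < δ → f a < δ) → (∀ a b, a < δ → b < δ → gp a b < δ) → Dlt E δ := by
  have key : ∀ a : Om, ∃ c : Om, a < c ∧ (E.e (oz a)).1 ∈ L c.1 ∧
      ∀ x ∈ L (a.1 + 1), ∃ ξ, ξ < c ∧ (E.e (oz ξ)).1 = x := by
    intro a
    obtain ⟨a', ha'⟩ := om_succ a
    obtain ⟨β, hβ, hβ1⟩ := exists_succ_level (E.e (oz a)).2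
    obtain ⟨b, hb⟩ := om_succ ⟨β, hβ⟩
    have hc := L_countable a'
    have hsub : ∀ x : L a'.1, ∃ ξ : Om, (E.e (oz ξ)).1 = x.1 := by
      intro x
      have hx : x.1 ∈ LK := L_mono (le_of_lt a'.2) x.2
      obtain ⟨ξ, hξ⟩ := E.e_surj ⟨x.1, hx⟩
      exact ⟨ξ, congrArg Subtype.val hξ⟩
    choose g hg using hsub
    have hcr : (Set.range g).Countable := by
      have := hc.to_subtype
      exact Set.countable_range g
    obtain ⟨c, hc1⟩ := Om.bdd ((hcr.union (countable_singleton a)).union (countable_singleton b))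
    refine ⟨c, hc1 a (Or.inl (Or.inr rfl)), ?_, fun x hx => ?_⟩
    · have h1 : b < c := hc1 b (Or.inr rfl)
      refine L_mono ?_ hβ1
      have h2 : b.1 = β + 1 := hb
      rw [← h2]
      exact le_of_lt h1
    · rw [← ha'] at hx
      exact ⟨g ⟨x, hx⟩, hc1 _ (Or.inl (Or.inl ⟨_, rfl⟩)), hg ⟨x, hx⟩⟩
  choose f hf1 hf2 hf3 using key
  refine ⟨f, fun δ hn hf hg => ⟨hn, fun a b ha hb => ?_, hg, fun ξ hξ => ?_, fun x hx => ?_⟩⟩
  · refine lt_of_le_of_lt ?_ (hf a ha)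
    show b.1 ≤ (f a).1
    rw [hb]
    exact Order.add_one_le_iff.2 (hf1 a)
  · exact L_mono (le_of_lt (hf ξ hξ)) (hf2 ξ)
  · obtain ⟨γ, hγ, hx1⟩ := exists_succ_level hx
    obtain ⟨ξ, hξ, hξ1⟩ := hf3 ⟨γ, hγ.trans δ.2⟩ x hx1
    exact ⟨ξ, hξ.trans (hf ⟨γ, hγ.trans δ.2⟩ hγ), hξ1⟩

end RMK
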