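import Pool.Agent.RMK.S.ZPai
import Pool.Agent.RMK.S.ZLev

/-!
RMK ZENUM: a definable enumeration of `L_{ω₁}` by the countable ordinals.

PROOFS.  `M = LK = L_{ω₁}`; `oz α` is the ordinal `α` in `M`.
`exists_enumL`: `recOrd` (no parameters) with `F ξ h` defined by cases (graph formula; `DFc.of_graph`):
if there are ordinals `i, γ, a, b ∈ ξ` with `ξ = succ (P2 i (P2 γ (P2 a b)))` (`succ x = x ∪ {x}`; they are unique), then
for `i = 0`: `K.Dd (K.Lv γ) (apZ h a) (apZ h b)`; for `i = 1`: `{apZ h a, apZ h b}`; for `i = 2`: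
`apZ h a ∪ apZ h b`; otherwise `∅`.
(`∃ i γ a b : M`, all `IsO`; the spec of `P2` is only for countable ordinals, all ordinals of `M` are countable:
`rank_lt_of_mem_L`.)
Surjectivity.  Let `R` be the set of the values `e (oz ξ)`.  `∅ ∈ R` (`ξ = 0` is not of the form `succ ..`).  For
`i < 3`, `γ`, `a`, `b : Om` let `ξ = succ (gp i (gp γ (gp a b)))`; all of `i, γ, a, b` are `< ξ` (`le_gp_left`,
`le_gp_right`), so `e ξ` is given by the corresponding clause with `apZ h a = e a`, `apZ h b = e b`.  So `R` is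
closed under unordered pairs and unions; hence contains all `natZ k` (`natZ (k+1) = natZ k ∪ {natZ k}`), all codes
(`code_closed`).  By induction on `γ ≤ ω₁`: `L γ ⊆ R`.  Let `x ∈ DefSets (L β)`, `β < γ`, so `β < ω₁`.  If `L β` is empty,
`x = ∅`.  Otherwise `x` is defined by `φ, s` with `s i ∈ L β ⊆ R`; let `z₀` be given by `exists_FP_of` with `k = bd φ`
(`z₀ ∈ R`); then `x = K.Dd (K.Lv β) (code φ) z₀` (`Kit.isDef`: two sets with the same elements) is the value at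
`succ (gp 0 (gp β (gp a b)))` where `e a = code φ`, `e b = z₀`.
`isO_LK`: `rank_lt_of_mem_L`.  `exists_ekit`: `exists_kit`, `exists_P2`, `exists_enumL`.
`EKit.choice`: `ch B = e ξ` for the least ordinal `ξ` with `e ξ ∈ B` (graph: `∃ ξ, IsO ξ ∧ e ξ ∈ B ∧ (∀ η ∈ ξ, e η ∉ B)
∧ y = e ξ`, or there is no such `ξ` and `y = ∅`); for nonempty `B` it exists by `e_surj` and well-foundedness.
-/

namespace RMK

open Set PU

theorem toZ_mem_LK (α : Om) : toZ α ∈ LK := by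
  exact toZFSet_mem_L α.2

/-- the ordinal `α` in `L_{ω₁}` -/
noncomputable def oz (α : Om) : LK := ⟨toZ α, toZ_mem_LK α⟩

theorem isO_LK {x : LK} (h : IsO x.1) : ∃ α : Om, x = oz α := by
  obtain ⟨α, hα⟩ := h
  have h1 := rank_lt_of_mem_L x.2
  rw [hα, Ordinal.rank_toZFSet] at h1
  exact ⟨⟨α, h1⟩, Subtype.ext hα⟩

private theorem oz_inj {a b : Om} (h : oz a = oz b) : a = b :=
  Subtype.ext (Ordinal.toZFSet_injective (congrArg Subtype.val h))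

private theorem oz_mem {a b : Om} (h : a < b) : (oz a).1 ∈ (oz b).1 :=
  Ordinal.toZFSet_mem_toZFSet_iff.2 h

private theorem isO_oz (a : Om) : IsO (oz a).1 := ⟨a.1, rfl⟩

/-- `x ∪ {x}` -/
private def zsc (hM : ZF0 LK) (x : LK) : LK := RMK.zun hM x (RMK.zsg hM x)

private theorem zsc_inj (hM : ZF0 LK) {x y : LK} (h : zsc hM x = zsc hM y) : x = y := by
  have h0 : x.1 ∪ {x.1} = y.1 ∪ {y.1} := congrArg Subtype.val h
  have h1 : x.1 ∈ y.1 ∪ {y.1} := by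
    rw [← h0]
    simp
  have h2 : y.1 ∈ x.1 ∪ {x.1} := by
    rw [h0]
    simp
  rw [ZFSet.mem_union, ZFSet.mem_singleton] at h1 h2
  rcases h1 with h1 | h1
  · rcases h2 with h2 | h2
    · exact (ZFSet.mem_asymm h1 h2).elim
    · exact Subtype.ext h2.symm
  · exact Subtype.ext h1

private theorem succ_lt_om (a : Om) : a.1 + 1 < Ordinal.omega 1 :=
  (Cardinal.isSuccLimit_omega 1).succ_lt a.2

/-- the successor -/
private noncomputable def sOm (a : Om) : Om := ⟨a.1 + 1, succ_lt_om a⟩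

private theorem zsc_oz (hM : ZF0 LK) (a : Om) : zsc hM (oz a) = oz (sOm a) := by
  apply Subtype.ext
  show a.1.toZFSet ∪ {a.1.toZFSet} = (a.1 + 1).toZFSet
  rw [Ordinal.toZFSet_add_one]
  ext z
  rw [ZFSet.mem_union, ZFSet.mem_singleton, ZFSet.mem_insert_iff, or_comm]

open Classical in
/-- the value given by a quadruple -/
private noncomputable def Vv (K : Kit LK) (i γ u v : LK) : LK :=
  if i = RMK.znat K.hM 0 then K.Dd (K.Lv γ) u v else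
    if i = RMK.znat K.hM 1 then RMK.zun K.hM (RMK.zsg K.hM u) (RMK.zsg K.hM v) else
      RMK.zun K.hM u v

private theorem dVv (K : Kit LK) {X : Type 1} [Ctx LK X] {i γ u v : X → LK} (hi : DFc LK i)
    (hγ : DFc LK γ) (hu : DFc LK u) (hv : DFc LK v) :
    DFc LK fun x => Vv K (i x) (γ x) (u x) (v x) := by
  classical
  have h1 : MD LK fun x => i x = RMK.znat K.hM 0 := (MD.eq hi (DFc.const _) :)
  have h2 : MD LK fun x => i x = RMK.znat K.hM 1 := (MD.eq hi (DFc.const _) :)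
  have h3 : DFc LK fun x => K.Lv (γ x) := DFc.comp K.hLv hγ
  have h4 : DFc LK fun x => K.Dd (K.Lv (γ x)) (u x) (v x) :=
    DFc.comp (g := fun p : LK × LK × LK => K.Dd p.1 p.2.1 p.2.2) K.hDd
      (DFc.mk h3 (DFc.mk hu hv))
  have h5 : DFc LK fun x => RMK.zun K.hM (RMK.zsg K.hM (u x)) (RMK.zsg K.hM (v x)) :=
    DFc.zun K.hM (DFc.zsg K.hM hu) (DFc.zsg K.hM hv)
  have h6 : DFc LK fun x => RMK.zun K.hM (u x) (v x) := DFc.zun K.hM hu hv
  have h7 : DFc LK fun x => if i x = RMK.znat K.hM 1 then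
      RMK.zun K.hM (RMK.zsg K.hM (u x)) (RMK.zsg K.hM (v x)) else RMK.zun K.hM (u x) (v x) :=
    DFc.ite h5 h6 h2
  exact DFc.ite h4 h7 h1

/-- `ξ` codes the quadruple `q` -/
private def Qkq (hM : ZF0 LK) (P2 : LK → LK → LK) (ξ i γ a b : LK) : Prop :=
  ξ = zsc hM (P2 i (P2 γ (P2 a b))) ∧ IsO i.1 ∧ IsO γ.1 ∧ IsO a.1 ∧ IsO b.1

private theorem qq_uniq (hM : ZF0 LK) {P2 : LK → LK → LK}
    (hP : ∀ a b : Om, P2 (oz a) (oz b) = oz (gp a b)) {ξ i γ a b i' γ' a' b' : LK}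
    (h : Qkq hM P2 ξ i γ a b) (h' : Qkq hM P2 ξ i' γ' a' b') :
    i = i' ∧ γ = γ' ∧ a = a' ∧ b = b' := by
  obtain ⟨h0, h1, h2, h3, h4⟩ := h
  obtain ⟨h0', h1', h2', h3', h4'⟩ := h'
  obtain ⟨i, rfl⟩ := isO_LK h1
  obtain ⟨γ, rfl⟩ := isO_LK h2
  obtain ⟨a, rfl⟩ := isO_LK h3
  obtain ⟨b, rfl⟩ := isO_LK h4
  obtain ⟨i', rfl⟩ := isO_LK h1'
  obtain ⟨γ', rfl⟩ := isO_LK h2'
  obtain ⟨a', rfl⟩ := isO_LK h3'
  obtain ⟨b', rfl⟩ := isO_LK h4'
  rw [h0] at h0'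
  have h5 := zsc_inj hM h0'
  rw [hP, hP, hP, hP, hP, hP] at h5
  obtain ⟨h6, h7⟩ := gp_inj (oz_inj h5)
  obtain ⟨h8, h9⟩ := gp_inj h7
  obtain ⟨h10, h11⟩ := gp_inj h9
  rw [h6, h8, h10, h11]
  exact ⟨rfl, rfl, rfl, rfl⟩

private theorem dQq (hM : ZF0 LK) {P2 : LK → LK → LK} (hP : DFc LK fun p : LK × LK => P2 p.1 p.2)
    {X : Type 1} [Ctx LK X] {ξ i γ a b : X → LK} (hξ : DFc LK ξ) (hi : DFc LK i)
    (hγ : DFc LK γ) (ha : DFc LK a) (hb : DFc LK b) :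
    MD LK fun x => Qkq hM P2 (ξ x) (i x) (γ x) (a x) (b x) := by
  have h1 : DFc LK fun x => P2 (a x) (b x) :=
    DFc.comp (g := fun p : LK × LK => P2 p.1 p.2) hP (DFc.mk ha hb)
  have h2 : DFc LK fun x => P2 (γ x) (P2 (a x) (b x)) :=
    DFc.comp (g := fun p : LK × LK => P2 p.1 p.2) hP (DFc.mk hγ h1)
  have h3 : DFc LK fun x => P2 (i x) (P2 (γ x) (P2 (a x) (b x))) :=
    DFc.comp (g := fun p : LK × LK => P2 p.1 p.2) hP (DFc.mk hi h2)
  have h4 : DFc LK fun x => zsc hM (P2 (i x) (P2 (γ x) (P2 (a x) (b x)))) :=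
    DFc.zun hM h3 (DFc.zsg hM h3)
  exact MD.and (MD.eq hξ h4 :) (MD.and (MD.isO hM hi) (MD.and (MD.isO hM hγ) (MD.and (MD.isO hM ha)
    (MD.isO hM hb))))

/-- the graph of the recursion -/
private def Gg (K : Kit LK) (P2 : LK → LK → LK) (ξ h y : LK) : Prop :=
  (∃ i γ a b, Qkq K.hM P2 ξ i γ a b ∧ y = Vv K i γ (RMK.zap K.hM h a) (RMK.zap K.hM h b)) ∨
    ((¬ ∃ i γ a b, Qkq K.hM P2 ξ i γ a b) ∧ y = ⟨∅, K.hM.empty_mem⟩)

/-- the context of the recursion -/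
private abbrev C0 : Type 1 := (LK × LK × LK) × LK

private theorem dQ4 (hM : ZF0 LK) {P2 : LK → LK → LK} (hP : DFc LK fun p : LK × LK => P2 p.1 p.2) :
    MD LK fun p : (((C0 × LK) × LK) × LK) × LK =>
      Qkq hM P2 p.1.1.1.1.1.2.1 p.1.1.1.2 p.1.1.2 p.1.2 p.2 := by
  have b0 : DFc LK fun p : (((C0 × LK) × LK) × LK) × LK => p := DFc.id
  have b1 : DFc LK fun p : (((C0 × LK) × LK) × LK) × LK => p.1 := DFc.fst b0
  have b2 : DFc LK fun p : (((C0 × LK) × LK) × LK) × LK => p.1.1 := DFc.fst b1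
  have b3 : DFc LK fun p : (((C0 × LK) × LK) × LK) × LK => p.1.1.1 := DFc.fst b2
  have b4 : DFc LK fun p : (((C0 × LK) × LK) × LK) × LK => p.1.1.1.1 := DFc.fst b3
  exact dQq hM hP (DFc.fst (DFc.snd (DFc.fst b4))) (DFc.snd b3) (DFc.snd b2) (DFc.snd b1)
    (DFc.snd b0)

private theorem dGg (K : Kit LK) {P2 : LK → LK → LK}
    (hP : DFc LK fun p : LK × LK => P2 p.1 p.2) :
    MD LK fun p : (LK × LK × LK) × LK => Gg K P2 p.1.2.1 p.1.2.2 p.2 := by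
  unfold Gg
  have b0 : DFc LK fun p : (((C0 × LK) × LK) × LK) × LK => p := DFc.id
  have b1 : DFc LK fun p : (((C0 × LK) × LK) × LK) × LK => p.1 := DFc.fst b0
  have b2 : DFc LK fun p : (((C0 × LK) × LK) × LK) × LK => p.1.1 := DFc.fst b1
  have b3 : DFc LK fun p : (((C0 × LK) × LK) × LK) × LK => p.1.1.1 := DFc.fst b2
  have b4 : DFc LK fun p : (((C0 × LK) × LK) × LK) × LK => p.1.1.1.1 := DFc.fst b3
  have hh : DFc LK fun p : (((C0 × LK) × LK) × LK) × LK => p.1.1.1.1.1.2.2 :=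
    DFc.snd (DFc.snd (DFc.fst b4))
  have hy : DFc LK fun p : (((C0 × LK) × LK) × LK) × LK => p.1.1.1.1.2 := DFc.snd b4
  have hv : DFc LK fun p : (((C0 × LK) × LK) × LK) × LK => Vv K p.1.1.1.2 p.1.1.2
      (RMK.zap K.hM p.1.1.1.1.1.2.2 p.1.2) (RMK.zap K.hM p.1.1.1.1.1.2.2 p.2) :=
    dVv K (DFc.snd b3) (DFc.snd b2) (DFc.zap K.hM hh (DFc.snd b1)) (DFc.zap K.hM hh (DFc.snd b0))
  have e1 : MD LK fun p : C0 => ∃ i γ a b, Qkq K.hM P2 p.1.2.1 i γ a b ∧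
      p.2 = Vv K i γ (RMK.zap K.hM p.1.2.2 a) (RMK.zap K.hM p.1.2.2 b) :=
    MD.ex (MD.ex (MD.ex (MD.ex (MD.and (dQ4 K.hM hP) (MD.eq hy hv)))))
  have e2 : MD LK fun p : C0 => ∃ i γ a b, Qkq K.hM P2 p.1.2.1 i γ a b :=
    MD.ex (MD.ex (MD.ex (MD.ex (dQ4 K.hM hP))))
  have c0 : DFc LK fun p : C0 => p := DFc.id
  have e3 : MD LK fun p : C0 => p.2 = ⟨∅, K.hM.empty_mem⟩ := MD.eq (DFc.snd c0) (DFc.const _)
  exact MD.or e1 (MD.and (MD.not e2) e3)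

private theorem gg_ex (K : Kit LK) (P2 : LK → LK → LK) (ξ h : LK) : ∃ y, Gg K P2 ξ h y := by
  by_cases H : ∃ i γ a b, Qkq K.hM P2 ξ i γ a b
  · obtain ⟨i, γ, a, b, hq⟩ := H
    exact ⟨_, Or.inl ⟨i, γ, a, b, hq, rfl⟩⟩
  · exact ⟨_, Or.inr ⟨H, rfl⟩⟩

private theorem gg_uniq (K : Kit LK) {P2 : LK → LK → LK}
    (hP : ∀ a b : Om, P2 (oz a) (oz b) = oz (gp a b)) {ξ h y y' : LK} (h1 : Gg K P2 ξ h y)
    (h2 : Gg K P2 ξ h y') : y = y' := by
  rcases h1 with ⟨i, γ, a, b, hq, e⟩ | ⟨hn, e⟩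
  · rcases h2 with ⟨i', γ', a', b', hq', e'⟩ | ⟨hn', e'⟩
    · obtain ⟨r1, r2, r3, r4⟩ := qq_uniq K.hM hP hq hq'
      rw [e, e', r1, r2, r3, r4]
    · exact (hn' ⟨i, γ, a, b, hq⟩).elim
  · rcases h2 with ⟨i', γ', a', b', hq', e'⟩ | ⟨hn', e'⟩
    · exact (hn ⟨i', γ', a', b', hq'⟩).elim
    · rw [e, e']

/-- the index of a quadruple -/
private noncomputable def qi (i γ a b : Om) : Om := sOm (gp i (gp γ (gp a b)))

private theorem exists_e (K : Kit LK) {P2 : LK → LK → LK}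
    (hP : DFc LK fun p : LK × LK => P2 p.1 p.2)
    (hPs : ∀ a b : Om, P2 (oz a) (oz b) = oz (gp a b)) :
    ∃ e : LK → LK, DFc LK e ∧ e (oz default) = ⟨∅, K.hM.empty_mem⟩ ∧
      ∀ i γ a b : Om, e (oz (qi i γ a b)) = Vv K (oz i) (oz γ) (e (oz a)) (e (oz b)) := by
  choose F hF using gg_ex K P2
  have hFg : ∀ ξ h y, y = F ξ h ↔ Gg K P2 ξ h y := fun ξ h y =>
    ⟨fun e => e ▸ hF ξ h, fun e => gg_uniq K hPs e (hF ξ h)⟩
  have dF : DFc LK fun p : LK × LK × LK => F p.2.1 p.2.2 := by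
    refine DFc.of_graph (MD.congr (fun p => (hFg _ _ _).symm) (dGg K hP))
  obtain ⟨H, hH, hHs⟩ := recOrd (X := LK) K.hM (F := fun _ ξ h => F ξ h) dF
  refine ⟨fun γ => H (oz default) γ, DFc.comp (g := fun p : LK × LK => H p.1 p.2) hH
    (DFc.mk (DFc.const _) DFc.id), ?_, ?_⟩
  · obtain ⟨h, -, -, h4⟩ := hHs (oz default) (oz default) (isO_oz _)
    refine h4.trans ((hFg _ _ _).2 (Or.inr ⟨?_, rfl⟩)).symm
    rintro ⟨i, γ, a, b, hq, -⟩
    have h5 : (oz (default : Om)).1 = (P2 i (P2 γ (P2 a b))).1 ∪ {(P2 i (P2 γ (P2 a b))).1} :=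
      congrArg Subtype.val hq
    have h6 : (P2 i (P2 γ (P2 a b))).1 ∈ (oz (default : Om)).1 := by
      rw [h5]
      simp
    have h7 : (oz (default : Om)).1 = ∅ := by
      show (0 : Ordinal.{0}).toZFSet = ∅
      exact Ordinal.toZFSet_zero
    rw [h7] at h6
    exact ZFSet.notMem_empty _ h6
  · intro i γ a b
    obtain ⟨h, -, h3, h4⟩ := hHs (oz default) (oz (qi i γ a b)) (isO_oz _)
    have lt1 : gp a b < qi i γ a b := by
      refine lt_of_le_of_lt ((le_gp_right γ _).trans (le_gp_right i _)) ?_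
      show (gp i (gp γ (gp a b))).1 < (gp i (gp γ (gp a b))).1 + 1
      exact Order.lt_add_one_iff.2 le_rfl
    have e1 := h3 (oz a) (oz_mem (lt_of_le_of_lt (le_gp_left a b) lt1))
    have e2 := h3 (oz b) (oz_mem (lt_of_le_of_lt (le_gp_right a b) lt1))
    refine h4.trans ((hFg _ _ _).2 (Or.inl ⟨oz i, oz γ, oz a, oz b, ⟨?_, isO_oz _, isO_oz _,
      isO_oz _, isO_oz _⟩, ?_⟩)).symm
    · rw [hPs, hPs, hPs, zsc_oz]
      rfl
    · rw [e1, e2]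

theorem exists_enumL (K : Kit LK) : ∃ e : LK → LK, DFc LK e ∧ ∀ x : LK, ∃ ξ : Om, e (oz ξ) = x := by
  obtain ⟨P2, hP2, hP2s⟩ := exists_P2 K.hM toZ_mem_LK
  obtain ⟨e, he, e0, es⟩ := exists_e K hP2 (fun a b => Subtype.ext (hP2s a b))
  refine ⟨e, he, ?_⟩
  have Ln : ∀ k, oz (nOm k) = RMK.znat K.hM k := fun k => Subtype.ext rfl
  let R : Set ZFSet.{0} := {x | ∃ ξ : Om, (e (oz ξ)).1 = x}
  have R0 : (∅ : ZFSet.{0}) ∈ R := ⟨default, by rw [e0]⟩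
  have hne : ∀ {k l : ℕ}, k ≠ l → RMK.znat K.hM k ≠ RMK.znat K.hM l := fun hkl h =>
    hkl (natZ_inj.1 (congrArg Subtype.val h))
  have Rp : ∀ a ∈ R, ∀ b ∈ R, ({a, b} : ZFSet.{0}) ∈ R := by
    rintro _ ⟨a, rfl⟩ _ ⟨b, rfl⟩
    refine ⟨qi (nOm 1) default a b, ?_⟩
    rw [es, Ln]
    unfold Vv
    rw [if_neg (hne (by decide)), if_pos rfl]
    show {(e (oz a)).1} ∪ {(e (oz b)).1} = _
    ext z
    rw [ZFSet.mem_union, ZFSet.mem_singleton, ZFSet.mem_singleton, ZFSet.mem_pair]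
  have Ru : ∀ a ∈ R, ∀ b ∈ R, a ∪ b ∈ R := by
    rintro _ ⟨a, rfl⟩ _ ⟨b, rfl⟩
    refine ⟨qi (nOm 2) default a b, ?_⟩
    rw [es, Ln]
    unfold Vv
    rw [if_neg (hne (by decide)), if_neg (hne (by decide))]
    rfl
  have Rn : ∀ k, natZ k ∈ R := by
    intro k
    induction k with
    | zero =>
      have h0 : natZ 0 = ∅ := by
        show ((0 : ℕ) : Ordinal.{0}).toZFSet = ∅
        rw [Nat.cast_zero, Ordinal.toZFSet_zero]
      rw [h0]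
      exact R0
    | succ k ih =>
      have h1 : natZ (k + 1) = natZ k ∪ {natZ k, natZ k} := by
        show ((k + 1 : ℕ) : Ordinal.{0}).toZFSet = _
        rw [Nat.cast_add, Nat.cast_one, Ordinal.toZFSet_add_one]
        ext z
        rw [ZFSet.mem_union, ZFSet.mem_pair, ZFSet.mem_insert_iff, or_self, or_comm]
        rfl
      rw [h1]
      exact Ru _ ih _ (Rp _ ih _ ih)
  have RL : ∀ γ : Ordinal.{0}, γ ≤ Ordinal.omega 1 → L γ ⊆ R := by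
    intro γ
    induction γ using WellFoundedLT.induction with
    | ind γ ih =>
      intro hγ x hx
      obtain ⟨β, hβ, φ, s, hs, hxs⟩ := mem_L_iff.1 hx
      have hβ1 : β < Ordinal.omega 1 := lt_of_lt_of_le hβ hγ
      by_cases hne' : (L β).Nonempty
      · have hLv := K.Lv_spec β (oz ⟨β, hβ1⟩) rfl
        obtain ⟨z₀, hz1, hz2, hz3⟩ := exists_FP_of (bd φ) s (x := (K.Lv (oz ⟨β, hβ1⟩)).1)
          fun i => (hLv _).2 (hs hne' i)
        have hzR := hz3 R R0 Rn (fun i => ih β hβ hβ1.le (hs hne' i)) Rp Ru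
        have hcR := code_closed φ Rn Rp
        obtain ⟨b, hb⟩ := hzR
        obtain ⟨a, ha⟩ := hcR
        refine ⟨qi (nOm 0) ⟨β, hβ1⟩ a b, ?_⟩
        rw [es, Ln]
        unfold Vv
        rw [if_pos rfl]
        have hd := K.isDef (γ := β) (oz ⟨β, hβ1⟩) rfl φ s (e (oz b)) (by rw [hb]; exact hz1)
          (fun i hi => by rw [hb]; exact hz2 i hi) (e (oz a)) ha
        ext z
        rw [hd z, hxs z]
      · have hx0 : x = ∅ := by
          rw [ZFSet.eq_empty]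
          intro z hz
          exact hne' ⟨z, ((hxs z).1 hz).1⟩
        rw [hx0]
        exact R0
  intro x
  obtain ⟨ξ, hξ⟩ := RL _ le_rfl x.2
  exact ⟨ξ, Subtype.ext hξ⟩

/-- definable functions on `L_{ω₁}`: kit, pairing function, enumeration -/
structure EKit where
  /-- kit -/
  K : Kit LK
  /-- pairing function -/
  P2 : LK → LK → LK
  hP2 : DFc LK fun p : LK × LK => P2 p.1 p.2
  P2_spec : ∀ a b : Om, P2 (oz a) (oz b) = oz (gp a b)
  /-- enumeration -/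
  e : LK → LK
  he : DFc LK e
  e_surj : ∀ x : LK, ∃ ξ : Om, e (oz ξ) = x

theorem exists_ekit (hM : ZF0 LK) : Nonempty EKit := by
  obtain ⟨K⟩ := exists_kit hM
  obtain ⟨P2, hP2, hP2s⟩ := exists_P2 hM toZ_mem_LK
  obtain ⟨e, he, es⟩ := exists_enumL K
  exact ⟨{
    K := K
    P2 := P2
    hP2 := hP2
    P2_spec := fun a b => Subtype.ext (hP2s a b)
    e := e
    he := he
    e_surj := es }⟩

/-- a definable choice function -/
theorem EKit.choice (E : EKit) : ∃ ch : LK → LK, DFc LK ch ∧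
    ∀ B : LK, (∃ z, z ∈ B.1) → (ch B).1 ∈ B.1 := by
  have wf : ∀ B : LK, (∃ z, z ∈ B.1) → ∃ ξ : Om, (E.e (oz ξ)).1 ∈ B.1 ∧
      ∀ η : Om, η < ξ → (E.e (oz η)).1 ∉ B.1 := by
    rintro B ⟨z, hz⟩
    obtain ⟨ξ, hξ⟩ := E.e_surj ⟨z, E.K.hM.trans _ B.2 _ hz⟩
    have hne : {ξ : Om | (E.e (oz ξ)).1 ∈ B.1}.Nonempty := ⟨ξ, by
      show (E.e (oz ξ)).1 ∈ B.1
      rw [hξ]
      exact hz⟩
    refine ⟨WellFounded.min wellFounded_lt _ hne, WellFounded.min_mem wellFounded_lt _ hne, ?_⟩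
    intro η hη h
    exact WellFounded.not_lt_min wellFounded_lt {ξ : Om | (E.e (oz ξ)).1 ∈ B.1} h hη
  let Q : LK → LK → Prop := fun B ξ => IsO ξ.1 ∧ (E.e ξ).1 ∈ B.1 ∧
    ∀ η : LK, η.1 ∈ ξ.1 → (E.e η).1 ∉ B.1
  have hQu : ∀ {B ξ ξ' : LK}, Q B ξ → Q B ξ' → ξ = ξ' := by
    rintro B ξ ξ' ⟨h1, h2, h3⟩ ⟨h1', h2', h3'⟩
    obtain ⟨ξ, rfl⟩ := isO_LK h1
    obtain ⟨ξ', rfl⟩ := isO_LK h1'
    rcases lt_trichotomy ξ ξ' with h | h | h
    · exact (h3' _ (oz_mem h) h2).elim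
    · rw [h]
    · exact (h3 _ (oz_mem h) h2').elim
  let G : LK → LK → Prop := fun B y => (∃ ξ, Q B ξ ∧ y = E.e ξ) ∨
    ((¬ ∃ ξ, Q B ξ) ∧ y = ⟨∅, E.K.hM.empty_mem⟩)
  have hex : ∀ B, ∃ y, G B y := by
    intro B
    by_cases H : ∃ ξ, Q B ξ
    · obtain ⟨ξ, hξ⟩ := H
      exact ⟨_, Or.inl ⟨ξ, hξ, rfl⟩⟩
    · exact ⟨_, Or.inr ⟨H, rfl⟩⟩
  have hun : ∀ {B y y' : LK}, G B y → G B y' → y = y' := by
    rintro B y y' (⟨ξ, h, e⟩ | ⟨h, e⟩) (⟨ξ', h', e'⟩ | ⟨h', e'⟩)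
    · rw [e, e', hQu h h']
    · exact (h' ⟨ξ, h⟩).elim
    · exact (h ⟨ξ', h'⟩).elim
    · rw [e, e']
  choose ch hch using hex
  have dQ : ∀ {X : Type 1} [Ctx LK X] {B ξ : X → LK}, DFc LK B → DFc LK ξ →
      MD LK fun x => Q (B x) (ξ x) := by
    intro X _ B ξ hB hξ
    have c1 : DFc LK fun p : X × LK => B p.1 := DFc.comp hB (DFc.fst DFc.id)
    have c2 : DFc LK fun p : X × LK => ξ p.1 := DFc.comp hξ (DFc.fst DFc.id)
    have c3 : DFc LK fun p : X × LK => p.2 := DFc.snd DFc.id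
    have c4 : DFc LK fun p : X × LK => E.e p.2 := DFc.comp E.he c3
    have c5 : DFc LK fun x : X => E.e (ξ x) := DFc.comp E.he hξ
    exact MD.and (MD.isO E.K.hM hξ) (MD.and (MD.mem c5 hB :) (MD.all (MD.imp (MD.mem c3 c2 :)
      (MD.not (MD.mem c4 c1 :)))))
  refine ⟨ch, ?_, ?_⟩
  · have hg : ∀ p : LK × LK, G p.1 p.2 ↔ p.2 = ch p.1 := fun p =>
      ⟨fun h => hun h (hch p.1), fun h => h ▸ hch p.1⟩
    refine DFc.of_graph (MD.congr hg ?_)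
    have d1 : DFc LK fun p : (LK × LK) × LK => p.1.1 := DFc.fst (DFc.fst DFc.id)
    have d2 : DFc LK fun p : (LK × LK) × LK => p.1.2 := DFc.snd (DFc.fst DFc.id)
    have d3 : DFc LK fun p : (LK × LK) × LK => p.2 := DFc.snd DFc.id
    have d4 : DFc LK fun p : (LK × LK) × LK => E.e p.2 := DFc.comp E.he d3
    have d5 : DFc LK fun p : LK × LK => p.2 := DFc.snd DFc.id
    have e1 : MD LK fun p : LK × LK => ∃ ξ, Q p.1 ξ ∧ p.2 = E.e ξ :=
      MD.ex (MD.and (dQ d1 d3) (MD.eq d2 d4))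
    have e2 : MD LK fun p : LK × LK => ∃ ξ, Q p.1 ξ := MD.ex (dQ d1 d3)
    have e3 : MD LK fun p : LK × LK => p.2 = ⟨∅, E.K.hM.empty_mem⟩ := MD.eq d5 (DFc.const _)
    exact MD.or e1 (MD.and (MD.not e2) e3)
  · intro B hB
    obtain ⟨ξ, h1, h2⟩ := wf B hB
    have hq : Q B (oz ξ) := by
      refine ⟨isO_oz _, h1, ?_⟩
      intro η hη
      obtain ⟨a, ha, ha2⟩ := Ordinal.mem_toZFSet_iff.1 hη
      have h3 : η = oz ⟨a, ha.trans ξ.2⟩ := Subtype.ext ha2.symm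
      rw [h3]
      exact h2 _ ha
    rw [hun (hch B) (Or.inl ⟨oz ξ, hq, rfl⟩)]
    exact h1

end RMK
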