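import Pool.Agent.RMK.S.ZRec

/-!
RMK ZFP: finite partial assignments (`FP`, `ext`, `updZ`, see `SDefs.lean`).

PROOFS.
`FP.fn`: every `s` with `FP x s` is a finite set of pairs `pair (natZ i) a` with `a ∈ x`, functional (induction).
`ext_upd`: `apZ (updZ s (natZ i) a) (natZ j)` is `a` for `j = i`, and `apZ s (natZ j)` for `j ≠ i`, since the pairs
with first coordinate `natZ j` are the same (`ZFSet.pair_inj`, `natZ_inj`).
`FP.ext_mem`: induction with `ext_upd`; `ext ∅ i = ∅`.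
`exists_FP_of`: induction on `k`: `z_0 = ∅`, `z_{k+1} = updZ z_k (natZ k) (s k)`.
`FP.sub_closed`: for a set `R` of sets containing `∅` and the `natZ i`, closed under unordered pairs and
binary unions, with `s i ∈ R` for `i < k`, the `z` of `exists_FP_of` is in `R`: here `z_{k+1} = z_k ∪
{pair (natZ k) (s k)}` since no pair with first coordinate `natZ k` is in `z_k` (so state and prove
`exists_FP_of'` in this form).
`exists_FP`: `recNat` with parameter `x`: `a x = {∅}`, `F x n u = u ∪ ⋃_{s ∈ u, i ∈ ω, b ∈ x} {zup s i b}`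
(`unionF` or `replF` over the product `u × (ω × x)`, or three nested `unionF`), then the union over `ω`
(`unionF`).  An element is in the `m`-th stage iff it is obtained from `∅` by at most `m` updates.
-/

namespace RMK

open Set PU

variable {M : Set ZFSet.{0}} {X : Type 1} [Ctx M X]

private theorem zfp_mem_upd {s i a w : ZFSet.{0}} :
    w ∈ updZ s i a ↔ (w ∈ s ∧ ∀ y, w ≠ ZFSet.pair i y) ∨ w = ZFSet.pair i a := by
  unfold updZ
  rw [ZFSet.mem_union, ZFSet.mem_sep, ZFSet.mem_singleton]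

private theorem zfp_pair_upd_same {s i a y : ZFSet.{0}} :
    ZFSet.pair i y ∈ updZ s i a ↔ y = a := by
  rw [zfp_mem_upd]
  constructor
  · rintro (⟨_, h⟩ | h)
    · exact absurd rfl (h y)
    · exact (ZFSet.pair_inj.1 h).2
  · rintro rfl
    exact Or.inr rfl

private theorem zfp_pair_upd_ne {s i j a y : ZFSet.{0}} (h : j ≠ i) :
    ZFSet.pair j y ∈ updZ s i a ↔ ZFSet.pair j y ∈ s := by
  rw [zfp_mem_upd]
  constructor
  · rintro (⟨h1, _⟩ | h1)
    · exact h1
    · exact absurd (ZFSet.pair_inj.1 h1).1 h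
  · intro h1
    exact Or.inl ⟨h1, fun z hz => h (ZFSet.pair_inj.1 hz).1⟩

open Classical in
private theorem zfp_apZ_congr {h h' d : ZFSet.{0}}
    (H : ∀ y, ZFSet.pair d y ∈ h ↔ ZFSet.pair d y ∈ h') : apZ h d = apZ h' d := by
  have key : ∀ P Q : ZFSet.{0} → Prop, P = Q →
      (if H : ∃ y, P y then H.choose else (∅ : ZFSet.{0})) =
        (if H : ∃ y, Q y then H.choose else (∅ : ZFSet.{0})) := by
    rintro P _ rfl
    rfl
  refine key (fun y => ZFSet.pair d y ∈ h ∧ ∀ y', ZFSet.pair d y' ∈ h → y' = y)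
    (fun y => ZFSet.pair d y ∈ h' ∧ ∀ y', ZFSet.pair d y' ∈ h' → y' = y) (funext fun y => ?_)
  simp only [H]

private theorem zfp_apZ_of {h d y : ZFSet.{0}} (h1 : ZFSet.pair d y ∈ h)
    (h2 : ∀ y', ZFSet.pair d y' ∈ h → y' = y) : apZ h d = y := by
  have H : ∃ y, ZFSet.pair d y ∈ h ∧ ∀ y', ZFSet.pair d y' ∈ h → y' = y := ⟨y, h1, h2⟩
  unfold apZ
  rw [dif_pos H]
  exact h2 _ H.choose_spec.1

theorem FP.finite {x s : ZFSet.{0}} (h : FP x s) : {w : ZFSet.{0} | w ∈ s}.Finite := by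
  induction h with
  | nil =>
    refine Set.Finite.subset Set.finite_empty fun w hw => ?_
    exact absurd hw (ZFSet.notMem_empty w)
  | @upd s i a _ _ ih =>
    refine (ih.union (Set.finite_singleton (ZFSet.pair (natZ i) a))).subset fun w hw => ?_
    rcases zfp_mem_upd.1 hw with h | h
    · exact Or.inl h.1
    · exact Or.inr h

theorem FP.fn {x s : ZFSet.{0}} (h : FP x s) :
    (∀ w ∈ s, ∃ (i : ℕ) (a : ZFSet.{0}), a ∈ x ∧ w = ZFSet.pair (natZ i) a) ∧
      ∀ (i : ℕ) a a', ZFSet.pair (natZ i) a ∈ s → ZFSet.pair (natZ i) a' ∈ s → a = a' := by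
  induction h with
  | nil =>
    exact ⟨fun w hw => absurd hw (ZFSet.notMem_empty w),
      fun i a a' hw => absurd hw (ZFSet.notMem_empty _)⟩
  | @upd s i a _ ha ih =>
    refine ⟨fun w hw => ?_, fun j b b' hb hb' => ?_⟩
    · rcases zfp_mem_upd.1 hw with h | h
      · exact ih.1 w h.1
      · exact ⟨i, a, ha, h⟩
    · by_cases hj : natZ j = natZ i
      · rw [hj, zfp_pair_upd_same] at hb hb'
        rw [hb, hb']
      · rw [zfp_pair_upd_ne hj] at hb hb'
        exact ih.2 j b b' hb hb'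

theorem ext_empty (i : ℕ) : ext ∅ i = ∅ := by
  unfold ext apZ
  rw [dif_neg]
  rintro ⟨y, hy, _⟩
  exact ZFSet.notMem_empty _ hy

theorem ext_upd (s : ZFSet.{0}) (i : ℕ) (a : ZFSet.{0}) :
    ext (updZ s (natZ i) a) = Function.update (ext s) i a := by
  funext j
  by_cases h : j = i
  · rw [h, Function.update_self]
    exact zfp_apZ_of (zfp_pair_upd_same.2 rfl) fun y' hy' => zfp_pair_upd_same.1 hy'
  · rw [Function.update_of_ne h]
    exact zfp_apZ_congr fun y => zfp_pair_upd_ne fun h' => h (natZ_inj.1 h')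

theorem FP.ext_mem {x s : ZFSet.{0}} (h : FP x s) (i : ℕ) : ext s i ∈ x ∨ ext s i = ∅ := by
  induction h with
  | nil => exact Or.inr (ext_empty i)
  | @upd s j a _ ha ih =>
    rw [ext_upd]
    by_cases h : i = j
    · rw [h, Function.update_self]
      exact Or.inl ha
    · rw [Function.update_of_ne h]
      exact ih

theorem FP.mono {x y s : ZFSet.{0}} (h : FP x s) (hxy : x ⊆ y) : FP y s := by
  induction h with
  | nil => exact FP.nil
  | upd i _ ha ih => exact FP.upd i ih (hxy ha)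

theorem FP.mem_M (hM : ZF0 M) {x s : ZFSet.{0}} (hx : x ∈ M) (h : FP x s) : s ∈ M := by
  induction h with
  | nil => exact hM.empty_mem
  | upd i _ ha ih => exact hM.updZ_mem ih (hM.natZ_mem i) (hM.trans _ hx _ ha)

private theorem zfp_pairR {R : Set ZFSet.{0}}
    (h2 : ∀ a ∈ R, ∀ b ∈ R, ({a, b} : ZFSet.{0}) ∈ R) {a b : ZFSet.{0}} (ha : a ∈ R) (hb : b ∈ R) :
    ZFSet.pair a b ∈ R := by
  have h3 := h2 a ha a ha
  rw [ZFSet.pair_eq_singleton] at h3
  exact h2 _ h3 _ (h2 a ha b hb)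

private theorem zfp_exists (k : ℕ) (s : ℕ → ZFSet.{0}) {x : ZFSet.{0}} (hs : ∀ i, s i ∈ x) :
    ∃ z, FP x z ∧ (∀ i, i < k → ext z i = s i) ∧
      (∀ i, k ≤ i → ∀ y, ZFSet.pair (natZ i) y ∉ z) ∧
      ∀ R : Set ZFSet.{0}, (∅ : ZFSet.{0}) ∈ R → (∀ i, natZ i ∈ R) → (∀ i, s i ∈ R) →
        (∀ a ∈ R, ∀ b ∈ R, ({a, b} : ZFSet.{0}) ∈ R) → (∀ a ∈ R, ∀ b ∈ R, a ∪ b ∈ R) → z ∈ R := by
  induction k with
  | zero =>
    refine ⟨∅, FP.nil, fun i hi => absurd hi (Nat.not_lt_zero i),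
      fun i _ y => ZFSet.notMem_empty _, fun R h1 _ _ _ _ => h1⟩
  | succ k ih =>
    obtain ⟨z, hz, h1, h2, h3⟩ := ih
    refine ⟨updZ z (natZ k) (s k), FP.upd k hz (hs k), ?_, ?_, ?_⟩
    · intro i hi
      rw [ext_upd]
      rcases Nat.lt_succ_iff_lt_or_eq.1 hi with h | h
      · rw [Function.update_of_ne (ne_of_lt h), h1 i h]
      · rw [h, Function.update_self]
    · intro i hi y hy
      have hne : natZ i ≠ natZ k := fun h => by
        have := natZ_inj.1 h
        omega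
      exact h2 i (by omega) y ((zfp_pair_upd_ne hne).1 hy)
    · intro R r1 r2 r3 r4 r5
      have e : updZ z (natZ k) (s k) = z ∪ {ZFSet.pair (natZ k) (s k)} := by
        ext w
        rw [zfp_mem_upd, ZFSet.mem_union, ZFSet.mem_singleton]
        constructor
        · rintro (⟨h, _⟩ | h)
          · exact Or.inl h
          · exact Or.inr h
        · rintro (h | h)
          · refine Or.inl ⟨h, fun y hy => ?_⟩
            rw [hy] at h
            exact h2 k le_rfl y h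
          · exact Or.inr h
      rw [e]
      have hp := zfp_pairR r4 (r2 k) (r3 k)
      have hp2 := r4 _ hp _ hp
      rw [ZFSet.pair_eq_singleton] at hp2
      exact r5 _ (h3 R r1 r2 r3 r4 r5) _ hp2

/-- every finite part of an assignment is coded; the code is in every set `R` with the listed closure
properties -/
theorem exists_FP_of (k : ℕ) (s : ℕ → ZFSet.{0}) {x : ZFSet.{0}} (hs : ∀ i, s i ∈ x) :
    ∃ z, FP x z ∧ (∀ i, i < k → ext z i = s i) ∧
      ∀ R : Set ZFSet.{0}, (∅ : ZFSet.{0}) ∈ R → (∀ i, natZ i ∈ R) → (∀ i, s i ∈ R) →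
        (∀ a ∈ R, ∀ b ∈ R, ({a, b} : ZFSet.{0}) ∈ R) → (∀ a ∈ R, ∀ b ∈ R, a ∪ b ∈ R) → z ∈ R := by
  obtain ⟨z, h1, h2, _, h3⟩ := zfp_exists k s hs
  exact ⟨z, h1, h2, h3⟩

theorem exists_FP (hM : ZF0 M) : ∃ P : M → M, DFc M P ∧ ∀ (x : M) z, z ∈ (P x).1 ↔ FP x.1 z := by
  obtain ⟨f1, hf1, H1⟩ := hM.replF (X := ((M × M × M) × M) × M) (a := fun p => p.1.1.1)
    (DFc.fst (DFc.fst (DFc.fst DFc.id)))
    (F := fun p b => zup hM p.1.2 p.2 b)
    (DFc.zup hM (DFc.snd (DFc.fst (DFc.fst DFc.id))) (DFc.snd (DFc.fst DFc.id)) (DFc.snd DFc.id))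
  obtain ⟨f2, hf2, H2⟩ := hM.unionF (X := (M × M × M) × M) (a := fun _ => zom hM) (DFc.const _)
    (F := fun p i => f1 (p, i)) hf1
  obtain ⟨f3, hf3, H3⟩ := hM.unionF (X := M × M × M) (a := fun p => p.2.2)
    (DFc.snd (DFc.snd DFc.id)) (F := fun p s => f2 (p, s)) hf2
  obtain ⟨H, hH, HH⟩ := recNat (X := M) hM (a := fun _ => zsg hM ⟨∅, hM.empty_mem⟩) (DFc.const _)
    (F := fun x n u => zun hM u (f3 (x, n, u)))
    (DFc.zun hM (DFc.snd (DFc.snd DFc.id)) hf3)
  obtain ⟨P, hP, HP⟩ := hM.unionF (X := M) (a := fun _ => zom hM) (DFc.const _)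
    (F := fun x n => H x n) hH
  refine ⟨P, hP, fun x z => ?_⟩
  have step : ∀ (k : ℕ) (w : M), w.1 ∈ (H x (znat hM (k + 1))).1 ↔
      w.1 ∈ (H x (znat hM k)).1 ∨ ∃ s : M, s.1 ∈ (H x (znat hM k)).1 ∧ ∃ i : M, i.1 ∈ omZ ∧
        ∃ b : M, b.1 ∈ x.1 ∧ w = zup hM s i b := by
    intro k w
    rw [(HH x).2 k]
    show w.1 ∈ (H x (znat hM k)).1 ∪ (f3 (x, znat hM k, H x (znat hM k))).1 ↔ _
    rw [ZFSet.mem_union, H3]
    refine or_congr Iff.rfl ?_
    refine exists_congr fun s => and_congr Iff.rfl ?_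
    rw [H2]
    refine exists_congr fun i => and_congr Iff.rfl ?_
    rw [H1]
  constructor
  · intro hz
    have hzM : z ∈ M := hM.trans _ (P x).2 _ hz
    obtain ⟨n, hn, hz2⟩ := (HP x ⟨z, hzM⟩).1 hz
    obtain ⟨k, hk⟩ := mem_omZ.1 hn
    have hn' : n = znat hM k := Subtype.ext hk
    rw [hn'] at hz2
    clear hn hk hn' hz
    have key : ∀ (k : ℕ) (w : M), w.1 ∈ (H x (znat hM k)).1 → FP x.1 w.1 := by
      intro k
      induction k with
      | zero =>
        intro w hw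
        rw [(HH x).1] at hw
        have h1 : w.1 = ∅ := ZFSet.mem_singleton.1 hw
        rw [h1]
        exact FP.nil
      | succ k ih =>
        intro w hw
        rcases (step k w).1 hw with h | ⟨s, hs, i, hi, b, hb, hw'⟩
        · exact ih w h
        · obtain ⟨j, hj⟩ := mem_omZ.1 hi
          rw [hw']
          show FP x.1 (updZ s.1 i.1 b.1)
          rw [hj]
          exact FP.upd j (ih s hs) hb
    exact key k ⟨z, hzM⟩ hz2
  · intro hz
    have hzM : z ∈ M := FP.mem_M hM x.2 hz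
    suffices h : ∃ k : ℕ, z ∈ (H x (znat hM k)).1 by
      obtain ⟨k, hk⟩ := h
      exact (HP x ⟨z, hzM⟩).2 ⟨znat hM k, mem_omZ.2 ⟨k, rfl⟩, hk⟩
    clear hzM
    induction hz with
    | nil =>
      refine ⟨0, ?_⟩
      rw [(HH x).1]
      exact ZFSet.mem_singleton.2 rfl
    | @upd s i a hs ha ih =>
      obtain ⟨k, hk⟩ := ih
      have hsM : s ∈ M := FP.mem_M hM x.2 hs
      have haM : a ∈ M := hM.trans _ x.2 _ ha
      exact ⟨k + 1, (step k (zup hM ⟨s, hsM⟩ (znat hM i) ⟨a, haM⟩)).2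
        (Or.inr ⟨⟨s, hsM⟩, hk, znat hM i, mem_omZ.2 ⟨i, rfl⟩, ⟨a, haM⟩, ha, rfl⟩)⟩

end RMK
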