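import Pool.Agent.RMK.S.ZClo

/-!
RMK ZHUL: hulls in `L_{ω₁}` of size `δ`, elementary in the sense of `CX`.

PROOF of `exists_hull`.  `A = K.Lv (oz τ)` (the set `L_τ`), `∅ ∈ A`.  Use `exists_closure` with the following
relation `R (i, x1, x2, x3, x4, z)` (a finite disjunction over `i = natZ 0, ..., natZ 8`, each part `MD`; `K = E.K`,
`Dd`, `Lv`, `S`, `P`, `C` from the kit, `y` a parameter):
0: `z = y`;  1: `z = {x1, x2}`;  2: `z = x1 ∪ x2`;  3: `z = apZ x1 x2`;  4: `z = Dd (Lv x1) x2 x3`;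
5: `z ∈ Lv x1 ∧ updZ x3 x4 z ∉ S (Lv x1) x2`;
6: `z` is the least ordinal `g` such that `∃ c ∈ C, ∃ s ∈ P (Lv g), x1 = Dd (Lv g) c s`;
7: `z ∈ C ∧ ∃ s ∈ P (Lv x2), x1 = Dd (Lv x2) z s`;
8: `z ∈ P (Lv x2) ∧ x1 = Dd (Lv x2) x3 z`.
Let `Y = {apZ h ξ | ξ < δ}`.  `L δ ⊆ Y` by the base clause (`e2`, `L δ ⊆ L τ`), in particular `∅`, `natZ k ∈ Y` (`nOm k <
δ`, `toZFSet_mem_L`), and codes: `Y` is closed under pairs and unions as `A = L_τ` is (`τ` limit: `pair_mem_L`,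
`union_mem_L`; `x ∪ y = ⋃₀ {x, y}`), so `code_closed` applies with `R = Y`.  `y ∈ Y` by 0.
`CX τ Y`: `sub`, `emp` clear; `succ`: `γ + 1 = γ ∪ {γ}` (`Ordinal.toZFSet_add_one`), in `L τ` as `τ` is a limit.
`dfn`: let `x ∈ Y`, `x ≠ ∅`.  `x ∈ L τ`, so for some `β < τ` `x ∈ DefSets (L β)`, i.e. `x = Dd (Lv β) (code φ) z₀` for some
`z₀ ∈ P (Lv β)` (`exists_FP_of`, `Kit.isDef`).  Let `g` be the least such ordinal; it is in `A`; by 6 it is in `Y`.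
If `x ∈ L β'` then `x ∈ DefSets (L β)` for some `β < β'`, so `g ≤ β < β'`.  By 7 there is `c ∈ Y ∩ C` (codes are in
`L_δ ⊆ A`) with `∃ s ∈ P (Lv g), x = Dd (Lv g) c s`, by 8 there is `s ∈ Y` with `s ∈ P (Lv g)`, `x = Dd (Lv g) c s`
(`FP (L_g) s` implies `s ∈ L_τ`: induction, closure of `L_τ` under pairs and unions and separation; or as in
`exists_FP_of`).  `c = code φ`, and `IsDef g φ (ext s) x` (`Kit.isDef`).  `L g` is nonempty (else `x = ∅`), so `∅ ∈ L g` and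
all `ext s i ∈ L g` (`FP.ext_mem`); `ext s i = apZ s (natZ i) ∈ Y` by 3.
`clo`: given `γ ∈ Y`, `φ`, `s`; `z₀` from `exists_FP_of` (with `k = bd φ`, `R = Y`), `x = Dd (Lv γ) (code φ) z₀ ∈ Y` by 4
(it is in `L (γ + 1) ⊆ L τ`), `Kit.isDef`.
`wit`: given `γ, φ, s, i`; `z₀` with `k = max (bd φ) (i + 1)`; for `z ∈ L γ`: `updZ z₀ (natZ i) z ∉ S (Lv γ) (code φ)` iff
`¬ SatZ (Lv γ) φ (update (ext z₀) i z)` iff `¬ Sat (L γ) φ (update s i z)` (`sat_congr`); use 5.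
-/

namespace RMK

open Set PU

section

variable (K : Kit LK)

private theorem hul_md_fin {X : Type 1} [Ctx LK X] (n : ℕ) {P : ℕ → X → Prop}
    (h : ∀ k, MD LK (P k)) : MD LK fun x => ∃ k, k < n ∧ P k x := by
  induction n with
  | zero =>
    refine MD.congr (P := fun _ => False) (fun x => ?_) (MD.const False)
    constructor
    · exact fun h => h.elim
    · rintro ⟨k, hk, -⟩
      exact absurd hk (Nat.not_lt_zero k)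
  | succ n ih =>
    refine MD.congr (P := fun x => (∃ k, k < n ∧ P k x) ∨ P n x) (fun x => ?_) (MD.or ih (h n))
    constructor
    · rintro (⟨k, hk, hp⟩ | hp)
      · exact ⟨k, Nat.lt_succ_of_lt hk, hp⟩
      · exact ⟨n, Nat.lt_succ_self n, hp⟩
    · rintro ⟨k, hk, hp⟩
      rcases Nat.lt_or_eq_of_le (Nat.le_of_lt_succ hk) with h1 | h1
      · exact Or.inl ⟨k, h1, hp⟩
      · exact Or.inr (h1 ▸ hp)

private theorem hul_nOm_inj {k l : ℕ} (h : oz (nOm k) = oz (nOm l)) : k = l :=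
  natZ_inj.1 (congrArg Subtype.val h)

/-- the set of values of `h` on `δ` -/
private def YY (h : LK) (δ : Om) : Set ZFSet.{0} := {x | ∃ ξ, ξ < δ ∧ apZ h.1 (toZ ξ) = x}

private theorem hul_clo (E : EKit) {δ : Om} (hδ : Dlt E δ) (A : LK) (hA : (∅ : ZFSet.{0}) ∈ A.1)
    (n : ℕ) {R : ℕ → LK × LK × LK × LK × LK → Prop} (hR : ∀ k, MD LK (R k)) :
    ∃ h : LK, IsFn h.1 (toZ δ) ∧ (∀ x ∈ YY h δ, x ∈ A.1) ∧
      (∀ ξ, ξ < δ → (E.e (oz ξ)).1 ∈ A.1 → (E.e (oz ξ)).1 ∈ YY h δ) ∧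
      ∀ k, k < n → ∀ (x1 x2 x3 x4 : LK), x1.1 ∈ YY h δ → x2.1 ∈ YY h δ → x3.1 ∈ YY h δ →
        x4.1 ∈ YY h δ → (∃ z : LK, z.1 ∈ A.1 ∧ R k (x1, x2, x3, x4, z)) →
        ∃ z : LK, z.1 ∈ YY h δ ∧ R k (x1, x2, x3, x4, z) := by
  have hR' : MD LK fun p : LK × LK × LK × LK × LK × LK => ∃ k, k < n ∧
      (p.1 = oz (nOm k) ∧ R k p.2) := by
    apply hul_md_fin
    intro k
    exact MD.and (MD.eq (DFc.fst DFc.id) (DFc.const _)) (MD.comp (hR k) (DFc.snd DFc.id))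
  obtain ⟨h, h1, h2, h3, h4⟩ := exists_closure E hδ A hA hR'
  refine ⟨h, h1, ?_, h3, ?_⟩
  · rintro x ⟨ξ, hξ, rfl⟩
    exact h2 ξ hξ
  · rintro k hk x1 x2 x3 x4 hx1 hx2 hx3 hx4 ⟨z, hz, hz2⟩
    obtain ⟨z', hz1, -, k', -, hk2, hk3⟩ := h4 k x1 x2 x3 x4 hx1 hx2 hx3 hx4
      ⟨z, hz, k, hk, rfl, hz2⟩
    have e : k = k' := hul_nOm_inj hk2
    exact ⟨z', hz1, e ▸ hk3⟩

/-- `x` is definable over the level `g` -/
private def QD (x g : LK) : Prop :=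
  ∃ c : LK, c.1 ∈ K.C.1 ∧ ∃ s : LK, s.1 ∈ (K.P (K.Lv g)).1 ∧ x = K.Dd (K.Lv g) c s

section

variable {X : Type 1} [Ctx LK X] {f g h k : X → LK} (hf : DFc LK f) (hg : DFc LK g)
  (hh : DFc LK h) (hk : DFc LK k)

include hf

private theorem hul_Lv : DFc LK fun x => K.Lv (f x) := DFc.comp K.hLv hf

private theorem hul_P : DFc LK fun x => K.P (f x) := DFc.comp K.hP hf

include hg

private theorem hul_S : DFc LK fun x => K.S (f x) (g x) :=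
  DFc.comp (g := fun p : LK × LK => K.S p.1 p.2) K.hS (DFc.mk hf hg)

include hh in
private theorem hul_Dd : DFc LK fun x => K.Dd (f x) (g x) (h x) :=
  DFc.comp (g := fun p : LK × LK × LK => K.Dd p.1 p.2.1 p.2.2) K.hDd (DFc.mk hf (DFc.mk hg hh))

private theorem hul_Q : MD LK fun x => QD K (f x) (g x) := by
  have c1 : DFc LK fun p : X × LK => p.2 := DFc.snd DFc.id
  have f1 : DFc LK fun p : (X × LK) × LK => f p.1.1 := DFc.comp hf (DFc.fst (DFc.fst DFc.id))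
  have g1 : DFc LK fun p : (X × LK) × LK => g p.1.1 := DFc.comp hg (DFc.fst (DFc.fst DFc.id))
  have c2 : DFc LK fun p : (X × LK) × LK => p.1.2 := DFc.snd (DFc.fst DFc.id)
  have s2 : DFc LK fun p : (X × LK) × LK => p.2 := DFc.snd DFc.id
  have d1 := hul_Dd K (hul_Lv K g1) c2 s2
  have d2 := hul_P K (hul_Lv K g1)
  have d3 : DFc LK fun _ : X × LK => K.C := DFc.const K.C
  have m1 : MD LK fun p : (X × LK) × LK => p.2.1 ∈ (K.P (K.Lv (g p.1.1))).1 ∧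
      f p.1.1 = K.Dd (K.Lv (g p.1.1)) p.1.2 p.2 := MD.and (MD.mem s2 d2 :) (MD.eq f1 d1 :)
  have m2 : MD LK fun p : X × LK => p.2.1 ∈ K.C.1 ∧ ∃ s : LK, s.1 ∈ (K.P (K.Lv (g p.1))).1 ∧
      f p.1 = K.Dd (K.Lv (g p.1)) p.2 s := MD.and (MD.mem c1 d3 :) (MD.ex m1)
  exact MD.ex m2

end

/-- the relations defining the choice functions -/
private def RR (y : LK) : ℕ → LK × LK × LK × LK × LK → Prop
  | 0, (_, _, _, _, z) => z = y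
  | 1, (x1, x2, _, _, z) => z = zun K.hM (zsg K.hM x1) (zsg K.hM x2)
  | 2, (x1, x2, _, _, z) => z = zun K.hM x1 x2
  | 3, (x1, x2, _, _, z) => z = zap K.hM x1 x2
  | 4, (x1, x2, x3, _, z) => z = K.Dd (K.Lv x1) x2 x3
  | 5, (x1, x2, x3, x4, z) => z.1 ∈ (K.Lv x1).1 ∧
      ¬ (zup K.hM x3 x4 z).1 ∈ (K.S (K.Lv x1) x2).1
  | 6, (x1, _, _, _, z) => IsO z.1 ∧ QD K x1 z ∧ ∀ g : LK, g.1 ∈ z.1 → ¬ QD K x1 g
  | 7, (x1, x2, x3, _, z) => z.1 ∈ (K.P (K.Lv x2)).1 ∧ x1 = K.Dd (K.Lv x2) x3 z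
  | _, _ => False

private theorem hul_RR (y : LK) (k : ℕ) : MD LK (RR K y k) := by
  have p1 : DFc LK fun p : LK × LK × LK × LK × LK => p.1 := DFc.fst DFc.id
  have p2 : DFc LK fun p : LK × LK × LK × LK × LK => p.2.1 := DFc.fst (DFc.snd DFc.id)
  have p3 : DFc LK fun p : LK × LK × LK × LK × LK => p.2.2.1 :=
    DFc.fst (DFc.snd (DFc.snd DFc.id))
  have p4 : DFc LK fun p : LK × LK × LK × LK × LK => p.2.2.2.1 :=
    DFc.fst (DFc.snd (DFc.snd (DFc.snd DFc.id)))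
  have p5 : DFc LK fun p : LK × LK × LK × LK × LK => p.2.2.2.2 :=
    DFc.snd (DFc.snd (DFc.snd (DFc.snd DFc.id)))
  match k with
  | 0 => exact (MD.eq p5 (DFc.const y) :)
  | 1 => exact (MD.eq p5 (DFc.zun K.hM (DFc.zsg K.hM p1) (DFc.zsg K.hM p2)) :)
  | 2 => exact (MD.eq p5 (DFc.zun K.hM p1 p2) :)
  | 3 => exact (MD.eq p5 (DFc.zap K.hM p1 p2) :)
  | 4 => exact (MD.eq p5 (hul_Dd K (hul_Lv K p1) p2 p3) :)
  | 5 =>
    exact (MD.and (MD.mem p5 (hul_Lv K p1))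
      (MD.not (MD.mem (DFc.zup K.hM p3 p4 p5) (hul_S K (hul_Lv K p1) p2))) :)
  | 6 =>
    have q1 : DFc LK fun p : (LK × LK × LK × LK × LK) × LK => p.1.1 :=
      DFc.fst (DFc.fst DFc.id)
    have q5 : DFc LK fun p : (LK × LK × LK × LK × LK) × LK => p.1.2.2.2.2 :=
      DFc.snd (DFc.snd (DFc.snd (DFc.snd (DFc.fst DFc.id))))
    have qg : DFc LK fun p : (LK × LK × LK × LK × LK) × LK => p.2 := DFc.snd DFc.id
    have m : MD LK fun p : (LK × LK × LK × LK × LK) × LK =>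
        p.2.1 ∈ p.1.2.2.2.2.1 → ¬ QD K p.1.1 p.2 :=
      MD.imp (MD.mem qg q5 :) (MD.not (hul_Q K q1 qg))
    have m0 : MD LK fun p : LK × LK × LK × LK × LK => IsO p.2.2.2.2.1 := by
      first
        | exact MD.isO p5
        | exact MD.isO K.hM p5
    exact MD.and m0 (MD.and (hul_Q K p1 p5) (MD.all m))
  | 7 =>
    exact (MD.and (MD.mem p5 (hul_P K (hul_Lv K p2)))
      (MD.eq p1 (hul_Dd K (hul_Lv K p2) p3 p5)) :)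
  | _ + 8 => exact MD.const False

/-! ### Closure of `L τ` for limit `τ` -/

private theorem hul_two {τ : Ordinal.{0}} (hτ : Order.IsSuccLimit τ) {x y : ZFSet.{0}}
    (hx : x ∈ L τ) (hy : y ∈ L τ) : ∃ γ < τ, x ∈ L γ ∧ y ∈ L γ := by
  obtain ⟨γ1, h1, h2⟩ := exists_succ_level hx
  obtain ⟨γ2, h3, h4⟩ := exists_succ_level hy
  have e1 : γ1 + 1 < τ := by
    rw [← Order.succ_eq_add_one]
    exact hτ.succ_lt h1
  have e2 : γ2 + 1 < τ := by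
    rw [← Order.succ_eq_add_one]
    exact hτ.succ_lt h3
  exact ⟨max (γ1 + 1) (γ2 + 1), max_lt e1 e2, L_mono (le_max_left _ _) h2,
    L_mono (le_max_right _ _) h4⟩

private theorem hul_succ {τ : Ordinal.{0}} (hτ : Order.IsSuccLimit τ) {γ : Ordinal.{0}}
    (h : γ < τ) : L (γ + 1) ⊆ L τ := by
  apply L_mono
  have := hτ.succ_lt h
  rw [Order.succ_eq_add_one] at this
  exact this.le

private theorem hul_pair {τ : Ordinal.{0}} (hτ : Order.IsSuccLimit τ) {x y : ZFSet.{0}}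
    (hx : x ∈ L τ) (hy : y ∈ L τ) : ({x, y} : ZFSet.{0}) ∈ L τ := by
  obtain ⟨γ, h1, h2, h3⟩ := hul_two hτ hx hy
  exact hul_succ hτ h1 (pair_mem_L h2 h3)

private theorem hul_sU {τ : Ordinal.{0}} (hτ : Order.IsSuccLimit τ) {x : ZFSet.{0}}
    (hx : x ∈ L τ) : ZFSet.sUnion x ∈ L τ := by
  obtain ⟨γ, h1, h2, -⟩ := hul_two hτ hx hx
  exact hul_succ hτ h1 (union_mem_L h2)

private theorem hul_un {τ : Ordinal.{0}} (hτ : Order.IsSuccLimit τ) {x y : ZFSet.{0}}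
    (hx : x ∈ L τ) (hy : y ∈ L τ) : x ∪ y ∈ L τ := by
  have h := hul_sU hτ (hul_pair hτ hx hy)
  have e : ZFSet.sUnion ({x, y} : ZFSet.{0}) = x ∪ y := by
    apply ZFSet.ext
    intro z
    rw [ZFSet.mem_sUnion, ZFSet.mem_union]
    constructor
    · rintro ⟨w, hw, hz⟩
      rcases ZFSet.mem_pair.1 hw with h | h
      · exact Or.inl (h ▸ hz)
      · exact Or.inr (h ▸ hz)
    · rintro (hz | hz)
      · exact ⟨x, ZFSet.mem_pair.2 (Or.inl rfl), hz⟩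
      · exact ⟨y, ZFSet.mem_pair.2 (Or.inr rfl), hz⟩
  rwa [e] at h

private theorem hul_ap {τ : Ordinal.{0}} (h0 : (∅ : ZFSet.{0}) ∈ L τ) {h d : ZFSet.{0}}
    (hh : h ∈ L τ) : apZ h d ∈ L τ := by
  unfold apZ
  split_ifs with H
  · have h1 := H.choose_spec.1
    have h2 : ZFSet.pair d H.choose ∈ L τ := L_transitive hh h1
    have h3 : ({d, H.choose} : ZFSet.{0}) ∈ ZFSet.pair d H.choose := by
      unfold ZFSet.pair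
      exact ZFSet.mem_pair.2 (Or.inr rfl)
    exact L_transitive (L_transitive h2 h3) (ZFSet.mem_pair.2 (Or.inr rfl))
  · exact h0

private theorem hul_pair_eq (x y : ZFSet.{0}) : ({x} : ZFSet.{0}) ∪ {y} = {x, y} := by
  apply ZFSet.ext
  intro z
  rw [ZFSet.mem_union, ZFSet.mem_singleton, ZFSet.mem_singleton, ZFSet.mem_pair]


private theorem hul_ne {γ : Ordinal.{0}} {x : ZFSet.{0}} (h : x ∈ L γ) : (∅ : ZFSet.{0}) ∈ L γ := by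
  apply empty_mem_L
  by_contra hc
  have h0 : γ = 0 := le_antisymm (not_lt.1 hc) zero_le
  rw [h0, L_zero] at h
  exact Set.notMem_empty _ h

private theorem hul_ex {x : ZFSet.{0}} (h : x ≠ ∅) : ∃ w, w ∈ x := by
  by_contra hc
  apply h
  apply ZFSet.ext
  intro z
  constructor
  · intro hz
    exact (hc ⟨z, hz⟩).elim
  · intro hz
    exact absurd hz (ZFSet.notMem_empty z)

private theorem hul_q {x : LK} (hx : x.1 ≠ ∅) {β : Om} (h : x.1 ∈ L (β.1 + 1)) :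
    QD K x (oz β) := by
  obtain ⟨φ, s, hs, hd⟩ := mem_L_succ.1 h
  obtain ⟨w, hw⟩ := hul_ex hx
  have hne : (L β.1).Nonempty := ⟨w, ((hd w).1 hw).1⟩
  have hL : ∀ z, z ∈ (K.Lv (oz β)).1 ↔ z ∈ L β.1 := K.Lv_spec β.1 (oz β) rfl
  obtain ⟨z, hz1, hz2, -⟩ := exists_FP_of (bd φ) s (x := (K.Lv (oz β)).1)
    fun i => (hL _).2 (hs hne i)
  have hzK : z ∈ LK := FP.mem_M K.hM (K.Lv (oz β)).2 hz1
  have hcK : code φ ∈ LK := K.hM.code_mem φ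
  refine ⟨⟨code φ, hcK⟩, (K.C_spec _).2 ⟨φ, rfl⟩, ⟨z, hzK⟩, (K.P_spec _ _).2 hz1, ?_⟩
  apply Subtype.ext
  apply ZFSet.ext
  intro w
  rw [hd w]
  exact (K.isDef (oz β) rfl φ s ⟨z, hzK⟩ hz1 hz2 ⟨code φ, hcK⟩ rfl w).symm

private theorem hul_ext {g : Om} (h0 : (∅ : ZFSet.{0}) ∈ L g.1) {s : ZFSet.{0}}
    (hs : FP (K.Lv (oz g)).1 s) (i : ℕ) : ext s i ∈ L g.1 := by
  rcases FP.ext_mem hs i with h | h
  · exact (K.Lv_spec g.1 (oz g) rfl _).1 h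
  · rw [h]
    exact h0

/-- closure properties of the hull -/
private structure HY (y : LK) (τ : Om) (Y : Set ZFSet.{0}) : Prop where
  lim : Order.IsSuccLimit τ.1
  sub : Y ⊆ L τ.1
  emp : (∅ : ZFSet.{0}) ∈ Y
  nat : ∀ i, natZ i ∈ Y
  cl : ∀ k, k < 8 → ∀ (x1 x2 x3 x4 : LK), x1.1 ∈ Y → x2.1 ∈ Y → x3.1 ∈ Y → x4.1 ∈ Y →
    ∀ z : LK, z.1 ∈ L τ.1 → RR K y k (x1, x2, x3, x4, z) →
      ∃ z : LK, z.1 ∈ Y ∧ RR K y k (x1, x2, x3, x4, z)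

variable {K}
variable {y : LK} {τ : Om} {Y : Set ZFSet.{0}} (H : HY K y τ Y)

include H

private theorem HY.lk {x : ZFSet.{0}} (hx : x ∈ Y) : x ∈ LK := L_mono τ.2.le (H.sub hx)

private theorem HY.pair : ∀ a ∈ Y, ∀ b ∈ Y, ({a, b} : ZFSet.{0}) ∈ Y := by
  intro a ha b hb
  have h0 : (zun K.hM (zsg K.hM ⟨a, H.lk ha⟩) (zsg K.hM ⟨b, H.lk hb⟩)).1 = {a, b} :=
    hul_pair_eq a b
  obtain ⟨z, h1, h2⟩ := H.cl 1 (by norm_num) ⟨a, H.lk ha⟩ ⟨b, H.lk hb⟩ ⟨a, H.lk ha⟩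
    ⟨a, H.lk ha⟩ ha hb ha ha (zun K.hM (zsg K.hM ⟨a, H.lk ha⟩) (zsg K.hM ⟨b, H.lk hb⟩))
    (by rw [h0]; exact hul_pair H.lim (H.sub ha) (H.sub hb)) rfl
  have h3 : z = zun K.hM (zsg K.hM ⟨a, H.lk ha⟩) (zsg K.hM ⟨b, H.lk hb⟩) := h2
  rw [h3, h0] at h1
  exact h1

private theorem HY.un : ∀ a ∈ Y, ∀ b ∈ Y, a ∪ b ∈ Y := by
  intro a ha b hb
  obtain ⟨z, h1, h2⟩ := H.cl 2 (by norm_num) ⟨a, H.lk ha⟩ ⟨b, H.lk hb⟩ ⟨a, H.lk ha⟩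
    ⟨a, H.lk ha⟩ ha hb ha ha (zun K.hM ⟨a, H.lk ha⟩ ⟨b, H.lk hb⟩)
    (hul_un H.lim (H.sub ha) (H.sub hb)) rfl
  have h3 : z = zun K.hM ⟨a, H.lk ha⟩ ⟨b, H.lk hb⟩ := h2
  rw [h3] at h1
  exact h1

private theorem HY.ap {a b : ZFSet.{0}} (ha : a ∈ Y) (hb : b ∈ Y) : apZ a b ∈ Y := by
  obtain ⟨z, h1, h2⟩ := H.cl 3 (by norm_num) ⟨a, H.lk ha⟩ ⟨b, H.lk hb⟩ ⟨a, H.lk ha⟩
    ⟨a, H.lk ha⟩ ha hb ha ha (zap K.hM ⟨a, H.lk ha⟩ ⟨b, H.lk hb⟩)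
    (hul_ap (H.sub H.emp) (H.sub ha)) rfl
  have h3 : z = zap K.hM ⟨a, H.lk ha⟩ ⟨b, H.lk hb⟩ := h2
  rw [h3] at h1
  exact h1

private theorem HY.code (φ : Fml) : RMK.code φ ∈ Y := code_closed φ H.nat H.pair

private theorem HY.clo : ∀ γ : Ordinal.{0}, γ.toZFSet ∈ Y → ∀ (φ : Fml) (s : ℕ → ZFSet.{0}),
    (∀ i, s i ∈ Y ∧ s i ∈ L γ) → ∃ x ∈ Y, IsDef γ φ s x := by
  intro γ hγ φ s hs
  have hγτ : γ < τ.1 := toZFSet_mem_L_iff.1 (H.sub hγ)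
  obtain ⟨g, hg⟩ : ∃ g : Om, g.1 = γ := ⟨⟨γ, hγτ.trans τ.2⟩, rfl⟩
  subst hg
  obtain ⟨z, hz1, hz2, hz3⟩ := exists_FP_of (bd φ) s (x := (K.Lv (oz g)).1)
    fun i => (K.Lv_spec g.1 (oz g) rfl _).2 (hs i).2
  have hzY : z ∈ Y := hz3 Y H.emp H.nat (fun i => (hs i).1) H.pair H.un
  have hd := K.isDef (oz g) rfl φ s ⟨z, H.lk hzY⟩ hz1 hz2 ⟨RMK.code φ, H.lk (H.code φ)⟩ rfl
  have hL : (K.Dd (K.Lv (oz g)) ⟨RMK.code φ, H.lk (H.code φ)⟩ ⟨z, H.lk hzY⟩).1 ∈ L τ.1 :=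
    hul_succ H.lim hγτ (mem_L_succ.2 ⟨φ, s, fun _ i => (hs i).2, hd⟩)
  obtain ⟨z', h1, h2⟩ := H.cl 4 (by norm_num) (oz g) ⟨RMK.code φ, H.lk (H.code φ)⟩
    ⟨z, H.lk hzY⟩ (oz g) hγ (H.code φ) hzY hγ _ hL rfl
  have h3 : z' = K.Dd (K.Lv (oz g)) ⟨RMK.code φ, H.lk (H.code φ)⟩ ⟨z, H.lk hzY⟩ := h2
  refine ⟨z'.1, h1, ?_⟩
  rw [h3]
  exact hd

private theorem HY.wit : ∀ γ : Ordinal.{0}, γ.toZFSet ∈ Y → ∀ (φ : Fml) (s : ℕ → ZFSet.{0})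
    (i : ℕ), (∀ i, s i ∈ Y ∧ s i ∈ L γ) →
    (∃ z ∈ L γ, ¬ Sat (fun a b : ZFSet.{0} => a ∈ b) (L γ) φ (Function.update s i z)) →
    ∃ z ∈ Y, z ∈ L γ ∧ ¬ Sat (fun a b : ZFSet.{0} => a ∈ b) (L γ) φ (Function.update s i z) := by
  rintro γ hγ φ s i hs ⟨w, hw1, hw2⟩
  have hγτ : γ < τ.1 := toZFSet_mem_L_iff.1 (H.sub hγ)
  obtain ⟨g, hg⟩ : ∃ g : Om, g.1 = γ := ⟨⟨γ, hγτ.trans τ.2⟩, rfl⟩
  subst hg
  have hL : ∀ z, z ∈ (K.Lv (oz g)).1 ↔ z ∈ L g.1 := K.Lv_spec g.1 (oz g) rfl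
  have hset : {z : ZFSet.{0} | z ∈ (K.Lv (oz g)).1} = L g.1 := Set.ext hL
  obtain ⟨z, hz1, hz2, hz3⟩ := exists_FP_of (bd φ) s (x := (K.Lv (oz g)).1)
    fun i => (hL _).2 (hs i).2
  have hzY : z ∈ Y := hz3 Y H.emp H.nat (fun i => (hs i).1) H.pair H.un
  have hiff : ∀ v : LK, v.1 ∈ L g.1 →
      (¬ (zup K.hM ⟨z, H.lk hzY⟩ ⟨natZ i, H.lk (H.nat i)⟩ v).1 ∈
        (K.S (K.Lv (oz g)) ⟨RMK.code φ, H.lk (H.code φ)⟩).1 ↔
        ¬ Sat (fun a b : ZFSet.{0} => a ∈ b) (L g.1) φ (Function.update s i v.1)) := by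
    intro v hv
    rw [K.S_spec _ ⟨RMK.code φ, H.lk (H.code φ)⟩ φ rfl]
    have e1 : (zup K.hM ⟨z, H.lk hzY⟩ ⟨natZ i, H.lk (H.nat i)⟩ v).1 = updZ z (natZ i) v.1 := rfl
    rw [e1, ext_upd]
    have e2 : SatZ (K.Lv (oz g)).1 φ (Function.update (ext z) i v.1) ↔
        Sat (fun a b : ZFSet.{0} => a ∈ b) (L g.1) φ (Function.update s i v.1) := by
      unfold SatZ
      rw [hset]
      apply sat_congr
      intro j hj
      by_cases h0 : j = i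
      · rw [h0, Function.update_self, Function.update_self]
      · rw [Function.update_of_ne h0, Function.update_of_ne h0]
        exact hz2 j hj
    rw [e2]
    constructor
    · intro h1 h2
      exact h1 ⟨FP.upd i hz1 ((hL _).2 hv), h2⟩
    · rintro h1 ⟨-, h2⟩
      exact h1 h2
  have hwτ : w ∈ L τ.1 := L_mono hγτ.le hw1
  have hwK : w ∈ LK := L_mono τ.2.le hwτ
  obtain ⟨z', h1, h2⟩ := H.cl 5 (by norm_num) (oz g) ⟨RMK.code φ, H.lk (H.code φ)⟩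
    ⟨z, H.lk hzY⟩ ⟨natZ i, H.lk (H.nat i)⟩ hγ (H.code φ) hzY (H.nat i) ⟨w, hwK⟩ hwτ
    ⟨(hL w).2 hw1, (hiff ⟨w, hwK⟩ hw1).2 hw2⟩
  have h3 : z'.1 ∈ L g.1 := (hL _).1 h2.1
  exact ⟨z'.1, h1, h3, (hiff z' h3).1 h2.2⟩

private theorem HY.dfn : ∀ x ∈ Y, x ≠ ∅ → ∃ γ : Ordinal.{0}, γ.toZFSet ∈ Y ∧
    (∀ β, x ∈ L β → γ < β) ∧ ∃ (φ : Fml) (s : ℕ → ZFSet.{0}),
      (∀ i, s i ∈ Y ∧ s i ∈ L γ) ∧ IsDef γ φ s x := by
  intro x hx hx0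
  have hxK : x ∈ LK := H.lk hx
  obtain ⟨β, hβ, hβ2⟩ := exists_succ_level (H.sub hx)
  have hQβ : QD K ⟨x, hxK⟩ (oz ⟨β, hβ.trans τ.2⟩) :=
    hul_q K (x := ⟨x, hxK⟩) hx0 (β := ⟨β, hβ.trans τ.2⟩) hβ2
  obtain ⟨g0, hg1, hg2⟩ := WellFounded.has_min (wellFounded_lt (α := Om))
    {g | QD K ⟨x, hxK⟩ (oz g)} ⟨_, hQβ⟩
  have hg0 : g0.1 < τ.1 := lt_of_le_of_lt (not_lt.1 (hg2 _ hQβ)) hβ
  obtain ⟨z, hz1, hz2, hz3, hz4⟩ := H.cl 6 (by norm_num) ⟨x, hxK⟩ ⟨x, hxK⟩ ⟨x, hxK⟩ ⟨x, hxK⟩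
    hx hx hx hx (oz g0) (toZFSet_mem_L hg0) ⟨⟨g0.1, rfl⟩, hg1, by
      intro g' hg' hq
      obtain ⟨ν, hν, hν2⟩ := Ordinal.mem_toZFSet_iff.1 hg'
      have e : g' = oz ⟨ν, lt_trans hν g0.2⟩ := Subtype.ext hν2.symm
      rw [e] at hq
      exact hg2 _ hq hν⟩
  obtain ⟨g, rfl⟩ := isO_LK hz2
  have hgτ : g.1 < τ.1 := toZFSet_mem_L_iff.1 (H.sub hz1)
  refine ⟨g.1, hz1, ?_, ?_⟩
  · intro β' hβ'
    by_contra hc
    obtain ⟨ν, hν, hν2⟩ := exists_succ_level hβ'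
    have hνg : ν < g.1 := lt_of_lt_of_le hν (not_lt.1 hc)
    exact hz4 (oz ⟨ν, lt_trans hνg g.2⟩) (Ordinal.toZFSet_mem_toZFSet_iff.2 hνg)
      (hul_q K (x := ⟨x, hxK⟩) hx0 (β := ⟨ν, lt_trans hνg g.2⟩) hν2)
  · obtain ⟨c, hc, s, hs, he⟩ := hz3
    obtain ⟨φ, hφ⟩ := (K.C_spec _).1 hc
    have hFP := (K.P_spec _ _).1 hs
    have hcY : c.1 ∈ Y := by
      rw [hφ]
      exact H.code φ
    have hd := K.isDef (oz g) rfl φ (ext s.1) s hFP (fun _ _ => rfl) c hφ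
    have he' : x = (K.Dd (K.Lv (oz g)) c s).1 := congrArg Subtype.val he
    rw [← he'] at hd
    obtain ⟨w, hw⟩ := hul_ex hx0
    have h0 : (∅ : ZFSet.{0}) ∈ L g.1 := hul_ne ((hd w).1 hw).1
    have hL : ∀ z, z ∈ (K.Lv (oz g)).1 ↔ z ∈ L g.1 := K.Lv_spec g.1 (oz g) rfl
    obtain ⟨z, hz1', hz2', hz3'⟩ := exists_FP_of (bd φ) (ext s.1) (x := (K.Lv (oz g)).1)
      fun i => (hL _).2 (hul_ext K h0 hFP i)
    have hzτ : z ∈ L τ.1 := hz3' (L τ.1) (H.sub H.emp) (fun i => H.sub (H.nat i))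
      (fun i => L_mono hgτ.le (hul_ext K h0 hFP i)) (fun a ha b hb => hul_pair H.lim ha hb)
      (fun a ha b hb => hul_un H.lim ha hb)
    have hzK : z ∈ LK := L_mono τ.2.le hzτ
    have hd2 := K.isDef (oz g) rfl φ (ext s.1) ⟨z, hzK⟩ hz1' hz2' c hφ
    have he2 : (⟨x, hxK⟩ : LK) = K.Dd (K.Lv (oz g)) c ⟨z, hzK⟩ := by
      apply Subtype.ext
      apply ZFSet.ext
      intro w
      rw [hd2 w]
      exact hd w
    obtain ⟨v, hv1, hv2, hv3⟩ := H.cl 7 (by norm_num) ⟨x, hxK⟩ (oz g) c ⟨x, hxK⟩ hx hz1 hcY hx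
      ⟨z, hzK⟩ hzτ ⟨(K.P_spec _ _).2 hz1', he2⟩
    have hFPv := (K.P_spec _ _).1 hv2
    refine ⟨φ, ext v.1, fun i => ⟨H.ap hv1 (H.nat i), hul_ext K h0 hFPv i⟩, ?_⟩
    have hd3 := K.isDef (oz g) rfl φ (ext v.1) v hFPv (fun _ _ => rfl) c hφ
    have he3 : x = (K.Dd (K.Lv (oz g)) c v).1 := congrArg Subtype.val hv3
    rw [← he3] at hd3
    exact hd3

private theorem HY.cx : CX τ.1 Y where
  sub := H.sub
  emp := H.emp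
  succ := by
    intro γ hγ
    have h1 : ({γ.toZFSet, γ.toZFSet} : ZFSet.{0}) ∈ Y := H.pair _ hγ _ hγ
    have h2 := H.un _ hγ _ h1
    have e : γ.toZFSet ∪ ({γ.toZFSet, γ.toZFSet} : ZFSet.{0}) = (γ + 1).toZFSet := by
      rw [Ordinal.toZFSet_add_one]
      apply ZFSet.ext
      intro z
      rw [ZFSet.mem_union, ZFSet.mem_pair, ZFSet.mem_insert_iff]
      constructor
      · rintro (h | h | h)
        · exact Or.inr h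
        · exact Or.inl h
        · exact Or.inl h
      · rintro (h | h)
        · exact Or.inr (Or.inl h)
        · exact Or.inl h
    rwa [e] at h2
  dfn := H.dfn
  clo := H.clo
  wit := H.wit

end

theorem exists_hull (E : EKit) {δ : Om} (hδ : Dlt E δ) {τ : Om} (hτ : Order.IsSuccLimit τ.1)
    (hδτ : δ < τ) {y : ZFSet.{0}} (hy : y ∈ L τ.1) :
    ∃ h : LK, IsFn h.1 (toZ δ) ∧ CX τ.1 {x | ∃ ξ, ξ < δ ∧ apZ h.1 (toZ ξ) = x} ∧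
      (∀ x ∈ L δ.1, ∃ ξ, ξ < δ ∧ apZ h.1 (toZ ξ) = x) ∧ ∃ ξ, ξ < δ ∧ apZ h.1 (toZ ξ) = y := by
  have hAL : ∀ z, z ∈ (E.K.Lv (oz τ)).1 ↔ z ∈ L τ.1 := E.K.Lv_spec τ.1 (oz τ) rfl
  have hδ0 : (0 : Ordinal.{0}) < δ.1 := lt_of_le_of_lt zero_le (hδ.nat 0)
  have h0δ : (∅ : ZFSet.{0}) ∈ L δ.1 := empty_mem_L hδ0
  have h0τ : (∅ : ZFSet.{0}) ∈ L τ.1 := L_mono hδτ.le h0δ
  have hyK : y ∈ LK := L_mono τ.2.le hy
  obtain ⟨h, hfn, hsub, hbase, hcl⟩ := hul_clo E hδ (E.K.Lv (oz τ)) ((hAL _).2 h0τ) 8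
    (hul_RR E.K ⟨y, hyK⟩)
  have hLδ : ∀ x ∈ L δ.1, x ∈ YY h δ := by
    intro x hx
    obtain ⟨ξ, h1, h2⟩ := hδ.e2 x hx
    rw [← h2]
    refine hbase ξ h1 ?_
    rw [h2]
    exact (hAL _).2 (L_mono hδτ.le hx)
  have H : HY E.K ⟨y, hyK⟩ τ (YY h δ) := by
    refine ⟨hτ, fun x hx => (hAL x).1 (hsub x hx), hLδ _ h0δ,
      fun i => hLδ _ (toZFSet_mem_L (hδ.nat i)), ?_⟩
    intro k hk x1 x2 x3 x4 h1 h2 h3 h4 z hz hR
    exact hcl k hk x1 x2 x3 x4 h1 h2 h3 h4 ⟨z, (hAL _).2 hz, hR⟩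
  refine ⟨h, hfn, H.cx, hLδ, ?_⟩
  obtain ⟨z, hz1, hz2⟩ := H.cl 0 (by norm_num) ⟨∅, H.lk H.emp⟩ ⟨∅, H.lk H.emp⟩
    ⟨∅, H.lk H.emp⟩ ⟨∅, H.lk H.emp⟩ H.emp H.emp H.emp H.emp ⟨y, hyK⟩ hy rfl
  have hz3 : z = ⟨y, hyK⟩ := hz2
  rw [hz3] at hz1
  exact hz1

end RMK
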