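import Pool.Agent.RMK.S.SDefs

/-!
RMK ZOPS: basic operations in a model `M` of ZF without power set (`ZF0 M`, see `SDefs.lean`) and their
definability (calculus `MD`, `DFc` of `MDc.lean`; the file `MSet.lean` does the same for `ZModel` and its
proofs can be adapted).

SPEED TIP (helper60): write `(MD.mem hf hg :)` (elaborate without expected type) when an `exact` or
`refine` with the calculus is slow.

PROOFS.
Closure of `M`: `{x, y}`, `⋃₀`, so `pair`, `∪`, `{x}`, `x ∪ {x}`; `∅` and the `natZ k` are elements of `omZ`.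
`prodZ`: two replacements and unions: `{pair a b | b ∈ y}` is the image of `y` under a definable function,
the set of all these for `a ∈ x` is again an image (`replF`), take the union.  `apZ h d`: either `∅` or an
element of `⋃₀ ⋃₀ h`-many steps below `h` (`y ∈ {d, y} ∈ pair d y ∈ h`), so in `M` by transitivity.  `updZ`:
separation and union.  `domZ`, `ranZ`: separation in `⋃₀ ⋃₀ h`.
`sepF`: choose `f x` by `hM.sep` (the predicate `P x` is `MD` by composition with constants), its graph is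
`{(x, y) | ∀ z : M, z ∈ y ↔ z ∈ a x ∧ P x z}`.  `replF`: the same with `hM.repl`, graph `{(x, y) | ∀ z : M, z ∈ y ↔
∃ u : M, u ∈ a x ∧ z = F x u}`.
Definability of an operation `op` with `op x y ∈ M`: `DFc.of_graph` and the description of the graph, e.g.
for `zap`: `w = apZ h d` iff (`∃ y, pair d y ∈ h ∧ (∀ y', pair d y' ∈ h → y' = y) ∧ w = y`) or (no such `y`
and `w = ∅`).
`MD.isO`: `IsO x` iff `x` is transitive and all elements of `x` are transitive (Mathlib: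
`ZFSet.isOrdinal_iff_mem_range_toZFSet` and the characterisations of `ZFSet.IsOrdinal`; transitive sets of
transitive sets are ordinals, as the foundation axiom holds); all quantifiers can be taken over `↥M`.
`DFc.ite`: graph `(P x ∧ y = f x) ∨ (¬ P x ∧ y = g x)`.
-/

namespace RMK

open Set PU

variable {M : Set ZFSet.{0}} {X : Type 1} [Ctx M X]

theorem ZF0.ext (hM : ZF0 M) {a b : M} (h : ∀ z : M, z.1 ∈ a.1 ↔ z.1 ∈ b.1) : a = b := by
  apply Subtype.ext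
  apply ZFSet.ext
  intro z
  constructor
  · intro hz
    exact (h ⟨z, hM.trans _ a.2 _ hz⟩).1 hz
  · intro hz
    exact (h ⟨z, hM.trans _ b.2 _ hz⟩).2 hz

theorem ZF0.pairZ (hM : ZF0 M) {x y : ZFSet.{0}} (hx : x ∈ M) (hy : y ∈ M) :
    ZFSet.pair x y ∈ M := by
  have h1 : ({x, x} : ZFSet.{0}) ∈ M := hM.pair x hx x hx
  have h2 : ({x, y} : ZFSet.{0}) ∈ M := hM.pair x hx y hy
  have h3 : ({x, x} : ZFSet.{0}) = {x} := by
    ext z
    simp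
  rw [h3] at h1
  exact hM.pair _ h1 _ h2

theorem ZF0.pair_left (hM : ZF0 M) {x y : ZFSet.{0}} (h : ZFSet.pair x y ∈ M) : x ∈ M := by
  have h1 : ({x} : ZFSet.{0}) ∈ ZFSet.pair x y := by
    simp [ZFSet.pair]
  have h2 : ({x} : ZFSet.{0}) ∈ M := hM.trans _ h _ h1
  exact hM.trans _ h2 _ (by simp)

theorem ZF0.pair_right (hM : ZF0 M) {x y : ZFSet.{0}} (h : ZFSet.pair x y ∈ M) : y ∈ M := by
  have h1 : ({x, y} : ZFSet.{0}) ∈ ZFSet.pair x y := by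
    simp [ZFSet.pair]
  have h2 : ({x, y} : ZFSet.{0}) ∈ M := hM.trans _ h _ h1
  exact hM.trans _ h2 _ (by simp)

theorem ZF0.sg (hM : ZF0 M) {x : ZFSet.{0}} (hx : x ∈ M) : ({x} : ZFSet.{0}) ∈ M := by
  have h1 : ({x, x} : ZFSet.{0}) ∈ M := hM.pair x hx x hx
  have h3 : ({x, x} : ZFSet.{0}) = {x} := by
    ext z
    simp
  rwa [h3] at h1

theorem ZF0.un (hM : ZF0 M) {x y : ZFSet.{0}} (hx : x ∈ M) (hy : y ∈ M) : x ∪ y ∈ M := by
  have h1 : ({x, y} : ZFSet.{0}) ∈ M := hM.pair x hx y hy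
  have h2 := hM.union _ h1
  have h3 : ZFSet.sUnion ({x, y} : ZFSet.{0}) = x ∪ y := by
    ext z
    simp [ZFSet.mem_union]
  rw [h3] at h2
  exact h2

theorem ZF0.natZ_mem (hM : ZF0 M) (k : ℕ) : natZ k ∈ M := by
  exact hM.trans _ hM.om _ (natZ_mem_omZ k)

theorem ZF0.empty_mem (hM : ZF0 M) : (∅ : ZFSet.{0}) ∈ M := by
  have h := hM.natZ_mem 0
  have h0 : natZ 0 = (∅ : ZFSet.{0}) := by
    unfold natZ
    simp
  rwa [h0] at h

theorem ZF0.trip_mem (hM : ZF0 M) {x y z : ZFSet.{0}} (hx : x ∈ M) (hy : y ∈ M) (hz : z ∈ M) :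
    trip x y z ∈ M := by
  exact hM.pairZ hx (hM.pairZ hy hz)

private theorem ss (x : ZFSet.{0}) : ({x, x} : ZFSet.{0}) = {x} := by
  ext z
  simp

private theorem eqU (hM : ZF0 M) {W : Type 1} [Ctx M W] {a b c : W → M} (ha : DFc M a)
    (hb : DFc M b) (hc : DFc M c) :
    MD M fun x => (a x).1 = ({(b x).1, (c x).1} : ZFSet.{0}) := by
  have h1 : MD M fun x : W => ∀ w : M, w.1 ∈ (a x).1 ↔ (w = b x ∨ w = c x) := by
    apply MD.all (P := fun (x : W) (w : M) => (w.1 ∈ (a x).1 ↔ (w = b x ∨ w = c x)))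
    have e1 : DFc M fun p : W × M => p.1 := DFc.fst DFc.id
    have e2 : DFc M fun p : W × M => p.2 := DFc.snd DFc.id
    exact (MD.iff (MD.mem e2 (DFc.comp ha e1))
      (MD.or (MD.eq e2 (DFc.comp hb e1)) (MD.eq e2 (DFc.comp hc e1))) :)
  refine MD.congr ?_ h1
  intro x
  constructor
  · intro h
    have : a x = ⟨({(b x).1, (c x).1} : ZFSet.{0}), hM.pair _ (b x).2 _ (c x).2⟩ := by
      apply hM.ext
      intro z
      rw [h z]
      simp only [ZFSet.mem_pair]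
      rw [Subtype.ext_iff, Subtype.ext_iff]
    rw [this]
  · intro h w
    rw [h]
    simp only [ZFSet.mem_pair]
    rw [Subtype.ext_iff, Subtype.ext_iff]

private theorem eqP (hM : ZF0 M) {f g h : X → M} (hf : DFc M f) (hg : DFc M g)
    (hh : DFc M h) : MD M fun x => (f x).1 = ZFSet.pair (g x).1 (h x).1 := by
  have h1 : MD M fun x : X => ∀ w : M, w.1 ∈ (f x).1 ↔
      (w.1 = ({(g x).1, (g x).1} : ZFSet.{0}) ∨ w.1 = ({(g x).1, (h x).1} : ZFSet.{0})) := by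
    apply MD.all (P := fun (x : X) (w : M) => (w.1 ∈ (f x).1 ↔
      (w.1 = ({(g x).1, (g x).1} : ZFSet.{0}) ∨ w.1 = ({(g x).1, (h x).1} : ZFSet.{0}))))
    have e1 : DFc M fun p : X × M => p.1 := DFc.fst DFc.id
    have e2 : DFc M fun p : X × M => p.2 := DFc.snd DFc.id
    exact (MD.iff (MD.mem e2 (DFc.comp hf e1))
      (MD.or (eqU hM e2 (DFc.comp hg e1) (DFc.comp hg e1))
        (eqU hM e2 (DFc.comp hg e1) (DFc.comp hh e1))) :)
  refine MD.congr ?_ h1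
  intro x
  have hs := ss (g x).1
  constructor
  · intro h'
    have : f x = ⟨ZFSet.pair (g x).1 (h x).1, hM.pairZ (g x).2 (h x).2⟩ := by
      apply hM.ext
      intro z
      rw [h' z, hs]
      simp only [ZFSet.pair, ZFSet.mem_pair]
    rw [this]
  · intro h' w
    rw [h', hs]
    simp only [ZFSet.pair, ZFSet.mem_pair]

theorem ZF0.apZ_mem (hM : ZF0 M) {h d : ZFSet.{0}} (hh : h ∈ M) : apZ h d ∈ M := by
  unfold apZ
  split_ifs with H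
  · exact hM.pair_right (hM.trans _ hh _ H.choose_spec.1)
  · exact hM.empty_mem

private theorem apZ_iff (hM : ZF0 M) {h d y : M} : y.1 = apZ h.1 d.1 ↔
    (ZFSet.pair d.1 y.1 ∈ h.1 ∧ ∀ y' : M, ZFSet.pair d.1 y'.1 ∈ h.1 → y' = y) ∨
    ((¬ ∃ y' : M, ZFSet.pair d.1 y'.1 ∈ h.1 ∧
      ∀ y2 : M, ZFSet.pair d.1 y2.1 ∈ h.1 → y2 = y') ∧ y.1 = ∅) := by
  have hm : ∀ {y' : ZFSet.{0}}, ZFSet.pair d.1 y' ∈ h.1 → y' ∈ M := fun h' =>
    hM.pair_right (hM.trans _ h.2 _ h')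
  have hiff : (∃ y' : M, ZFSet.pair d.1 y'.1 ∈ h.1 ∧
      ∀ y2 : M, ZFSet.pair d.1 y2.1 ∈ h.1 → y2 = y') ↔
      ∃ y, ZFSet.pair d.1 y ∈ h.1 ∧ ∀ y', ZFSet.pair d.1 y' ∈ h.1 → y' = y := by
    constructor
    · rintro ⟨y', h1, h2⟩
      exact ⟨y'.1, h1, fun y2 h3 => congrArg Subtype.val (h2 ⟨y2, hm h3⟩ h3)⟩
    · rintro ⟨y', h1, h2⟩
      exact ⟨⟨y', hm h1⟩, h1, fun y2 h3 => Subtype.ext (h2 _ h3)⟩
  rw [hiff]
  unfold apZ
  split_ifs with H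
  · constructor
    · intro hy
      left
      rw [hy]
      exact ⟨H.choose_spec.1, fun y' h' => Subtype.ext ((H.choose_spec.2 _ h').trans hy.symm)⟩
    · rintro (⟨h1, -⟩ | ⟨h1, -⟩)
      · exact H.choose_spec.2 _ h1
      · exact absurd H h1
  · constructor
    · intro hy
      right
      exact ⟨H, hy⟩
    · rintro (⟨h1, h2⟩ | ⟨-, h2⟩)
      · exact absurd ⟨y.1, h1, fun y' h' => congrArg Subtype.val (h2 ⟨y', hm h'⟩ h')⟩ H
      · exact h2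

theorem ZF0.updZ_mem (hM : ZF0 M) {h i a : ZFSet.{0}} (hh : h ∈ M) (hi : i ∈ M) (ha : a ∈ M) :
    updZ h i a ∈ M := by
  have hd : MD M fun w : M => ∀ y : M, w.1 ≠ ZFSet.pair i y.1 := by
    apply MD.all (P := fun (w y : M) => w.1 ≠ ZFSet.pair i y.1)
    have e1 : DFc M fun q : M × M => q.1 := DFc.fst DFc.id
    have e2 : DFc M fun q : M × M => q.2 := DFc.snd DFc.id
    exact MD.not (eqP hM e1 (DFc.const (⟨i, hi⟩ : M)) e2)
  obtain ⟨b, hb⟩ := hM.sep _ hd ⟨h, hh⟩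
  have hbe : b.1 = ZFSet.sep (fun w => ∀ y, w ≠ ZFSet.pair i y) h := by
    ext w
    rw [ZFSet.mem_sep]
    constructor
    · intro hw
      have hwM := hM.trans _ b.2 _ hw
      obtain ⟨h1, h2⟩ := (hb ⟨w, hwM⟩).1 hw
      refine ⟨h1, fun y hy => ?_⟩
      have hyM : y ∈ M := hM.pair_right (hy ▸ hwM)
      exact h2 ⟨y, hyM⟩ hy
    · rintro ⟨h1, h2⟩
      exact (hb ⟨w, hM.trans _ hh _ h1⟩).2 ⟨h1, fun y => h2 y.1⟩
  unfold updZ
  rw [← hbe]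
  exact hM.un b.2 (hM.sg (hM.pairZ hi ha))

theorem apZ_eq {h D d y : ZFSet.{0}} (hf : IsFn h D) (hd : d ∈ D) :
    apZ h d = y ↔ ZFSet.pair d y ∈ h := by
  have H : ∃ y, ZFSet.pair d y ∈ h ∧ ∀ y', ZFSet.pair d y' ∈ h → y' = y := by
    obtain ⟨y, h1, h2⟩ := hf.2 d hd
    exact ⟨y, h1, h2⟩
  unfold apZ
  rw [dif_pos H]
  constructor
  · rintro rfl
    exact H.choose_spec.1
  · intro hy
    exact (H.choose_spec.2 y hy).symm

theorem IsFn.ext {h h' D : ZFSet.{0}} (hf : IsFn h D) (hf' : IsFn h' D)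
    (H : ∀ d ∈ D, apZ h d = apZ h' d) : h = h' := by
  have key : ∀ {u v : ZFSet.{0}}, IsFn u D → IsFn v D → (∀ d ∈ D, apZ u d = apZ v d) →
      ∀ w ∈ u, w ∈ v := by
    intro u v hu hv he w hw
    obtain ⟨d, hd, y, rfl⟩ := hu.1 w hw
    have h1 := (apZ_eq hu hd).2 hw
    rw [he d hd] at h1
    exact (apZ_eq hv hd).1 h1
  ext w
  exact ⟨key hf hf' H w, key hf' hf (fun d hd => (H d hd).symm) w⟩

/-- pair -/
def zpr (hM : ZF0 M) (x y : M) : M := ⟨ZFSet.pair x.1 y.1, hM.pairZ x.2 y.2⟩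

/-- singleton -/
def zsg (hM : ZF0 M) (x : M) : M := ⟨{x.1}, hM.sg x.2⟩

/-- union of two sets -/
def zun (hM : ZF0 M) (x y : M) : M := ⟨x.1 ∪ y.1, hM.un x.2 y.2⟩

/-- union of a set -/
def zsU (hM : ZF0 M) (x : M) : M := ⟨ZFSet.sUnion x.1, hM.union x.1 x.2⟩

/-- natural number -/
noncomputable def znat (hM : ZF0 M) (k : ℕ) : M := ⟨natZ k, hM.natZ_mem k⟩

/-- the set `ω` -/
noncomputable def zom (hM : ZF0 M) : M := ⟨omZ, hM.om⟩

/-- triple -/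
def ztr (hM : ZF0 M) (x y z : M) : M := ⟨trip x.1 y.1 z.1, hM.trip_mem x.2 y.2 z.2⟩

/-- application -/
noncomputable def zap (hM : ZF0 M) (h d : M) : M := ⟨apZ h.1 d.1, hM.apZ_mem h.2⟩

/-- update -/
noncomputable def zup (hM : ZF0 M) (h i a : M) : M := ⟨updZ h.1 i.1 a.1, hM.updZ_mem h.2 i.2 a.2⟩

section

variable (hM : ZF0 M) {f g h k : X → M} (hf : DFc M f) (hg : DFc M g) (hh : DFc M h)
  (hk : DFc M k)

include hf

theorem DFc.zsg : DFc M fun x => zsg hM (f x) := by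
  apply DFc.of_graph
  have e1 : DFc M fun p : X × M => p.1 := DFc.fst DFc.id
  have e2 : DFc M fun p : X × M => p.2 := DFc.snd DFc.id
  refine MD.congr ?_ (eqU hM e2 (DFc.comp hf e1) (DFc.comp hf e1))
  intro p
  rw [ss, Subtype.ext_iff]
  rfl

theorem DFc.zsU : DFc M fun x => zsU hM (f x) := by
  apply DFc.of_graph
  have h1 : MD M fun p : X × M => ∀ z : M, z.1 ∈ p.2.1 ↔
      ∃ u : M, u.1 ∈ (f p.1).1 ∧ z.1 ∈ u.1 := by
    apply MD.all (P := fun (p : X × M) (z : M) => (z.1 ∈ p.2.1 ↔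
      ∃ u : M, u.1 ∈ (f p.1).1 ∧ z.1 ∈ u.1))
    have h2 : MD M fun q : (X × M) × M => ∃ u : M, u.1 ∈ (f q.1.1).1 ∧ q.2.1 ∈ u.1 := by
      apply MD.ex (P := fun (q : (X × M) × M) (u : M) => u.1 ∈ (f q.1.1).1 ∧ q.2.1 ∈ u.1)
      have e1 : DFc M fun q : ((X × M) × M) × M => q.1.1.1 := DFc.fst (DFc.fst (DFc.fst DFc.id))
      have e3 : DFc M fun q : ((X × M) × M) × M => q.1.2 := DFc.snd (DFc.fst DFc.id)
      have e4 : DFc M fun q : ((X × M) × M) × M => q.2 := DFc.snd DFc.id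
      exact (MD.and (MD.mem e4 (DFc.comp hf e1)) (MD.mem e3 e4) :)
    have e1 : DFc M fun q : (X × M) × M => q.1.2 := DFc.snd (DFc.fst DFc.id)
    have e2 : DFc M fun q : (X × M) × M => q.2 := DFc.snd DFc.id
    exact (MD.iff (MD.mem e2 e1) h2 :)
  refine MD.congr ?_ h1
  intro p
  have hmem : ∀ z : M, z.1 ∈ (RMK.zsU hM (f p.1)).1 ↔ ∃ u : M, u.1 ∈ (f p.1).1 ∧ z.1 ∈ u.1 := by
    intro z
    change z.1 ∈ ZFSet.sUnion (f p.1).1 ↔ _
    rw [ZFSet.mem_sUnion]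
    constructor
    · rintro ⟨a, ha, hz⟩
      exact ⟨⟨a, hM.trans _ (f p.1).2 _ ha⟩, ha, hz⟩
    · rintro ⟨a, ha, hz⟩
      exact ⟨a.1, ha, hz⟩
  constructor
  · intro h
    apply hM.ext
    intro z
    rw [h z, hmem z]
  · intro h z
    rw [h, hmem z]

include hM in
theorem MD.isO : MD M fun x => IsO (f x).1 := by
  have e0 : DFc M fun q : (X × M) × M => q.1.1 := DFc.fst (DFc.fst DFc.id)
  have e1 : DFc M fun q : (X × M) × M => q.1.2 := DFc.snd (DFc.fst DFc.id)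
  have e2 : DFc M fun q : (X × M) × M => q.2 := DFc.snd DFc.id
  have d0 : DFc M fun q : ((X × M) × M) × M => q.1.1.1 := DFc.fst (DFc.fst (DFc.fst DFc.id))
  have d1 : DFc M fun q : ((X × M) × M) × M => q.1.1.2 := DFc.snd (DFc.fst (DFc.fst DFc.id))
  have d2 : DFc M fun q : ((X × M) × M) × M => q.1.2 := DFc.snd (DFc.fst DFc.id)
  have d3 : DFc M fun q : ((X × M) × M) × M => q.2 := DFc.snd DFc.id
  have h1 : MD M fun x : X => ∀ y : M, ∀ z : M, y.1 ∈ (f x).1 → z.1 ∈ y.1 → z.1 ∈ (f x).1 := by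
    apply MD.all (P := fun (x : X) (y : M) => ∀ z : M, y.1 ∈ (f x).1 → z.1 ∈ y.1 → z.1 ∈ (f x).1)
    apply MD.all (P := fun (p : X × M) (z : M) => p.2.1 ∈ (f p.1).1 → z.1 ∈ p.2.1 →
      z.1 ∈ (f p.1).1)
    exact (MD.imp (MD.mem e1 (DFc.comp hf e0)) (MD.imp (MD.mem e2 e1)
      (MD.mem e2 (DFc.comp hf e0))) :)
  have h2 : MD M fun x : X => ∀ w : M, ∀ z : M, ∀ y : M, w.1 ∈ (f x).1 → z.1 ∈ w.1 → y.1 ∈ z.1 →
      y.1 ∈ w.1 := by
    apply MD.all (P := fun (x : X) (w : M) => ∀ z : M, ∀ y : M, w.1 ∈ (f x).1 → z.1 ∈ w.1 →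
      y.1 ∈ z.1 → y.1 ∈ w.1)
    apply MD.all (P := fun (p : X × M) (z : M) => ∀ y : M, p.2.1 ∈ (f p.1).1 → z.1 ∈ p.2.1 →
      y.1 ∈ z.1 → y.1 ∈ p.2.1)
    apply MD.all (P := fun (p : (X × M) × M) (y : M) => p.1.2.1 ∈ (f p.1.1).1 →
      p.2.1 ∈ p.1.2.1 → y.1 ∈ p.2.1 → y.1 ∈ p.1.2.1)
    exact (MD.imp (MD.mem d1 (DFc.comp hf d0)) (MD.imp (MD.mem d2 d1)
      (MD.imp (MD.mem d3 d2) (MD.mem d3 d1))) :)
  refine MD.congr ?_ (MD.and h1 h2)
  intro x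
  have hO : IsO (f x).1 ↔ (f x).1.IsOrdinal := by
    rw [ZFSet.isOrdinal_iff_mem_range_toZFSet]
    constructor
    · rintro ⟨α, h⟩
      exact ⟨α, h.symm⟩
    · rintro ⟨α, h⟩
      exact ⟨α, h.symm⟩
  rw [hO]
  constructor
  · rintro ⟨h3, h4⟩
    refine ⟨?_, ?_⟩
    · intro y hy z hz
      have hyM := hM.trans _ (f x).2 _ hy
      exact h3 ⟨y, hyM⟩ ⟨z, hM.trans _ hyM _ hz⟩ hy hz
    · intro y z w hy hz hw
      have hwM := hM.trans _ (f x).2 _ hw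
      have hzM := hM.trans _ hwM _ hz
      exact h4 ⟨w, hwM⟩ ⟨z, hzM⟩ ⟨y, hM.trans _ hzM _ hy⟩ hw hz hy
  · intro h3
    refine ⟨?_, ?_⟩
    · intro y z hy hz
      exact h3.isTransitive.mem_trans hz hy
    · intro w z y hw hz hy
      exact h3.mem_trans' hy hz hw

include hg

theorem DFc.zpr : DFc M fun x => zpr hM (f x) (g x) := by
  apply DFc.of_graph
  have e1 : DFc M fun p : X × M => p.1 := DFc.fst DFc.id
  have e2 : DFc M fun p : X × M => p.2 := DFc.snd DFc.id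
  refine MD.congr ?_ (eqP hM e2 (DFc.comp hf e1) (DFc.comp hg e1))
  intro p
  rw [Subtype.ext_iff]
  rfl

theorem DFc.zun : DFc M fun x => zun hM (f x) (g x) := by
  apply DFc.of_graph
  have e0 : DFc M fun q : (X × M) × M => q.1.1 := DFc.fst (DFc.fst DFc.id)
  have e1 : DFc M fun q : (X × M) × M => q.1.2 := DFc.snd (DFc.fst DFc.id)
  have e2 : DFc M fun q : (X × M) × M => q.2 := DFc.snd DFc.id
  have h1 : MD M fun p : X × M => ∀ z : M, z.1 ∈ p.2.1 ↔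
      (z.1 ∈ (f p.1).1 ∨ z.1 ∈ (g p.1).1) := by
    apply MD.all (P := fun (p : X × M) (z : M) => (z.1 ∈ p.2.1 ↔
      (z.1 ∈ (f p.1).1 ∨ z.1 ∈ (g p.1).1)))
    exact (MD.iff (MD.mem e2 e1) (MD.or (MD.mem e2 (DFc.comp hf e0))
      (MD.mem e2 (DFc.comp hg e0))) :)
  refine MD.congr ?_ h1
  intro p
  have hmem : ∀ z : M, z.1 ∈ (RMK.zun hM (f p.1) (g p.1)).1 ↔
      (z.1 ∈ (f p.1).1 ∨ z.1 ∈ (g p.1).1) := by
    intro z
    change z.1 ∈ (f p.1).1 ∪ (g p.1).1 ↔ _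
    rw [ZFSet.mem_union]
  constructor
  · intro h
    apply hM.ext
    intro z
    rw [h z, hmem z]
  · intro h z
    rw [h, hmem z]

theorem DFc.zap : DFc M fun x => zap hM (f x) (g x) := by
  apply DFc.of_graph
  have a0 : DFc M fun q : X × M => q.1 := DFc.fst DFc.id
  have a1 : DFc M fun q : X × M => q.2 := DFc.snd DFc.id
  have b0 : DFc M fun q : (X × M) × M => q.1.1 := DFc.fst (DFc.fst DFc.id)
  have b1 : DFc M fun q : (X × M) × M => q.1.2 := DFc.snd (DFc.fst DFc.id)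
  have b2 : DFc M fun q : (X × M) × M => q.2 := DFc.snd DFc.id
  have c0 : DFc M fun q : ((X × M) × M) × M => q.1.1.1 := DFc.fst (DFc.fst (DFc.fst DFc.id))
  have c2 : DFc M fun q : ((X × M) × M) × M => q.1.2 := DFc.snd (DFc.fst DFc.id)
  have c3 : DFc M fun q : ((X × M) × M) × M => q.2 := DFc.snd DFc.id
  have h1 : MD M fun p : X × M => ZFSet.pair (g p.1).1 p.2.1 ∈ (f p.1).1 := by
    have h := DFc.zpr hM (DFc.comp hg a0) a1
    exact (MD.mem h (DFc.comp hf a0) :)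
  have h2 : MD M fun p : X × M => ∀ y' : M, ZFSet.pair (g p.1).1 y'.1 ∈ (f p.1).1 → y' = p.2 := by
    apply MD.all (P := fun (p : X × M) (y' : M) => ZFSet.pair (g p.1).1 y'.1 ∈ (f p.1).1 →
      y' = p.2)
    have h := DFc.zpr hM (DFc.comp hg b0) b2
    exact (MD.imp (MD.mem h (DFc.comp hf b0)) (MD.eq b2 b1) :)
  have h3 : MD M fun p : X × M => ∃ y' : M, ZFSet.pair (g p.1).1 y'.1 ∈ (f p.1).1 ∧
      ∀ y2 : M, ZFSet.pair (g p.1).1 y2.1 ∈ (f p.1).1 → y2 = y' := by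
    apply MD.ex (P := fun (p : X × M) (y' : M) => ZFSet.pair (g p.1).1 y'.1 ∈ (f p.1).1 ∧
      ∀ y2 : M, ZFSet.pair (g p.1).1 y2.1 ∈ (f p.1).1 → y2 = y')
    have h := DFc.zpr hM (DFc.comp hg b0) b2
    have h4 : MD M fun q : (X × M) × M => ∀ y2 : M,
        ZFSet.pair (g q.1.1).1 y2.1 ∈ (f q.1.1).1 → y2 = q.2 := by
      apply MD.all (P := fun (q : (X × M) × M) (y2 : M) =>
        ZFSet.pair (g q.1.1).1 y2.1 ∈ (f q.1.1).1 → y2 = q.2)
      have h5 := DFc.zpr hM (DFc.comp hg c0) c3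
      exact (MD.imp (MD.mem h5 (DFc.comp hf c0)) (MD.eq c3 c2) :)
    exact (MD.and (MD.mem h (DFc.comp hf b0)) h4 :)
  have h6 : MD M fun p : X × M => p.2 = (⟨∅, hM.empty_mem⟩ : M) :=
    MD.eq a1 (DFc.const (X := X × M) (⟨∅, hM.empty_mem⟩ : M))
  refine MD.congr ?_ (MD.or (MD.and h1 h2) (MD.and (MD.not h3) h6))
  intro p
  have h7 := apZ_iff hM (h := f p.1) (d := g p.1) (y := p.2)
  have h8 : p.2 = RMK.zap hM (f p.1) (g p.1) ↔ p.2.1 = apZ (f p.1).1 (g p.1).1 := by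
    rw [Subtype.ext_iff]
    rfl
  have h9 : p.2 = (⟨∅, hM.empty_mem⟩ : M) ↔ p.2.1 = ∅ := by
    rw [Subtype.ext_iff]
  rw [h8, h7, h9]

include hM in
theorem MD.isFn : MD M fun x => IsFn (f x).1 (g x).1 := by
  have a0 : DFc M fun q : X × M => q.1 := DFc.fst DFc.id
  have a1 : DFc M fun q : X × M => q.2 := DFc.snd DFc.id
  have b0 : DFc M fun q : (X × M) × M => q.1.1 := DFc.fst (DFc.fst DFc.id)
  have b1 : DFc M fun q : (X × M) × M => q.1.2 := DFc.snd (DFc.fst DFc.id)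
  have b2 : DFc M fun q : (X × M) × M => q.2 := DFc.snd DFc.id
  have c0 : DFc M fun q : ((X × M) × M) × M => q.1.1.1 := DFc.fst (DFc.fst (DFc.fst DFc.id))
  have c1 : DFc M fun q : ((X × M) × M) × M => q.1.1.2 := DFc.snd (DFc.fst (DFc.fst DFc.id))
  have c2 : DFc M fun q : ((X × M) × M) × M => q.1.2 := DFc.snd (DFc.fst DFc.id)
  have c3 : DFc M fun q : ((X × M) × M) × M => q.2 := DFc.snd DFc.id
  have h1 : MD M fun x : X => ∀ w : M, w.1 ∈ (f x).1 → ∃ d : M, ∃ y : M, d.1 ∈ (g x).1 ∧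
      w.1 = ZFSet.pair d.1 y.1 := by
    apply MD.all (P := fun (x : X) (w : M) => w.1 ∈ (f x).1 → ∃ d : M, ∃ y : M, d.1 ∈ (g x).1 ∧
      w.1 = ZFSet.pair d.1 y.1)
    have h2 : MD M fun p : X × M => ∃ d : M, ∃ y : M, d.1 ∈ (g p.1).1 ∧
        p.2.1 = ZFSet.pair d.1 y.1 := by
      apply MD.ex (P := fun (p : X × M) (d : M) => ∃ y : M, d.1 ∈ (g p.1).1 ∧
        p.2.1 = ZFSet.pair d.1 y.1)
      apply MD.ex (P := fun (q : (X × M) × M) (y : M) => q.2.1 ∈ (g q.1.1).1 ∧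
        q.1.2.1 = ZFSet.pair q.2.1 y.1)
      have h3 := eqP hM c1 c2 c3
      exact (MD.and (MD.mem c2 (DFc.comp hg c0)) h3 :)
    exact (MD.imp (MD.mem a1 (DFc.comp hf a0)) h2 :)
  have h4 : MD M fun x : X => ∀ d : M, d.1 ∈ (g x).1 → ∃ y : M,
      ZFSet.pair d.1 y.1 ∈ (f x).1 ∧ ∀ y' : M, ZFSet.pair d.1 y'.1 ∈ (f x).1 → y' = y := by
    apply MD.all (P := fun (x : X) (d : M) => d.1 ∈ (g x).1 → ∃ y : M,
      ZFSet.pair d.1 y.1 ∈ (f x).1 ∧ ∀ y' : M, ZFSet.pair d.1 y'.1 ∈ (f x).1 → y' = y)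
    have h5 : MD M fun p : X × M => ∃ y : M,
        ZFSet.pair p.2.1 y.1 ∈ (f p.1).1 ∧ ∀ y' : M, ZFSet.pair p.2.1 y'.1 ∈ (f p.1).1 → y' = y := by
      apply MD.ex (P := fun (p : X × M) (y : M) =>
        ZFSet.pair p.2.1 y.1 ∈ (f p.1).1 ∧ ∀ y' : M, ZFSet.pair p.2.1 y'.1 ∈ (f p.1).1 → y' = y)
      have h6 : MD M fun q : (X × M) × M => ∀ y' : M,
          ZFSet.pair q.1.2.1 y'.1 ∈ (f q.1.1).1 → y' = q.2 := by
        apply MD.all (P := fun (q : (X × M) × M) (y' : M) =>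
          ZFSet.pair q.1.2.1 y'.1 ∈ (f q.1.1).1 → y' = q.2)
        have h7 := DFc.zpr hM c1 c3
        exact (MD.imp (MD.mem h7 (DFc.comp hf c0)) (MD.eq c3 c2) :)
      have h8 := DFc.zpr hM b1 b2
      exact (MD.and (MD.mem h8 (DFc.comp hf b0)) h6 :)
    exact (MD.imp (MD.mem a1 (DFc.comp hg a0)) h5 :)
  refine MD.congr ?_ (MD.and h1 h4)
  intro x
  have hm : ∀ {d y' : ZFSet.{0}}, ZFSet.pair d y' ∈ (f x).1 → y' ∈ M := fun h' =>
    hM.pair_right (hM.trans _ (f x).2 _ h')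
  constructor
  · rintro ⟨k1, k2⟩
    refine ⟨?_, ?_⟩
    · intro w hw
      obtain ⟨d, y, hd, hy⟩ := k1 ⟨w, hM.trans _ (f x).2 _ hw⟩ hw
      exact ⟨d.1, hd, y.1, hy⟩
    · intro d hd
      obtain ⟨y, hy, hy'⟩ := k2 ⟨d, hM.trans _ (g x).2 _ hd⟩ hd
      exact ⟨y.1, hy, fun y' h' => congrArg Subtype.val (hy' ⟨y', hm h'⟩ h')⟩
  · rintro ⟨k1, k2⟩
    refine ⟨?_, ?_⟩
    · intro w hw
      obtain ⟨d, hd, y, hy⟩ := k1 w.1 hw
      have hyM : y ∈ M := hM.pair_right (hy ▸ w.2)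
      exact ⟨⟨d, hM.trans _ (g x).2 _ hd⟩, ⟨y, hyM⟩, hd, hy⟩
    · intro d hd
      obtain ⟨y, hy, hy'⟩ := k2 d.1 hd
      exact ⟨⟨y, hm hy⟩, hy, fun y' h' => Subtype.ext (hy' _ h')⟩

theorem DFc.ite {P : X → Prop} (hP : MD M P) [∀ x, Decidable (P x)] :
    DFc M fun x => if P x then f x else g x := by
  apply DFc.of_graph
  have a0 : DFc M fun q : X × M => q.1 := DFc.fst DFc.id
  have a1 : DFc M fun q : X × M => q.2 := DFc.snd DFc.id
  have h1 : MD M fun p : X × M => P p.1 := MD.comp hP a0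
  have h2 : MD M fun p : X × M => p.2 = f p.1 := MD.eq a1 (DFc.comp hf a0)
  have h3 : MD M fun p : X × M => p.2 = g p.1 := MD.eq a1 (DFc.comp hg a0)
  refine MD.congr ?_ (MD.or (MD.and h1 h2) (MD.and (MD.not h1) h3))
  intro p
  by_cases hp : P p.1
  · simp [hp]
  · simp [hp]

include hh

include hM in
theorem MD.zpair_mem : MD M fun x => ZFSet.pair (f x).1 (g x).1 ∈ (h x).1 := by
  have h1 := DFc.zpr hM hf hg
  exact (MD.mem h1 hh :)

include hM in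
theorem MD.eq_zpair : MD M fun x => (f x).1 = ZFSet.pair (g x).1 (h x).1 := by
  exact eqP hM hf hg hh

theorem DFc.ztr : DFc M fun x => ztr hM (f x) (g x) (h x) := by
  exact (DFc.zpr hM hf (DFc.zpr hM hg hh) :)

theorem DFc.zup : DFc M fun x => zup hM (f x) (g x) (h x) := by
  apply DFc.of_graph
  have b0 : DFc M fun q : (X × M) × M => q.1.1 := DFc.fst (DFc.fst DFc.id)
  have b1 : DFc M fun q : (X × M) × M => q.1.2 := DFc.snd (DFc.fst DFc.id)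
  have b2 : DFc M fun q : (X × M) × M => q.2 := DFc.snd DFc.id
  have c0 : DFc M fun q : ((X × M) × M) × M => q.1.1.1 := DFc.fst (DFc.fst (DFc.fst DFc.id))
  have c2 : DFc M fun q : ((X × M) × M) × M => q.1.2 := DFc.snd (DFc.fst DFc.id)
  have c3 : DFc M fun q : ((X × M) × M) × M => q.2 := DFc.snd DFc.id
  have h1 : MD M fun p : X × M => ∀ z : M, z.1 ∈ p.2.1 ↔
      ((z.1 ∈ (f p.1).1 ∧ ∀ w : M, ¬ z.1 = ZFSet.pair (g p.1).1 w.1) ∨
        z.1 = ZFSet.pair (g p.1).1 (h p.1).1) := by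
    apply MD.all (P := fun (p : X × M) (z : M) => (z.1 ∈ p.2.1 ↔
      ((z.1 ∈ (f p.1).1 ∧ ∀ w : M, ¬ z.1 = ZFSet.pair (g p.1).1 w.1) ∨
        z.1 = ZFSet.pair (g p.1).1 (h p.1).1)))
    have h2 : MD M fun q : (X × M) × M => ∀ w : M, ¬ q.2.1 = ZFSet.pair (g q.1.1).1 w.1 := by
      apply MD.all (P := fun (q : (X × M) × M) (w : M) => ¬ q.2.1 = ZFSet.pair (g q.1.1).1 w.1)
      have h3 := eqP hM c2 (DFc.comp hg c0) c3
      exact (MD.not h3 :)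
    have h4 := eqP hM b2 (DFc.comp hg b0) (DFc.comp hh b0)
    exact (MD.iff (MD.mem b2 b1) (MD.or (MD.and (MD.mem b2 (DFc.comp hf b0)) h2) h4) :)
  refine MD.congr ?_ h1
  intro p
  have hmem : ∀ z : M, z.1 ∈ (RMK.zup hM (f p.1) (g p.1) (h p.1)).1 ↔
      ((z.1 ∈ (f p.1).1 ∧ ∀ w : M, ¬ z.1 = ZFSet.pair (g p.1).1 w.1) ∨
        z.1 = ZFSet.pair (g p.1).1 (h p.1).1) := by
    intro z
    change z.1 ∈ updZ (f p.1).1 (g p.1).1 (h p.1).1 ↔ _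
    unfold updZ
    rw [ZFSet.mem_union, ZFSet.mem_sep, ZFSet.mem_singleton]
    constructor
    · rintro (⟨k1, k2⟩ | k1)
      · exact Or.inl ⟨k1, fun w => k2 w.1⟩
      · exact Or.inr k1
    · rintro (⟨k1, k2⟩ | k1)
      · refine Or.inl ⟨k1, fun w hw => ?_⟩
        have hwM : w ∈ M := hM.pair_right (hw ▸ z.2)
        exact k2 ⟨w, hwM⟩ hw
      · exact Or.inr k1
  constructor
  · intro h'
    apply hM.ext
    intro z
    rw [h' z, hmem z]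
  · intro h' z
    rw [h', hmem z]

end

/-- separation, functional form -/
theorem ZF0.sepF (hM : ZF0 M) {a : X → M} (ha : DFc M a) {P : X → M → Prop}
    (hP : MD M fun p : X × M => P p.1 p.2) :
    ∃ f : X → M, DFc M f ∧ ∀ x (z : M), z.1 ∈ (f x).1 ↔ z.1 ∈ (a x).1 ∧ P x z := by
  have hPx : ∀ x, MD M (P x) := by
    intro x
    exact MD.comp (P := fun p : X × M => P p.1 p.2) hP
      (DFc.mk (DFc.const (X := M) x) DFc.id)
  have hex : ∀ x, ∃ b : M, ∀ z : M, z.1 ∈ b.1 ↔ z.1 ∈ (a x).1 ∧ P x z := fun x =>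
    hM.sep _ (hPx x) (a x)
  choose f hf using hex
  refine ⟨f, ?_, hf⟩
  apply DFc.of_graph
  have h1 : MD M fun p : X × M => ∀ z : M, z.1 ∈ p.2.1 ↔ (z.1 ∈ (a p.1).1 ∧ P p.1 z) := by
    apply MD.all (P := fun (p : X × M) (z : M) => (z.1 ∈ p.2.1 ↔ (z.1 ∈ (a p.1).1 ∧ P p.1 z)))
    have e1 : DFc M fun q : (X × M) × M => q.1.1 := DFc.fst (DFc.fst DFc.id)
    have e2 : DFc M fun q : (X × M) × M => q.1.2 := DFc.snd (DFc.fst DFc.id)
    have e3 : DFc M fun q : (X × M) × M => q.2 := DFc.snd DFc.id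
    have h2 := MD.comp (P := fun p : X × M => P p.1 p.2) hP (DFc.mk e1 e3)
    exact (MD.iff (MD.mem e3 e2) (MD.and (MD.mem e3 (DFc.comp ha e1)) h2) :)
  refine MD.congr ?_ h1
  intro p
  constructor
  · intro h
    apply hM.ext
    intro z
    rw [h z, hf]
  · intro h z
    rw [h, hf]

/-- replacement, functional form -/
theorem ZF0.replF (hM : ZF0 M) {a : X → M} (ha : DFc M a) {F : X → M → M}
    (hF : DFc M fun p : X × M => F p.1 p.2) :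
    ∃ f : X → M, DFc M f ∧ ∀ x (z : M), z.1 ∈ (f x).1 ↔ ∃ y : M, y.1 ∈ (a x).1 ∧ z = F x y := by
  have hFx : ∀ x, DFc M (F x) := by
    intro x
    exact DFc.comp (g := fun p : X × M => F p.1 p.2) hF
      (DFc.mk (DFc.const (X := M) x) DFc.id)
  have hex : ∀ x, ∃ b : M, ∀ z : M, z.1 ∈ b.1 ↔ ∃ y : M, y.1 ∈ (a x).1 ∧ z = F x y := fun x =>
    hM.repl _ (hFx x) (a x)
  choose f hf using hex
  refine ⟨f, ?_, hf⟩
  apply DFc.of_graph
  have h1 : MD M fun p : X × M => ∀ z : M, z.1 ∈ p.2.1 ↔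
      ∃ y : M, y.1 ∈ (a p.1).1 ∧ z = F p.1 y := by
    apply MD.all (P := fun (p : X × M) (z : M) => (z.1 ∈ p.2.1 ↔
      ∃ y : M, y.1 ∈ (a p.1).1 ∧ z = F p.1 y))
    have e2 : DFc M fun q : (X × M) × M => q.1.2 := DFc.snd (DFc.fst DFc.id)
    have e3 : DFc M fun q : (X × M) × M => q.2 := DFc.snd DFc.id
    have c0 : DFc M fun q : ((X × M) × M) × M => q.1.1.1 := DFc.fst (DFc.fst (DFc.fst DFc.id))
    have c2 : DFc M fun q : ((X × M) × M) × M => q.1.2 := DFc.snd (DFc.fst DFc.id)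
    have c3 : DFc M fun q : ((X × M) × M) × M => q.2 := DFc.snd DFc.id
    have h2 : MD M fun q : (X × M) × M => ∃ y : M, y.1 ∈ (a q.1.1).1 ∧ q.2 = F q.1.1 y := by
      apply MD.ex (P := fun (q : (X × M) × M) (y : M) => y.1 ∈ (a q.1.1).1 ∧ q.2 = F q.1.1 y)
      have h3 := DFc.comp (g := fun p : X × M => F p.1 p.2) hF (DFc.mk c0 c3)
      exact (MD.and (MD.mem c3 (DFc.comp ha c0)) (MD.eq c2 h3) :)
    exact (MD.iff (MD.mem e3 e2) h2 :)
  refine MD.congr ?_ h1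
  intro p
  constructor
  · intro h
    apply hM.ext
    intro z
    rw [h z, hf]
  · intro h z
    rw [h, hf]

/-- union of a definable family indexed by a set -/
theorem ZF0.unionF (hM : ZF0 M) {a : X → M} (ha : DFc M a) {F : X → M → M}
    (hF : DFc M fun p : X × M => F p.1 p.2) :
    ∃ f : X → M, DFc M f ∧ ∀ x (z : M), z.1 ∈ (f x).1 ↔
      ∃ y : M, y.1 ∈ (a x).1 ∧ z.1 ∈ (F x y).1 := by
  obtain ⟨f, hf, hf'⟩ := hM.replF ha hF
  refine ⟨fun x => RMK.zsU hM (f x), DFc.zsU hM hf, ?_⟩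
  intro x z
  change z.1 ∈ ZFSet.sUnion (f x).1 ↔ _
  rw [ZFSet.mem_sUnion]
  constructor
  · rintro ⟨u, hu, hz⟩
    obtain ⟨y, hy, huy⟩ := (hf' x ⟨u, hM.trans _ (f x).2 _ hu⟩).1 hu
    refine ⟨y, hy, ?_⟩
    rw [← huy]
    exact hz
  · rintro ⟨y, hy, hz⟩
    exact ⟨(F x y).1, (hf' x (F x y)).2 ⟨y, hy, rfl⟩, hz⟩

theorem ZF0.prodZ (hM : ZF0 M) {x y : ZFSet.{0}} (hx : x ∈ M) (hy : y ∈ M) :
    x.prod y ∈ M := by
  have h1 : DFc M fun p : M × M => RMK.zpr hM p.1 p.2 :=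
    DFc.zpr hM (DFc.fst DFc.id) (DFc.snd DFc.id)
  obtain ⟨f, hf, hf'⟩ := hM.replF (X := M) (a := fun _ : M => (⟨y, hy⟩ : M)) (DFc.const _)
    (F := fun a b => RMK.zpr hM a b) h1
  have h2 : DFc M fun p : M × M => f p.2 := DFc.comp hf (DFc.snd DFc.id)
  obtain ⟨g, -, hg⟩ := hM.unionF (X := M) (a := fun _ : M => (⟨x, hx⟩ : M)) (DFc.const _)
    (F := fun _ a => f a) h2
  have h3 : (g ⟨x, hx⟩).1 = x.prod y := by
    ext z
    rw [ZFSet.mem_prod]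
    constructor
    · intro hz
      have hzM := hM.trans _ (g ⟨x, hx⟩).2 _ hz
      obtain ⟨a, ha, hza⟩ := (hg ⟨x, hx⟩ ⟨z, hzM⟩).1 hz
      obtain ⟨b, hb, hzb⟩ := (hf' a ⟨z, hzM⟩).1 hza
      exact ⟨a.1, ha, b.1, hb, congrArg Subtype.val hzb⟩
    · rintro ⟨a, ha, b, hb, rfl⟩
      have haM := hM.trans _ hx _ ha
      have hbM := hM.trans _ hy _ hb
      refine (hg ⟨x, hx⟩ ⟨_, hM.pairZ haM hbM⟩).2 ⟨⟨a, haM⟩, ha, ?_⟩
      exact (hf' ⟨a, haM⟩ ⟨_, hM.pairZ haM hbM⟩).2 ⟨⟨b, hbM⟩, hb, rfl⟩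
  rw [← h3]
  exact (g ⟨x, hx⟩).2

/-- product -/
noncomputable def zpd (hM : ZF0 M) (x y : M) : M := ⟨x.1.prod y.1, hM.prodZ x.2 y.2⟩

theorem DFc.zpd (hM : ZF0 M) {f g : X → M} (hf : DFc M f) (hg : DFc M g) :
    DFc M fun x => RMK.zpd hM (f x) (g x) := by
  apply DFc.of_graph
  have h1 : MD M fun p : X × M => ∀ z : M, z.1 ∈ p.2.1 ↔
      ∃ u v : M, u.1 ∈ (f p.1).1 ∧ v.1 ∈ (g p.1).1 ∧ z.1 = ZFSet.pair u.1 v.1 := by
    apply MD.all (P := fun (p : X × M) (z : M) => (z.1 ∈ p.2.1 ↔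
      ∃ u v : M, u.1 ∈ (f p.1).1 ∧ v.1 ∈ (g p.1).1 ∧ z.1 = ZFSet.pair u.1 v.1))
    have h2 : MD M fun q : (X × M) × M => ∃ u v : M, u.1 ∈ (f q.1.1).1 ∧ v.1 ∈ (g q.1.1).1 ∧
        q.2.1 = ZFSet.pair u.1 v.1 := by
      apply MD.ex (P := fun (q : (X × M) × M) (u : M) =>
        ∃ v : M, u.1 ∈ (f q.1.1).1 ∧ v.1 ∈ (g q.1.1).1 ∧ q.2.1 = ZFSet.pair u.1 v.1)
      apply MD.ex (P := fun (q : ((X × M) × M) × M) (v : M) =>
        q.2.1 ∈ (f q.1.1.1).1 ∧ v.1 ∈ (g q.1.1.1).1 ∧ q.1.2.1 = ZFSet.pair q.2.1 v.1)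
      have e1 : DFc M fun q : (((X × M) × M) × M) × M => q.1.1.1.1 :=
        DFc.fst (DFc.fst (DFc.fst (DFc.fst DFc.id)))
      have e2 : DFc M fun q : (((X × M) × M) × M) × M => q.1.1.2 :=
        DFc.snd (DFc.fst (DFc.fst DFc.id))
      have e3 : DFc M fun q : (((X × M) × M) × M) × M => q.1.2 := DFc.snd (DFc.fst DFc.id)
      have e4 : DFc M fun q : (((X × M) × M) × M) × M => q.2 := DFc.snd DFc.id
      have h3 := eqP hM e2 e3 e4
      exact (MD.and (MD.mem e3 (DFc.comp hf e1)) (MD.and (MD.mem e4 (DFc.comp hg e1)) h3) :)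
    have b1 : DFc M fun q : (X × M) × M => q.1.2 := DFc.snd (DFc.fst DFc.id)
    have b2 : DFc M fun q : (X × M) × M => q.2 := DFc.snd DFc.id
    exact (MD.iff (MD.mem b2 b1) h2 :)
  refine MD.congr ?_ h1
  intro p
  have hmem : ∀ z : M, z.1 ∈ (RMK.zpd hM (f p.1) (g p.1)).1 ↔
      ∃ u v : M, u.1 ∈ (f p.1).1 ∧ v.1 ∈ (g p.1).1 ∧ z.1 = ZFSet.pair u.1 v.1 := by
    intro z
    change z.1 ∈ (f p.1).1.prod (g p.1).1 ↔ _
    rw [ZFSet.mem_prod]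
    constructor
    · rintro ⟨a, ha, b, hb, hz⟩
      exact ⟨⟨a, hM.trans _ (f p.1).2 _ ha⟩, ⟨b, hM.trans _ (g p.1).2 _ hb⟩, ha, hb, hz⟩
    · rintro ⟨a, b, ha, hb, hz⟩
      exact ⟨a.1, ha, b.1, hb, hz⟩
  constructor
  · intro h
    apply hM.ext
    intro z
    rw [h z, hmem z]
  · intro h z
    rw [h, hmem z]

/-- the domain of a relation -/
theorem ZF0.exists_dom (hM : ZF0 M) : ∃ f : M → M, DFc M f ∧
    ∀ h z : M, z.1 ∈ (f h).1 ↔ ∃ y : M, ZFSet.pair z.1 y.1 ∈ h.1 := by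
  have e1 : DFc M fun q : (M × M) × M => q.1.1 := DFc.fst (DFc.fst DFc.id)
  have e2 : DFc M fun q : (M × M) × M => q.1.2 := DFc.snd (DFc.fst DFc.id)
  have e3 : DFc M fun q : (M × M) × M => q.2 := DFc.snd DFc.id
  have hP : MD M fun p : M × M => ∃ y : M, ZFSet.pair p.2.1 y.1 ∈ p.1.1 := by
    apply MD.ex (P := fun (p : M × M) (y : M) => ZFSet.pair p.2.1 y.1 ∈ p.1.1)
    exact (MD.zpair_mem hM e2 e3 e1 :)
  have ha : DFc M fun h : M => RMK.zsU hM (RMK.zsU hM h) := DFc.zsU hM (DFc.zsU hM DFc.id)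
  obtain ⟨f, hf, hf'⟩ := hM.sepF (X := M) ha
    (P := fun (h z : M) => ∃ y : M, ZFSet.pair z.1 y.1 ∈ h.1) hP
  refine ⟨f, hf, fun h z => (hf' h z).trans ⟨fun h1 => h1.2, fun h1 => ⟨?_, h1⟩⟩⟩
  obtain ⟨y, hy⟩ := h1
  change z.1 ∈ ZFSet.sUnion (ZFSet.sUnion h.1)
  rw [ZFSet.mem_sUnion]
  refine ⟨{z.1}, ?_, by simp⟩
  rw [ZFSet.mem_sUnion]
  exact ⟨_, hy, by simp [ZFSet.pair]⟩

/-- the range of a relation -/
theorem ZF0.exists_ran (hM : ZF0 M) : ∃ f : M → M, DFc M f ∧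
    ∀ h z : M, z.1 ∈ (f h).1 ↔ ∃ y : M, ZFSet.pair y.1 z.1 ∈ h.1 := by
  have e1 : DFc M fun q : (M × M) × M => q.1.1 := DFc.fst (DFc.fst DFc.id)
  have e2 : DFc M fun q : (M × M) × M => q.1.2 := DFc.snd (DFc.fst DFc.id)
  have e3 : DFc M fun q : (M × M) × M => q.2 := DFc.snd DFc.id
  have hP : MD M fun p : M × M => ∃ y : M, ZFSet.pair y.1 p.2.1 ∈ p.1.1 := by
    apply MD.ex (P := fun (p : M × M) (y : M) => ZFSet.pair y.1 p.2.1 ∈ p.1.1)
    exact (MD.zpair_mem hM e3 e2 e1 :)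
  have ha : DFc M fun h : M => RMK.zsU hM (RMK.zsU hM h) := DFc.zsU hM (DFc.zsU hM DFc.id)
  obtain ⟨f, hf, hf'⟩ := hM.sepF (X := M) ha
    (P := fun (h z : M) => ∃ y : M, ZFSet.pair y.1 z.1 ∈ h.1) hP
  refine ⟨f, hf, fun h z => (hf' h z).trans ⟨fun h1 => h1.2, fun h1 => ⟨?_, h1⟩⟩⟩
  obtain ⟨y, hy⟩ := h1
  change z.1 ∈ ZFSet.sUnion (ZFSet.sUnion h.1)
  rw [ZFSet.mem_sUnion]
  refine ⟨{y.1, z.1}, ?_, by simp⟩
  rw [ZFSet.mem_sUnion]
  exact ⟨_, hy, by simp [ZFSet.pair]⟩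

end RMK
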