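import Pool.Agent.RMK.S.ZRec

/-!
RMK ZPAI: an absolute pairing function on the countable ordinals.

PROOFS.
On `Om × Om` let `(c, d) ◁ (a, b)` iff `max c d < max a b`, or `max c d = max a b` and (`c < a` or (`c = a` and
`d < b`)).  This is a well-order (lexicographic order of the triple `(max, first, second)`), and every
initial segment is countable (contained in `Iic μ × Iic μ`, `Om.countable_Iic`).  Let `gp a b` be the rank:
by well-founded recursion the least `γ : Om` greater than all `gp c d` with `(c, d) ◁ (a, b)` (`Om.bdd`).  Since `◁` is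
a well-order: `gp` is strictly monotone (so injective), and the values `gp c d` for `(c, d) ◁ (a, b)` are
exactly the `γ < gp a b` (if `γ < gp a b` is not a value, let `(c, d)` be the least pair with `γ ≤ gp c d`; then all
earlier values are `< γ`, ... so `gp c d ≤ γ`, `gp c d = γ`).
`a ≤ gp a b`: `(ν, 0) ◁ (a, b)` for `ν < a` and the map `ν ↦ gp ν 0` is strictly monotone, so `ν ≤ gp ν 0 < gp a b`
for all `ν < a`; hence `a ≤ gp a b`.  Similarly `b ≤ gp a b` with `(0, ν)`.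
In `M`: for `a b : M` let `λ = (a ∪ {a}) ∪ (b ∪ {b})` and `D = λ × λ`, `E = {pair (pair c d) (pair c' d') ∈ D × D |
(c, d) ◁ (c', d')}` where for sets `c, d` of ordinals `max c d = c ∪ d` and `<` is `∈`.  (For `a, b` not ordinals `E` need
not be well-founded: use `D = ∅` unless `IsO a ∧ IsO b`, by `DFc.ite`.)  `recE` with `F d h = range of h`
(`exists_ran`); `P2 a b = apZ (H (a, b)) (pair a b)`.  By `◁`-induction `apZ (H (a, b)) (pair (toZ c) (toZ d)) =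
toZ (gp c d)` for all `c, d ≤ max a b`: the range of the restricted function is `{toZ (gp c' d') | (c', d') ◁ (c, d)}
= toZ (gp c d)` by the initial segment property.
`gp`, `gp_inj`, `le_gp`, `exists_P2`: projections of `exists_gp`.
-/

namespace RMK

open Set PU

/-! ### The order on pairs of countable ordinals -/

/-- the key of a pair -/
private noncomputable def ky42 (p : Om × Om) : Om ×ₗ (Om ×ₗ Om) := toLex (max p.1 p.2, toLex (p.1, p.2))

private theorem ky42_inj {p q : Om × Om} (h : ky42 p = ky42 q) : p = q := by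
  have h1 := congrArg (fun t : Om ×ₗ (Om ×ₗ Om) => ofLex (ofLex t).2) h
  simpa [ky42] using h1

private theorem ky42_lt {p q : Om × Om} : ky42 p < ky42 q ↔ max p.1 p.2 < max q.1 q.2 ∨
    (max p.1 p.2 = max q.1 q.2 ∧ (p.1 < q.1 ∨ (p.1 = q.1 ∧ p.2 < q.2))) := by
  rw [ky42, ky42, Prod.Lex.toLex_lt_toLex, Prod.Lex.toLex_lt_toLex]

private theorem wf42 : WellFounded fun p q : Om × Om => ky42 p < ky42 q :=
  InvImage.wf ky42 wellFounded_lt

private theorem ctbl42 (p : Om × Om) : {q : Om × Om | ky42 q < ky42 p}.Countable := by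
  have h := (Om.countable_Iic (max p.1 p.2)).prod (Om.countable_Iic (max p.1 p.2))
  refine h.mono fun q hq => ?_
  have hm : max q.1 q.2 ≤ max p.1 p.2 := by
    rcases ky42_lt.1 hq with h | h
    · exact h.le
    · exact h.1.le
  exact ⟨(le_max_left _ _).trans hm, (le_max_right _ _).trans hm⟩

private theorem bd42 (p : Om × Om) (f : (q : Om × Om) → ky42 q < ky42 p → Om) :
    {γ : Om | ∀ q h, f q h < γ}.Nonempty := by
  have hc : (range fun q : {q : Om × Om | ky42 q < ky42 p} => f q.1 q.2).Countable := by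
    have : Countable {q : Om × Om | ky42 q < ky42 p} := (ctbl42 p).to_subtype
    exact countable_range _
  obtain ⟨α, hα⟩ := Om.bdd hc
  exact ⟨α, fun q h => hα _ ⟨⟨q, h⟩, rfl⟩⟩

private noncomputable def g42 : Om × Om → Om :=
  wf42.fix fun p f => (wellFounded_lt (α := Om)).min {γ : Om | ∀ q h, f q h < γ} (bd42 p f)

private theorem g42_eq (p : Om × Om) : g42 p =
    (wellFounded_lt (α := Om)).min {γ : Om | ∀ q, ky42 q < ky42 p → g42 q < γ}
      (bd42 p fun q _ => g42 q) := by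
  rw [g42, wf42.fix_eq]

private theorem g42_lt {p q : Om × Om} (h : ky42 q < ky42 p) : g42 q < g42 p := by
  have h1 := (wellFounded_lt (α := Om)).min_mem {γ : Om | ∀ q, ky42 q < ky42 p → g42 q < γ}
      (bd42 p fun q _ => g42 q)
  rw [← g42_eq] at h1
  exact h1 q h

private theorem g42_le {p : Om × Om} {γ : Om} (h : ∀ q, ky42 q < ky42 p → g42 q < γ) :
    g42 p ≤ γ := by
  rw [g42_eq]
  exact not_lt.1 ((wellFounded_lt (α := Om)).not_lt_min
    {γ : Om | ∀ q, ky42 q < ky42 p → g42 q < γ} h)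

private theorem g42_surj {p : Om × Om} {γ : Om} (h : γ < g42 p) :
    ∃ q, ky42 q < ky42 p ∧ g42 q = γ := by
  have h1 : ∃ q, ky42 q < ky42 p ∧ γ ≤ g42 q := by
    by_contra hc
    push Not at hc
    exact absurd (g42_le hc) (not_le.2 h)
  have h2 : {q | ky42 q < ky42 p ∧ γ ≤ g42 q}.Nonempty := h1
  obtain ⟨q, ⟨hq1, hq2⟩, hq3⟩ := wf42.has_min _ h2
  refine ⟨q, hq1, le_antisymm (g42_le fun r hr => ?_) hq2⟩
  by_contra hc
  exact hq3 r ⟨hr.trans hq1, not_lt.1 hc⟩ hr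

private theorem g42_inj {p q : Om × Om} (h : g42 p = g42 q) : p = q := by
  rcases lt_trichotomy (ky42 p) (ky42 q) with h1 | h1 | h1
  · exact absurd h (g42_lt h1).ne
  · exact ky42_inj h1
  · exact absurd h.symm (g42_lt h1).ne

private theorem zero_le42 (a : Om) : (default : Om) ≤ a := by
  change (0 : Ordinal.{0}) ≤ a.1
  exact zero_le

private theorem g42_left (a b : Om) : a ≤ g42 (a, b) := by
  have hm : StrictMono fun ν : Om => g42 (ν, default) := by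
    intro ν ν' h
    refine g42_lt (ky42_lt.2 (Or.inl ?_))
    simp only [max_eq_left (zero_le42 _)]
    exact h
  by_contra hc
  have h1 : g42 (a, b) < a := not_le.1 hc
  have h2 : g42 (a, b) ≤ g42 (g42 (a, b), default) := hm.le_apply
  have h3 : g42 (g42 (a, b), default) < g42 (a, b) := by
    refine g42_lt (ky42_lt.2 (Or.inl ?_))
    simp only [max_eq_left (zero_le42 _)]
    exact h1.trans_le (le_max_left _ _)
  exact absurd h2 (not_le.2 h3)

private theorem g42_right (a b : Om) : b ≤ g42 (a, b) := by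
  have hm : StrictMono fun ν : Om => g42 (default, ν) := by
    intro ν ν' h
    refine g42_lt (ky42_lt.2 (Or.inl ?_))
    simp only [max_eq_right (zero_le42 _)]
    exact h
  by_contra hc
  have h1 : g42 (a, b) < b := not_le.1 hc
  have h2 : g42 (a, b) ≤ g42 (default, g42 (a, b)) := hm.le_apply
  have h3 : g42 (default, g42 (a, b)) < g42 (a, b) := by
    refine g42_lt (ky42_lt.2 (Or.inl ?_))
    simp only [max_eq_right (zero_le42 _)]
    exact h1.trans_le (le_max_right _ _)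
  exact absurd h2 (not_le.2 h3)

/-! ### Countable ordinals as sets -/

private theorem toZ_mem42 {α β : Om} : toZ α ∈ toZ β ↔ α < β := by
  rw [toZ, toZ, Ordinal.toZFSet_mem_toZFSet_iff]
  rfl

private theorem toZ_inj42 {α β : Om} : toZ α = toZ β ↔ α = β := by
  rw [toZ, toZ, Ordinal.toZFSet_injective.eq_iff]
  exact Subtype.ext_iff.symm

private theorem mem_toZ42 {δ : Om} {x : ZFSet.{0}} : x ∈ toZ δ ↔ ∃ α, α < δ ∧ x = toZ α := by
  rw [toZ, Ordinal.mem_toZFSet_iff]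
  constructor
  · rintro ⟨a, h, rfl⟩
    exact ⟨⟨a, h.trans δ.2⟩, h, rfl⟩
  · rintro ⟨α, h, rfl⟩
    exact ⟨α.1, h, rfl⟩

private theorem toZ_un42 (α β : Om) : toZ α ∪ toZ β = toZ (max α β) := by
  ext z
  rw [ZFSet.mem_union, mem_toZ42, mem_toZ42, mem_toZ42]
  constructor
  · rintro (⟨γ, h, e⟩ | ⟨γ, h, e⟩)
    · exact ⟨γ, h.trans_le (le_max_left _ _), e⟩
    · exact ⟨γ, h.trans_le (le_max_right _ _), e⟩
  · rintro ⟨γ, h, e⟩
    rcases lt_max_iff.1 h with h | h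
    · exact Or.inl ⟨γ, h, e⟩
    · exact Or.inr ⟨γ, h, e⟩

/-- the order on pairs of sets -/
private def Lo42 (c d c' d' : ZFSet.{0}) : Prop :=
  c ∪ d ∈ c' ∪ d' ∨ (c ∪ d = c' ∪ d' ∧ (c ∈ c' ∨ (c = c' ∧ d ∈ d')))

private theorem lo42_toZ (c d c' d' : Om) :
    Lo42 (toZ c) (toZ d) (toZ c') (toZ d') ↔ ky42 (c, d) < ky42 (c', d') := by
  rw [Lo42, ky42_lt, toZ_un42, toZ_un42, toZ_mem42, toZ_inj42, toZ_mem42, toZ_inj42, toZ_mem42]

/-- the key of a pair of sets -/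
private noncomputable def kz42 (c d : ZFSet.{0}) : Ordinal.{0} ×ₗ (Ordinal.{0} ×ₗ Ordinal.{0}) :=
  toLex ((c ∪ d).rank, toLex (c.rank, d.rank))

private theorem kz42_lt {c d c' d' : ZFSet.{0}} (h : Lo42 c d c' d') : kz42 c d < kz42 c' d' := by
  rw [kz42, kz42, Prod.Lex.toLex_lt_toLex, Prod.Lex.toLex_lt_toLex]
  rcases h with h | ⟨h, h' | ⟨h1, h2⟩⟩
  · exact Or.inl (ZFSet.rank_lt_of_mem h)
  · exact Or.inr ⟨congrArg ZFSet.rank h, Or.inl (ZFSet.rank_lt_of_mem h')⟩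
  · exact Or.inr ⟨congrArg ZFSet.rank h, Or.inr ⟨congrArg ZFSet.rank h1, ZFSet.rank_lt_of_mem h2⟩⟩

open Classical in
/-- the key of a set -/
private noncomputable def kk42 (z : ZFSet.{0}) : Ordinal.{0} ×ₗ (Ordinal.{0} ×ₗ Ordinal.{0}) :=
  if h : ∃ p : ZFSet.{0} × ZFSet.{0}, z = ZFSet.pair p.1 p.2 then kz42 h.choose.1 h.choose.2
  else kz42 ∅ ∅

private theorem kk42_pair (c d : ZFSet.{0}) : kk42 (ZFSet.pair c d) = kz42 c d := by
  have h : ∃ p : ZFSet.{0} × ZFSet.{0}, ZFSet.pair c d = ZFSet.pair p.1 p.2 := ⟨(c, d), rfl⟩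
  rw [kk42, dif_pos h]
  have e := ZFSet.pair_injective h.choose_spec
  rw [← e.1, ← e.2]

/-! ### The recursion in the model -/

section

variable {M : Set ZFSet.{0}}

private theorem eqz42 (hM : ZF0 M) {X : Type 1} [Ctx M X] {f g h : X → M} (hf : DFc M f)
    (hg : DFc M g) (hh : DFc M h) : MD M fun x => (f x).1 = ZFSet.pair (g x).1 (h x).1 := by
  first
    | exact MD.eq_zpair hM hf hg hh
    | exact MD.eq_zpair hf hg hh

private theorem pmz42 (hM : ZF0 M) {X : Type 1} [Ctx M X] {f g h : X → M} (hf : DFc M f)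
    (hg : DFc M g) (hh : DFc M h) : MD M fun x => ZFSet.pair (f x).1 (g x).1 ∈ (h x).1 := by
  first
    | exact MD.zpair_mem hM hf hg hh
    | exact MD.zpair_mem hf hg hh

/-- the domain of the recursion -/
private noncomputable def lam42 (hM : ZF0 M) (x : M × M) : M :=
  zun hM (zun hM x.1 (zsg hM x.1)) (zun hM x.2 (zsg hM x.2))

private theorem dfc_lam42 (hM : ZF0 M) : DFc M (lam42 hM) := by
  have h1 : DFc M fun x : M × M => x.1 := DFc.fst DFc.id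
  have h2 : DFc M fun x : M × M => x.2 := DFc.snd DFc.id
  exact DFc.zun hM (DFc.zun hM h1 (DFc.zsg hM h1)) (DFc.zun hM h2 (DFc.zsg hM h2))

private theorem mem_lam42 (hM : ZF0 M) (hO : ∀ α : Om, toZ α ∈ M) (a b : Om) (z : ZFSet.{0}) :
    z ∈ (lam42 hM (⟨toZ a, hO a⟩, ⟨toZ b, hO b⟩)).1 ↔ ∃ γ, γ ≤ max a b ∧ z = toZ γ := by
  have e : (lam42 hM (⟨toZ a, hO a⟩, ⟨toZ b, hO b⟩)).1 =
    (toZ a ∪ {toZ a}) ∪ (toZ b ∪ {toZ b}) := rfl
  rw [e, ZFSet.mem_union, ZFSet.mem_union, ZFSet.mem_union, mem_toZ42, mem_toZ42,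
    ZFSet.mem_singleton, ZFSet.mem_singleton]
  constructor
  · rintro ((⟨γ, h, e⟩ | e) | (⟨γ, h, e⟩ | e))
    · exact ⟨γ, h.le.trans (le_max_left _ _), e⟩
    · exact ⟨a, le_max_left _ _, e⟩
    · exact ⟨γ, h.le.trans (le_max_right _ _), e⟩
    · exact ⟨b, le_max_right _ _, e⟩
  · rintro ⟨γ, h, e⟩
    rcases le_max_iff.1 h with h | h
    · rcases lt_or_eq_of_le h with h | h
      · exact Or.inl (Or.inl ⟨γ, h, e⟩)
      · exact Or.inl (Or.inr (h ▸ e))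
    · rcases lt_or_eq_of_le h with h | h
      · exact Or.inr (Or.inl ⟨γ, h, e⟩)
      · exact Or.inr (Or.inr (h ▸ e))

/-- the order, as a predicate on coded pairs of pairs -/
private def PE42 (M : Set ZFSet.{0}) (w : M) : Prop :=
  ∃ u v c d c' d' : M, w.1 = ZFSet.pair u.1 v.1 ∧ u.1 = ZFSet.pair c.1 d.1 ∧
    v.1 = ZFSet.pair c'.1 d'.1 ∧ Lo42 c.1 d.1 c'.1 d'.1

private theorem md_lo42 (hM : ZF0 M) {X : Type 1} [Ctx M X] {c d c' d' : X → M} (hc : DFc M c)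
    (hd : DFc M d) (hc' : DFc M c') (hd' : DFc M d') :
    MD M fun x => Lo42 (c x).1 (d x).1 (c' x).1 (d' x).1 := by
  have h1 : MD M fun x => (zun hM (c x) (d x)).1 ∈ (zun hM (c' x) (d' x)).1 :=
    MD.mem (DFc.zun hM hc hd) (DFc.zun hM hc' hd')
  have h2 : MD M fun x => zun hM (c x) (d x) = zun hM (c' x) (d' x) :=
    MD.eq (DFc.zun hM hc hd) (DFc.zun hM hc' hd')
  have h3 : MD M fun x => (c x).1 ∈ (c' x).1 := MD.mem hc hc'
  have h4 : MD M fun x => c x = c' x := MD.eq hc hc'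
  have h5 : MD M fun x => (d x).1 ∈ (d' x).1 := MD.mem hd hd'
  refine MD.congr (fun x => ?_) (MD.or h1 (MD.and h2 (MD.or h3 (MD.and h4 h5))))
  rw [Lo42, Subtype.ext_iff, Subtype.ext_iff]
  rfl

private theorem md_pe42 (hM : ZF0 M) {X : Type 1} [Ctx M X] {w : X → M} (hw : DFc M w) :
    MD M fun x => PE42 M (w x) := by
  have h0 : MD M fun w : M => PE42 M w := by
    unfold PE42
    apply MD.ex
    apply MD.ex
    apply MD.ex
    apply MD.ex
    apply MD.ex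
    apply MD.ex
    have e6 : DFc M fun p : (((((↥M × M) × M) × M) × M) × M) × M => p.2 := DFc.snd DFc.id
    have f6 : DFc M fun p : (((((↥M × M) × M) × M) × M) × M) × M => p.1 := DFc.fst DFc.id
    have e5 : DFc M fun p : (((((↥M × M) × M) × M) × M) × M) × M => p.1.2 := DFc.snd f6
    have f5 : DFc M fun p : (((((↥M × M) × M) × M) × M) × M) × M => p.1.1 := DFc.fst f6
    have e4 : DFc M fun p : (((((↥M × M) × M) × M) × M) × M) × M => p.1.1.2 := DFc.snd f5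
    have f4 : DFc M fun p : (((((↥M × M) × M) × M) × M) × M) × M => p.1.1.1 := DFc.fst f5
    have e3 : DFc M fun p : (((((↥M × M) × M) × M) × M) × M) × M => p.1.1.1.2 :=
      DFc.snd f4
    have f3 : DFc M fun p : (((((↥M × M) × M) × M) × M) × M) × M => p.1.1.1.1 :=
      DFc.fst f4
    have e2 : DFc M fun p : (((((↥M × M) × M) × M) × M) × M) × M => p.1.1.1.1.2 :=
      DFc.snd f3
    have f2 : DFc M fun p : (((((↥M × M) × M) × M) × M) × M) × M => p.1.1.1.1.1 :=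
      DFc.fst f3
    have e1 : DFc M fun p : (((((↥M × M) × M) × M) × M) × M) × M => p.1.1.1.1.1.2 :=
      DFc.snd f2
    have f1 : DFc M fun p : (((((↥M × M) × M) × M) × M) × M) × M => p.1.1.1.1.1.1 :=
      DFc.fst f2
    have g1 := eqz42 hM f1 e1 e2
    have g2 := eqz42 hM e1 e3 e4
    have g3 := eqz42 hM e2 e5 e6
    have g4 := md_lo42 hM e3 e4 e5 e6
    exact MD.and g1 (MD.and g2 (MD.and g3 g4))
  exact MD.comp h0 hw

private theorem pe42_iff (hM : ZF0 M) {c d c' d' : M} {w : M}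
    (hw : w.1 = ZFSet.pair (ZFSet.pair c.1 d.1) (ZFSet.pair c'.1 d'.1)) :
    PE42 M w ↔ Lo42 c.1 d.1 c'.1 d'.1 := by
  constructor
  · rintro ⟨u, v, k, l, k', l', h1, h2, h3, h4⟩
    rw [hw] at h1
    obtain ⟨e1, e2⟩ := ZFSet.pair_injective h1
    rw [h2] at e1
    rw [h3] at e2
    obtain ⟨i1, i2⟩ := ZFSet.pair_injective e1
    obtain ⟨j1, j2⟩ := ZFSet.pair_injective e2
    rw [i1, i2, j1, j2]
    exact h4
  · intro h
    exact ⟨⟨_, hM.pairZ c.2 d.2⟩, ⟨_, hM.pairZ c'.2 d'.2⟩, c, d, c', d', hw, rfl, rfl, h⟩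

private theorem ind42 (hM : ZF0 M) (hO : ∀ α : Om, toZ α ∈ M) {D E H : M × M → M}
    (hD : ∀ x, D x = zpd hM (lam42 hM x) (lam42 hM x))
    (hE : ∀ x (z : M), z.1 ∈ (E x).1 ↔ z.1 ∈ (zpd hM (D x) (D x)).1 ∧ PE42 M z)
    {ran : M → M} (hran : ∀ h z : M, z.1 ∈ (ran h).1 ↔ ∃ y : M, ZFSet.pair y.1 z.1 ∈ h.1)
    (hH : ∀ x, IsFn (H x).1 (D x).1 ∧
      ∀ d h : M, d.1 ∈ (D x).1 → (∀ w, w ∈ h.1 ↔ ∃ e, e ∈ (D x).1 ∧ ZFSet.pair e d.1 ∈ (E x).1 ∧
        w = ZFSet.pair e (apZ (H x).1 e)) → zap hM (H x) d = ran h) (a b : Om) (p : Om × Om) :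
    max p.1 p.2 ≤ max a b → apZ (H (⟨toZ a, hO a⟩, ⟨toZ b, hO b⟩)).1
      (ZFSet.pair (toZ p.1) (toZ p.2)) = toZ (g42 p) := by
  induction p using wf42.induction with
  | _ p ih =>
  intro hp
  obtain ⟨x, hx⟩ : ∃ x : M × M, x = (⟨toZ a, hO a⟩, ⟨toZ b, hO b⟩) := ⟨_, rfl⟩
  rw [← hx] at ih ⊢
  have hDm : ∀ z, z ∈ (D x).1 ↔ ∃ q : Om × Om, max q.1 q.2 ≤ max a b ∧
      z = ZFSet.pair (toZ q.1) (toZ q.2) := by
    intro z
    rw [hD x]
    change z ∈ ZFSet.prod (lam42 hM x).1 (lam42 hM x).1 ↔ _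
    rw [ZFSet.mem_prod, hx]
    constructor
    · rintro ⟨c, hc, d, hd, e⟩
      obtain ⟨γ, h1, rfl⟩ := (mem_lam42 hM hO a b c).1 hc
      obtain ⟨δ, h2, rfl⟩ := (mem_lam42 hM hO a b d).1 hd
      exact ⟨(γ, δ), max_le h1 h2, e⟩
    · rintro ⟨q, h, e⟩
      exact ⟨toZ q.1, (mem_lam42 hM hO a b _).2 ⟨q.1, (le_max_left _ _).trans h, rfl⟩, toZ q.2,
        (mem_lam42 hM hO a b _).2 ⟨q.2, (le_max_right _ _).trans h, rfl⟩, e⟩
  have hEm : ∀ q r : Om × Om, max q.1 q.2 ≤ max a b → max r.1 r.2 ≤ max a b →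
      (ZFSet.pair (ZFSet.pair (toZ q.1) (toZ q.2)) (ZFSet.pair (toZ r.1) (toZ r.2)) ∈ (E x).1 ↔
        ky42 q < ky42 r) := by
    intro q r hq hr
    have hw : ZFSet.pair (ZFSet.pair (toZ q.1) (toZ q.2)) (ZFSet.pair (toZ r.1) (toZ r.2)) ∈ M :=
      hM.pairZ (hM.pairZ (hO _) (hO _)) (hM.pairZ (hO _) (hO _))
    have h1 := hE x ⟨_, hw⟩
    have h2 := pe42_iff hM (c := ⟨toZ q.1, hO _⟩) (d := ⟨toZ q.2, hO _⟩)
      (c' := ⟨toZ r.1, hO _⟩) (d' := ⟨toZ r.2, hO _⟩) (w := ⟨_, hw⟩) rfl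
    have h3 : ZFSet.pair (ZFSet.pair (toZ q.1) (toZ q.2)) (ZFSet.pair (toZ r.1) (toZ r.2)) ∈
        (zpd hM (D x) (D x)).1 := by
      change _ ∈ ZFSet.prod (D x).1 (D x).1
      rw [ZFSet.pair_mem_prod]
      exact ⟨(hDm _).2 ⟨q, hq, rfl⟩, (hDm _).2 ⟨r, hr, rfl⟩⟩
    rw [h2, lo42_toZ] at h1
    exact h1.trans ⟨fun h => h.2, fun h => ⟨h3, h⟩⟩
  obtain ⟨hf, hrec⟩ := hH x
  have hpD : ZFSet.pair (toZ p.1) (toZ p.2) ∈ (D x).1 := (hDm _).2 ⟨p, hp, rfl⟩
  have hpM : ZFSet.pair (toZ p.1) (toZ p.2) ∈ M := hM.pairZ (hO _) (hO _)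
  -- the restricted function
  have hP : MD M fun z : M => ∃ e y : M, z.1 = ZFSet.pair e.1 y.1 ∧
      ZFSet.pair e.1 (ZFSet.pair (toZ p.1) (toZ p.2)) ∈ (E x).1 := by
    apply MD.ex
    apply MD.ex
    have e2 : DFc M fun q : (↥M × M) × M => q.2 := DFc.snd DFc.id
    have f2 : DFc M fun q : (↥M × M) × M => q.1 := DFc.fst DFc.id
    have e1 : DFc M fun q : (↥M × M) × M => q.1.2 := DFc.snd f2
    have f1 : DFc M fun q : (↥M × M) × M => q.1.1 := DFc.fst f2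
    have c1 : DFc M fun _ : (↥M × M) × M =>
      (⟨ZFSet.pair (toZ p.1) (toZ p.2), hpM⟩ : M) := DFc.const _
    have c2 : DFc M fun _ : (↥M × M) × M => E x := DFc.const _
    have g1 := eqz42 hM f1 e1 e2
    have g2 := pmz42 hM e1 c1 c2
    exact MD.and g1 g2
  obtain ⟨h, hh⟩ := hM.sep _ hP (H x)
  have hh2 : ∀ w, w ∈ h.1 ↔ ∃ e, e ∈ (D x).1 ∧
      ZFSet.pair e (ZFSet.pair (toZ p.1) (toZ p.2)) ∈ (E x).1 ∧
        w = ZFSet.pair e (apZ (H x).1 e) := by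
    intro w
    constructor
    · intro hw
      have hwM : w ∈ M := hM.trans _ h.2 _ hw
      obtain ⟨hw1, e, y, hw2, hw3⟩ := (hh ⟨w, hwM⟩).1 hw
      obtain ⟨d, hd, y', hw4⟩ := hf.1 w hw1
      change w = ZFSet.pair e.1 y.1 at hw2
      have e1 : e.1 = d := (ZFSet.pair_injective (hw2.symm.trans hw4)).1
      refine ⟨e.1, e1 ▸ hd, hw3, ?_⟩
      have h5 : apZ (H x).1 e.1 = y.1 := (apZ_eq hf (e1 ▸ hd)).2 (hw2 ▸ hw1)
      rw [h5]
      exact hw2
    · rintro ⟨e, he, he2, rfl⟩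
      have h5 : ZFSet.pair e (apZ (H x).1 e) ∈ (H x).1 := (apZ_eq hf he).1 rfl
      have h6 : ZFSet.pair e (apZ (H x).1 e) ∈ M := hM.trans _ (H x).2 _ h5
      exact (hh ⟨_, h6⟩).2 ⟨h5, ⟨e, hM.pair_left h6⟩, ⟨_, hM.pair_right h6⟩, rfl, he2⟩
  have hz := hrec ⟨_, hpM⟩ h hpD hh2
  have hz2 : apZ (H x).1 (ZFSet.pair (toZ p.1) (toZ p.2)) = (ran h).1 := congrArg Subtype.val hz
  rw [hz2]
  ext z
  rw [mem_toZ42]
  constructor
  · intro hzr
    have hzM : z ∈ M := hM.trans _ (ran h).2 _ hzr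
    obtain ⟨y, hy⟩ := (hran h ⟨z, hzM⟩).1 hzr
    obtain ⟨e, he, he2, he3⟩ := (hh2 _).1 hy
    obtain ⟨i1, i2⟩ := ZFSet.pair_injective he3
    obtain ⟨q, hq, rfl⟩ := (hDm e).1 he
    have h7 := (hEm q p hq hp).1 he2
    refine ⟨g42 q, g42_lt h7, ?_⟩
    change z = _ at i2
    rw [i2]
    exact ih q h7 hq
  · rintro ⟨γ, hγ, rfl⟩
    obtain ⟨q, hq1, rfl⟩ := g42_surj hγ
    have hq : max q.1 q.2 ≤ max a b := by
      refine le_trans ?_ hp
      rcases ky42_lt.1 hq1 with h | h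
      · exact h.le
      · exact h.1.le
    refine (hran h ⟨toZ (g42 q), hO _⟩).2 ⟨⟨_, hM.pairZ (hO q.1) (hO q.2)⟩, ?_⟩
    refine (hh2 _).2 ⟨_, (hDm _).2 ⟨q, hq, rfl⟩, (hEm q p hq hp).2 hq1, ?_⟩
    rw [ih q hq1 hq]

end

private theorem main42 (M : Set ZFSet.{0}) (hM : ZF0 M) (hO : ∀ α : Om, toZ α ∈ M) :
    ∃ P2 : M → M → M, (DFc M fun p : M × M => P2 p.1 p.2) ∧
        ∀ a b : Om, (P2 ⟨toZ a, hO a⟩ ⟨toZ b, hO b⟩).1 = toZ (g42 (a, b)) := by
  have hlam : DFc M (lam42 hM) := dfc_lam42 hM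
  obtain ⟨D, hD⟩ : ∃ D : M × M → M, D = fun x => zpd hM (lam42 hM x) (lam42 hM x) := ⟨_, rfl⟩
  have hDd : DFc M D := by
    rw [hD]
    exact DFc.zpd hM hlam hlam
  have hDD : DFc M fun x => zpd hM (D x) (D x) := DFc.zpd hM hDd hDd
  have hPm : MD M fun p : (M × M) × M => PE42 M p.2 := md_pe42 hM (DFc.snd DFc.id)
  obtain ⟨E, hEd, hE⟩ := hM.sepF hDD (P := fun _ w => PE42 M w) hPm
  obtain ⟨ran, hrd, hran⟩ := hM.exists_ran
  have hF : DFc M fun p : (M × M) × M × M => ran p.2.2 :=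
    DFc.comp hrd (DFc.snd (DFc.snd DFc.id))
  have hwf : ∀ x, WellFounded fun a b : {d : ZFSet.{0} // d ∈ (D x).1} =>
      ZFSet.pair a.1 b.1 ∈ (E x).1 := by
    intro x
    refine Subrelation.wf (r := InvImage (· < ·) fun a : {d : ZFSet.{0} // d ∈ (D x).1} =>
      kk42 a.1) ?_ (InvImage.wf _ wellFounded_lt)
    intro a b hab
    have hw : ZFSet.pair a.1 b.1 ∈ M := hM.trans _ (E x).2 _ hab
    obtain ⟨-, u, v, c, d, c', d', h1, h2, h3, h4⟩ := (hE x ⟨_, hw⟩).1 hab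
    obtain ⟨e1, e2⟩ := ZFSet.pair_injective h1
    change kk42 a.1 < kk42 b.1
    rw [e1, e2, h2, h3, kk42_pair, kk42_pair]
    exact kz42_lt h4
  obtain ⟨H, hHd, hH⟩ := recE hM hDd hEd hwf (F := fun _ _ h => ran h) hF
  refine ⟨fun a b => zap hM (H (a, b)) (zpr hM a b), ?_, ?_⟩
  · have h1 : DFc M fun x : M × M => x.1 := DFc.fst DFc.id
    have h2 : DFc M fun x : M × M => x.2 := DFc.snd DFc.id
    have h3 : DFc M fun x : M × M => H (x.1, x.2) := hHd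
    exact DFc.zap hM h3 (DFc.zpr hM h1 h2)
  · intro a b
    exact ind42 hM hO (fun x => by rw [hD]) hE hran hH a b (a, b) le_rfl

theorem exists_gp : ∃ gp : Om → Om → Om,
    (∀ a b a' b', gp a b = gp a' b' → a = a' ∧ b = b') ∧ (∀ a b, a ≤ gp a b ∧ b ≤ gp a b) ∧
    ∀ (M : Set ZFSet.{0}), ZF0 M → ∀ hO : ∀ α : Om, toZ α ∈ M, ∃ P2 : M → M → M,
      (DFc M fun p : M × M => P2 p.1 p.2) ∧
        ∀ a b : Om, (P2 ⟨toZ a, hO a⟩ ⟨toZ b, hO b⟩).1 = toZ (gp a b) := by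
  refine ⟨fun a b => g42 (a, b), fun a b a' b' h => ?_, fun a b => ⟨g42_left a b, g42_right a b⟩,
    fun M hM hO => main42 M hM hO⟩
  have h1 := g42_inj h
  exact ⟨congrArg Prod.fst h1, congrArg Prod.snd h1⟩

/-- the pairing function -/
noncomputable def gp : Om → Om → Om := exists_gp.choose

theorem gp_inj {a b a' b' : Om} (h : gp a b = gp a' b') : a = a' ∧ b = b' :=
  exists_gp.choose_spec.1 a b a' b' h

theorem le_gp_left (a b : Om) : a ≤ gp a b := (exists_gp.choose_spec.2.1 a b).1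

theorem le_gp_right (a b : Om) : b ≤ gp a b := (exists_gp.choose_spec.2.1 a b).2

theorem exists_P2 {M : Set ZFSet.{0}} (hM : ZF0 M) (hO : ∀ α : Om, toZ α ∈ M) :
    ∃ P2 : M → M → M, (DFc M fun p : M × M => P2 p.1 p.2) ∧
      ∀ a b : Om, (P2 ⟨toZ a, hO a⟩ ⟨toZ b, hO b⟩).1 = toZ (gp a b) :=
  exists_gp.choose_spec.2.2 M hM hO

end RMK
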