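import Pool.Agent.RMK.S.ZOps

/-!
RMK ZREC: definable recursion in a model of ZF without power set.

PROOFS.
`recE`.  Fix `x` and write `D, E, F`.  An ATTEMPT is an element `h` of `M` which is a function with a domain
`T ⊆ D` closed under `E`-predecessors (in `D`) such that for all `d ∈ T`, `apZ h d = F d (h restricted to the
predecessors of d)`; here the restricted function is the `w : M` with `∀ z, z ∈ w ↔ ∃ e, e ∈ D ∧ pair e d ∈ E ∧
z = pair e (apZ h e)` (it exists in `M`: separation from `h`).  Being an attempt is `MD` in `(x, h, T)`.  Two attempts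
agree on the common domain (`E`-induction, `wf`).  Let `P d y` say that some attempt `h` has `d` in its domain
and `apZ h d = y`; for given `d` there is at most one such `y`.  Let `T* = {d ∈ D | ∃ y, P d y}` (`hM.sep`), and
`h* = {pair d y | d ∈ T*, P d y}`, the image of `T*` under the definable function `d ↦ pair d (the y with P d y)`
(`hM.repl`; as a total function: the `y` with `P d y` if it exists, else `∅`).  `h*` is an attempt with domain
`T*` (it agrees with every attempt).  `T* = D`: otherwise let `d ∈ D \ T*` be `E`-minimal (`wf`); all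
predecessors of `d` are in `T*`, and `h* ∪ {pair d (F d (h* restricted))}` is an attempt with domain `T* ∪ {d}`,
so `d ∈ T*`.  Put `H x = h*`.  Its graph is `{(x, y) | y is a function with domain D x and for all d ∈ D x, the
equation holds}` by uniqueness, so `DFc`.
`recOrd`: context `X × M`, `D (x, γ) = γ ∪ {γ}`, `E (x, γ) = {pair ξ η ∈ D × D | ξ ∈ η}`, well-founded by
foundation (`ZFSet.mem_wf`), `F' (x, γ) d h = F x d h`.  Put `H x γ = apZ (H' (x, γ)) γ`.  For `ξ ∈ γ`, `γ` an ordinal: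
`apZ (H' (x, γ)) ξ = H x ξ`: both `H' (x, ξ)` and the restriction of `H' (x, γ)` to `ξ ∪ {ξ}` solve the same
recursion (`E`-induction).  `h` is the restriction of `H' (x, γ)` to `γ`.
`recNat`: `recOrd` with `F' x n h = a x` if `n = ∅`, and `F x (⋃₀ n) (apZ h (⋃₀ n))` otherwise;
`⋃₀ (natZ (k + 1)) = natZ k`.
`exists_colM`: `recE` with `D = Y`, `E = {pair z x | z ∈ x}` restricted to `Y × Y` and `F d h = range of h`.
-/

namespace RMK

open Set PU

variable {M : Set ZFSet.{0}} {X : Type 1} [Ctx M X]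

private theorem pred_ex (hM : ZF0 M) {D E : X → M} (hD : DFc M D) (hE : DFc M E) :
    ∃ f : X × M → M, DFc M f ∧ ∀ p (z : M), z.1 ∈ (f p).1 ↔ z.1 ∈ (D p.1).1 ∧
      ZFSet.pair z.1 p.2.1 ∈ (E p.1).1 :=
  hM.sepF (a := fun p : X × M => D p.1) (hD.comp (DFc.fst DFc.id))
    (P := fun p z => ZFSet.pair z.1 p.2.1 ∈ (E p.1).1)
    (MD.zpair_mem hM (DFc.snd DFc.id) (DFc.snd (DFc.fst DFc.id))
      (hE.comp (DFc.fst (DFc.fst DFc.id))))

private theorem res_ex (hM : ZF0 M) {f : X × M → M} (hf : DFc M f) :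
    ∃ r : X × M × M → M, DFc M r ∧ ∀ p (z : M), z.1 ∈ (r p).1 ↔
      ∃ e : M, e.1 ∈ (f (p.1, p.2.1)).1 ∧ z = zpr hM e (zap hM p.2.2 e) :=
  hM.replF (a := fun p : X × M × M => f (p.1, p.2.1))
    (hf.comp (DFc.mk (DFc.fst DFc.id) (DFc.fst (DFc.snd DFc.id))))
    (F := fun p e => zpr hM e (zap hM p.2.2 e))
    (DFc.zpr hM (DFc.snd DFc.id) (DFc.zap hM (DFc.snd (DFc.snd (DFc.fst DFc.id)))
      (DFc.snd DFc.id)))

private def Att (hM : ZF0 M) (D : X → M) (F : X → M → M → M) (f : X × M → M)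
    (r : X × M × M → M) (x : X) (h T : M) : Prop :=
  IsFn h.1 T.1 ∧ ∀ d : M, d.1 ∈ T.1 → d.1 ∈ (D x).1 ∧
    (∀ e : M, e.1 ∈ (f (x, d)).1 → e.1 ∈ T.1) ∧ zap hM h d = F x d (r (x, d, h))

private theorem md_att (hM : ZF0 M) {D : X → M} {F : X → M → M → M} {f : X × M → M}
    {r : X × M × M → M} (hD : DFc M D) (hF : DFc M fun p : X × M × M => F p.1 p.2.1 p.2.2)
    (hf : DFc M f) (hr : DFc M r) :
    MD M fun p : X × M × M => Att hM D F f r p.1 p.2.1 p.2.2 := by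
  have a1 : MD M fun p : X × M × M => IsFn p.2.1.1 p.2.2.1 :=
    MD.isFn (f := fun p : X × M × M => p.2.1) (g := fun p : X × M × M => p.2.2) hM
      (DFc.fst (DFc.snd DFc.id)) (DFc.snd (DFc.snd DFc.id))
  have b1 : MD M fun p : (X × M × M) × M => p.2.1 ∈ p.1.2.2.1 :=
    MD.mem (f := fun p : (X × M × M) × M => p.2) (g := fun p : (X × M × M) × M => p.1.2.2)
      (DFc.snd DFc.id) (DFc.snd (DFc.snd (DFc.fst DFc.id)))
  have b2 : MD M fun p : (X × M × M) × M => p.2.1 ∈ (D p.1.1).1 :=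
    MD.mem (f := fun p : (X × M × M) × M => p.2) (g := fun p : (X × M × M) × M => D p.1.1)
      (DFc.snd DFc.id) (hD.comp (DFc.fst (DFc.fst DFc.id)))
  have c1 : MD M fun p : ((X × M × M) × M) × M => p.2.1 ∈ (f (p.1.1.1, p.1.2)).1 :=
    MD.mem (f := fun p : ((X × M × M) × M) × M => p.2)
      (g := fun p : ((X × M × M) × M) × M => f (p.1.1.1, p.1.2))
      (DFc.snd DFc.id) (hf.comp (DFc.mk (DFc.fst (DFc.fst (DFc.fst DFc.id)))
        (DFc.snd (DFc.fst DFc.id))))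
  have c2 : MD M fun p : ((X × M × M) × M) × M => p.2.1 ∈ p.1.1.2.2.1 :=
    MD.mem (f := fun p : ((X × M × M) × M) × M => p.2)
      (g := fun p : ((X × M × M) × M) × M => p.1.1.2.2)
      (DFc.snd DFc.id) (DFc.snd (DFc.snd (DFc.fst (DFc.fst DFc.id))))
  have b3 : MD M fun p : (X × M × M) × M => ∀ e : M, e.1 ∈ (f (p.1.1, p.2)).1 → e.1 ∈ p.1.2.2.1 :=
    MD.all (P := fun (p : (X × M × M) × M) (e : M) =>
      e.1 ∈ (f (p.1.1, p.2)).1 → e.1 ∈ p.1.2.2.1) (MD.imp c1 c2)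
  have b4 : MD M fun p : (X × M × M) × M =>
      zap hM p.1.2.1 p.2 = F p.1.1 p.2 (r (p.1.1, p.2, p.1.2.1)) :=
    MD.eq (f := fun p : (X × M × M) × M => zap hM p.1.2.1 p.2)
      (g := fun p : (X × M × M) × M => F p.1.1 p.2 (r (p.1.1, p.2, p.1.2.1)))
      (DFc.zap hM (DFc.fst (DFc.snd (DFc.fst DFc.id))) (DFc.snd DFc.id))
      (DFc.comp hF (f := fun p : (X × M × M) × M => (p.1.1, p.2, r (p.1.1, p.2, p.1.2.1)))
        (DFc.mk (DFc.fst (DFc.fst DFc.id)) (DFc.mk (DFc.snd DFc.id)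
          (hr.comp (DFc.mk (DFc.fst (DFc.fst DFc.id)) (DFc.mk (DFc.snd DFc.id)
            (DFc.fst (DFc.snd (DFc.fst DFc.id)))))))))
  exact MD.and a1 (MD.all (P := fun (p : X × M × M) (d : M) => d.1 ∈ p.2.2.1 →
    d.1 ∈ (D p.1).1 ∧ (∀ e : M, e.1 ∈ (f (p.1, d)).1 → e.1 ∈ p.2.2.1) ∧
      zap hM p.2.1 d = F p.1 d (r (p.1, d, p.2.1))) (MD.imp b1 (MD.and b2 (MD.and b3 b4))))

private theorem wf_ind {D E : X → M} {f : X × M → M}
    (wf : ∀ x, WellFounded fun a b : {d : ZFSet.{0} // d ∈ (D x).1} =>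
      ZFSet.pair a.1 b.1 ∈ (E x).1)
    (hf : ∀ p (z : M), z.1 ∈ (f p).1 ↔ z.1 ∈ (D p.1).1 ∧ ZFSet.pair z.1 p.2.1 ∈ (E p.1).1)
    (x : X) {P : M → Prop}
    (H : ∀ d : M, d.1 ∈ (D x).1 → (∀ e : M, e.1 ∈ (f (x, d)).1 → P e) → P d) :
    ∀ d : M, d.1 ∈ (D x).1 → P d := by
  intro d hd
  exact (wf x).induction (C := fun a => ∀ ha : a.1 ∈ M, P ⟨a.1, ha⟩) ⟨d.1, hd⟩
    (fun a IH ha => H ⟨a.1, ha⟩ a.2 fun e he => by
      have h1 := (hf _ _).1 he
      exact IH ⟨e.1, h1.1⟩ h1.2 e.2) d.2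

private theorem res_congr (hM : ZF0 M) {f : X × M → M} {r : X × M × M → M}
    (hr : ∀ p (z : M), z.1 ∈ (r p).1 ↔
      ∃ e : M, e.1 ∈ (f (p.1, p.2.1)).1 ∧ z = zpr hM e (zap hM p.2.2 e))
    {x : X} {d h h' : M} (H : ∀ e : M, e.1 ∈ (f (x, d)).1 → zap hM h e = zap hM h' e) :
    r (x, d, h) = r (x, d, h') := by
  apply hM.ext
  intro z
  rw [hr, hr]
  constructor
  · rintro ⟨e, he, hz⟩
    exact ⟨e, he, hz.trans (by rw [H e he])⟩
  · rintro ⟨e, he, hz⟩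
    exact ⟨e, he, hz.trans (by rw [H e he])⟩

private theorem zap_eq (hM : ZF0 M) {h D : M} (hf : IsFn h.1 D.1) {d y : M} (hd : d.1 ∈ D.1) :
    zap hM h d = y ↔ ZFSet.pair d.1 y.1 ∈ h.1 := by
  rw [← apZ_eq hf hd]
  exact ⟨fun e => congrArg Subtype.val e, fun e => Subtype.ext e⟩

theorem recE (hM : ZF0 M) {D E : X → M} (hD : DFc M D) (hE : DFc M E)
    (wf : ∀ x, WellFounded fun a b : {d : ZFSet.{0} // d ∈ (D x).1} =>
      ZFSet.pair a.1 b.1 ∈ (E x).1)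
    {F : X → M → M → M} (hF : DFc M fun p : X × M × M => F p.1 p.2.1 p.2.2) :
    ∃ H : X → M, DFc M H ∧ ∀ x, IsFn (H x).1 (D x).1 ∧
      ∀ d h : M, d.1 ∈ (D x).1 → (∀ w, w ∈ h.1 ↔ ∃ e, e ∈ (D x).1 ∧ ZFSet.pair e d.1 ∈ (E x).1 ∧
        w = ZFSet.pair e (apZ (H x).1 e)) → zap hM (H x) d = F x d h := by
  obtain ⟨f, hfd, hf⟩ := pred_ex hM hD hE
  obtain ⟨r, hrd, hr⟩ := res_ex hM hfd
  have hA := md_att hM hD hF hfd hrd
  -- uniqueness of attempts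
  have uniq : ∀ x (h T h' T' : M), Att hM D F f r x h T → Att hM D F f r x h' T' →
      ∀ d : M, d.1 ∈ T.1 → d.1 ∈ T'.1 → zap hM h d = zap hM h' d := by
    intro x h T h' T' a a' d hd hd'
    refine wf_ind wf hf x (P := fun d => d.1 ∈ T.1 → d.1 ∈ T'.1 → zap hM h d = zap hM h' d)
      ?_ d (a.2 d hd).1 hd hd'
    intro d _ IH hd hd'
    rw [(a.2 d hd).2.2, (a'.2 d hd').2.2]
    rw [res_congr hM hr fun e he => IH e he ((a.2 d hd).2.1 e he) ((a'.2 d hd').2.1 e he)]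
  -- the predicate
  let P : X × M → M → Prop := fun p y => ∃ h T : M, Att hM D F f r p.1 h T ∧ p.2.1 ∈ T.1 ∧
    y = zap hM h p.2
  have hP : MD M fun q : (X × M) × M => P q.1 q.2 := by
    have e1 : MD M fun q : (((X × M) × M) × M) × M => Att hM D F f r q.1.1.1.1 q.1.2 q.2 :=
      MD.comp hA (f := fun q : (((X × M) × M) × M) × M => (q.1.1.1.1, q.1.2, q.2))
        (DFc.mk (DFc.fst (DFc.fst (DFc.fst (DFc.fst DFc.id)))) (DFc.mk (DFc.snd (DFc.fst DFc.id))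
          (DFc.snd DFc.id)))
    have e2 : MD M fun q : (((X × M) × M) × M) × M => q.1.1.1.2.1 ∈ q.2.1 :=
      MD.mem (f := fun q : (((X × M) × M) × M) × M => q.1.1.1.2)
        (g := fun q : (((X × M) × M) × M) × M => q.2)
        (DFc.snd (DFc.fst (DFc.fst (DFc.fst DFc.id)))) (DFc.snd DFc.id)
    have e3 : MD M fun q : (((X × M) × M) × M) × M => q.1.1.2 = zap hM q.1.2 q.1.1.1.2 :=
      MD.eq (f := fun q : (((X × M) × M) × M) × M => q.1.1.2)
        (g := fun q : (((X × M) × M) × M) × M => zap hM q.1.2 q.1.1.1.2)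
        (DFc.snd (DFc.fst (DFc.fst DFc.id)))
        (DFc.zap hM (DFc.snd (DFc.fst DFc.id)) (DFc.snd (DFc.fst (DFc.fst (DFc.fst DFc.id)))))
    exact MD.ex (P := fun (q : (X × M) × M) (h : M) => ∃ T : M, Att hM D F f r q.1.1 h T ∧
      q.1.2.1 ∈ T.1 ∧ q.2 = zap hM h q.1.2)
      (MD.ex (P := fun (q : ((X × M) × M) × M) (T : M) => Att hM D F f r q.1.1.1 q.2 T ∧
        q.1.1.2.1 ∈ T.1 ∧ q.1.2 = zap hM q.2 q.1.1.2) (MD.and e1 (MD.and e2 e3)))
  have Pu : ∀ p y y', P p y → P p y' → y = y' := by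
    rintro p y y' ⟨h, T, a, hd, rfl⟩ ⟨h', T', a', hd', rfl⟩
    exact uniq p.1 h T h' T' a a' p.2 hd hd'
  have hPe : MD M fun p : X × M => ∃ y, P p y := MD.ex hP
  obtain ⟨Ts, hTd, hT⟩ := hM.sepF hD (P := fun x d => ∃ y, P (x, d) y) hPe
  -- the value
  classical
  let emp : M := ⟨∅, hM.empty_mem⟩
  let V : X × M → M := fun p => if h : ∃ y, P p y then h.choose else emp
  have hV1 : ∀ p y, P p y → V p = y := by
    intro p y h
    have h1 : ∃ y, P p y := ⟨y, h⟩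
    have h2 : V p = h1.choose := dif_pos h1
    rw [h2]
    exact Pu p _ _ h1.choose_spec h
  have hV2 : ∀ p, (¬ ∃ y, P p y) → V p = emp := fun p h => dif_neg h
  have hVd : DFc M V := by
    apply DFc.of_graph
    refine MD.congr (P := fun q : (X × M) × M => P q.1 q.2 ∨ ((¬ ∃ y, P q.1 y) ∧ q.2 = emp)) ?_ ?_
    · rintro ⟨p, y⟩
      constructor
      · rintro (h | ⟨h1, h2⟩)
        · exact (hV1 p y h).symm
        · exact h2.trans (hV2 p h1).symm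
      · intro h
        have h : y = V p := h
        by_cases h1 : ∃ y, P p y
        · obtain ⟨y', h2⟩ := h1
          left
          have h3 := hV1 p y' h2
          rw [h3] at h
          show P p y
          rw [h]
          exact h2
        · right
          exact ⟨h1, h.trans (hV2 p h1)⟩
    · refine MD.or hP (MD.and (MD.not (MD.comp hPe (f := fun q : (X × M) × M => q.1)
        (DFc.fst DFc.id))) (MD.eq (f := fun q : (X × M) × M => q.2) (DFc.snd DFc.id)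
          (DFc.const emp)))
  obtain ⟨Hs, hHd, hH⟩ := hM.replF hTd (F := fun x d => zpr hM d (V (x, d)))
    (DFc.zpr hM (DFc.snd DFc.id) hVd)
  -- properties of `Hs`
  have hfn : ∀ x, IsFn (Hs x).1 (Ts x).1 := by
    intro x
    constructor
    · intro w hw
      have hwM : w ∈ M := hM.trans _ (Hs x).2 _ hw
      obtain ⟨d, hd, he⟩ := (hH x ⟨w, hwM⟩).1 hw
      exact ⟨d.1, hd, (V (x, d)).1, congrArg Subtype.val he⟩
    · intro d hd
      have hdM : d ∈ M := hM.trans _ (Ts x).2 _ hd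
      refine ⟨(V (x, ⟨d, hdM⟩)).1, (hH x (zpr hM ⟨d, hdM⟩ (V (x, ⟨d, hdM⟩)))).2
        ⟨⟨d, hdM⟩, hd, rfl⟩, ?_⟩
      intro y hy
      have hyM : ZFSet.pair d y ∈ M := hM.trans _ (Hs x).2 _ hy
      obtain ⟨d', hd', he⟩ := (hH x ⟨_, hyM⟩).1 hy
      have he' : ZFSet.pair d y = ZFSet.pair d'.1 (V (x, d')).1 := congrArg Subtype.val he
      obtain ⟨h1, h2⟩ := ZFSet.pair_inj.1 he'
      have h3 : d' = ⟨d, hdM⟩ := Subtype.ext h1.symm
      rw [h2, h3]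
  have hap : ∀ x (d : M), d.1 ∈ (Ts x).1 → zap hM (Hs x) d = V (x, d) := by
    intro x d hd
    exact (zap_eq hM (hfn x) hd).2 ((hH x (zpr hM d (V (x, d)))).2 ⟨d, hd, rfl⟩)
  have hatt : ∀ x, Att hM D F f r x (Hs x) (Ts x) := by
    intro x
    refine ⟨hfn x, fun d hd => ?_⟩
    have hd0 := (hT x d).1 hd
    obtain ⟨y, h, T, a, hdT, hy⟩ := hd0.2
    have hdT : d.1 ∈ T.1 := hdT
    have key : ∀ e : M, e.1 ∈ T.1 → e.1 ∈ (Ts x).1 ∧ zap hM (Hs x) e = zap hM h e := by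
      intro e he
      have h1 : P (x, e) (zap hM h e) := ⟨h, T, a, he, rfl⟩
      have h2 : e.1 ∈ (Ts x).1 := (hT x e).2 ⟨(a.2 e he).1, _, h1⟩
      exact ⟨h2, (hap x e h2).trans (hV1 _ _ h1)⟩
    refine ⟨hd0.1, fun e he => (key e ((a.2 d hdT).2.1 e he)).1, ?_⟩
    rw [(key d hdT).2, (a.2 d hdT).2.2]
    rw [res_congr hM hr fun e he => ((key e ((a.2 d hdT).2.1 e he)).2).symm]
  have hall : ∀ x (d : M), d.1 ∈ (D x).1 → d.1 ∈ (Ts x).1 := by
    intro x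
    refine wf_ind wf hf x ?_
    intro d hd IH
    by_contra hnd
    let y : M := F x d (r (x, d, Hs x))
    let h' : M := zun hM (Hs x) (zsg hM (zpr hM d y))
    let T' : M := zun hM (Ts x) (zsg hM d)
    have hT' : ∀ c : ZFSet.{0}, c ∈ T'.1 ↔ c ∈ (Ts x).1 ∨ c = d.1 := by
      intro c
      show c ∈ (Ts x).1 ∪ {d.1} ↔ _
      rw [ZFSet.mem_union, ZFSet.mem_singleton]
    have hh' : ∀ c : ZFSet.{0}, c ∈ h'.1 ↔ c ∈ (Hs x).1 ∨ c = ZFSet.pair d.1 y.1 := by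
      intro c
      show c ∈ (Hs x).1 ∪ {ZFSet.pair d.1 y.1} ↔ _
      rw [ZFSet.mem_union, ZFSet.mem_singleton]
    have hnp : ∀ z, ZFSet.pair d.1 z ∉ (Hs x).1 := by
      intro z hz
      obtain ⟨c, hc, y', he⟩ := (hfn x).1 _ hz
      have := (ZFSet.pair_inj.1 he).1
      rw [← this] at hc
      exact hnd hc
    have hfn' : IsFn h'.1 T'.1 := by
      constructor
      · intro w hw
        rcases (hh' w).1 hw with hw | rfl
        · obtain ⟨c, hc, z, hz⟩ := (hfn x).1 w hw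
          exact ⟨c, (hT' c).2 (Or.inl hc), z, hz⟩
        · exact ⟨d.1, (hT' d.1).2 (Or.inr rfl), y.1, rfl⟩
      · intro c hc
        rcases (hT' c).1 hc with hc | rfl
        · obtain ⟨z, hz, hu⟩ := (hfn x).2 c hc
          refine ⟨z, (hh' _).2 (Or.inl hz), ?_⟩
          intro z' hz'
          rcases (hh' _).1 hz' with hz' | hz'
          · exact hu z' hz'
          · exfalso
            have := (ZFSet.pair_inj.1 hz').1
            rw [this] at hc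
            exact hnd hc
        · refine ⟨y.1, (hh' _).2 (Or.inr rfl), ?_⟩
          intro z' hz'
          rcases (hh' _).1 hz' with hz' | hz'
          · exact absurd hz' (hnp z')
          · exact (ZFSet.pair_inj.1 hz').2
    have hz1 : ∀ e : M, e.1 ∈ (Ts x).1 → zap hM h' e = zap hM (Hs x) e := by
      intro e he
      refine (zap_eq hM hfn' ((hT' e.1).2 (Or.inl he))).2 ((hh' _).2 (Or.inl ?_))
      exact (zap_eq hM (hfn x) he).1 rfl
    have hz2 : zap hM h' d = y :=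
      (zap_eq hM hfn' ((hT' d.1).2 (Or.inr rfl))).2 ((hh' _).2 (Or.inr rfl))
    have hatt' : Att hM D F f r x h' T' := by
      refine ⟨hfn', fun c hc => ?_⟩
      rcases (hT' c.1).1 hc with hc | hc
      · have hc0 := (hatt x).2 c hc
        refine ⟨hc0.1, fun e he => (hT' e.1).2 (Or.inl (hc0.2.1 e he)), ?_⟩
        rw [hz1 c hc, hc0.2.2, res_congr hM hr fun e he => (hz1 e (hc0.2.1 e he)).symm]
      · have hc1 : c = d := Subtype.ext hc
        subst hc1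
        refine ⟨hd, fun e he => (hT' e.1).2 (Or.inl (IH e he)), ?_⟩
        rw [hz2]
        show F x c (r (x, c, Hs x)) = _
        rw [res_congr hM hr fun e he => (hz1 e (IH e he)).symm]
    exact hnd ((hT x d).2 ⟨hd, _, h', T', hatt', (hT' d.1).2 (Or.inr rfl), rfl⟩)
  have hTD : ∀ x, Ts x = D x := by
    intro x
    apply hM.ext
    intro z
    exact ⟨fun h => ((hT x z).1 h).1, fun h => hall x z h⟩
  refine ⟨Hs, hHd, fun x => ⟨?_, ?_⟩⟩
  · have := hfn x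
    rwa [hTD x] at this
  · intro d h hd hh
    have h1 : h = r (x, d, Hs x) := by
      apply hM.ext
      intro z
      rw [hh z.1, hr]
      constructor
      · rintro ⟨e, he, hp, hz⟩
        have heM : e ∈ M := hM.trans _ (D x).2 _ he
        exact ⟨⟨e, heM⟩, (hf _ _).2 ⟨he, hp⟩, Subtype.ext hz⟩
      · rintro ⟨e, he, hz⟩
        have h2 := (hf _ _).1 he
        exact ⟨e.1, h2.1, h2.2, congrArg Subtype.val hz⟩
    rw [h1]
    exact ((hatt x).2 d (hall x d hd)).2.2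

/-- predecessor restriction -/
private theorem mem_ord {γ ξ : ZFSet.{0}} (hγ : IsO γ) (hξ : ξ ∈ γ) : IsO ξ ∧ ξ ⊆ γ := by
  obtain ⟨α, rfl⟩ := hγ
  rw [Ordinal.mem_toZFSet_iff] at hξ
  obtain ⟨β, hβ, rfl⟩ := hξ
  refine ⟨⟨β, rfl⟩, ?_⟩
  intro z hz
  rw [Ordinal.mem_toZFSet_iff] at hz ⊢
  obtain ⟨c, hc, rfl⟩ := hz
  exact ⟨c, hc.trans hβ, rfl⟩

theorem recOrd (hM : ZF0 M) {F : X → M → M → M}
    (hF : DFc M fun p : X × M × M => F p.1 p.2.1 p.2.2) :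
    ∃ H : X → M → M, (DFc M fun p : X × M => H p.1 p.2) ∧ ∀ x (γ : M), IsO γ.1 →
      ∃ h : M, IsFn h.1 γ.1 ∧ (∀ ξ : M, ξ.1 ∈ γ.1 → zap hM h ξ = H x ξ) ∧ H x γ = F x γ h := by
  let D : X × M → M := fun p => zun hM p.2 (zsg hM p.2)
  have hDd : DFc M D := DFc.zun hM (DFc.snd DFc.id) (DFc.zsg hM (DFc.snd DFc.id))
  have hD : ∀ x (γ : M) (z : ZFSet.{0}), z ∈ (D (x, γ)).1 ↔ z ∈ γ.1 ∨ z = γ.1 := by
    intro x γ z
    show z ∈ γ.1 ∪ {γ.1} ↔ _
    rw [ZFSet.mem_union, ZFSet.mem_singleton]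
  obtain ⟨E, hEd, hE⟩ := hM.sepF (a := fun p : X × M => zpd hM (D p) (D p)) (DFc.zpd hM hDd hDd)
    (P := fun _ z => ∃ a b : M, z.1 = ZFSet.pair a.1 b.1 ∧ a.1 ∈ b.1) (by
      have e1 : MD M fun q : (((X × M) × M) × M) × M => q.1.1.2.1 = ZFSet.pair q.1.2.1 q.2.1 :=
        MD.eq_zpair (f := fun q : (((X × M) × M) × M) × M => q.1.1.2)
          (g := fun q : (((X × M) × M) × M) × M => q.1.2)
          (h := fun q : (((X × M) × M) × M) × M => q.2) hM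
          (DFc.snd (DFc.fst (DFc.fst DFc.id))) (DFc.snd (DFc.fst DFc.id)) (DFc.snd DFc.id)
      have e2 : MD M fun q : (((X × M) × M) × M) × M => q.1.2.1 ∈ q.2.1 :=
        MD.mem (f := fun q : (((X × M) × M) × M) × M => q.1.2)
          (g := fun q : (((X × M) × M) × M) × M => q.2)
          (DFc.snd (DFc.fst DFc.id)) (DFc.snd DFc.id)
      exact MD.ex (P := fun (q : (X × M) × M) (a : M) => ∃ b : M,
        q.2.1 = ZFSet.pair a.1 b.1 ∧ a.1 ∈ b.1)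
        (MD.ex (P := fun (q : ((X × M) × M) × M) (b : M) =>
          q.1.2.1 = ZFSet.pair q.2.1 b.1 ∧ q.2.1 ∈ b.1) (MD.and e1 e2)))
  have hE' : ∀ p (a b : ZFSet.{0}), ZFSet.pair a b ∈ (E p).1 ↔ a ∈ (D p).1 ∧ b ∈ (D p).1 ∧ a ∈ b := by
    intro p a b
    constructor
    · intro h
      have hm : ZFSet.pair a b ∈ M := hM.trans _ (E p).2 _ h
      obtain ⟨h1, a', b', h2, h3⟩ := (hE p ⟨_, hm⟩).1 h
      have h1 : ZFSet.pair a b ∈ (D p).1.prod (D p).1 := h1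
      rw [ZFSet.pair_mem_prod] at h1
      have h2 : ZFSet.pair a b = ZFSet.pair a'.1 b'.1 := h2
      obtain ⟨h4, h5⟩ := ZFSet.pair_inj.1 h2
      exact ⟨h1.1, h1.2, by rw [h4, h5]; exact h3⟩
    · rintro ⟨h1, h2, h3⟩
      have haM : a ∈ M := hM.trans _ (D p).2 _ h1
      have hbM : b ∈ M := hM.trans _ (D p).2 _ h2
      refine (hE p (zpr hM ⟨a, haM⟩ ⟨b, hbM⟩)).2 ⟨?_, ⟨a, haM⟩, ⟨b, hbM⟩, rfl, h3⟩
      show ZFSet.pair a b ∈ (D p).1.prod (D p).1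
      rw [ZFSet.pair_mem_prod]
      exact ⟨h1, h2⟩
  have wf : ∀ p, WellFounded fun a b : {d : ZFSet.{0} // d ∈ (D p).1} =>
      ZFSet.pair a.1 b.1 ∈ (E p).1 := by
    intro p
    refine Subrelation.wf (r := InvImage (fun a b : ZFSet.{0} => a ∈ b) Subtype.val) ?_
      (InvImage.wf _ ZFSet.mem_wf)
    intro a b h
    exact ((hE' p a.1 b.1).1 h).2.2
  obtain ⟨H', hHd, hH⟩ := recE hM hDd hEd wf (F := fun p d h => F p.1 d h)
    (DFc.comp hF (f := fun p : (X × M) × M × M => (p.1.1, p.2.1, p.2.2))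
      (DFc.mk (DFc.fst (DFc.fst DFc.id)) (DFc.snd DFc.id)))
  -- restriction
  obtain ⟨r, hrd, hr⟩ := hM.replF (X := M × M) (a := fun p => p.2) (DFc.snd DFc.id)
    (F := fun p e => zpr hM e (zap hM p.1 e))
    (DFc.zpr hM (DFc.snd DFc.id) (DFc.zap hM (DFc.fst (DFc.fst DFc.id)) (DFc.snd DFc.id)))
  have hr' : ∀ (h d : M) (w : ZFSet.{0}), w ∈ (r (h, d)).1 ↔ ∃ e, e ∈ d.1 ∧
      w = ZFSet.pair e (apZ h.1 e) := by
    intro h d w
    constructor
    · intro hw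
      have hm : w ∈ M := hM.trans _ (r (h, d)).2 _ hw
      obtain ⟨e, he, h1⟩ := (hr (h, d) ⟨w, hm⟩).1 hw
      exact ⟨e.1, he, congrArg Subtype.val h1⟩
    · rintro ⟨e, he, rfl⟩
      have heM : e ∈ M := hM.trans _ d.2 _ he
      exact (hr (h, d) (zpr hM ⟨e, heM⟩ (zap hM h ⟨e, heM⟩))).2 ⟨⟨e, heM⟩, he, rfl⟩
  -- the equation
  have heq : ∀ x (γ ξ : M), IsO γ.1 → (ξ.1 ∈ γ.1 ∨ ξ.1 = γ.1) →
      zap hM (H' (x, γ)) ξ = F x ξ (r (H' (x, γ), ξ)) := by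
    intro x γ ξ hγ hξ
    refine (hH (x, γ)).2 ξ (r (H' (x, γ), ξ)) ((hD x γ ξ.1).2 hξ) ?_
    intro w
    rw [hr']
    constructor
    · rintro ⟨e, he, hw⟩
      have heD : e ∈ (D (x, γ)).1 := by
        rw [hD]
        rcases hξ with hξ | hξ
        · exact Or.inl ((mem_ord hγ hξ).2 he)
        · rw [hξ] at he
          exact Or.inl he
      exact ⟨e, heD, (hE' _ _ _).2 ⟨heD, (hD x γ ξ.1).2 hξ, he⟩, hw⟩
    · rintro ⟨e, he, hp, hw⟩
      exact ⟨e, ((hE' _ _ _).1 hp).2.2, hw⟩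
  have hsame : ∀ x (γ γ' : M), IsO γ.1 → IsO γ'.1 → ∀ ξ : M, (ξ.1 ∈ γ.1 ∨ ξ.1 = γ.1) →
      (ξ.1 ∈ γ'.1 ∨ ξ.1 = γ'.1) → zap hM (H' (x, γ)) ξ = zap hM (H' (x, γ')) ξ := by
    intro x γ γ' hγ hγ' ξ
    have main : ∀ z : ZFSet.{0}, ∀ hz : z ∈ M, (z ∈ γ.1 ∨ z = γ.1) → (z ∈ γ'.1 ∨ z = γ'.1) →
        zap hM (H' (x, γ)) ⟨z, hz⟩ = zap hM (H' (x, γ')) ⟨z, hz⟩ := by
      intro z
      refine ZFSet.mem_wf.induction (C := fun z => ∀ hz : z ∈ M, (z ∈ γ.1 ∨ z = γ.1) →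
        (z ∈ γ'.1 ∨ z = γ'.1) →
        zap hM (H' (x, γ)) ⟨z, hz⟩ = zap hM (H' (x, γ')) ⟨z, hz⟩) z ?_
      intro z IH hz h1 h2
      rw [heq x γ ⟨z, hz⟩ hγ h1, heq x γ' ⟨z, hz⟩ hγ' h2]
      have h3 : r (H' (x, γ), ⟨z, hz⟩) = r (H' (x, γ'), ⟨z, hz⟩) := by
        have key : ∀ e, e ∈ z → apZ (H' (x, γ)).1 e = apZ (H' (x, γ')).1 e := by
          intro e he
          have heM : e ∈ M := hM.trans _ hz _ he
          have g1 : e ∈ γ.1 := by
            rcases h1 with h1 | h1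
            · exact (mem_ord hγ h1).2 he
            · rwa [h1] at he
          have g2 : e ∈ γ'.1 := by
            rcases h2 with h2 | h2
            · exact (mem_ord hγ' h2).2 he
            · rwa [h2] at he
          exact congrArg Subtype.val (IH e he heM (Or.inl g1) (Or.inl g2))
        apply hM.ext
        intro w
        rw [hr', hr']
        constructor
        · rintro ⟨e, he, hw⟩
          exact ⟨e, he, by rw [hw, key e he]⟩
        · rintro ⟨e, he, hw⟩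
          exact ⟨e, he, by rw [hw, key e he]⟩
      rw [h3]
    exact main ξ.1 ξ.2
  refine ⟨fun x γ => zap hM (H' (x, γ)) γ, DFc.zap hM hHd (DFc.snd DFc.id), ?_⟩
  intro x γ hγ
  refine ⟨r (H' (x, γ), γ), ?_, ?_, ?_⟩
  · constructor
    · intro w hw
      obtain ⟨e, he, hw⟩ := (hr' _ _ _).1 hw
      exact ⟨e, he, _, hw⟩
    · intro d hd
      refine ⟨apZ (H' (x, γ)).1 d, (hr' _ _ _).2 ⟨d, hd, rfl⟩, ?_⟩
      intro y hy
      obtain ⟨e, he, h1⟩ := (hr' _ _ _).1 hy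
      obtain ⟨h2, h3⟩ := ZFSet.pair_inj.1 h1
      rw [h3, h2]
  · intro ξ hξ
    have hfr : IsFn (r (H' (x, γ), γ)).1 γ.1 := by
      constructor
      · intro w hw
        obtain ⟨e, he, hw⟩ := (hr' _ _ _).1 hw
        exact ⟨e, he, _, hw⟩
      · intro d hd
        refine ⟨apZ (H' (x, γ)).1 d, (hr' _ _ _).2 ⟨d, hd, rfl⟩, ?_⟩
        intro y hy
        obtain ⟨e, he, h1⟩ := (hr' _ _ _).1 hy
        obtain ⟨h2, h3⟩ := ZFSet.pair_inj.1 h1
        rw [h3, h2]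
    rw [(zap_eq hM hfr hξ).2 ((hr' _ _ _).2 ⟨ξ.1, hξ, rfl⟩ :
      ZFSet.pair ξ.1 (zap hM (H' (x, γ)) ξ).1 ∈ _)]
    exact hsame x γ ξ hγ (mem_ord hγ hξ).1 ξ (Or.inl hξ) (Or.inr rfl)
  · exact heq x γ γ hγ (Or.inr rfl)

theorem recNat (hM : ZF0 M) {a : X → M} (ha : DFc M a) {F : X → M → M → M}
    (hF : DFc M fun p : X × M × M => F p.1 p.2.1 p.2.2) :
    ∃ H : X → M → M, (DFc M fun p : X × M => H p.1 p.2) ∧ ∀ x, H x (znat hM 0) = a x ∧
      ∀ k, H x (znat hM (k + 1)) = F x (znat hM k) (H x (znat hM k)) := by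
  classical
  obtain ⟨H, hHd, hH⟩ := recOrd hM (X := X)
    (F := fun x n h => if n = znat hM 0 then a x else F x (zsU hM n) (zap hM h (zsU hM n))) (by
      have h1 : DFc M fun p : X × M × M => zsU hM p.2.1 := DFc.zsU hM (DFc.fst (DFc.snd DFc.id))
      exact DFc.ite (ha.comp (DFc.fst DFc.id)) (DFc.comp hF
        (f := fun p : X × M × M => (p.1, zsU hM p.2.1, zap hM p.2.2 (zsU hM p.2.1)))
        (DFc.mk (DFc.fst DFc.id) (DFc.mk h1 (DFc.zap hM (DFc.snd (DFc.snd DFc.id)) h1))))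
        (MD.eq (f := fun p : X × M × M => p.2.1) (DFc.fst (DFc.snd DFc.id))
          (DFc.const (znat hM 0))))
  refine ⟨H, hHd, fun x => ⟨?_, fun k => ?_⟩⟩
  · obtain ⟨h, -, -, h3⟩ := hH x (znat hM 0) ⟨_, rfl⟩
    rw [h3]
    exact if_pos rfl
  · obtain ⟨h, -, h2, h3⟩ := hH x (znat hM (k + 1)) ⟨_, rfl⟩
    have e1 : znat hM (k + 1) ≠ znat hM 0 := by
      intro e
      have e : natZ (k + 1) = natZ 0 := congrArg Subtype.val e
      have := Ordinal.toZFSet_injective e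
      exact absurd (Nat.cast_injective this) (Nat.succ_ne_zero k)
    have e2 : zsU hM (znat hM (k + 1)) = znat hM k := by
      apply Subtype.ext
      show ZFSet.sUnion (natZ (k + 1)) = natZ k
      ext z
      unfold natZ
      rw [ZFSet.mem_sUnion]
      constructor
      · rintro ⟨y, hy, hz⟩
        rw [Ordinal.mem_toZFSet_iff] at hy
        obtain ⟨b, hb, rfl⟩ := hy
        rw [Ordinal.mem_toZFSet_iff] at hz ⊢
        obtain ⟨c, hc, rfl⟩ := hz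
        have hb' : b < Order.succ (k : Ordinal.{0}) := by
          have : ((k + 1 : ℕ) : Ordinal.{0}) = Order.succ (k : Ordinal.{0}) := by
            rw [Nat.cast_succ]; exact (Ordinal.add_one_eq_succ _)
          rwa [this] at hb
        exact ⟨c, lt_of_lt_of_le hc (Order.lt_succ_iff.1 hb'), rfl⟩
      · intro hz
        refine ⟨(k : Ordinal.{0}).toZFSet, ?_, hz⟩
        rw [Ordinal.mem_toZFSet_iff]
        exact ⟨k, by exact_mod_cast Nat.lt_succ_self k, rfl⟩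
    have e3 : (znat hM k).1 ∈ (znat hM (k + 1)).1 := by
      show natZ k ∈ natZ (k + 1)
      unfold natZ
      rw [Ordinal.mem_toZFSet_iff]
      exact ⟨k, by exact_mod_cast Nat.lt_succ_self k, rfl⟩
    rw [h3, if_neg e1, e2, h2 _ e3]

theorem exists_colM (hM : ZF0 M) (Y : M) : ∃ c : M, IsFn c.1 Y.1 ∧
    ∀ x ∈ Y.1, ∀ w, w ∈ apZ c.1 x ↔ ∃ z ∈ x, z ∈ Y.1 ∧ w = apZ c.1 z := by
  obtain ⟨E, hEd, hE⟩ := hM.sepF (X := M) (a := fun Y => zpd hM Y Y)
    (DFc.zpd hM DFc.id DFc.id)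
    (P := fun _ z => ∃ a b : M, z.1 = ZFSet.pair a.1 b.1 ∧ a.1 ∈ b.1) (by
      have e1 : MD M fun q : ((M × M) × M) × M => q.1.1.2.1 = ZFSet.pair q.1.2.1 q.2.1 :=
        MD.eq_zpair (f := fun q : ((M × M) × M) × M => q.1.1.2)
          (g := fun q : ((M × M) × M) × M => q.1.2)
          (h := fun q : ((M × M) × M) × M => q.2) hM
          (DFc.snd (DFc.fst (DFc.fst DFc.id))) (DFc.snd (DFc.fst DFc.id)) (DFc.snd DFc.id)
      have e2 : MD M fun q : ((M × M) × M) × M => q.1.2.1 ∈ q.2.1 :=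
        MD.mem (f := fun q : ((M × M) × M) × M => q.1.2)
          (g := fun q : ((M × M) × M) × M => q.2)
          (DFc.snd (DFc.fst DFc.id)) (DFc.snd DFc.id)
      exact MD.ex (P := fun (q : M × M) (a : M) => ∃ b : M,
        q.2.1 = ZFSet.pair a.1 b.1 ∧ a.1 ∈ b.1)
        (MD.ex (P := fun (q : (M × M) × M) (b : M) =>
          q.1.2.1 = ZFSet.pair q.2.1 b.1 ∧ q.2.1 ∈ b.1) (MD.and e1 e2)))
  have hE' : ∀ (p : M) (a b : ZFSet.{0}), ZFSet.pair a b ∈ (E p).1 ↔ a ∈ p.1 ∧ b ∈ p.1 ∧ a ∈ b := by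
    intro p a b
    constructor
    · intro h
      have hm : ZFSet.pair a b ∈ M := hM.trans _ (E p).2 _ h
      obtain ⟨h1, a', b', h2, h3⟩ := (hE p ⟨_, hm⟩).1 h
      have h1 : ZFSet.pair a b ∈ p.1.prod p.1 := h1
      rw [ZFSet.pair_mem_prod] at h1
      have h2 : ZFSet.pair a b = ZFSet.pair a'.1 b'.1 := h2
      obtain ⟨h4, h5⟩ := ZFSet.pair_inj.1 h2
      exact ⟨h1.1, h1.2, by rw [h4, h5]; exact h3⟩
    · rintro ⟨h1, h2, h3⟩
      have haM : a ∈ M := hM.trans _ p.2 _ h1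
      have hbM : b ∈ M := hM.trans _ p.2 _ h2
      refine (hE p (zpr hM ⟨a, haM⟩ ⟨b, hbM⟩)).2 ⟨?_, ⟨a, haM⟩, ⟨b, hbM⟩, rfl, h3⟩
      show ZFSet.pair a b ∈ p.1.prod p.1
      rw [ZFSet.pair_mem_prod]
      exact ⟨h1, h2⟩
  have wf : ∀ p : M, WellFounded fun a b : {d : ZFSet.{0} // d ∈ p.1} =>
      ZFSet.pair a.1 b.1 ∈ (E p).1 := by
    intro p
    refine Subrelation.wf (r := InvImage (fun a b : ZFSet.{0} => a ∈ b) Subtype.val) ?_
      (InvImage.wf _ ZFSet.mem_wf)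
    intro a b h
    exact ((hE' p a.1 b.1).1 h).2.2
  obtain ⟨ran, hrd, hran⟩ := hM.exists_ran
  obtain ⟨H, hHd, hH⟩ := recE hM (X := M) (D := fun Y => Y) DFc.id hEd wf
    (F := fun _ _ h => ran h) (hrd.comp (DFc.snd (DFc.snd DFc.id)))
  obtain ⟨hfn, hrec⟩ := hH Y
  refine ⟨H Y, hfn, ?_⟩
  intro x hx w
  have hxM : x ∈ M := hM.trans _ Y.2 _ hx
  -- the restriction
  obtain ⟨f, hfd, hf⟩ := pred_ex hM (X := M) (D := fun Y => Y) DFc.id hEd
  obtain ⟨r, -, hr⟩ := res_ex hM hfd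
  have h1 : zap hM (H Y) ⟨x, hxM⟩ = ran (r (Y, ⟨x, hxM⟩, H Y)) := by
    refine hrec ⟨x, hxM⟩ (r (Y, ⟨x, hxM⟩, H Y)) hx ?_
    intro w
    constructor
    · intro hw
      have hwM : w ∈ M := hM.trans _ (r (Y, ⟨x, hxM⟩, H Y)).2 _ hw
      obtain ⟨e, he, hz⟩ := (hr _ ⟨w, hwM⟩).1 hw
      have h2 := (hf _ _).1 he
      exact ⟨e.1, h2.1, h2.2, congrArg Subtype.val hz⟩
    · rintro ⟨e, he, hp, rfl⟩
      have heM : e ∈ M := hM.trans _ Y.2 _ he
      exact (hr _ (zpr hM ⟨e, heM⟩ (zap hM (H Y) ⟨e, heM⟩))).2 ⟨⟨e, heM⟩, (hf _ _).2 ⟨he, hp⟩, rfl⟩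
  have h2 : apZ (H Y).1 x = (ran (r (Y, ⟨x, hxM⟩, H Y))).1 := congrArg Subtype.val h1
  rw [h2]
  constructor
  · intro hw
    have hwM : w ∈ M := hM.trans _ (ran (r (Y, ⟨x, hxM⟩, H Y))).2 _ hw
    obtain ⟨y, hy⟩ := (hran _ ⟨w, hwM⟩).1 hw
    obtain ⟨e, he, hz⟩ := (hr _ (zpr hM y ⟨w, hwM⟩)).1 hy
    have h3 := (hf _ _).1 he
    have h4 : ZFSet.pair y.1 w = ZFSet.pair e.1 (apZ (H Y).1 e.1) := congrArg Subtype.val hz
    obtain ⟨h5, h6⟩ := ZFSet.pair_inj.1 h4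
    exact ⟨e.1, ((hE' _ _ _).1 h3.2).2.2, h3.1, h6⟩
  · rintro ⟨z, hz, hzY, rfl⟩
    have hzM : z ∈ M := hM.trans _ Y.2 _ hzY
    refine (hran _ (zap hM (H Y) ⟨z, hzM⟩)).2 ⟨⟨z, hzM⟩, ?_⟩
    exact (hr _ (zpr hM ⟨z, hzM⟩ (zap hM (H Y) ⟨z, hzM⟩))).2
      ⟨⟨z, hzM⟩, (hf _ _).2 ⟨hzY, (hE' _ _ _).2 ⟨hzY, hx, hz⟩⟩, rfl⟩

end RMK
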